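import Pool.Agent.T6.H85.LV.Stm

/-! Module AFF: an injective entire function is affine. -/

set_option autoImplicit false

namespace Pool.Agent.T6.H85.LV

open Complex Filter Topology Set

namespace AFF

theorem aux {H : ℂ → ℂ} (hH : Differentiable ℂ H) (hinj : Function.Injective H)
    (h0 : H 0 = 0) (hd0 : deriv H 0 ≠ 0) : ∃ a, a ≠ 0 ∧ ∀ z, H z = a * z := by
  have hne : ∀ z, z ≠ 0 → H z ≠ 0 := fun z hz h => hz (hinj (h.trans h0.symm))
  have hopen : IsOpenMap H := by
    have han : AnalyticOnNhd ℂ H univ := fun z _ => hH.analyticAt z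
    rcases han.is_constant_or_isOpenMap with ⟨w, hw⟩ | h
    · exact absurd (hinj ((hw 0).trans (hw 1).symm)) zero_ne_one
    · exact h
  obtain ⟨ε, hε, hball⟩ : ∃ ε > 0, ∀ z : ℂ, 1 ≤ ‖z‖ → ε ≤ ‖H z‖ := by
    have h1 : H '' Metric.ball 0 1 ∈ 𝓝 (H 0) :=
      (hopen _ Metric.isOpen_ball).mem_nhds (mem_image_of_mem _ (Metric.mem_ball_self one_pos))
    rw [h0] at h1
    obtain ⟨ε, hε, hb⟩ := Metric.mem_nhds_iff.1 h1
    refine ⟨ε, hε, fun z hz => ?_⟩
    by_contra hlt
    push Not at hlt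
    obtain ⟨w, hw, hwz⟩ := hb (show H z ∈ Metric.ball 0 ε by simpa using hlt)
    rw [hinj hwz] at hw
    simp at hw
    linarith
  obtain ⟨K, hK⟩ : ∃ K : ℂ → ℂ, K = fun z => (dslope H 0 z)⁻¹ := ⟨_, rfl⟩
  have hds : Differentiable ℂ (dslope H 0) := by
    rw [← differentiableOn_univ]
    exact (Complex.differentiableOn_dslope univ_mem).2 hH.differentiableOn
  have hKz : ∀ z, z ≠ 0 → K z = z * (H z)⁻¹ := by
    intro z hz
    simp only [hK]
    rw [dslope_of_ne _ hz, slope_def_field, h0]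
    simp [div_eq_mul_inv]
  have hdne : ∀ z, dslope H 0 z ≠ 0 := by
    intro z
    by_cases hz : z = 0
    · rw [hz, dslope_same]; exact hd0
    · rw [dslope_of_ne _ hz, slope_def_field, h0, sub_zero, sub_zero]
      exact div_ne_zero (hne z hz) hz
  have hKd : Differentiable ℂ K := by
    rw [hK]
    exact fun z => (hds z).inv (hdne z)
  have hKne : ∀ z, K z ≠ 0 := fun z => by
    rw [hK]
    exact inv_ne_zero (hdne z)
  -- linear growth
  have hLd : Differentiable ℂ (dslope K 0) := by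
    rw [← differentiableOn_univ]
    exact (Complex.differentiableOn_dslope univ_mem).2 hKd.differentiableOn
  have hbdd : Bornology.IsBounded (range (dslope K 0)) := by
    obtain ⟨M, hM⟩ := (isCompact_closedBall (0 : ℂ) 1).exists_bound_of_continuousOn
      hLd.continuous.continuousOn
    refine (isBounded_iff_forall_norm_le).2 ⟨max M (ε⁻¹ + ‖K 0‖), ?_⟩
    rintro _ ⟨z, rfl⟩
    rcases le_or_gt ‖z‖ 1 with hz | hz
    · exact (hM z (by simpa using hz)).trans (le_max_left _ _)
    · refine le_trans ?_ (le_max_right _ _)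
      have hz0 : z ≠ 0 := by
        rintro rfl
        simp at hz
        linarith
      have hzp : 0 < ‖z‖ := by linarith
      rw [dslope_of_ne _ hz0, slope_def_field, sub_zero, norm_div, div_le_iff₀ hzp]
      have h1 : ‖K z‖ ≤ ‖z‖ * ε⁻¹ := by
        rw [hKz z hz0, norm_mul, norm_inv]
        exact mul_le_mul_of_nonneg_left (inv_anti₀ hε (hball z hz.le)) hzp.le
      have h2 : ‖K 0‖ ≤ ‖K 0‖ * ‖z‖ := le_mul_of_one_le_right (norm_nonneg _) hz.le
      calc ‖K z - K 0‖ ≤ ‖K z‖ + ‖K 0‖ := norm_sub_le _ _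
        _ ≤ (ε⁻¹ + ‖K 0‖) * ‖z‖ := by rw [add_mul]; linarith
  have hconst : ∀ z, dslope K 0 z = dslope K 0 0 := fun z =>
    hLd.apply_eq_apply_of_bounded hbdd z 0
  obtain ⟨c, hc⟩ : ∃ c, c = dslope K 0 0 := ⟨_, rfl⟩
  have hKlin : ∀ z, K z = K 0 + c * z := by
    intro z
    by_cases hz : z = 0
    · rw [hz]; simp
    · have h1 := hconst z
      rw [← hc, dslope_of_ne _ hz, slope_def_field, sub_zero, div_eq_iff hz] at h1
      linear_combination h1
  have hc0 : c = 0 := by
    by_contra hne'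
    apply hKne (-(K 0) / c)
    rw [hKlin]
    field_simp
    ring
  refine ⟨(K 0)⁻¹, inv_ne_zero (hKne 0), fun z => ?_⟩
  by_cases hz : z = 0
  · rw [hz, h0, mul_zero]
  · have h1 := hKlin z
    rw [hc0, zero_mul, add_zero, hKz z hz] at h1
    have h2 := hne z hz
    have h3 := hKne 0
    rw [← div_eq_mul_inv, div_eq_iff h2] at h1
    rw [inv_mul_eq_div, eq_div_iff h3, mul_comm]
    exact h1.symm

end AFF

theorem aff : StmAFF := by
  intro F hF hinj
  obtain ⟨z₁, hz₁⟩ : ∃ z₁, deriv F z₁ ≠ 0 := by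
    by_contra h
    push Not at h
    have := is_const_of_deriv_eq_zero hF h 0 1
    exact zero_ne_one (hinj this)
  have h1 : Differentiable ℂ (fun z => F (z₁ + z) - F z₁) := by fun_prop
  have h2 : Function.Injective (fun z => F (z₁ + z) - F z₁) := by
    intro x y hxy
    simp only [sub_left_inj] at hxy
    exact add_left_cancel (hinj hxy)
  have h3 : deriv (fun z => F (z₁ + z) - F z₁) 0 ≠ 0 := by
    rw [deriv_sub_const, deriv_comp_const_add, add_zero]
    exact hz₁
  obtain ⟨a, ha, h⟩ := AFF.aux h1 h2 (by simp) h3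
  refine ⟨a, F z₁ - a * z₁, ha, fun z => ?_⟩
  have := h (z - z₁)
  simp only [add_sub_cancel] at this
  linear_combination this

end Pool.Agent.T6.H85.LV
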