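import Pool.Agent.T6.H85.LV.Stm

/-!
Project LV (helper85), MP_47dd70_an: module ANT.  Two opposite blocked directions of a star are
blocked at antipodal points.
-/

set_option autoImplicit false

namespace Pool.Agent.T6.H85.LV

open Complex Filter Topology Set
open scoped ComplexConjugate

namespace ANT

theorem tm_eq (v : ℂ) (hv : ‖v‖ = 1) (R : ℝ) :
    Tm (I * v) ((R : ℂ) * v) = v * ((R : ℂ) - I) / (1 - I * R) := by
  have h1 : conj v * v = 1 := by
    rw [Complex.conj_mul', hv]; simp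
  have h2 : (1 : ℂ) + conj (I * v) * ((R : ℂ) * v) = 1 - I * R := by
    rw [map_mul, Complex.conj_I]
    linear_combination (-I * R) * h1
  unfold Tm
  rw [h2]
  congr 1
  ring

theorem den_ne (R : ℝ) : (1 : ℂ) - I * R ≠ 0 := by
  intro h
  have := congrArg Complex.re h
  simp at this

theorem norm_num_den (R : ℝ) : ‖(R : ℂ) - I‖ = ‖(1 : ℂ) - I * R‖ := by
  have h1 : (1 : ℂ) - I * R = -I * ((R : ℂ) + I) := by
    have : I * I = -1 := Complex.I_mul_I
    linear_combination this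
  have h2 : (R : ℂ) - I = conj ((R : ℂ) + I) := by
    rw [map_add, Complex.conj_ofReal, Complex.conj_I]; ring
  rw [h1, norm_mul, h2, Complex.norm_conj]
  simp

theorem tm_norm (v : ℂ) (hv : ‖v‖ = 1) (R : ℝ) : ‖Tm (I * v) ((R : ℂ) * v)‖ = 1 := by
  rw [tm_eq v hv, norm_div, norm_mul, hv, one_mul, norm_num_den]
  exact div_self (norm_ne_zero_iff.mpr (den_ne R))

theorem ua_ub (c : ℂ) : ‖ua c‖ ^ 2 + ‖ub c‖ ^ 2 = 1 := by
  have hpos : (0 : ℝ) < 1 + ‖c‖ ^ 2 := by positivity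
  have hs : (√(1 + ‖c‖ ^ 2)) ^ 2 = 1 + ‖c‖ ^ 2 := Real.sq_sqrt hpos.le
  have hsp : 0 < √(1 + ‖c‖ ^ 2) := Real.sqrt_pos.mpr hpos
  unfold ua ub
  rw [norm_mul, Complex.norm_real, Real.norm_of_nonneg (by positivity)]
  have : (1 / √(1 + ‖c‖ ^ 2)) ^ 2 = 1 / (1 + ‖c‖ ^ 2) := by
    rw [div_pow, hs, one_pow]
  rw [mul_pow, this]
  field_simp

/-- the direction of a boundary point of a star -/
theorem blk_of (D : Set ℂ) (O : ℂ) (hO : ‖O‖ = 1)
    (h1 : ∀ t : ℝ, 0 ≤ t → t < 1 → (t : ℂ) * O ∈ D) (h2 : O ∉ D) : Blk D O 1 :=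
  ⟨one_pos, h1, by simpa using h2⟩

end ANT

theorem ant (hR : StmROT) (hSt : StmSTAR) (h0 : StmBLK0) (hL : StmLOC) : StmANT := by
  intro u y₁ y₂ hDev hP x D h hst v R₁ R₂ hv hb1 hb2
  have hv0 : v ≠ 0 := by
    intro h; rw [h] at hv; simp at hv
  have hD : ∀ w : ℂ, (∀ r : ℝ, w ≠ (r : ℂ) * v) → w ∈ D := by
    intro w hw
    by_contra hwD
    have hw0 : w ≠ 0 := by
      have := hw 0
      simpa using this
    have hwn : (‖w‖ : ℂ) ≠ 0 := by
      rw [Ne, Complex.ofReal_eq_zero]; exact norm_ne_zero_iff.mpr hw0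
    have e : ((‖w‖ : ℝ) : ℂ) * (w / (‖w‖ : ℂ)) = w := by
      field_simp
    obtain ⟨R, hR1, -⟩ := h0 D hst.1.1 (w / (‖w‖ : ℂ)) ‖w‖ (norm_nonneg _) (by rw [e]; exact hwD)
    have hn : ‖w / (‖w‖ : ℂ)‖ = 1 := by
      rw [norm_div, Complex.norm_real, norm_norm]
      exact div_self (norm_ne_zero_iff.mpr hw0)
    rcases hP y₁ y₂ hDev x D h hst _ v R R₁ hn hv hR1 hb1 with h1 | h1
    · apply hw ‖w‖
      rw [← h1, e]
    · apply hw (-‖w‖)
      push_cast
      rw [neg_mul, ← mul_neg, ← h1, e]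
  set w' : ℂ := I * v with hw'def
  have hI : ∀ r : ℝ, w' ≠ (r : ℂ) * v := by
    intro r hr
    have := mul_right_cancel₀ hv0 hr
    have := congrArg Complex.im this
    simp at this
  have hI' : ∀ r : ℝ, w' ≠ (r : ℂ) * (-v) := by
    intro r hr
    apply hI (-r)
    rw [hr]; push_cast; ring
  have hw'D : w' ∈ D := hD w' hI
  have hDev' := hR u y₁ y₂ (ua w') (ub w') hDev (ANT.ua_ub w')
  have hz : ro2 (ua w') (ub w') y₁ y₂ (h w') = 0 := by
    have := hst.1.2.2.2 w' hw'D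
    unfold ro2 ub ua
    rw [this]; ring
  obtain ⟨D', h', hst'⟩ := hSt u _ _ hDev' (h w') hz
  obtain ⟨a1, a2, -⟩ := hL u y₁ y₂ hDev x D h hst v R₁ hv hb1 hD w' hI D' h' hst'
  obtain ⟨b1, b2, -⟩ := hL u y₁ y₂ hDev x D h hst (-v) R₂ (by rw [norm_neg]; exact hv) hb2
    (fun w hw => hD w (fun r hr => hw (-r) (by rw [hr]; push_cast; ring))) w' hI' D' h' hst'
  have e2 : (R₂ : ℂ) * (-v) = ((-R₂ : ℝ) : ℂ) * v := by push_cast; ring
  rw [e2] at b1 b2
  have n1 := ANT.tm_norm v hv R₁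
  have n2 := ANT.tm_norm v hv (-R₂)
  have k1 := ANT.blk_of D' _ n1 a1 a2
  have k2 := ANT.blk_of D' _ n2 b1 b2
  have hpp := hP _ _ hDev' _ D' h' hst' _ _ 1 1 n1 n2 k1 k2
  rw [ANT.tm_eq v hv, ANT.tm_eq v hv] at hpp
  have d1 := ANT.den_ne R₁
  have d2 := ANT.den_ne (-R₂)
  have r1 : 0 < R₁ := hb1.1
  have r2 : 0 < R₂ := hb2.1
  rcases hpp with hpp | hpp
  · exfalso
    rw [div_eq_div_iff d1 d2, mul_assoc, mul_assoc] at hpp
    have := mul_left_cancel₀ hv0 hpp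
    have := congrArg Complex.re this
    simp at this
    linarith
  · rw [← neg_div, div_eq_div_iff d1 d2] at hpp
    have hpp2 : v * (((R₁ : ℂ) - I) * (1 - I * ((-R₂ : ℝ) : ℂ))) =
        v * (-(((-R₂ : ℝ) : ℂ) - I) * (1 - I * R₁)) := by
      linear_combination hpp
    have := mul_left_cancel₀ hv0 hpp2
    have := congrArg Complex.im this
    simp at this
    linarith

end Pool.Agent.T6.H85.LV
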