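import Pool.Agent.T6.H85.LV.LI

/-!
# Along a blocked ray the branch tends to infinity (helper94, module BLK)
-/

set_option autoImplicit false

namespace Pool.Agent.T6.H85.LV

open Complex Filter Topology Set Metric

namespace BLK

variable {u : ℂ → ℝ} {y₁ y₂ : ℂ → ℂ}

/-- a branch with values in a bounded set along a blocked ray has an extension -/
theorem extend (hD : Dev u y₁ y₂) {x : ℂ} {D : Set ℂ} {h : ℂ → ℂ} (hb : Branch y₁ y₂ x D h)
    {v : ℂ} {R r₀ δ : ℝ} {N : Set ℂ} {g : ℂ → ℂ} (hv : v ≠ 0) (hr0 : 0 ≤ r₀) (hrR : r₀ < R)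
    (hδ : (R - r₀) * ‖v‖ < δ) (hray : ∀ r : ℝ, 0 ≤ r → r < R → (r : ℂ) * v ∈ D)
    (hinj : ∀ z ∈ N, ∀ z' ∈ N, ∀ w, y₂ z = w * y₁ z → y₂ z' = w * y₁ z' → z = z')
    (hg : DifferentiableOn ℂ g (ball ((R : ℂ) * v) δ))
    (hgw : ∀ w ∈ ball ((R : ℂ) * v) δ, g w ∈ N ∧ y₂ (g w) = w * y₁ (g w))
    (hN : h ((r₀ : ℂ) * v) ∈ N) :
    ∃ (D' : Set ℂ) (h' : ℂ → ℂ), Branch y₁ y₂ x D' h' ∧ (R : ℂ) * v ∈ D' := by
  classical
  obtain ⟨⟨hDo, hD0, hDs⟩, hhd, hh0, hhe⟩ := hb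
  have hvn : 0 < ‖v‖ := norm_pos_iff.2 hv
  -- the segment
  have hseg : segment ℝ 0 ((r₀ : ℂ) * v) ⊆ D := by
    intro z hz
    rw [segment_eq_image ℝ 0] at hz
    obtain ⟨t, ht, rfl⟩ := hz
    have : (1 - t) • (0 : ℂ) + t • ((r₀ : ℂ) * v) = (t : ℂ) * ((r₀ : ℂ) * v) := by simp
    beta_reduce
    rw [this]
    exact hDs _ (hray r₀ hr0 hrR) t ht.1 ht.2
  have hcpt : IsCompact (segment ℝ 0 ((r₀ : ℂ) * v)) := by
    rw [segment_eq_image ℝ 0]
    exact isCompact_Icc.image (by fun_prop)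
  obtain ⟨η, hη, hthick⟩ := hcpt.exists_thickening_subset_open hDo hseg
  let S : Set ℂ := thickening η (segment ℝ 0 ((r₀ : ℂ) * v))
  have hSo : IsOpen S := isOpen_thickening
  have hSc : Convex ℝ S := (convex_segment _ _).thickening η
  let B : Set ℂ := ball ((R : ℂ) * v) δ
  have hdist : ∀ t : ℝ, dist ((t : ℂ) * v) ((R : ℂ) * v) = |t - R| * ‖v‖ := by
    intro t
    rw [dist_eq_norm, ← sub_mul, norm_mul, ← ofReal_sub, Complex.norm_real, Real.norm_eq_abs]
  have hr0B : (r₀ : ℂ) * v ∈ B := by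
    rw [mem_ball, hdist, abs_of_neg (by linarith)]
    linarith
  have hr0S : (r₀ : ℂ) * v ∈ S :=
    self_subset_thickening hη _ (right_mem_segment ℝ _ _)
  have hag : ∀ w ∈ S ∩ B, h w = g w := by
    refine LI.branch_uniq hD (hSc.inter (convex_ball _ _)).isPreconnected
      (hhd.continuousOn.mono fun w hw => hthick hw.1)
      (hg.continuousOn.mono fun w hw => hw.2) (fun w hw => hhe w (hthick hw.1))
      (fun w hw => (hgw w hw.2).2) (w₀ := (r₀ : ℂ) * v) ⟨hr0S, hr0B⟩ ?_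
    exact hinj _ hN _ (hgw _ hr0B).1 _ (hhe _ (hray r₀ hr0 hrR)) (hgw _ hr0B).2
  -- the new domain
  let ε : ℝ := min η (δ - (R - r₀) * ‖v‖)
  have hε : 0 < ε := lt_min hη (by linarith)
  let D' : Set ℂ := thickening ε (segment ℝ 0 ((R : ℂ) * v))
  have hD'o : IsOpen D' := isOpen_thickening
  have hD'c : Convex ℝ D' := (convex_segment _ _).thickening ε
  have h0D' : (0 : ℂ) ∈ D' := self_subset_thickening hε _ (left_mem_segment ℝ _ _)
  have hRD' : (R : ℂ) * v ∈ D' := self_subset_thickening hε _ (right_mem_segment ℝ _ _)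
  have hR : 0 < R := lt_of_le_of_lt hr0 hrR
  have hsub : ∀ w ∈ D', w ∈ S ∨ w ∈ B := by
    intro w hw
    obtain ⟨z, hz, hwz⟩ := mem_thickening_iff.1 hw
    rw [segment_eq_image ℝ 0] at hz
    obtain ⟨t, ht, rfl⟩ := hz
    have hz' : (1 - t) • (0 : ℂ) + t • ((R : ℂ) * v) = ((t * R : ℝ) : ℂ) * v := by
      simp [mul_assoc]
    beta_reduce at hwz
    rw [hz'] at hwz
    rcases le_or_gt (t * R) r₀ with hle | hgt
    · left
      refine mem_thickening_iff.2 ⟨((t * R : ℝ) : ℂ) * v, ?_, lt_of_lt_of_le hwz (min_le_left _ _)⟩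
      rw [segment_eq_image ℝ 0]
      rcases eq_or_lt_of_le hr0 with h0 | h0
      · have htR : t * R = 0 := le_antisymm (by rw [h0]; exact hle) (mul_nonneg ht.1 hR.le)
        refine ⟨0, ⟨le_rfl, zero_le_one⟩, ?_⟩
        simp [htR]
      · refine ⟨t * R / r₀, ⟨div_nonneg (mul_nonneg ht.1 hR.le) hr0, (div_le_one h0).2 hle⟩, ?_⟩
        have : (r₀ : ℂ) ≠ 0 := by exact_mod_cast h0.ne'
        simp only [smul_zero, zero_add, Complex.real_smul]
        push_cast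
        field_simp
    · right
      have h1 : t * R ≤ R := by nlinarith [ht.2]
      have h2 := hdist (t * R)
      rw [abs_of_nonpos (by linarith)] at h2
      have h3 : ε ≤ δ - (R - r₀) * ‖v‖ := min_le_right _ _
      have h4 : dist w ((R : ℂ) * v) ≤ dist w (((t * R : ℝ) : ℂ) * v) +
        dist (((t * R : ℝ) : ℂ) * v) ((R : ℂ) * v) := dist_triangle _ _ _
      rw [mem_ball]
      have h5 : -(t * R - R) * ‖v‖ ≤ (R - r₀) * ‖v‖ :=
        mul_le_mul_of_nonneg_right (by linarith) hvn.le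
      linarith
  let h' : ℂ → ℂ := fun w => if w ∈ S then h w else g w
  have h'S : ∀ w ∈ S, h' w = h w := fun w hw => if_pos hw
  have h'B : ∀ w ∈ B, h' w = g w := by
    intro w hw
    by_cases hS : w ∈ S
    · rw [h'S w hS]
      exact hag w ⟨hS, hw⟩
    · exact if_neg hS
  refine ⟨D', h', ⟨⟨hD'o, h0D', ?_⟩, ?_, ?_, ?_⟩, hRD'⟩
  · intro w hw t h0 h1
    have := hD'c h0D' hw (sub_nonneg.2 h1) h0 (by ring)
    simpa using this
  · intro w hw
    rcases hsub w hw with hS | hB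
    · have h1 : DifferentiableAt ℂ h w := (hhd w (hthick hS)).differentiableAt
        (hDo.mem_nhds (hthick hS))
      have h2 : h' =ᶠ[𝓝 w] h := by
        filter_upwards [hSo.mem_nhds hS] with z hz using h'S z hz
      exact (h1.congr_of_eventuallyEq h2).differentiableWithinAt
    · have h1 : DifferentiableAt ℂ g w := (hg w hB).differentiableAt (isOpen_ball.mem_nhds hB)
      have h2 : h' =ᶠ[𝓝 w] g := by
        filter_upwards [isOpen_ball.mem_nhds hB] with z hz using h'B z hz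
      exact (h1.congr_of_eventuallyEq h2).differentiableWithinAt
  · rw [h'S 0 (self_subset_thickening hη _ (left_mem_segment ℝ _ _)), hh0]
  · intro w hw
    rcases hsub w hw with hS | hB
    · rw [h'S w hS]
      exact hhe w (hthick hS)
    · rw [h'B w hB]
      exact (hgw w hB).2

end BLK

open BLK in
theorem blk : StmBLK := by
  intro u y₁ y₂ hD x D h hst v R hv hblk
  obtain ⟨hR, hray, hRD⟩ := hblk
  by_contra hcon
  rw [Filter.tendsto_atTop] at hcon
  push Not at hcon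
  obtain ⟨M, hM⟩ := hcon
  have hfr : ∃ᶠ r : ℝ in 𝓝[<] R, h ((r : ℂ) * v) ∈ closedBall (0 : ℂ) M := by
    refine (Filter.not_eventually.1 hM).mono fun r hr => ?_
    rw [mem_closedBall_zero_iff]
    exact (not_not.1 hr).le
  obtain ⟨z, -, hz⟩ := (isCompact_closedBall (0 : ℂ) M).exists_mapClusterPt_of_frequently hfr
  obtain ⟨U, hU, hUz⟩ := mapClusterPt_iff_ultrafilter.1 hz
  have hUR : Tendsto (fun r : ℝ => r) U (𝓝 R) := fun s hs =>
    hU (mem_nhdsWithin_of_mem_nhds hs)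
  have hev : ∀ᶠ r : ℝ in (U : Filter ℝ), 0 < r ∧ r < R := by
    refine hU ?_
    filter_upwards [Ioo_mem_nhdsLT hR] with r hr using ⟨hr.1, hr.2⟩
  have hrel : y₂ z = (R : ℂ) * v * y₁ z := by
    have t1 : Tendsto (fun r : ℝ => y₂ (h ((r : ℂ) * v))) U (𝓝 (y₂ z)) :=
      (hD.d2.continuous.tendsto z).comp hUz
    have t2 : Tendsto (fun r : ℝ => (r : ℂ) * v * y₁ (h ((r : ℂ) * v))) U
        (𝓝 ((R : ℂ) * v * y₁ z)) := by
      refine Tendsto.mul (Tendsto.mul ?_ tendsto_const_nhds) ((hD.d1.continuous.tendsto z).comp hUz)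
      exact (continuous_ofReal.tendsto R).comp hUR
    refine tendsto_nhds_unique_of_eventuallyEq t1 t2 ?_
    filter_upwards [hev] with r hr
    exact hst.1.2.2.2 _ (hray r hr.1.le hr.2)
  obtain ⟨N, hN, hzN, hinj, δ, hδ, g, hg, hg0, hgw⟩ := LI.local_F hD hrel
  have hvn : 0 < ‖v‖ := norm_pos_iff.2 hv
  have e1 : ∀ᶠ r : ℝ in (U : Filter ℝ), h ((r : ℂ) * v) ∈ N := hUz (hN.mem_nhds hzN)
  have e2 : ∀ᶠ r : ℝ in (U : Filter ℝ), (R - r) * ‖v‖ < δ := by
    have : Tendsto (fun r : ℝ => (R - r) * ‖v‖) U (𝓝 ((R - R) * ‖v‖)) :=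
      (tendsto_const_nhds.sub hUR).mul tendsto_const_nhds
    rw [sub_self, zero_mul] at this
    exact this.eventually_lt_const hδ
  obtain ⟨r₀, h1, h2, h3⟩ := (e1.and (e2.and hev)).exists
  obtain ⟨D', h', hb', hRD'⟩ := extend hD hst.1 hv h3.1.le h3.2 h2 hray hinj hg hgw h1
  exact hRD ((hst.2 D' h' hb').1 hRD')

end Pool.Agent.T6.H85.LV
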