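import Pool.Agent.T6.H85.LV.Stm

/-!
Project LV (helper85), MP_47dd70_an: module BLK0.
-/

set_option autoImplicit false

namespace Pool.Agent.T6.H85.LV

open Complex Filter Topology Set
open scoped ComplexConjugate

theorem blk0 : StmBLK0 := by
  intro D hD v r hr hrv
  obtain ⟨ho, h0, -⟩ := hD
  set S : Set ℝ := {s | 0 ≤ s ∧ (s : ℂ) * v ∉ D} with hS
  have hne : S.Nonempty := ⟨r, hr, hrv⟩
  have hbd : BddBelow S := ⟨0, fun s hs => hs.1⟩
  have hcl : IsClosed S := by
    have hc : Continuous fun s : ℝ => (s : ℂ) * v := by fun_prop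
    have h1 : IsClosed {s : ℝ | 0 ≤ s} := isClosed_Ici
    have h2 : IsClosed {s : ℝ | (s : ℂ) * v ∉ D} := (ho.isClosed_compl).preimage hc
    exact h1.inter h2
  have hmem : sInf S ∈ S := hcl.csInf_mem hne hbd
  refine ⟨sInf S, ⟨?_, ?_, hmem.2⟩, csInf_le hbd ⟨hr, hrv⟩⟩
  · rcases hmem.1.lt_or_eq with h | h
    · exact h
    · exfalso
      apply hmem.2
      rw [← h]
      simpa using h0
  · intro s hs hlt
    by_contra hc
    exact absurd (csInf_le hbd (show s ∈ S from ⟨hs, hc⟩)) (not_le.mpr hlt)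

end Pool.Agent.T6.H85.LV
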