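import Pool.Agent.T6.H85.LV.Stm

/-! Module C0: the star domain is the whole plane. -/

set_option autoImplicit false

namespace Pool.Agent.T6.H85.LV

open Complex Filter Topology Set

namespace C0

theorem ne_of_dev {u : ℂ → ℝ} {y₁ y₂ : ℂ → ℂ} (hD : Dev u y₁ y₂) {z c : ℂ}
    (h : y₂ z = c * y₁ z) : y₁ z ≠ 0 := by
  intro h0
  have h1 := hD.wr z
  rw [h, h0] at h1
  simp at h1

end C0

theorem c0 (hA : StmAFF) : StmC0 := by
  intro u y₁ y₂ hD x h hstar
  obtain ⟨-, hdiff, -, hbr⟩ := hstar.1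
  have hd : Differentiable ℂ h := differentiableOn_univ.1 hdiff
  have hinj : Function.Injective h := by
    intro w w' hww
    have h1 := hbr w (mem_univ _)
    have h2 := hbr w' (mem_univ _)
    have h3 := C0.ne_of_dev hD h1
    rw [← hww, h1] at h2
    exact mul_right_cancel₀ h3 h2
  obtain ⟨a, b, ha, hab⟩ := hA h hd hinj
  have hz : ∀ z, y₂ z = ((z - b) / a) * y₁ z := by
    intro z
    have h1 := hbr ((z - b) / a) (mem_univ _)
    have h2 : h ((z - b) / a) = z := by rw [hab]; field_simp; ring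
    rwa [h2] at h1
  have hsq : ∀ z, y₁ z ^ 2 = a := by
    intro z
    have h1 : HasDerivAt y₁ (deriv y₁ z) z := (hD.d1 z).hasDerivAt
    have h2 : HasDerivAt (fun z => ((z - b) / a) * y₁ z)
        ((1 / a) * y₁ z + ((z - b) / a) * deriv y₁ z) z := by
      have h3 : HasDerivAt (fun z : ℂ => (z - b) / a) (1 / a) z :=
        ((hasDerivAt_id z).sub_const b).div_const a
      exact h3.mul h1
    have h4 : deriv y₂ z = (1 / a) * y₁ z + ((z - b) / a) * deriv y₁ z := by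
      have h5 : y₂ = fun z => ((z - b) / a) * y₁ z := funext hz
      rw [h5]
      exact h2.deriv
    have h6 := hD.wr z
    rw [h4, hz z] at h6
    have h7 : y₁ z ^ 2 * (1 / a) = 1 := by linear_combination h6
    field_simp at h7
    exact h7
  refine ⟨b, fun r => -Real.log (‖a‖ * (1 + r ^ 2 / ‖a‖ ^ 2) / 2), fun z => ?_⟩
  have h1 : ‖y₁ z‖ ^ 2 = ‖a‖ := by rw [← norm_pow, hsq]
  have h2 : ‖y₂ z‖ ^ 2 = ‖z - b‖ ^ 2 / ‖a‖ ^ 2 * ‖a‖ := by
    rw [hz z, norm_mul, mul_pow, h1, norm_div, div_pow]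
  have h3 := hD.eq z
  rw [h1, h2] at h3
  have h4 : ‖a‖ * (1 + ‖z - b‖ ^ 2 / ‖a‖ ^ 2) / 2 = Real.exp (-(u z)) := by linarith
  simp only [h4, Real.log_exp, neg_neg]

end Pool.Agent.T6.H85.LV
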