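import Pool.Agent.T6.H85.LV.T43

/-!
Project LV (helper85), MP_47dd70_an: module C1 (helper43): two stars with one blocked direction
each: the solution is radial.
-/

set_option autoImplicit false

namespace Pool.Agent.T6.H85.LV

namespace C1x

open Complex Filter Topology Set T43
open scoped ComplexConjugate

theorem cv {v : ℂ} (hv : ‖v‖ = 1) : conj v * v = 1 := by
  rw [mul_comm, Complex.mul_conj, Complex.normSq_eq_norm_sq, hv]; norm_num

theorem mem_D {v ω : ℂ} {R : ℝ} (hv : ‖v‖ = 1) (hR : 0 < R)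
    (h : ∀ r : ℝ, R ≤ r → ω ≠ -((r : ℂ) * v)) :
    1 - conj (-v / R) * ω ≠ 0 ∧ ∀ r : ℝ, R ≤ r → Ti (-v / R) ω ≠ (r : ℂ) * v := by
  have hc := cv hv
  have hRc : (R : ℂ) ≠ 0 := by exact_mod_cast hR.ne'
  have hcw : conj (-v / (R : ℂ)) = -conj v / R := by
    rw [map_div₀, map_neg, Complex.conj_ofReal]
  have hden : 1 - conj (-v / (R : ℂ)) * ω ≠ 0 := by
    intro h0
    rw [hcw] at h0
    apply h R le_rfl
    have h0' : (R : ℂ) + conj v * ω = 0 := by
      field_simp at h0
      linear_combination h0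
    linear_combination v * h0' - ω * hc
  refine ⟨hden, fun r hr hT => ?_⟩
  rw [Ti, div_eq_iff hden, hcw] at hT
  have hT' : ((R : ℂ) - r) * ω = v * (1 + r * R) := by
    have h2 : (R : ℂ) * ω - v = r * v * (R + conj v * ω) := by
      field_simp at hT
      linear_combination hT
    linear_combination h2 + (r : ℂ) * ω * hc
  have hv0 : v ≠ 0 := by
    intro h0; rw [h0, norm_zero] at hv; exact zero_ne_one hv
  rcases eq_or_lt_of_le hr with rfl | hlt
  · rw [sub_self, zero_mul] at hT'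
    rcases mul_eq_zero.1 hT'.symm with h3 | h3
    · exact hv0 h3
    · have : (1 + R * R : ℝ) = 0 := by exact_mod_cast h3
      nlinarith
  · have hrR : (0 : ℝ) < r - R := sub_pos.2 hlt
    have hle : R ≤ (1 + r * R) / (r - R) := by
      rw [le_div_iff₀ hrR]; nlinarith
    apply h _ hle
    have hrRc : ((r : ℂ) - R) ≠ 0 := by exact_mod_cast hrR.ne'
    push_cast
    field_simp
    linear_combination -hT'

theorem mem_D' {A B ω : ℂ} (hA : A ≠ 0) (hB : B ≠ 0)
    (h : ∀ s : ℝ, 1 ≤ s → ω ≠ (s : ℂ) * (conj A / conj B)) :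
    -conj B * ω + conj A ≠ 0 ∧
      ∀ r : ℝ, 1 ≤ r → (A * ω + B) / (-conj B * ω + conj A) ≠ (r : ℂ) * (-A / conj B) := by
  have hA' : conj A ≠ 0 := by simpa using hA
  have hB' : conj B ≠ 0 := by simpa using hB
  have hden : -conj B * ω + conj A ≠ 0 := by
    intro h0
    apply h 1 le_rfl
    rw [ofReal_one, one_mul, eq_div_iff hB']
    linear_combination -h0
  refine ⟨hden, fun r hr hT => ?_⟩
  rw [div_eq_iff hden] at hT
  have hT' : A * conj B * ω * (r - 1) = B * conj B + r * (A * conj A) := by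
    field_simp at hT
    linear_combination -hT
  have hnA : A * conj A = ((normSq A : ℝ) : ℂ) := Complex.mul_conj A
  have hnB : B * conj B = ((normSq B : ℝ) : ℂ) := Complex.mul_conj B
  have pA : 0 < normSq A := Complex.normSq_pos.2 hA
  have pB : 0 < normSq B := Complex.normSq_pos.2 hB
  rcases eq_or_lt_of_le hr with rfl | hlt
  · rw [ofReal_one, sub_self, mul_zero, one_mul, hnA, hnB] at hT'
    have : normSq B + normSq A = 0 := by exact_mod_cast hT'.symm
    linarith
  · have hr1 : (0 : ℝ) < r - 1 := sub_pos.2 hlt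
    have hq : 0 < normSq A * (r - 1) := mul_pos pA hr1
    have hle : 1 ≤ (normSq B + r * normSq A) / (normSq A * (r - 1)) := by
      rw [le_div_iff₀ hq]; nlinarith
    apply h _ hle
    have hr1c : ((r : ℂ) - 1) ≠ 0 := by exact_mod_cast hr1.ne'
    have e : (((normSq B + r * normSq A) / (normSq A * (r - 1)) : ℝ) : ℂ) =
        (A * conj B * ω * (r - 1)) / ((A * conj A) * (r - 1)) := by
      rw [hT', hnA, hnB]; push_cast; ring
    rw [e]
    field_simp

theorem rot2 {w' w₀ ω a b : ℂ}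
    (hden : -conj (w₀ - w') * ω + conj (1 + w' * conj w₀) ≠ 0)
    (h : -(ub w') * a + ua w' * b =
      ((1 + w' * conj w₀) * ω + (w₀ - w')) / (-conj (w₀ - w') * ω + conj (1 + w' * conj w₀)) *
        (conj (ua w') * a + conj (ub w') * b)) :
    -(ub w₀) * a + ua w₀ * b = ω * (conj (ua w₀) * a + conj (ub w₀) * b) := by
  have hs : ∀ x : ℝ, conj ((x : ℝ) : ℂ) = (x : ℂ) := fun x => Complex.conj_ofReal x
  have hpos : ∀ c : ℂ, ((1 / √(1 + ‖c‖ ^ 2) : ℝ) : ℂ) ≠ 0 := by
    intro c
    have : (1 / √(1 + ‖c‖ ^ 2) : ℝ) ≠ 0 := by positivity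
    exact_mod_cast this
  simp only [ua, ub, map_mul, hs] at h ⊢
  have hs' := hpos w'
  generalize ((1 / √(1 + ‖w'‖ ^ 2) : ℝ) : ℂ) = s' at h hs'
  generalize ((1 / √(1 + ‖w₀‖ ^ 2) : ℝ) : ℂ) = s
  have h2 : (b - w' * a) * (-conj (w₀ - w') * ω + conj (1 + w' * conj w₀)) =
      ((1 + w' * conj w₀) * ω + (w₀ - w')) * (a + conj w' * b) := by
    have h3 : s' * ((b - w' * a) * (-conj (w₀ - w') * ω + conj (1 + w' * conj w₀))) =
        s' * (((1 + w' * conj w₀) * ω + (w₀ - w')) * (a + conj w' * b)) := by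
      have h4 : (-(s' * w') * a + s' * b) * (-conj (w₀ - w') * ω + conj (1 + w' * conj w₀)) =
          ((1 + w' * conj w₀) * ω + (w₀ - w')) * (s' * a + s' * conj w' * b) := by
        rw [h, mul_assoc, mul_comm (s' * a + s' * conj w' * b), ← mul_assoc,
          div_mul_cancel₀ _ hden]
      linear_combination h4
    exact mul_left_cancel₀ hs' h3
  simp only [map_sub, map_add, map_one, map_mul, Complex.conj_conj] at h2
  have h5 : (1 + w' * conj w') * (b * (1 - conj w₀ * ω) - a * (ω + w₀)) = 0 := by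
    linear_combination h2
  have h6 : (1 + w' * conj w') ≠ 0 := by
    rw [Complex.mul_conj]
    have : (1 + normSq w' : ℝ) ≠ 0 := by nlinarith [Complex.normSq_nonneg w']
    exact_mod_cast this
  have h7 := (mul_eq_zero.1 h5).resolve_left h6
  linear_combination s * h7

end C1x

open C1x T43 Complex Filter Topology Set in
open scoped ComplexConjugate in
theorem c1 (hT : StmTRANS) (hRot : StmROT) (hSt : StmSTAR) (h0 : StmC0) : StmC1 := by
  intro u y₁ y₂ hdev x D h hst v R hv hR hD w' hp D' h' hst' hD'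
  have hc := cv hv
  have hc' : v * conj v = 1 := by rw [mul_comm]; exact hc
  have hv0 : v ≠ 0 := by
    intro h0; rw [h0, norm_zero] at hv; exact zero_ne_one hv
  have hcv0 : conj v ≠ 0 := by simpa using hv0
  have hRc : (R : ℂ) ≠ 0 := by exact_mod_cast hR.ne'
  obtain ⟨w₀, hw₀⟩ : ∃ w₀ : ℂ, w₀ = -v / R := ⟨_, rfl⟩
  have hcw : conj w₀ = -conj v / R := by
    rw [hw₀, map_div₀, map_neg, Complex.conj_ofReal]
  obtain ⟨A, hA⟩ : ∃ A : ℂ, A = 1 + w' * conj w₀ := ⟨_, rfl⟩
  obtain ⟨B, hB⟩ : ∃ B : ℂ, B = w₀ - w' := ⟨_, rfl⟩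
  have hA0 : A ≠ 0 := by
    intro h1
    apply hp R
    rw [hA, hcw] at h1
    have h2 : (R : ℂ) - w' * conj v = 0 := by
      field_simp at h1
      linear_combination h1
    linear_combination -v * h2 - w' * hc
  have hB0 : B ≠ 0 := by
    intro h1
    apply hp (-1 / R)
    rw [hB, hw₀] at h1
    push_cast
    linear_combination -h1
  have hA0' : conj A ≠ 0 := by simpa using hA0
  have hB0' : conj B ≠ 0 := by simpa using hB0
  have hR2 : (R : ℂ) ^ 2 + 1 ≠ 0 := by
    have : (R ^ 2 + 1 : ℝ) ≠ 0 := by positivity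
    exact_mod_cast this
  -- `d` is not on the line
  have hd : ∀ t : ℝ, conj A / conj B ≠ (t : ℂ) * v := by
    intro t ht
    rw [div_eq_iff hB0'] at ht
    have h1 := congrArg conj ht
    simp only [map_mul, Complex.conj_conj, Complex.conj_ofReal] at h1
    rw [hA, hB, hw₀, ← hw₀, hcw, hw₀] at h1
    have h2 : w' * (1 - t * R) = v * (R + t) := by
      have h3 : (R : ℂ) - w' * conj v = t * conj v * (-v - w' * R) := by
        field_simp at h1
        linear_combination h1
      linear_combination (-v) * h3 + (-w' + t * v + t * R * w') * hc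
    by_cases ht1 : 1 - t * R = 0
    · have ht1' : (1 : ℂ) - t * R = 0 := by exact_mod_cast ht1
      rw [ht1', mul_zero] at h2
      rcases mul_eq_zero.1 h2.symm with h4 | h4
      · exact hv0 h4
      · have h5 : R + t = 0 := by exact_mod_cast h4
        have : t = -R := by linarith
        rw [this] at ht1
        nlinarith
    · have ht1' : (1 : ℂ) - t * R ≠ 0 := by exact_mod_cast ht1
      apply hp ((R + t) / (1 - t * R))
      push_cast
      rw [div_mul_eq_mul_div, eq_div_iff ht1']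
      linear_combination h2
  -- the point where both agree
  obtain ⟨ω', hω'⟩ : ∃ ω' : ℂ, ω' = -B / A := ⟨_, rfl⟩
  have hωl : ∀ t : ℝ, ω' ≠ (t : ℂ) * v := by
    intro t ht
    rw [hω', div_eq_iff hA0, hA, hcw, hB, hw₀] at ht
    have h2 : w' * (R + t) = v * (t * R - 1) := by
      have h3 : v + w' * R = t * v * (R - w' * conj v) := by
        field_simp at ht
        linear_combination ht
      linear_combination h3 - t * w' * hc
    by_cases ht1 : R + t = 0
    · have ht1' : (R : ℂ) + t = 0 := by exact_mod_cast ht1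
      rw [ht1', mul_zero] at h2
      rcases mul_eq_zero.1 h2.symm with h4 | h4
      · exact hv0 h4
      · have h5 : t * R - 1 = 0 := by exact_mod_cast h4
        have : t = -R := by linarith
        rw [this] at h5
        nlinarith
    · have ht1' : (R : ℂ) + t ≠ 0 := by exact_mod_cast ht1
      apply hp ((t * R - 1) / (R + t))
      push_cast
      rw [div_mul_eq_mul_div, eq_div_iff ht1']
      linear_combination h2
  -- the two domains
  set U₁ : Set ℂ := {ω | (conj v * ω).im ≠ 0 ∨ -R < (conj v * ω).re} with hU₁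
  set U₂ : Set ℂ := {ω | (ω / (conj A / conj B)).im ≠ 0 ∨ (ω / (conj A / conj B)).re < 1} with hU₂
  have hd0 : conj A / conj B ≠ 0 := div_ne_zero hA0' hB0'
  have oU₁ : IsOpen U₁ := by
    have h1 : IsOpen {ω : ℂ | (conj v * ω).im ≠ 0} :=
      isOpen_ne_fun (by fun_prop) continuous_const
    have h2 : IsOpen {ω : ℂ | -R < (conj v * ω).re} :=
      isOpen_lt continuous_const (by fun_prop)
    exact h1.union h2
  have oU₂ : IsOpen U₂ := by
    have h1 : IsOpen {ω : ℂ | (ω / (conj A / conj B)).im ≠ 0} :=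
      isOpen_ne_fun (by fun_prop) continuous_const
    have h2 : IsOpen {ω : ℂ | (ω / (conj A / conj B)).re < 1} :=
      isOpen_lt (by fun_prop) continuous_const
    exact h1.union h2
  have m₁ : ∀ ω ∈ U₁, ∀ r : ℝ, R ≤ r → ω ≠ -((r : ℂ) * v) := by
    intro ω hω r hr he
    have e : conj v * ω = ((-r : ℝ) : ℂ) := by
      rw [he]; push_cast; linear_combination -(r : ℂ) * hc
    rcases hω with h1 | h1
    · rw [e, ofReal_im] at h1; exact h1 rfl
    · rw [e, ofReal_re] at h1; linarith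
  have m₂ : ∀ ω ∈ U₂, ∀ s : ℝ, 1 ≤ s → ω ≠ (s : ℂ) * (conj A / conj B) := by
    intro ω hω s hs he
    have e : ω / (conj A / conj B) = (s : ℂ) := by
      rw [he, mul_div_assoc, div_self hd0, mul_one]
    rcases hω with h1 | h1
    · rw [e, ofReal_im] at h1; exact h1 rfl
    · rw [e, ofReal_re] at h1; linarith
  have hun : ∀ ω, ω ∈ U₁ ∨ ω ∈ U₂ := by
    intro ω
    by_contra hcon
    push Not at hcon
    obtain ⟨n1, n2⟩ := hcon
    simp only [hU₁, hU₂, mem_setOf_eq, not_or, not_not, not_lt] at n1 n2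
    obtain ⟨a1, a2⟩ := n1
    obtain ⟨b1, b2⟩ := n2
    have e1 : conj v * ω = (((conj v * ω).re : ℝ) : ℂ) := Complex.ext (by simp) (by simpa using a1)
    have e2 : ω / (conj A / conj B) = (((ω / (conj A / conj B)).re : ℝ) : ℂ) :=
      Complex.ext (by simp) (by simpa using b1)
    obtain ⟨p, hp'⟩ : ∃ p : ℝ, p = (conj v * ω).re := ⟨_, rfl⟩
    obtain ⟨q, hq'⟩ : ∃ q : ℝ, q = (ω / (conj A / conj B)).re := ⟨_, rfl⟩
    rw [← hp'] at e1 a2
    rw [← hq'] at e2 b2
    have hq0 : (q : ℂ) ≠ 0 := by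
      have : q ≠ 0 := by linarith
      exact_mod_cast this
    have e3 : ω = (p : ℂ) * v := by linear_combination v * e1 - ω * hc
    have e4 : ω = (q : ℂ) * (conj A / conj B) := by
      rw [← e2]; field_simp
    apply hd (p / q)
    have e5 : (q : ℂ) * (conj A / conj B) = (p : ℂ) * v := by rw [← e4, e3]
    push_cast
    rw [div_mul_eq_mul_div, eq_div_iff hq0]
    linear_combination e5
  have star : StarConvex ℝ (0 : ℂ) (U₁ ∩ U₂) := by
    rw [starConvex_zero_iff]
    rintro ω ⟨hω1, hω2⟩ t ht0 ht1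
    have key : ∀ (z : ℂ) (s : ℝ), 0 < s → (z.im ≠ 0 ∨ -s < z.re) →
        (((t : ℂ) * z).im ≠ 0 ∨ -s < ((t : ℂ) * z).re) := by
      intro z s hs hz
      rw [re_ofReal_mul, im_ofReal_mul]
      rcases eq_or_lt_of_le ht0 with rfl | ht0'
      · right; simpa using hs
      · rcases hz with hz | hz
        · left; exact mul_ne_zero ht0'.ne' hz
        · right
          rcases le_or_gt 0 z.re with h1 | h1
          · nlinarith
          · nlinarith
    constructor
    · have := key (conj v * ω) R hR hω1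
      have e : conj v * (t • ω) = (t : ℂ) * (conj v * ω) := by
        rw [real_smul]; ring
      show (conj v * (t • ω)).im ≠ 0 ∨ -R < (conj v * (t • ω)).re
      rw [e]; exact this
    · have h1 := key (-(ω / (conj A / conj B))) 1 one_pos (by
        rcases hω2 with h1 | h1
        · left; simpa using h1
        · right; rw [neg_re]; linarith)
      have e : (t • ω) / (conj A / conj B) = -((t : ℂ) * (-(ω / (conj A / conj B)))) := by
        rw [real_smul]; ring
      show ((t • ω) / (conj A / conj B)).im ≠ 0 ∨ ((t • ω) / (conj A / conj B)).re < 1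
      rw [e]
      rcases h1 with h1 | h1
      · left; rw [neg_im]; exact neg_ne_zero.2 h1
      · right; rw [neg_re]; linarith
  have zero₁ : (0 : ℂ) ∈ U₁ := by right; simpa using hR
  have zero₂ : (0 : ℂ) ∈ U₂ := by right; simp
  have hpre : IsPreconnected (U₁ ∩ U₂) :=
    (star.isPathConnected ⟨zero₁, zero₂⟩).isConnected.isPreconnected
  -- the rotated pair at `w₀`
  set Z₁ := ro1 (ua w₀) (ub w₀) y₁ y₂ with hZ₁
  set Z₂ := ro2 (ua w₀) (ub w₀) y₁ y₂ with hZ₂
  have hunit : ‖ua w₀‖ ^ 2 + ‖ub w₀‖ ^ 2 = 1 := by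
    have hpos : 0 < 1 + ‖w₀‖ ^ 2 := by positivity
    have e1 : ‖(((1 / √(1 + ‖w₀‖ ^ 2) : ℝ)) : ℂ)‖ = 1 / √(1 + ‖w₀‖ ^ 2) := by
      rw [Complex.norm_real, Real.norm_of_nonneg (by positivity)]
    rw [ua, ub, norm_mul, e1, mul_pow, div_pow, Real.sq_sqrt hpos.le]
    field_simp
  have hdevZ : Dev u Z₁ Z₂ := hRot u y₁ y₂ (ua w₀) (ub w₀) hdev hunit
  -- the two functions
  have F1 : ∀ ω ∈ U₁, 1 - conj w₀ * ω ≠ 0 ∧ Ti w₀ ω ∈ D := by
    intro ω hω
    have := mem_D hv hR (m₁ ω hω)
    rw [← hw₀] at this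
    rw [hD]
    exact this
  have hΩ : Tm w' ((R : ℂ) * v) = -A / conj B := by
    have hn : 1 + conj w' * ((R : ℂ) * v) ≠ 0 := by
      intro h1
      apply hp (-1 / R)
      have h2 := congrArg conj h1
      simp only [map_add, map_one, map_mul, Complex.conj_conj, Complex.conj_ofReal, map_zero] at h2
      have h3 : v + w' * R = 0 := by linear_combination v * h2 - w' * R * hc
      push_cast
      field_simp
      linear_combination h3
    rw [Tm, div_eq_div_iff hn hB0', hA, hB]
    simp only [map_sub]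
    rw [hcw]
    field_simp
    linear_combination -(R + R * w' * conj w') * hc
  have F2 : ∀ ω ∈ U₂, -conj B * ω + conj A ≠ 0 ∧
      (A * ω + B) / (-conj B * ω + conj A) ∈ D' := by
    intro ω hω
    have := mem_D' hA0 hB0 (m₂ ω hω)
    rw [hD', hΩ]
    exact this
  set h₁ : ℂ → ℂ := fun ω => h (Ti w₀ ω) with hh₁
  set h₂ : ℂ → ℂ := fun ω => h' ((A * ω + B) / (-conj B * ω + conj A)) with hh₂
  have d₁ : DifferentiableOn ℂ h₁ U₁ := by
    refine hst.1.2.1.comp ((Ti_diff w₀).mono fun ω hω => (F1 ω hω).1) fun ω hω => (F1 ω hω).2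
  have d₂ : DifferentiableOn ℂ h₂ U₂ := by
    refine hst'.1.2.1.comp (DifferentiableOn.div (by fun_prop) (by fun_prop)
      fun ω hω => (F2 ω hω).1) fun ω hω => (F2 ω hω).2
  have r₁ : ∀ ω ∈ U₁, Z₂ (h₁ ω) = ω * Z₁ (h₁ ω) := by
    intro ω hω
    exact rot_eq (F1 ω hω).1 (hst.1.2.2.2 _ (F1 ω hω).2)
  have r₂ : ∀ ω ∈ U₂, Z₂ (h₂ ω) = ω * Z₁ (h₂ ω) := by
    intro ω hω
    have h1 := hst'.1.2.2.2 _ (F2 ω hω).2
    have h2 := (F2 ω hω).1
    have h3 := h2
    rw [hA, hB] at h3
    refine rot2 (w' := w') h3 ?_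
    rw [← hA, ← hB]
    exact h1
  have hmem : ω' ∈ U₁ ∩ U₂ := by
    constructor
    · left
      intro him
      apply hωl (conj v * ω').re
      have e1 : conj v * ω' = (((conj v * ω').re : ℝ) : ℂ) :=
        Complex.ext (by simp) (by simpa using him)
      linear_combination v * e1 - ω' * hc
    · right
      have e : ω' / (conj A / conj B) = ((-(normSq B / normSq A) : ℝ) : ℂ) := by
        push_cast
        rw [← Complex.mul_conj, ← Complex.mul_conj, hω']
        field_simp
      rw [e, ofReal_re]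
      have : 0 ≤ normSq B / normSq A := div_nonneg (normSq_nonneg _) (normSq_nonneg _)
      linarith
  have hval : h₁ ω' = h₂ ω' := by
    have e1 : Ti w₀ ω' = w' := by
      have hn := (F1 ω' hmem.1).1
      rw [Ti, div_eq_iff hn, hω']
      field_simp
      rw [hA, hB]
      ring
    have e2 : (A * ω' + B) / (-conj B * ω' + conj A) = 0 := by
      have : A * ω' + B = 0 := by rw [hω']; field_simp; ring
      rw [this, zero_div]
    simp only [hh₁, hh₂]
    rw [e1, e2, hst'.1.2.2.1]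
  have hagree : ∀ ω ∈ U₁ ∩ U₂, h₁ ω = h₂ ω := by
    refine hdevZ.w1.uniq (oU₁.inter oU₂) hpre (d₁.continuousOn.mono inter_subset_left)
      (d₂.continuousOn.mono inter_subset_right) ?_ hmem hval
    intro ω hω
    rw [r₁ ω hω.1, r₂ ω hω.2]
    ring
  classical
  set K : ℂ → ℂ := fun ω => if ω ∈ U₁ then h₁ ω else h₂ ω with hK
  have K₁ : ∀ ω ∈ U₁, K ω = h₁ ω := fun ω hω => by simp only [hK, if_pos hω]
  have K₂ : ∀ ω ∈ U₂, K ω = h₂ ω := by
    intro ω hω
    by_cases hω1 : ω ∈ U₁
    · rw [K₁ ω hω1]; exact hagree ω ⟨hω1, hω⟩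
    · simp only [hK, if_neg hω1]
  have hKd : Differentiable ℂ K := by
    intro ω
    rcases hun ω with hω | hω
    · have e : K =ᶠ[𝓝 ω] h₁ := by
        filter_upwards [oU₁.mem_nhds hω] with z hz using K₁ z hz
      exact ((d₁ ω hω).differentiableAt (oU₁.mem_nhds hω)).congr_of_eventuallyEq e
    · have e : K =ᶠ[𝓝 ω] h₂ := by
        filter_upwards [oU₂.mem_nhds hω] with z hz using K₂ z hz
      exact ((d₂ ω hω).differentiableAt (oU₂.mem_nhds hω)).congr_of_eventuallyEq e
  have hKr : ∀ ω, Z₂ (K ω) = ω * Z₁ (K ω) := by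
    intro ω
    rcases hun ω with hω | hω
    · rw [K₁ ω hω]; exact r₁ ω hω
    · rw [K₂ ω hω]; exact r₂ ω hω
  have hbr : Branch Z₁ Z₂ (K 0) univ K :=
    ⟨⟨isOpen_univ, mem_univ _, fun _ _ _ _ _ => mem_univ _⟩, hKd.differentiableOn, rfl,
      fun ω _ => hKr ω⟩
  have hz : Z₂ (K 0) = 0 := by rw [hKr 0, zero_mul]
  obtain ⟨D₀, k₀, hs₀⟩ := hSt u Z₁ Z₂ hdevZ (K 0) hz
  have hD₀ : D₀ = univ := univ_subset_iff.1 (hs₀.2 _ _ hbr).1
  subst hD₀
  exact h0 u Z₁ Z₂ hdevZ (K 0) k₀ hs₀

end Pool.Agent.T6.H85.LV
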