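import Pool.Agent.T6.H85.LV.T43

/-!
Project LV (helper85), MP_47dd70_an: module C2B (helper43): in the strip every point has two
opposite blocked directions.
-/

set_option autoImplicit false

namespace Pool.Agent.T6.H85.LV

namespace C2Bx

open Complex Filter Topology Set T43
open scoped ComplexConjugate

/-- a local inverse of `-P₁ / P₂` near a zero of `P₁` -/
theorem loc_inv {P₁ P₂ : ℂ → ℂ} (h : W1 P₁ P₂) {z : ℂ} (hz : P₁ z = 0) :
    ∃ (δ : ℝ) (G : ℂ → ℂ), 0 < δ ∧ ContinuousOn G (Metric.ball 0 δ) ∧ G 0 = z ∧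
      (∀ y ∈ Metric.ball (0 : ℂ) δ, P₁ (G y) = -y * P₂ (G y)) ∧
      ∀ᶠ x in 𝓝 z, P₂ x ≠ 0 ∧ G (-P₁ x / P₂ x) = x := by
  have hz2 : P₂ z ≠ 0 := by
    rcases h.ne z with h1 | h1
    · exact absurd hz h1
    · exact h1
  have hs := h.swap.strict hz2
  have hne : (1 : ℂ) / P₂ z ^ 2 ≠ 0 := one_div_ne_zero (pow_ne_zero 2 hz2)
  have hs' := hs.hasStrictFDerivAt_equiv hne
  set e := hs'.toOpenPartialHomeomorph with he
  have hcoe : ∀ x, e x = -P₁ x / P₂ x := fun x => by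
    rw [he, hs'.toOpenPartialHomeomorph_coe]
  have hsrc : z ∈ e.source := hs'.mem_toOpenPartialHomeomorph_source
  have he0 : e z = 0 := by rw [hcoe, hz]; simp
  have htgt : (0 : ℂ) ∈ e.target := by rw [← he0]; exact e.map_source hsrc
  have hG0 : e.symm 0 = z := by rw [← he0]; exact e.left_inv hsrc
  have hcont : ContinuousOn e.symm e.target := e.continuousOn_symm
  have hev : ∀ᶠ y in 𝓝 (0 : ℂ), y ∈ e.target ∧ P₂ (e.symm y) ≠ 0 := by
    refine (e.open_target.mem_nhds htgt |> fun h => h : ∀ᶠ y in 𝓝 (0 : ℂ), y ∈ e.target).and ?_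
    have hc : ContinuousAt (fun y => P₂ (e.symm y)) 0 :=
      ContinuousAt.comp (h.d2.continuous.continuousAt)
        (hcont.continuousAt (e.open_target.mem_nhds htgt))
    refine hc.eventually_ne ?_
    rw [hG0]; exact hz2
  obtain ⟨δ, hδ, hball⟩ := Metric.eventually_nhds_iff_ball.1 hev
  refine ⟨δ, e.symm, hδ, hcont.mono fun y hy => (hball y hy).1, hG0, ?_, ?_⟩
  · intro y hy
    obtain ⟨h1, h2⟩ := hball y hy
    have h3 := e.right_inv h1
    rw [hcoe, div_eq_iff h2] at h3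
    linear_combination -h3
  · have h1 : ∀ᶠ x in 𝓝 z, P₂ x ≠ 0 := h.d2.continuous.continuousAt.eventually_ne hz2
    have h2 : ∀ᶠ x in 𝓝 z, x ∈ e.source := e.open_source.mem_nhds hsrc
    filter_upwards [h1, h2] with x hx1 hx2
    refine ⟨hx1, ?_⟩
    rw [← hcoe]
    exact e.left_inv hx2

/-- if one line of the strip converges at the end `σ ∞` then so does the central line -/
theorem esc {P₁ P₂ : ℂ → ℂ} (h : W1 P₁ P₂) {c ζ₀ ζ₁ z : ℂ} (hc : ‖c‖ = 1) {σ : ℝ}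
    (hσ : σ = 1 ∨ σ = -1) {k : ℂ → ℂ}
    (hk : ContinuousOn k {ζ : ℂ | |(ζ - ζ₀).im| < Real.pi})
    (hr : ∀ ζ : ℂ, |(ζ - ζ₀).im| < Real.pi → P₁ (k ζ) = c * exp (-(σ : ℂ) * ζ) * P₂ (k ζ))
    (h1 : |(ζ₁ - ζ₀).im| < Real.pi)
    (hlim : Tendsto (fun t : ℝ => k (ζ₁ + (σ : ℂ) * t)) atTop (𝓝 z)) :
    Tendsto (fun t : ℝ => k (ζ₀ + (σ : ℂ) * t)) atTop (𝓝 z) := by
  have hσ2 : σ * σ = 1 := by rcases hσ with rfl | rfl <;> norm_num
  have hσ2c : (σ : ℂ) * σ = 1 := by exact_mod_cast hσ2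
  have him : ∀ (ζ : ℂ) (t : ℝ), (ζ + (σ : ℂ) * t - ζ₀).im = (ζ - ζ₀).im := by
    intro ζ t
    rw [← ofReal_mul, sub_im, add_im, ofReal_im, add_zero, sub_im]
  have hexp : ∀ ζ : ℂ, Tendsto (fun t : ℝ => c * exp (-(σ : ℂ) * (ζ + (σ : ℂ) * t))) atTop (𝓝 0) := by
    intro ζ
    have e : ∀ t : ℝ, c * exp (-(σ : ℂ) * (ζ + (σ : ℂ) * t)) =
        c * exp (-(σ : ℂ) * ζ) * ((Real.exp (-t) : ℝ) : ℂ) := by
      intro t
      rw [ofReal_exp, mul_assoc, ← exp_add]
      congr 2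
      push_cast
      linear_combination -(t : ℂ) * hσ2c
    simp_rw [e]
    have h2 : Tendsto (fun t : ℝ => ((Real.exp (-t) : ℝ) : ℂ)) atTop (𝓝 ((0 : ℝ) : ℂ)) :=
      (continuous_ofReal.tendsto 0).comp (Real.tendsto_exp_neg_atTop_nhds_zero)
    have h3 := h2.const_mul (c * exp (-(σ : ℂ) * ζ))
    simpa using h3
  have hz : P₁ z = 0 := by
    have l1 : Tendsto (fun t : ℝ => P₁ (k (ζ₁ + (σ : ℂ) * t))) atTop (𝓝 (P₁ z)) :=
      (h.d1.continuous.tendsto z).comp hlim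
    have l2 : Tendsto (fun t : ℝ => P₂ (k (ζ₁ + (σ : ℂ) * t))) atTop (𝓝 (P₂ z)) :=
      (h.d2.continuous.tendsto z).comp hlim
    have l3 := (hexp ζ₁).mul l2
    rw [zero_mul] at l3
    refine tendsto_nhds_unique l1 (l3.congr fun t => ?_)
    rw [hr _ (by rw [him]; exact h1)]
  obtain ⟨δ, G, hδ, hG, hG0, hGr, hGi⟩ := loc_inv h hz
  -- the half strip
  set T : ℝ := -Real.log δ with hT
  set H : Set ℂ := {ζ : ℂ | |(ζ - ζ₀).im| < Real.pi ∧ T < σ * ζ.re} with hH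
  have hHo : IsOpen H := by
    have o1 : IsOpen {ζ : ℂ | |(ζ - ζ₀).im| < Real.pi} :=
      isOpen_lt (by fun_prop) continuous_const
    have o2 : IsOpen {ζ : ℂ | T < σ * ζ.re} := isOpen_lt continuous_const (by fun_prop)
    exact o1.inter o2
  have hHc : Convex ℝ H := by
    intro a ha b hb p q hp hq hpq
    obtain ⟨ha1, ha2⟩ := ha
    obtain ⟨hb1, hb2⟩ := hb
    have e1 : (p • a + q • b - ζ₀).im = p * (a - ζ₀).im + q * (b - ζ₀).im := by
      simp only [sub_im, add_im, real_smul, im_ofReal_mul]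
      linear_combination (ζ₀.im) * hpq
    have e2 : (p • a + q • b).re = p * a.re + q * b.re := by
      simp only [add_re, real_smul, re_ofReal_mul]
    refine ⟨?_, ?_⟩
    · rw [e1, abs_lt]
      rw [abs_lt] at ha1 hb1
      constructor
      · rcases eq_or_lt_of_le hp with rfl | hp'
        · rw [zero_add] at hpq; rw [hpq]; linarith
        · nlinarith
      · rcases eq_or_lt_of_le hp with rfl | hp'
        · rw [zero_add] at hpq; rw [hpq]; linarith
        · nlinarith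
    · rw [e2]
      have e3 : σ * (p * a.re + q * b.re) = p * (σ * a.re) + q * (σ * b.re) := by ring
      have e4 : T = p * T + q * T := by rw [← add_mul, hpq, one_mul]
      rw [e3]
      rcases eq_or_lt_of_le hp with rfl | hp'
      · rw [zero_add] at hpq; rw [hpq]; linarith
      · have i1 := mul_lt_mul_of_pos_left ha2 hp'
        have i2 := mul_le_mul_of_nonneg_left hb2.le hq
        linarith
  have hnorm : ∀ ζ : ℂ, ‖c * exp (-(σ : ℂ) * ζ)‖ = Real.exp (-(σ * ζ.re)) := by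
    intro ζ
    rw [norm_mul, hc, one_mul, norm_exp]
    congr 1
    rw [← ofReal_neg, re_ofReal_mul]; ring
  have hball : ∀ ζ ∈ H, -(c * exp (-(σ : ℂ) * ζ)) ∈ Metric.ball (0 : ℂ) δ := by
    intro ζ hζ
    rw [mem_ball_zero_iff, norm_neg, hnorm, ← Real.exp_log hδ, Real.exp_lt_exp]
    have := hζ.2
    linarith
  set k' : ℂ → ℂ := fun ζ => G (-(c * exp (-(σ : ℂ) * ζ))) with hk'
  have hk'c : ContinuousOn k' H :=
    hG.comp (by fun_prop) fun ζ hζ => hball ζ hζ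
  have hk'r : ∀ ζ ∈ H, P₁ (k' ζ) = c * exp (-(σ : ℂ) * ζ) * P₂ (k' ζ) := by
    intro ζ hζ
    have := hGr _ (hball ζ hζ)
    rw [neg_neg] at this
    exact this
  have hin : ∀ ζ : ℂ, |(ζ - ζ₀).im| < Real.pi → ∀ᶠ t : ℝ in atTop, ζ + (σ : ℂ) * t ∈ H := by
    intro ζ hζ
    filter_upwards [eventually_gt_atTop (T - σ * ζ.re)] with t ht
    refine ⟨by rw [him]; exact hζ, ?_⟩
    rw [← ofReal_mul, add_re, ofReal_re, mul_add, ← mul_assoc, hσ2, one_mul]
    linarith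
  -- agreement at one point
  obtain ⟨t₁, ht1, ht2⟩ : ∃ t : ℝ, ζ₁ + (σ : ℂ) * t ∈ H ∧
      k (ζ₁ + (σ : ℂ) * t) = k' (ζ₁ + (σ : ℂ) * t) := by
    obtain ⟨t, ht1, ht2, ht3⟩ := ((hin ζ₁ h1).and (hlim.eventually hGi)).exists
    refine ⟨t, ht1, ?_⟩
    have e := hr _ ht1.1
    have e5 : -P₁ (k (ζ₁ + (σ : ℂ) * t)) / P₂ (k (ζ₁ + (σ : ℂ) * t)) =
        -(c * exp (-(σ : ℂ) * (ζ₁ + (σ : ℂ) * t))) := by
      rw [div_eq_iff ht2, e]
      ring
    rw [e5] at ht3
    exact ht3.symm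
  have hag : ∀ ζ ∈ H, k ζ = k' ζ := by
    refine h.uniq hHo hHc.isPreconnected (hk.mono fun ζ hζ => hζ.1) hk'c ?_ ht1 ht2
    intro ζ hζ
    rw [hr ζ hζ.1, hk'r ζ hζ]
    ring
  have hl : Tendsto (fun t : ℝ => k' (ζ₀ + (σ : ℂ) * t)) atTop (𝓝 z) := by
    have h2 := (hexp ζ₀).neg
    rw [neg_zero] at h2
    have h3 : Tendsto G (𝓝 0) (𝓝 z) := by
      have := hG.continuousAt (Metric.ball_mem_nhds (0 : ℂ) hδ)
      rw [ContinuousAt, hG0] at this
      exact this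
    exact h3.comp h2
  refine hl.congr' ?_
  filter_upwards [hin ζ₀ (by simpa using Real.pi_pos)] with t ht
  exact (hag _ ht).symm

end C2Bx

open C2Bx T43 Complex Filter Topology Set in
open scoped ComplexConjugate in
theorem c2b : StmC2B := by
  intro u Z₁ Z₂ hdev z ζ₀ k hk ζ₁ h1 D h hst
  obtain ⟨hkd, hk0, hkr, hktop, hkbot⟩ := hk
  have hW := hdev.w1
  -- the slit plane
  set Sl : Set ℂ := {s | s * exp (-ζ₀) ∈ slitPlane} with hSl
  set g : ℂ → ℂ := fun s => k (ζ₀ + log (s * exp (-ζ₀))) with hg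
  have oSl : IsOpen Sl := isOpen_slitPlane.preimage (by fun_prop)
  have hlog : ∀ s ∈ Sl, |(ζ₀ + log (s * exp (-ζ₀)) - ζ₀).im| < Real.pi := by
    intro s hs
    rw [add_sub_cancel_left, log_im, abs_lt]
    exact ⟨neg_pi_lt_arg _, lt_of_le_of_ne (arg_le_pi _) (mem_slitPlane_iff_arg.1 hs).1⟩
  have hexpS : ∀ ζ : ℂ, |(ζ - ζ₀).im| < Real.pi → exp ζ ∈ Sl ∧ g (exp ζ) = k ζ := by
    intro ζ hζ
    have e : exp ζ * exp (-ζ₀) = exp (ζ - ζ₀) := by rw [← exp_add, sub_eq_add_neg]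
    rw [abs_lt] at hζ
    have hl : log (exp (ζ - ζ₀)) = ζ - ζ₀ := log_exp hζ.1 hζ.2.le
    refine ⟨?_, ?_⟩
    · show exp ζ * exp (-ζ₀) ∈ slitPlane
      rw [e, mem_slitPlane_iff_arg]
      refine ⟨?_, exp_ne_zero _⟩
      rw [← log_im, hl]
      exact hζ.2.ne
    · simp only [hg]
      rw [e, hl]
      congr 1
      ring
  have hgd : DifferentiableOn ℂ g Sl := by
    refine hkd.comp ?_ fun s hs => hlog s hs
    intro s hs
    have h0 : DifferentiableAt ℂ (fun s : ℂ => s * exp (-ζ₀)) s := by fun_prop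
    have : DifferentiableAt ℂ (fun s => ζ₀ + log (s * exp (-ζ₀))) s :=
      (h0.clog hs).const_add ζ₀
    exact this.differentiableWithinAt
  have hgr : ∀ s ∈ Sl, Z₂ (g s) = s * Z₁ (g s) := by
    intro s hs
    have h2 := hkr _ (hlog s hs)
    have hne : s * exp (-ζ₀) ≠ 0 := (mem_slitPlane_iff_arg.1 hs).2
    have e : exp (ζ₀ + log (s * exp (-ζ₀))) = s := by
      rw [exp_add, exp_log hne, mul_comm, mul_assoc, ← exp_add]
      simp
    rw [e] at h2
    exact h2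
  have hb := branch_trans Z₁ Z₂ oSl hgd hgr (hexpS ζ₁ h1).1
  rw [(hexpS ζ₁ h1).2] at hb
  obtain ⟨hsub, heq⟩ := hst.2 _ _ hb
  -- coordinates
  obtain ⟨m, hm⟩ : ∃ m : ℝ, m = Real.exp ζ₁.re := ⟨_, rfl⟩
  obtain ⟨v, hv⟩ : ∃ v : ℂ, v = exp (ζ₁.im * I) := ⟨_, rfl⟩
  have hm0 : 0 < m := by rw [hm]; exact Real.exp_pos _
  have hs1 : exp ζ₁ = (m : ℂ) * v := by
    rw [hm, hv, ofReal_exp, ← exp_add, re_add_im]
  have hvn : ‖v‖ = 1 := by rw [hv]; exact norm_exp_ofReal_mul_I _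
  have hcv : conj v * v = 1 := by
    rw [mul_comm, Complex.mul_conj, Complex.normSq_eq_norm_sq, hvn]; norm_num
  have hcs : conj (exp ζ₁) = (m : ℂ) * conj v := by rw [hs1, map_mul, conj_ofReal]
  have hpos : ∀ ρ : ℝ, 0 < ρ → ∃ t : ℝ, (ρ : ℂ) * v = exp (ζ₁ + t) := by
    intro ρ hρ
    refine ⟨Real.log (ρ / m), ?_⟩
    rw [exp_add, hs1, ← ofReal_exp, Real.exp_log (div_pos hρ hm0)]
    have : (m : ℂ) ≠ 0 := by exact_mod_cast hm0.ne'
    push_cast
    field_simp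
  have hline : ∀ t : ℝ, |(ζ₁ + t - ζ₀).im| < Real.pi := by
    intro t
    have : (ζ₁ + t - ζ₀).im = (ζ₁ - ζ₀).im := by
      rw [sub_im, add_im, ofReal_im, add_zero, sub_im]
    rw [this]; exact h1
  have hmem : ∀ r : ℝ, -m < r → r < 1 / m → (r : ℂ) * v ∈ Dtr (exp ζ₁) Sl := by
    intro r hr1 hr2 t ht0 ht1
    have hrm : r * m < 1 := by rwa [lt_div_iff₀ hm0] at hr2
    have q1 : 0 < 1 - m * (t * r) := by
      rcases le_or_gt 0 r with h3 | h3
      · have : t * r ≤ r := by nlinarith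
        nlinarith
      · have : t * r ≤ 0 := by nlinarith
        nlinarith
    have q2 : 0 < t * r + m := by
      rcases le_or_gt 0 r with h3 | h3
      · have : 0 ≤ t * r := mul_nonneg ht0 h3
        linarith
      · have : r ≤ t * r := by nlinarith
        linarith
    have e1 : 1 - conj (exp ζ₁) * ((t : ℂ) * ((r : ℂ) * v)) = ((1 - m * (t * r) : ℝ) : ℂ) := by
      rw [hcs]; push_cast; linear_combination -((m : ℂ) * t * r) * hcv
    have e1' : ((1 - m * (t * r) : ℝ) : ℂ) ≠ 0 := by exact_mod_cast q1.ne'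
    have e2 : Ti (exp ζ₁) ((t : ℂ) * ((r : ℂ) * v)) =
        (((t * r + m) / (1 - m * (t * r)) : ℝ) : ℂ) * v := by
      rw [Ti, e1, hs1, div_eq_iff e1']
      rw [ofReal_div, div_mul_eq_mul_div, div_mul_cancel₀ _ e1']
      push_cast
      ring
    obtain ⟨t', ht'⟩ := hpos _ (div_pos q2 q1)
    rw [e1, e2, ht']
    exact ⟨e1', (hexpS _ (hline t')).1⟩
  -- the central line in the coordinates of the star
  set r : ℝ → ℝ := fun t => m * (Real.exp t - 1) / (1 + m ^ 2 * Real.exp t) with hr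
  have hden : ∀ t : ℝ, 0 < 1 + m ^ 2 * Real.exp t := fun t => by positivity
  have hrb : ∀ t, -m < r t ∧ r t < 1 / m := by
    intro t
    have hE := Real.exp_pos t
    constructor
    · rw [hr]; simp only
      rw [lt_div_iff₀ (hden t)]
      nlinarith [mul_pos hm0 hE, mul_pos (pow_pos hm0 3) hE]
    · rw [hr]; simp only
      rw [div_lt_div_iff₀ (hden t) hm0]
      nlinarith [mul_pos hm0 hE, pow_pos hm0 2]
  have hkh : ∀ t : ℝ, k (ζ₁ + t) = h ((r t : ℂ) * v) := by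
    intro t
    have hd := hmem (r t) (hrb t).1 (hrb t).2
    rw [← heq _ hd, ← (hexpS _ (hline t)).2]
    congr 1
    have hdd := (Dtr_self hd).1
    have e1 : 1 - conj (exp ζ₁) * ((r t : ℂ) * v) = ((1 - m * r t : ℝ) : ℂ) := by
      rw [hcs]; push_cast; linear_combination -((m : ℂ) * r t) * hcv
    rw [e1] at hdd
    rw [Ti, e1, eq_div_iff hdd, exp_add, hs1, ← ofReal_exp]
    have e2 : m * Real.exp t * (1 - m * r t) = r t + m := by
      rw [hr]; simp only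
      have := (hden t).ne'
      field_simp
      ring
    have e3 : (m : ℂ) * (Real.exp t : ℝ) * ((1 - m * r t : ℝ) : ℂ) = (r t : ℂ) + m := by
      exact_mod_cast e2
    linear_combination v * e3
  have hrtop : Tendsto r atTop (𝓝 (1 / m)) := by
    have e : ∀ t, r t = m * (1 - Real.exp (-t)) / (Real.exp (-t) + m ^ 2) := by
      intro t
      rw [hr]; simp only
      rw [Real.exp_neg]
      have h3 := (Real.exp_pos t).ne'
      have h4 := (hden t).ne'
      have h5 : 1 + Real.exp t * m ^ 2 ≠ 0 := by rwa [mul_comm] at h4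
      field_simp
    have h3 : Tendsto (fun t : ℝ => Real.exp (-t)) atTop (𝓝 0) :=
      Real.tendsto_exp_neg_atTop_nhds_zero
    have h4 : Tendsto (fun t : ℝ => m * (1 - Real.exp (-t)) / (Real.exp (-t) + m ^ 2)) atTop
        (𝓝 (m * (1 - 0) / (0 + m ^ 2))) :=
      ((h3.const_sub 1).const_mul m).div (h3.add_const _) (by positivity)
    have e5 : m * (1 - 0) / (0 + m ^ 2) = 1 / m := by field_simp; ring
    rw [e5] at h4
    exact h4.congr fun t => (e t).symm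
  have hrbot : Tendsto (fun t => r (-t)) atTop (𝓝 (-m)) := by
    have h3 : Tendsto (fun t : ℝ => Real.exp (-t)) atTop (𝓝 0) :=
      Real.tendsto_exp_neg_atTop_nhds_zero
    have h4 : Tendsto (fun t : ℝ => m * (Real.exp (-t) - 1) / (1 + m ^ 2 * Real.exp (-t))) atTop
        (𝓝 (m * (0 - 1) / (1 + m ^ 2 * 0))) :=
      ((h3.sub_const 1).const_mul m).div ((h3.const_mul _).const_add _) (by norm_num)
    have e5 : m * (0 - 1) / (1 + m ^ 2 * 0) = -m := by ring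
    rw [e5] at h4
    exact h4
  have hcont : ∀ p ∈ D, ContinuousAt h p := fun p hp =>
    (hst.1.2.1.continuousOn).continuousAt (hst.1.1.1.mem_nhds hp)
  have hout₁ : ((1 / m : ℝ) : ℂ) * v ∉ D := by
    intro hin
    have l1 : Tendsto (fun t : ℝ => ((r t : ℝ) : ℂ) * v) atTop (𝓝 (((1 / m : ℝ) : ℂ) * v)) :=
      ((continuous_ofReal.tendsto _).comp hrtop).mul_const v
    have l2 : Tendsto (fun t : ℝ => k (ζ₁ + t)) atTop (𝓝 (h (((1 / m : ℝ) : ℂ) * v))) :=
      ((hcont _ hin).tendsto.comp l1).congr fun t => (hkh t).symm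
    have l3 := esc (P₁ := Z₁) (P₂ := Z₂) hW (c := 1) (ζ₀ := ζ₀) (ζ₁ := ζ₁)
      (z := h (((1 / m : ℝ) : ℂ) * v)) norm_one (σ := 1) (Or.inl rfl) (k := k) hkd.continuousOn
      (fun ζ hζ => by
        rw [hkr ζ hζ, ofReal_one, one_mul, neg_one_mul, ← mul_assoc, ← exp_add]
        simp) h1 (by simpa using l2)
    have l4 : Tendsto (fun t : ℝ => k (ζ₀ + t)) atTop (𝓝 (h (((1 / m : ℝ) : ℂ) * v))) := by
      simpa using l3
    exact not_tendsto_nhds_of_tendsto_atTop hktop _ l4.norm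
  have hout₂ : ((-m : ℝ) : ℂ) * v ∉ D := by
    intro hin
    have l1 : Tendsto (fun t : ℝ => ((r (-t) : ℝ) : ℂ) * v) atTop (𝓝 (((-m : ℝ) : ℂ) * v)) :=
      ((continuous_ofReal.tendsto _).comp hrbot).mul_const v
    have l2 : Tendsto (fun t : ℝ => k (ζ₁ + ((-t : ℝ) : ℂ))) atTop
        (𝓝 (h (((-m : ℝ) : ℂ) * v))) :=
      ((hcont _ hin).tendsto.comp l1).congr fun t => (hkh (-t)).symm
    have l3 := esc (P₁ := Z₂) (P₂ := fun z => -Z₁ z) hW.swap (c := -1) (ζ₀ := ζ₀) (ζ₁ := ζ₁)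
      (z := h (((-m : ℝ) : ℂ) * v)) (by simp) (σ := -1) (Or.inr rfl) (k := k) hkd.continuousOn
      (fun ζ hζ => by
        rw [hkr ζ hζ]
        push_cast
        rw [neg_neg, one_mul]
        ring) h1 (by
          refine l2.congr fun t => ?_
          congr 1
          push_cast
          ring)
    have l4 : Tendsto (fun t : ℝ => k (ζ₀ + ((-t : ℝ) : ℂ))) atTop
        (𝓝 (h (((-m : ℝ) : ℂ) * v))) := by
      refine l3.congr fun t => ?_
      congr 1
      push_cast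
      ring
    have l5 : Tendsto (fun t : ℝ => ‖k (ζ₀ + ((-t : ℝ) : ℂ))‖) atTop atTop :=
      hkbot.comp tendsto_neg_atTop_atBot
    exact not_tendsto_nhds_of_tendsto_atTop l5 _ l4.norm
  have hexpm : Real.exp (-ζ₁.re) = 1 / m := by rw [hm, Real.exp_neg, one_div]
  rw [← hv, ← hm, hexpm]
  refine ⟨⟨by positivity, fun q hq0 hq1 => hsub (hmem q (by linarith) hq1), hout₁⟩,
    ⟨hm0, fun q hq0 hq1 => ?_, ?_⟩⟩
  · have := hsub (hmem (-q) (by linarith)
      (lt_of_le_of_lt (neg_nonpos.2 hq0) (by positivity : (0 : ℝ) < 1 / m)))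
    have e : (q : ℂ) * -v = ((-q : ℝ) : ℂ) * v := by push_cast; ring
    rw [e]; exact this
  · have e : (m : ℂ) * -v = ((-m : ℝ) : ℂ) * v := by push_cast; ring
    rw [e]; exact hout₂

end Pool.Agent.T6.H85.LV
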