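import Pool.Agent.T6.H85.LV.C2U

/-!
Project LV (helper85): module C2C.
-/

set_option autoImplicit false

namespace Pool.Agent.T6.H85.LV.C2C

open Complex Filter Topology Set Pool.Agent.T6.H85.LV.C2U

variable {u : ℂ → ℝ} {Z₁ Z₂ : ℂ → ℂ}

/-- the horizontal strip -/
def st (ζ₀ : ℂ) (H : ℝ) : Set ℂ := {ζ : ℂ | |(ζ - ζ₀).im| < H}

theorem st_open (ζ₀ : ℂ) (H : ℝ) : IsOpen (st ζ₀ H) := by
  have h : Continuous fun ζ : ℂ => |(ζ - ζ₀).im| := by fun_prop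
  exact isOpen_lt h continuous_const

theorem st_convex (ζ₀ : ℂ) (H : ℝ) : Convex ℝ (st ζ₀ H) := by
  have h : st ζ₀ H = {ζ : ℂ | ζ.im < H + ζ₀.im} ∩ {ζ : ℂ | ζ₀.im - H < ζ.im} := by
    ext ζ
    simp only [st, mem_setOf_eq, mem_inter_iff, sub_im, abs_lt]
    constructor
    · rintro ⟨h1, h2⟩
      constructor <;> linarith
    · rintro ⟨h1, h2⟩
      constructor <;> linarith
  rw [h]
  exact (convex_halfSpace_im_lt _).inter (convex_halfSpace_im_gt _)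

/-- the extension to the strip of half width `H` -/
def Ext (Z₁ Z₂ : ℂ → ℂ) (z ζ₀ : ℂ) (H : ℝ) (K : ℂ → ℂ) : Prop :=
  DifferentiableOn ℂ K (st ζ₀ H) ∧ K ζ₀ = z ∧ ∀ ζ ∈ st ζ₀ H, ∃ k', Strip Z₁ Z₂ (K ζ) ζ k'

theorem Ext.eqn {z ζ₀ : ℂ} {H : ℝ} {K : ℂ → ℂ} (h : Ext Z₁ Z₂ z ζ₀ H K) :
    ∀ ζ ∈ st ζ₀ H, Z₂ (K ζ) = exp ζ * Z₁ (K ζ) := by
  intro ζ hζ
  obtain ⟨k', h1, h2, h3, h4⟩ := h.2.2 ζ hζ
  have h5 := h3 ζ (by simp [Real.pi_pos])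
  rw [h2] at h5
  exact h5

theorem ext_base (hstep : StepProp Z₁ Z₂) {z ζ₀ : ℂ} {k : ℂ → ℂ} (h : Strip Z₁ Z₂ z ζ₀ k) :
    Ext Z₁ Z₂ z ζ₀ Real.pi k :=
  ⟨h.1, h.2.1, fun ζ hζ => hstep z ζ₀ k h ζ hζ⟩

theorem self_mem {ζ₀ : ℂ} {H : ℝ} (hH : 0 < H) : ζ₀ ∈ st ζ₀ H := by
  simp [st, hH]

/-- uniqueness -/
theorem ext_uniq (hd : Dev u Z₁ Z₂) {z ζ₀ : ℂ} {H H' : ℝ} {K K' : ℂ → ℂ}
    (h : Ext Z₁ Z₂ z ζ₀ H K) (h' : Ext Z₁ Z₂ z ζ₀ H' K') (hH : 0 < H) (hH' : 0 < H') :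
    ∀ ζ ∈ st ζ₀ H ∩ st ζ₀ H', K ζ = K' ζ := by
  apply uniq (W := exp) hd (((st_convex ζ₀ H).inter (st_convex ζ₀ H')).isPreconnected)
    (h.1.continuousOn.mono inter_subset_left) (h'.1.continuousOn.mono inter_subset_right)
    (fun a ha => h.eqn a ha.1) (fun a ha => h'.eqn a ha.2) ⟨self_mem hH, self_mem hH'⟩
  rw [h.2.1, h'.2.1]

/-- uniqueness against a strip -/
theorem strip_uniq (hd : Dev u Z₁ Z₂) {z ζ₀ ζ₁ : ℂ} {H : ℝ} {K k' : ℂ → ℂ}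
    (h : Ext Z₁ Z₂ z ζ₀ H K) (h1 : ζ₁ ∈ st ζ₀ H) (h' : Strip Z₁ Z₂ (K ζ₁) ζ₁ k') :
    ∀ ζ ∈ st ζ₀ H ∩ st ζ₁ Real.pi, K ζ = k' ζ := by
  apply uniq (W := exp) hd (((st_convex ζ₀ H).inter (st_convex ζ₁ Real.pi)).isPreconnected)
    (h.1.continuousOn.mono inter_subset_left) (h'.1.continuousOn.mono inter_subset_right)
    (fun a ha => h.eqn a ha.1) (fun a ha => h'.2.2.1 a ha.2)
    (a := ζ₁) ⟨h1, self_mem Real.pi_pos⟩
  rw [h'.2.1]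

theorem ext_step (hd : Dev u Z₁ Z₂) (hstep : StepProp Z₁ Z₂) {z ζ₀ : ℂ} {H : ℝ} {K : ℂ → ℂ}
    (h : Ext Z₁ Z₂ z ζ₀ H K) (hH : Real.pi ≤ H) : ∃ K', Ext Z₁ Z₂ z ζ₀ (H + Real.pi / 2) K' := by
  classical
  have hpi := Real.pi_pos
  set ζ₁ : ℂ := ζ₀ + ((H - Real.pi / 2 : ℝ) : ℂ) * I with hζ₁
  set ζ₂ : ℂ := ζ₀ - ((H - Real.pi / 2 : ℝ) : ℂ) * I with hζ₂
  have i1 : ∀ ζ : ℂ, (ζ - ζ₁).im = (ζ - ζ₀).im - (H - Real.pi / 2) := by
    intro ζ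
    simp only [hζ₁, sub_im, add_im, mul_im, ofReal_re, ofReal_im, I_re, I_im]
    ring
  have i2 : ∀ ζ : ℂ, (ζ - ζ₂).im = (ζ - ζ₀).im + (H - Real.pi / 2) := by
    intro ζ
    simp only [hζ₂, sub_im, mul_im, ofReal_re, ofReal_im, I_re, I_im]
    ring
  have j1 : (ζ₁ - ζ₀).im = H - Real.pi / 2 := by
    have := i1 ζ₁
    simp only [sub_self, zero_im] at this
    linarith
  have j2 : (ζ₂ - ζ₀).im = -(H - Real.pi / 2) := by
    have := i2 ζ₂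
    simp only [sub_self, zero_im] at this
    linarith
  have m1 : ζ₁ ∈ st ζ₀ H := by
    show |(ζ₁ - ζ₀).im| < H
    rw [j1, abs_lt]
    constructor <;> linarith
  have m2 : ζ₂ ∈ st ζ₀ H := by
    show |(ζ₂ - ζ₀).im| < H
    rw [j2, abs_lt]
    constructor <;> linarith
  obtain ⟨k₁, hk₁⟩ := h.2.2 ζ₁ m1
  obtain ⟨k₂, hk₂⟩ := h.2.2 ζ₂ m2
  have u1 := strip_uniq hd h m1 hk₁
  have u2 := strip_uniq hd h m2 hk₂
  set K' : ℂ → ℂ := fun ζ => if (ζ - ζ₀).im < -(H - Real.pi / 2) then k₂ ζ else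
    if (ζ - ζ₀).im ≤ H - Real.pi / 2 then K ζ else k₁ ζ with hK'
  -- `K'` is `K` on the old strip
  have e0 : ∀ ζ ∈ st ζ₀ H, K' ζ = K ζ := by
    intro ζ hζ
    have h1 : |(ζ - ζ₀).im| < H := hζ
    rw [abs_lt] at h1
    simp only [hK']
    split_ifs with h2 h3
    · refine (u2 ζ ⟨hζ, ?_⟩).symm
      show |(ζ - ζ₂).im| < Real.pi
      rw [i2, abs_lt]
      constructor <;> linarith
    · rfl
    · refine (u1 ζ ⟨hζ, ?_⟩).symm
      show |(ζ - ζ₁).im| < Real.pi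
      rw [i1, abs_lt]
      push Not at h3
      constructor <;> linarith
  have e1 : ∀ ζ ∈ st ζ₁ Real.pi, K' ζ = k₁ ζ := by
    intro ζ hζ
    have h1 : |(ζ - ζ₁).im| < Real.pi := hζ
    rw [i1, abs_lt] at h1
    by_cases h2 : (ζ - ζ₀).im < H
    · have h3 : ζ ∈ st ζ₀ H := by
        show |(ζ - ζ₀).im| < H
        rw [abs_lt]
        constructor <;> linarith
      rw [e0 ζ h3, u1 ζ ⟨h3, hζ⟩]
    · push Not at h2
      simp only [hK']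
      rw [if_neg (by linarith), if_neg (by linarith)]
  have e2 : ∀ ζ ∈ st ζ₂ Real.pi, K' ζ = k₂ ζ := by
    intro ζ hζ
    have h1 : |(ζ - ζ₂).im| < Real.pi := hζ
    rw [i2, abs_lt] at h1
    by_cases h2 : -H < (ζ - ζ₀).im
    · have h3 : ζ ∈ st ζ₀ H := by
        show |(ζ - ζ₀).im| < H
        rw [abs_lt]
        constructor <;> linarith
      rw [e0 ζ h3, u2 ζ ⟨h3, hζ⟩]
    · push Not at h2
      simp only [hK']
      rw [if_pos (by linarith)]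
  have cov : ∀ ζ ∈ st ζ₀ (H + Real.pi / 2), ζ ∈ st ζ₀ H ∨ ζ ∈ st ζ₁ Real.pi ∨
      ζ ∈ st ζ₂ Real.pi := by
    intro ζ hζ
    have h1 : |(ζ - ζ₀).im| < H + Real.pi / 2 := hζ
    rw [abs_lt] at h1
    by_cases h2 : H ≤ (ζ - ζ₀).im
    · right; left
      show |(ζ - ζ₁).im| < Real.pi
      rw [i1, abs_lt]
      constructor <;> linarith
    · by_cases h3 : (ζ - ζ₀).im ≤ -H
      · right; right
        show |(ζ - ζ₂).im| < Real.pi
        rw [i2, abs_lt]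
        constructor <;> linarith
      · left
        push Not at h2 h3
        show |(ζ - ζ₀).im| < H
        rw [abs_lt]
        exact ⟨h3, h2⟩
  refine ⟨K', ?_, ?_, ?_⟩
  · intro ζ hζ
    apply DifferentiableAt.differentiableWithinAt
    rcases cov ζ hζ with h1 | h1 | h1
    · refine (h.1.differentiableAt ((st_open _ _).mem_nhds h1)).congr_of_eventuallyEq ?_
      filter_upwards [(st_open _ _).mem_nhds h1] with w hw using e0 w hw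
    · refine (hk₁.1.differentiableAt ((st_open _ _).mem_nhds h1)).congr_of_eventuallyEq ?_
      filter_upwards [(st_open _ _).mem_nhds h1] with w hw using e1 w hw
    · refine (hk₂.1.differentiableAt ((st_open _ _).mem_nhds h1)).congr_of_eventuallyEq ?_
      filter_upwards [(st_open _ _).mem_nhds h1] with w hw using e2 w hw
  · rw [e0 ζ₀ (self_mem (by linarith)), h.2.1]
  · intro ζ hζ
    rcases cov ζ hζ with h1 | h1 | h1
    · rw [e0 ζ h1]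
      exact h.2.2 ζ h1
    · rw [e1 ζ h1]
      exact hstep _ _ _ hk₁ ζ h1
    · rw [e2 ζ h1]
      exact hstep _ _ _ hk₂ ζ h1

theorem ext_all (hd : Dev u Z₁ Z₂) (hstep : StepProp Z₁ Z₂) {z ζ₀ : ℂ} {k : ℂ → ℂ}
    (h : Strip Z₁ Z₂ z ζ₀ k) (m : ℕ) : ∃ K, Ext Z₁ Z₂ z ζ₀ (Real.pi + m * (Real.pi / 2)) K := by
  have hpi := Real.pi_pos
  induction m with
  | zero =>
    refine ⟨k, ?_⟩
    simpa using ext_base hstep h
  | succ m ih =>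
    obtain ⟨K, hK⟩ := ih
    obtain ⟨K', hK'⟩ := ext_step hd hstep hK (by
      have : (0 : ℝ) ≤ m * (Real.pi / 2) := by positivity
      linarith)
    refine ⟨K', ?_⟩
    have e : Real.pi + ((m + 1 : ℕ) : ℝ) * (Real.pi / 2) =
        Real.pi + m * (Real.pi / 2) + Real.pi / 2 := by
      push_cast
      ring
    rw [e]
    exact hK'

end Pool.Agent.T6.H85.LV.C2C

namespace Pool.Agent.T6.H85.LV

open Complex Filter Topology Set Pool.Agent.T6.H85.LV.C2C Pool.Agent.T6.H85.LV.C2U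

/-- module C2C -/
theorem c2c : StmC2C := by
  intro u Z₁ Z₂ hd hstep z ζ₀ k hk
  have hpi := Real.pi_pos
  choose Km hKm using fun m : ℕ => ext_all hd hstep hk m
  have hpos : ∀ m : ℕ, 0 < Real.pi + m * (Real.pi / 2) := fun m => by positivity
  set K : ℂ → ℂ := fun ζ => Km ⌈|(ζ - ζ₀).im|⌉₊ ζ with hK
  have hmem : ∀ ζ : ℂ, ζ ∈ st ζ₀ (Real.pi + ⌈|(ζ - ζ₀).im|⌉₊ * (Real.pi / 2)) := by
    intro ζ
    show |(ζ - ζ₀).im| < _
    have h1 : |(ζ - ζ₀).im| ≤ ⌈|(ζ - ζ₀).im|⌉₊ := Nat.le_ceil _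
    have h2 : (⌈|(ζ - ζ₀).im|⌉₊ : ℝ) * 1 ≤ ⌈|(ζ - ζ₀).im|⌉₊ * (Real.pi / 2) := by
      apply mul_le_mul_of_nonneg_left _ (Nat.cast_nonneg _)
      have := Real.pi_gt_three
      linarith
    linarith
  have hloc : ∀ (m : ℕ), ∀ ζ ∈ st ζ₀ (Real.pi + m * (Real.pi / 2)), K ζ = Km m ζ := by
    intro m ζ hζ
    exact ext_uniq hd (hKm _) (hKm m) (hpos _) (hpos _) ζ ⟨hmem ζ, hζ⟩
  have hdiff : Differentiable ℂ K := by
    intro ζ
    have h1 := (st_open ζ₀ (Real.pi + ⌈|(ζ - ζ₀).im|⌉₊ * (Real.pi / 2))).mem_nhds (hmem ζ)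
    refine ((hKm ⌈|(ζ - ζ₀).im|⌉₊).1.differentiableAt h1).congr_of_eventuallyEq ?_
    filter_upwards [h1] with w hw using hloc _ w hw
  have heq : ∀ ζ, Z₂ (K ζ) = exp ζ * Z₁ (K ζ) := fun ζ => (hKm _).eqn ζ (hmem ζ)
  refine ⟨K, hdiff, heq, ?_⟩
  intro ζ
  obtain ⟨k', hk'⟩ := (hKm _).2.2 ζ (hmem ζ)
  have hz : K ζ = Km ⌈|(ζ - ζ₀).im|⌉₊ ζ := rfl
  rw [← hz] at hk'
  have hline : ∀ t : ℝ, K (ζ + t) = k' (ζ + t) := by
    intro t
    refine uniq (W := fun t : ℝ => exp (ζ + t)) hd (isPreconnected_univ (α := ℝ))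
      (k := fun t : ℝ => K (ζ + t)) (k' := fun t : ℝ => k' (ζ + t)) ?_ ?_ (fun t _ => heq _) ?_
      (mem_univ 0) ?_ t (mem_univ t)
    · apply Continuous.continuousOn
      have := hdiff.continuous
      fun_prop
    · refine hk'.1.continuousOn.comp (t := {η : ℂ | |(η - ζ).im| < Real.pi}) ?_ ?_
      · apply Continuous.continuousOn
        fun_prop
      · intro t _
        simp [Real.pi_pos]
    · intro t _
      apply hk'.2.2.1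
      simp [Real.pi_pos]
    · show K (ζ + ((0 : ℝ) : ℂ)) = k' (ζ + ((0 : ℝ) : ℂ))
      rw [ofReal_zero, add_zero, hk'.2.1]
  constructor
  · exact hk'.2.2.2.1.congr fun t => by rw [hline t]
  · exact hk'.2.2.2.2.congr fun t => by rw [hline t]

end Pool.Agent.T6.H85.LV
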