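import Pool.Agent.T6.H85.LV.C2U

/-!
Project LV (helper85): module C2D.
-/

set_option autoImplicit false

namespace Pool.Agent.T6.H85.LV.C2D

open Complex Filter Topology Set Pool.Agent.T6.H85.LV.C2U

variable {u : ℂ → ℝ} {Z₁ Z₂ : ℂ → ℂ} {K : ℂ → ℂ}

/-- a point with `Z₁ z ≠ 0`, `Z₂ z ≠ 0` has a neighbourhood which is contained in the range of `K`
if it meets the range -/
theorem nb_reg (hd : Dev u Z₁ Z₂) (hK : Differentiable ℂ K)
    (he : ∀ ζ, Z₂ (K ζ) = exp ζ * Z₁ (K ζ)) {z : ℂ} (h1 : Z₁ z ≠ 0) (h2 : Z₂ z ≠ 0) :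
    ∃ N : Set ℂ, IsOpen N ∧ z ∈ N ∧ ((N ∩ range K).Nonempty → N ⊆ range K) := by
  set s := Z₂ z / Z₁ z with hs
  have hs0 : s ≠ 0 := div_ne_zero h2 h1
  have hε : 0 < ‖s‖ / 3 := by positivity
  obtain ⟨δ, N, g, hδ, hδε, hN, hzN, hg, hgw, hp⟩ := inv_F hd h1 hε
  rw [← hs] at hg hgw hp
  refine ⟨N, hN, hzN, ?_⟩
  rintro ⟨_, hpN, ζ₁, rfl⟩ p hpN'
  set w₁ := exp ζ₁ with hw₁
  have hw₁0 : w₁ ≠ 0 := exp_ne_zero _
  have e1 : Z₂ (K ζ₁) / Z₁ (K ζ₁) = w₁ := by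
    rw [he ζ₁, mul_div_cancel_right₀ _ (nz_of_eq hd (he ζ₁))]
  obtain ⟨_, hb1, hg1⟩ := hp _ hpN
  rw [e1] at hb1 hg1
  obtain ⟨_, hb2, hg2⟩ := hp _ hpN'
  -- the branch of the logarithm
  have hsl : ∀ w ∈ Metric.ball s δ, w / w₁ ∈ slitPlane := by
    intro w hw
    have h3 : ‖w - w₁‖ < ‖w₁‖ := by
      rw [mem_ball_iff_norm] at hw hb1
      have h4 : ‖w - w₁‖ ≤ ‖w - s‖ + ‖w₁ - s‖ := by
        have : w - w₁ = (w - s) - (w₁ - s) := by ring
        rw [this]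
        exact norm_sub_le _ _
      have h5 : ‖s‖ ≤ ‖w₁‖ + ‖w₁ - s‖ := by
        have : s = w₁ - (w₁ - s) := by ring
        calc ‖s‖ = ‖w₁ - (w₁ - s)‖ := by rw [← this]
          _ ≤ _ := norm_sub_le _ _
      linarith
    have h6 : ‖w / w₁ - 1‖ < 1 := by
      have h7 : w / w₁ - 1 = (w - w₁) / w₁ := by
        field_simp
      rw [h7, norm_div, div_lt_one (norm_pos_iff.2 hw₁0)]
      exact h3
    apply mem_slitPlane_of_norm_lt_one
      (z := w / w₁ - 1) h6 |> fun h => by simpa using h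
  have hcont : ContinuousOn (fun w => K (ζ₁ + log (w / w₁))) (Metric.ball s δ) := by
    apply hK.continuous.comp_continuousOn
    apply continuousOn_const.add
    apply ContinuousOn.clog
    · exact continuousOn_id.div_const _
    · exact hsl
  have key := uniq (W := fun w => w) hd (convex_ball s δ).isPreconnected hcont hg
    (fun w hw => by
      show Z₂ (K (ζ₁ + log (w / w₁))) = w * Z₁ (K (ζ₁ + log (w / w₁)))
      rw [he (ζ₁ + log (w / w₁)), exp_add, exp_log (slitPlane_ne_zero (hsl w hw)), ← hw₁,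
        mul_div_cancel₀ _ hw₁0])
    (fun w hw => (hgw w hw).2) hb1 (by
      show K (ζ₁ + log (w₁ / w₁)) = g w₁
      rw [div_self hw₁0, log_one, add_zero, hg1])
  have h8 := key _ hb2
  rw [hg2] at h8
  exact ⟨_, h8⟩

/-- a pole has a neighbourhood which does not meet the range -/
theorem nb_pole (hd : Dev u Z₁ Z₂) (hK : Differentiable ℂ K)
    (he : ∀ ζ, Z₂ (K ζ) = exp ζ * Z₁ (K ζ))
    (hl : ∀ ζ : ℂ, Tendsto (fun t : ℝ => ‖K (ζ + t)‖) atTop atTop) {z : ℂ} (h1 : Z₁ z = 0) :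
    ∃ N : Set ℂ, IsOpen N ∧ z ∈ N ∧ ¬ (N ∩ range K).Nonempty := by
  have h2 := nz hd h1
  obtain ⟨δ, N, g, hδ, hδε, hN, hzN, hg, hgw, hp⟩ := inv_Q hd h2 one_pos
  have hz0 : Z₁ z / Z₂ z = 0 := by rw [h1, zero_div]
  rw [hz0] at hg hgw hp
  refine ⟨N, hN, hzN, ?_⟩
  rintro ⟨_, hpN, ζ₁, rfl⟩
  have hQ : ∀ ζ, Z₁ (K ζ) / Z₂ (K ζ) = exp (-ζ) := by
    intro ζ
    rw [he ζ, exp_neg, div_eq_iff (mul_ne_zero (exp_ne_zero _) (nz_of_eq hd (he ζ)))]
    rw [inv_mul_cancel_left₀ (exp_ne_zero _)]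
  have hQ' : ∀ ζ, Z₁ (K ζ) = exp (-ζ) * Z₂ (K ζ) := by
    intro ζ
    rw [he ζ, exp_neg, inv_mul_cancel_left₀ (exp_ne_zero _)]
  obtain ⟨_, hb1, hg1⟩ := hp _ hpN
  rw [hQ] at hb1 hg1
  have hball : ∀ t ∈ Ici (0 : ℝ), exp (-(ζ₁ + t)) ∈ Metric.ball (0 : ℂ) δ := by
    intro t ht
    rw [mem_ball_zero_iff] at hb1 ⊢
    rw [norm_exp] at hb1 ⊢
    refine lt_of_le_of_lt (Real.exp_le_exp.2 ?_) hb1
    simp only [neg_re, add_re, ofReal_re]
    have : (0 : ℝ) ≤ t := ht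
    linarith
  have c1 : ContinuousOn (fun t : ℝ => K (ζ₁ + t)) (Ici 0) := by
    apply Continuous.continuousOn
    have := hK.continuous
    fun_prop
  have c3 : ContinuousOn (fun t : ℝ => exp (-(ζ₁ + (t : ℂ)))) (Ici 0) := by
    apply Continuous.continuousOn
    fun_prop
  have c2 : ContinuousOn (fun t : ℝ => g (exp (-(ζ₁ + t)))) (Ici 0) := hg.comp c3 hball
  have hfl : ∀ p w : ℂ, p ≠ 0 → Z₁ w = p * Z₂ w → Z₂ w = p⁻¹ * Z₁ w := by
    intro p w hp0 h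
    rw [h, inv_mul_cancel_left₀ hp0]
  have key := uniq (W := fun t : ℝ => exp (ζ₁ + t)) hd (isPreconnected_Ici (a := (0 : ℝ))) c1 c2
    (fun t _ => he _)
    (fun t ht => by
      have h3 := hfl _ _ (exp_ne_zero _) (hgw _ (hball t ht)).2
      rw [← exp_neg, neg_neg] at h3
      exact h3) (a := 0) (mem_Ici.2 le_rfl) (by
      show K (ζ₁ + ((0 : ℝ) : ℂ)) = g (exp (-(ζ₁ + ((0 : ℝ) : ℂ))))
      rw [ofReal_zero, add_zero, hg1])
  -- the limit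
  have hcg : ContinuousAt g 0 := hg.continuousAt (Metric.ball_mem_nhds _ hδ)
  have hte : Tendsto (fun t : ℝ => exp (-(ζ₁ + t))) atTop (𝓝 0) := by
    rw [tendsto_zero_iff_norm_tendsto_zero]
    simp only [norm_exp, neg_re, add_re, ofReal_re]
    apply Real.tendsto_exp_atBot.comp
    apply tendsto_neg_atTop_atBot.comp
    exact tendsto_atTop_add_const_left _ _ tendsto_id
  have hlim : Tendsto (fun t : ℝ => ‖K (ζ₁ + t)‖) atTop (𝓝 ‖g 0‖) := by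
    have h4 : Tendsto (fun t : ℝ => ‖g (exp (-(ζ₁ + t)))‖) atTop (𝓝 ‖g 0‖) :=
      (hcg.tendsto.comp hte).norm
    refine h4.congr' ?_
    filter_upwards [eventually_ge_atTop (0 : ℝ)] with t ht
    rw [key t ht]
  exact not_tendsto_nhds_of_tendsto_atTop (hl ζ₁) _ hlim

/-- a zero has a neighbourhood which does not meet the range -/
theorem nb_zero (hd : Dev u Z₁ Z₂) (hK : Differentiable ℂ K)
    (he : ∀ ζ, Z₂ (K ζ) = exp ζ * Z₁ (K ζ))
    (hl : ∀ ζ : ℂ, Tendsto (fun t : ℝ => ‖K (ζ + t)‖) atBot atTop) {z : ℂ} (h2 : Z₂ z = 0) :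
    ∃ N : Set ℂ, IsOpen N ∧ z ∈ N ∧ ¬ (N ∩ range K).Nonempty := by
  have h1 := nz' hd h2
  obtain ⟨δ, N, g, hδ, hδε, hN, hzN, hg, hgw, hp⟩ := inv_F hd h1 one_pos
  have hz0 : Z₂ z / Z₁ z = 0 := by rw [h2, zero_div]
  rw [hz0] at hg hgw hp
  refine ⟨N, hN, hzN, ?_⟩
  rintro ⟨_, hpN, ζ₁, rfl⟩
  have hQ : ∀ ζ, Z₂ (K ζ) / Z₁ (K ζ) = exp ζ := by
    intro ζ
    rw [he ζ, mul_div_cancel_right₀ _ (nz_of_eq hd (he ζ))]
  obtain ⟨_, hb1, hg1⟩ := hp _ hpN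
  rw [hQ] at hb1 hg1
  have hball : ∀ t ∈ Iic (0 : ℝ), exp (ζ₁ + t) ∈ Metric.ball (0 : ℂ) δ := by
    intro t ht
    rw [mem_ball_zero_iff] at hb1 ⊢
    rw [norm_exp] at hb1 ⊢
    refine lt_of_le_of_lt (Real.exp_le_exp.2 ?_) hb1
    simp only [add_re, ofReal_re]
    have : t ≤ (0 : ℝ) := ht
    linarith
  have c1 : ContinuousOn (fun t : ℝ => K (ζ₁ + t)) (Iic 0) := by
    apply Continuous.continuousOn
    have := hK.continuous
    fun_prop
  have c3 : ContinuousOn (fun t : ℝ => exp (ζ₁ + (t : ℂ))) (Iic 0) := by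
    apply Continuous.continuousOn
    fun_prop
  have c2 : ContinuousOn (fun t : ℝ => g (exp (ζ₁ + t))) (Iic 0) := hg.comp c3 hball
  have key := uniq (W := fun t : ℝ => exp (ζ₁ + t)) hd (isPreconnected_Iic (a := (0 : ℝ))) c1 c2
    (fun t _ => he _)
    (fun t ht => (hgw _ (hball t ht)).2) (a := 0) (mem_Iic.2 le_rfl) (by
      show K (ζ₁ + ((0 : ℝ) : ℂ)) = g (exp (ζ₁ + ((0 : ℝ) : ℂ)))
      rw [ofReal_zero, add_zero, hg1])
  have hcg : ContinuousAt g 0 := hg.continuousAt (Metric.ball_mem_nhds _ hδ)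
  have hte : Tendsto (fun t : ℝ => exp (ζ₁ + t)) atBot (𝓝 0) := by
    rw [tendsto_zero_iff_norm_tendsto_zero]
    simp only [norm_exp, add_re, ofReal_re]
    apply Real.tendsto_exp_atBot.comp
    exact tendsto_atBot_add_const_left _ _ tendsto_id
  have hlim : Tendsto (fun t : ℝ => ‖K (ζ₁ + t)‖) atBot (𝓝 ‖g 0‖) := by
    have h4 : Tendsto (fun t : ℝ => ‖g (exp (ζ₁ + t))‖) atBot (𝓝 ‖g 0‖) :=
      (hcg.tendsto.comp hte).norm
    refine h4.congr' ?_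
    filter_upwards [eventually_le_atBot (0 : ℝ)] with t ht
    rw [key t ht]
  exact not_tendsto_nhds_of_tendsto_atTop (hl ζ₁) _ hlim

/-- every point has a neighbourhood which is contained in the range of `K` if it meets the range -/
theorem nb (hd : Dev u Z₁ Z₂) (hK : Differentiable ℂ K)
    (he : ∀ ζ, Z₂ (K ζ) = exp ζ * Z₁ (K ζ))
    (hl : ∀ ζ : ℂ, Tendsto (fun t : ℝ => ‖K (ζ + t)‖) atTop atTop ∧
      Tendsto (fun t : ℝ => ‖K (ζ + t)‖) atBot atTop) (z : ℂ) :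
    ∃ N : Set ℂ, IsOpen N ∧ z ∈ N ∧ ((N ∩ range K).Nonempty → N ⊆ range K) := by
  by_cases h1 : Z₁ z = 0
  · obtain ⟨N, a, b, c⟩ := nb_pole hd hK he (fun ζ => (hl ζ).1) h1
    exact ⟨N, a, b, fun h => absurd h c⟩
  · by_cases h2 : Z₂ z = 0
    · obtain ⟨N, a, b, c⟩ := nb_zero hd hK he (fun ζ => (hl ζ).2) h2
      exact ⟨N, a, b, fun h => absurd h c⟩
    · exact nb_reg hd hK he h1 h2

end Pool.Agent.T6.H85.LV.C2D

namespace Pool.Agent.T6.H85.LV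

open Complex Filter Topology Set Pool.Agent.T6.H85.LV.C2D

/-- module C2D -/
theorem c2d : StmC2D := by
  intro u Z₁ Z₂ hd K hK he hl
  have hcl : IsClopen (range K) := by
    constructor
    · rw [← isOpen_compl_iff, isOpen_iff_mem_nhds]
      intro z hz
      obtain ⟨N, hN, hzN, h⟩ := nb hd hK he hl z
      refine mem_of_superset (hN.mem_nhds hzN) ?_
      intro p hp hpr
      exact hz (h ⟨p, hp, hpr⟩ hzN)
    · rw [isOpen_iff_mem_nhds]
      intro z hz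
      obtain ⟨N, hN, hzN, h⟩ := nb hd hK he hl z
      exact mem_of_superset (hN.mem_nhds hzN) (h ⟨z, hzN, hz⟩)
  have := hcl.eq_univ (range_nonempty K)
  exact range_eq_univ.1 this

end Pool.Agent.T6.H85.LV
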