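import Pool.Agent.T6.H85.LV.Stm

/-! Module C2E: an entire surjective `K` with `Z₂ (K ζ) = exp ζ * Z₁ (K ζ)`. -/

set_option autoImplicit false

namespace Pool.Agent.T6.H85.LV

open Complex Filter Topology Set
open scoped ComplexConjugate

namespace C2E

theorem exists_log {F : ℂ → ℂ} (hF : Differentiable ℂ F) (hne : ∀ z, F z ≠ 0) :
    ∃ ψ : ℂ → ℂ, Differentiable ℂ ψ ∧ ∀ z, exp (ψ z) = F z := by
  have hF' : Differentiable ℂ (deriv F) := fun z =>
    ((hF.analyticAt z).deriv).differentiableAt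
  have hq : Differentiable ℂ (fun z => deriv F z / F z) := fun z => (hF' z).div (hF z) (hne z)
  obtain ⟨g, hg⟩ := hq.isExactOn_univ
  have hg' : ∀ z, HasDerivAt g (deriv F z / F z) z := fun z => hg z (mem_univ z)
  have hc : ∀ z, F z * exp (-(g z)) = F 0 * exp (-(g 0)) := by
    intro z
    have hd : ∀ z, HasDerivAt (fun z => F z * exp (-(g z))) 0 z := by
      intro z
      have h1 := ((hF z).hasDerivAt).mul ((hg' z).neg.cexp)
      refine h1.congr_deriv ?_
      have := hne z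
      field_simp
      ring
    exact is_const_of_deriv_eq_zero (fun z => (hd z).differentiableAt) (fun z => (hd z).deriv) z 0
  obtain ⟨c, hc'⟩ : ∃ c, exp c = F 0 * exp (-(g 0)) :=
    ⟨log (F 0 * exp (-(g 0))), exp_log (mul_ne_zero (hne 0) (exp_ne_zero _))⟩
  refine ⟨fun z => g z + c, fun z => ((hg' z).differentiableAt).add_const c, fun z => ?_⟩
  rw [exp_add, hc', ← hc z, exp_neg]
  field_simp

end C2E

theorem c2e (hA : StmAFF) : StmC2E := by
  intro u Z₁ Z₂ hD K hK hsurj heq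
  have h1ne : ∀ z, Z₁ z ≠ 0 := by
    intro z h0
    obtain ⟨ζ, rfl⟩ := hsurj z
    have h1 := hD.wr (K ζ)
    rw [heq, h0] at h1
    simp at h1
  have h2ne : ∀ z, Z₂ z ≠ 0 := by
    intro z h0
    obtain ⟨ζ, rfl⟩ := hsurj z
    rw [heq] at h0
    exact mul_ne_zero (exp_ne_zero _) (h1ne _) h0
  obtain ⟨ψ, hψ, hψe⟩ := C2E.exists_log (F := fun z => Z₂ z / Z₁ z)
    (fun z => (hD.d2 z).div (hD.d1 z) (h1ne z)) (fun z => div_ne_zero (h2ne z) (h1ne z))
  have hexp : ∀ ζ, exp (ψ (K ζ)) = exp ζ := by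
    intro ζ
    rw [hψe, heq]
    have := h1ne (K ζ)
    field_simp
  have hd : ∀ ζ, HasDerivAt (fun ζ => ψ (K ζ)) 1 ζ := by
    intro ζ
    have h1 : HasDerivAt (fun ζ => ψ (K ζ)) (deriv (fun ζ => ψ (K ζ)) ζ) ζ :=
      (hψ.comp hK ζ).hasDerivAt
    have h2 := h1.cexp
    have h3 : (fun ζ => exp (ψ (K ζ))) = exp := funext hexp
    rw [h3] at h2
    have h4 := h2.unique (hasDerivAt_exp ζ)
    rw [hexp] at h4
    have h5 : deriv (fun ζ => ψ (K ζ)) ζ = 1 := by
      have := exp_ne_zero ζ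
      apply mul_left_cancel₀ this
      rw [h4, mul_one]
    rw [h5] at h1
    exact h1
  have hconst : ∀ ζ, ψ (K ζ) - ζ = ψ (K 0) - 0 := by
    intro ζ
    have hd' : ∀ ζ, HasDerivAt (fun ζ => ψ (K ζ) - ζ) 0 ζ := fun ζ =>
      ((hd ζ).sub (hasDerivAt_id ζ)).congr_deriv (sub_self _)
    exact is_const_of_deriv_eq_zero (fun z => (hd' z).differentiableAt) (fun z => (hd' z).deriv) ζ 0
  have hinj : Function.Injective K := by
    intro ζ ζ' h
    have h1 := hconst ζ
    have h2 := hconst ζ'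
    rw [h] at h1
    linear_combination h2 - h1
  obtain ⟨a, b, ha, hab⟩ := hA K hK hinj
  have hz : ∀ z, Z₂ z = exp ((z - b) / a) * Z₁ z := by
    intro z
    have h1 := heq ((z - b) / a)
    have h2 : K ((z - b) / a) = z := by rw [hab]; field_simp; ring
    rwa [h2] at h1
  have hsq : ∀ z, Z₁ z ^ 2 = a * exp (-((z - b) / a)) := by
    intro z
    have h1 : HasDerivAt Z₁ (deriv Z₁ z) z := (hD.d1 z).hasDerivAt
    have h3 : HasDerivAt (fun z : ℂ => (z - b) / a) (1 / a) z :=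
      ((hasDerivAt_id z).sub_const b).div_const a
    have h2 := h3.cexp.mul h1
    have h4 : deriv Z₂ z = exp ((z - b) / a) * (1 / a) * Z₁ z +
        exp ((z - b) / a) * deriv Z₁ z := by
      have h5 : Z₂ = fun z => exp ((z - b) / a) * Z₁ z := funext hz
      rw [h5]
      exact h2.deriv
    have h6 := hD.wr z
    rw [h4, hz z] at h6
    have h7 : Z₁ z ^ 2 * exp ((z - b) / a) * (1 / a) = 1 := by linear_combination h6
    rw [exp_neg]
    have h8 := exp_ne_zero ((z - b) / a)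
    field_simp at h7 ⊢
    exact h7
  have hap : 0 < ‖a‖ := norm_pos_iff.2 ha
  refine ⟨a / ‖a‖, fun t => -Real.log (‖a‖ * (Real.exp (-(t / ‖a‖ - (b / a).re)) +
    Real.exp (t / ‖a‖ - (b / a).re)) / 2), ?_, fun z => ?_⟩
  · rw [norm_div, Complex.norm_real, norm_norm, div_self hap.ne']
  · have hre : inner ℝ (a / (‖a‖ : ℂ)) z / ‖a‖ - (b / a).re = ((z - b) / a).re := by
      have h1 : ((z - b) / a).re = (z / a).re - (b / a).re := by rw [sub_div, sub_re]
      have h2 : inner ℝ (a / (‖a‖ : ℂ)) z / ‖a‖ = (z / a).re := by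
        rw [Complex.inner, map_div₀, Complex.conj_ofReal, ← mul_div_assoc,
          Complex.div_ofReal_re, Complex.div_re, Complex.mul_re, Complex.conj_re, Complex.conj_im,
          Complex.normSq_eq_norm_sq]
        field_simp
        ring
      rw [h1, h2]
    have h1 : ‖Z₁ z‖ ^ 2 = ‖a‖ * Real.exp (-((z - b) / a).re) := by
      rw [← norm_pow, hsq, norm_mul, Complex.norm_exp, neg_re]
    have h2 : ‖Z₂ z‖ ^ 2 = ‖a‖ * Real.exp (((z - b) / a).re) := by
      rw [hz z, norm_mul, mul_pow, h1, Complex.norm_exp, Real.exp_neg]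
      have := (Real.exp_pos ((z - b) / a).re).ne'
      field_simp
    have h3 := hD.eq z
    rw [h1, h2] at h3
    have h4 : ‖a‖ * (Real.exp (-(inner ℝ (a / (‖a‖ : ℂ)) z / ‖a‖ - (b / a).re)) +
        Real.exp (inner ℝ (a / (‖a‖ : ℂ)) z / ‖a‖ - (b / a).re)) / 2 = Real.exp (-(u z)) := by
      rw [hre]
      linarith
    simp only [h4, Real.log_exp, neg_neg]

end Pool.Agent.T6.H85.LV
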