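import Pool.Agent.T6.H85.LV.Stm

/-!
Project LV (helper85), MP_47dd70_an: module ROT.
-/

set_option autoImplicit false

namespace Pool.Agent.T6.H85.LV

open Complex Filter Topology Set
open scoped ComplexConjugate

namespace ROT

theorem norm_id (a b p q : ℂ) :
    ‖conj a * p + conj b * q‖ ^ 2 + ‖-b * p + a * q‖ ^ 2
      = (‖a‖ ^ 2 + ‖b‖ ^ 2) * (‖p‖ ^ 2 + ‖q‖ ^ 2) := by
  simp only [← Complex.normSq_eq_norm_sq, Complex.normSq_apply, Complex.add_re, Complex.add_im,
    Complex.mul_re, Complex.mul_im, Complex.conj_re, Complex.conj_im, Complex.neg_re,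
    Complex.neg_im]
  ring

end ROT

theorem rot : StmROT := by
  intro u y₁ y₂ a b hd hab
  have d1 := hd.d1
  have d2 := hd.d2
  have e1 : ∀ z, deriv (ro1 a b y₁ y₂) z = conj a * deriv y₁ z + conj b * deriv y₂ z := by
    intro z
    have h1 : HasDerivAt y₁ (deriv y₁ z) z := (d1 z).hasDerivAt
    have h2 : HasDerivAt y₂ (deriv y₂ z) z := (d2 z).hasDerivAt
    exact ((h1.const_mul (conj a)).add (h2.const_mul (conj b))).deriv
  have e2 : ∀ z, deriv (ro2 a b y₁ y₂) z = -b * deriv y₁ z + a * deriv y₂ z := by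
    intro z
    have h1 : HasDerivAt y₁ (deriv y₁ z) z := (d1 z).hasDerivAt
    have h2 : HasDerivAt y₂ (deriv y₂ z) z := (d2 z).hasDerivAt
    exact ((h1.const_mul (-b)).add (h2.const_mul a)).deriv
  refine ⟨?_, ?_, ?_, ?_⟩
  · intro z
    exact ((d1 z).const_mul (conj a)).add ((d2 z).const_mul (conj b))
  · intro z
    exact ((d1 z).const_mul (-b)).add ((d2 z).const_mul a)
  · intro z
    rw [e1, e2]
    have hw := hd.wr z
    have hc : conj a * a + conj b * b = 1 := by
      have h1 : conj a * a = ((‖a‖ ^ 2 : ℝ) : ℂ) := by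
        rw [mul_comm, Complex.mul_conj, Complex.normSq_eq_norm_sq]
      have h2 : conj b * b = ((‖b‖ ^ 2 : ℝ) : ℂ) := by
        rw [mul_comm, Complex.mul_conj, Complex.normSq_eq_norm_sq]
      rw [h1, h2, ← Complex.ofReal_add, hab, Complex.ofReal_one]
    unfold ro1 ro2
    linear_combination (conj a * a + conj b * b) * hw + hc
  · intro z
    unfold ro1 ro2
    rw [ROT.norm_id, hab, one_mul, hd.eq z]

end Pool.Agent.T6.H85.LV
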