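import Pool.Agent.T6.H85.LV.Stm
import Pool.Agent.T6.H85.LV.ROT

/-! Module C2S: from the star with two opposite blocked directions to a strip. -/

set_option autoImplicit false

namespace Pool.Agent.T6.H85.LV

open Complex Filter Topology Set
open scoped ComplexConjugate

namespace C2S

theorem unit (c : ℂ) : ‖ua c‖ ^ 2 + ‖ub c‖ ^ 2 = 1 := by
  have h1 : 0 < 1 + ‖c‖ ^ 2 := by positivity
  have h2 : √(1 + ‖c‖ ^ 2) ^ 2 = 1 + ‖c‖ ^ 2 := Real.sq_sqrt h1.le
  have h3 : 0 < √(1 + ‖c‖ ^ 2) := Real.sqrt_pos.2 h1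
  rw [ub, ua, norm_mul, mul_pow, Complex.norm_real, norm_div, norm_one, Real.norm_of_nonneg h3.le,
    div_pow, h2]
  field_simp

theorem exp_slit {τ : ℂ} (h : |τ.im| < Real.pi) : exp τ ∈ slitPlane := by
  rw [abs_lt] at h
  rw [Complex.mem_slitPlane_iff_arg, Complex.arg_exp]
  refine ⟨?_, exp_ne_zero _⟩
  rw [toIocMod_eq_self Real.two_pi_pos |>.2]
  · exact h.2.ne
  · constructor
    · linarith [h.1]
    · linarith [h.2]

theorem norm_v (x : ℝ) : ‖exp (x * I)‖ = 1 := Complex.norm_exp_ofReal_mul_I x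

theorem branch_eq {Z₁ Z₂ : ℂ → ℂ} {s₁ s z : ℂ} (hden : 1 + conj s₁ * s ≠ 0)
    (h : ro2 (ua s₁) (ub s₁) Z₁ Z₂ z = Tm s₁ s * ro1 (ua s₁) (ub s₁) Z₁ Z₂ z) :
    Z₂ z = s * Z₁ z := by
  obtain ⟨S, hS⟩ : ∃ S : ℝ, S = 1 / √(1 + ‖s₁‖ ^ 2) := ⟨_, rfl⟩
  have hS0 : (S : ℂ) ≠ 0 := by
    have h1 : 0 < 1 + ‖s₁‖ ^ 2 := by positivity
    have h3 : 0 < √(1 + ‖s₁‖ ^ 2) := Real.sqrt_pos.2 h1
    rw [hS]
    exact_mod_cast (one_div_pos.2 h3).ne'
  rw [ro1, ro2, ub, ua, Tm, ← hS] at h
  rw [map_mul, Complex.conj_ofReal] at h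
  rw [div_mul_eq_mul_div, eq_div_iff hden] at h
  have h2 : (S : ℂ) * ((1 + s₁ * conj s₁) * (Z₂ z - s * Z₁ z)) = 0 := by
    linear_combination h
  have h3 : (1 + s₁ * conj s₁ : ℂ) ≠ 0 := by
    rw [Complex.mul_conj, Complex.normSq_eq_norm_sq]
    have : (0 : ℝ) < 1 + ‖s₁‖ ^ 2 := by positivity
    exact_mod_cast this.ne'
  have h4 := (mul_eq_zero.1 ((mul_eq_zero.1 h2).resolve_left hS0)).resolve_left h3
  linear_combination h4

end C2S

theorem c2s (hB : StmBLK) : StmC2S := by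
  intro u Z₁ Z₂ hD z₁ ζ₁ D h hstar hb1 hb2 hline
  obtain ⟨v, hv⟩ : ∃ v : ℂ, v = exp (ζ₁.im * I) := ⟨_, rfl⟩
  obtain ⟨m, hm⟩ : ∃ m : ℝ, m = Real.exp ζ₁.re := ⟨_, rfl⟩
  have hm0 : 0 < m := by rw [hm]; exact Real.exp_pos _
  have hminv : Real.exp (-ζ₁.re) = 1 / m := by rw [hm, Real.exp_neg, one_div]
  rw [← hv, hminv] at hb1
  rw [← hv, ← hm] at hb2
  rw [← hv] at hline
  have hv1 : ‖v‖ = 1 := by rw [hv]; exact C2S.norm_v _
  have hv0 : v ≠ 0 := by
    intro h0
    rw [h0, norm_zero] at hv1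
    exact zero_ne_one hv1
  have hvc : conj v * v = 1 := by
    rw [mul_comm, Complex.mul_conj, Complex.normSq_eq_norm_sq, hv1]
    norm_num
  have hs : exp ζ₁ = m * v := by
    rw [hm, hv, Complex.ofReal_exp, ← Complex.exp_add, Complex.re_add_im]
  obtain ⟨⟨hopen, h0D, -⟩, hdiff, hh0, hbr⟩ := hstar.1
  -- the points
  have hσ : ∀ ζ : ℂ, exp ζ = v * exp (ζ - ζ₁.im * I) := by
    intro ζ
    rw [hv, ← Complex.exp_add]
    congr 1
    ring
  have hslit : ∀ ζ : ℂ, |(ζ - ζ₁).im| < Real.pi → exp (ζ - ζ₁.im * I) ∈ slitPlane := by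
    intro ζ hζ
    apply C2S.exp_slit
    have : (ζ - ζ₁.im * I).im = (ζ - ζ₁).im := by simp
    rw [this]
    exact hζ
  have hT : ∀ σ : ℂ, Tm (m * v) (v * σ) = v * ((σ - m) / (1 + m * σ)) := by
    intro σ
    rw [Tm, map_mul, Complex.conj_ofReal]
    have : 1 + (m : ℂ) * conj v * (v * σ) = 1 + m * σ := by linear_combination (m * σ) * hvc
    rw [this]
    ring
  have hden : ∀ σ ∈ slitPlane, (1 + (m : ℂ) * σ) ≠ 0 := by
    intro σ hσ h0
    have h1 : σ = ((-(1 / m) : ℝ) : ℂ) := by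
      have hmC : (m : ℂ) ≠ 0 := by exact_mod_cast hm0.ne'
      push_cast
      field_simp
      linear_combination h0
    rw [h1, Complex.ofReal_mem_slitPlane] at hσ
    have : 0 < 1 / m := by positivity
    linarith
  have hmem : ∀ σ ∈ slitPlane, v * ((σ - m) / (1 + m * σ)) ∈ D := by
    intro σ hσ
    by_cases him : σ.im = 0
    · have hre : 0 < σ.re := by
        rcases Complex.mem_slitPlane_iff.1 hσ with h1 | h1
        · exact h1
        · exact absurd him h1
      have hσr : σ = (σ.re : ℂ) := by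
        apply Complex.ext <;> simp [him]
      obtain ⟨x, hx⟩ : ∃ x : ℝ, x = σ.re := ⟨_, rfl⟩
      rw [← hx] at hσr hre
      rw [hσr]
      obtain ⟨ρ, hρ⟩ : ∃ ρ : ℝ, ρ = (x - m) / (1 + m * x) := ⟨_, rfl⟩
      have hd : 0 < 1 + m * x := by positivity
      have hρ1 : ρ < 1 / m := by
        rw [hρ, div_lt_div_iff₀ hd hm0]
        nlinarith
      have hρ2 : -m < ρ := by
        rw [hρ, lt_div_iff₀ hd]
        nlinarith [mul_pos hm0 (mul_pos hm0 hre)]
      have e : v * (((x : ℂ) - m) / (1 + m * x)) = v * ((ρ : ℝ) : ℂ) := by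
        rw [hρ]; push_cast; ring
      rw [e]
      rcases le_or_gt 0 ρ with h1 | h1
      · have := hb1.2.1 ρ h1 hρ1
        rwa [mul_comm] at this
      · have := hb2.2.1 (-ρ) (by linarith) (by linarith)
        have e2 : ((-ρ : ℝ) : ℂ) * -v = v * ρ := by push_cast; ring
        rwa [e2] at this
    · apply hline
      intro r hr
      have h1 : (σ - m) / (1 + m * σ) = (r : ℂ) := by
        apply mul_left_cancel₀ hv0
        rw [hr]
        ring
      rw [div_eq_iff (hden σ hσ)] at h1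
      have h2 := congrArg Complex.im h1
      have h3 := congrArg Complex.re h1
      simp at h2 h3
      -- `Im σ = r m Im σ` and `Re σ - m = r (1 + m Re σ)`
      have h4 : 1 = r * m := by
        apply mul_right_cancel₀ him
        linarith
      have h5 : r = -m := by linear_combination (-1 : ℝ) * h3 + σ.re * h4
      rw [h5] at h4
      nlinarith [mul_pos hm0 hm0]
  -- the branch
  have hk : ∀ ζ : ℂ, Tm (exp ζ₁) (exp ζ) =
      v * ((exp (ζ - ζ₁.im * I) - m) / (1 + m * exp (ζ - ζ₁.im * I))) := by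
    intro ζ
    rw [hs, hσ ζ, hT]
  have hrot : Dev u (ro1 (ua (exp ζ₁)) (ub (exp ζ₁)) Z₁ Z₂)
      (ro2 (ua (exp ζ₁)) (ub (exp ζ₁)) Z₁ Z₂) :=
    rot u Z₁ Z₂ _ _ hD (C2S.unit _)
  -- on the central line
  have hcl : ∀ t : ℝ, Tm (exp ζ₁) (exp (ζ₁ + t)) =
      (((m * Real.exp t - m) / (1 + m ^ 2 * Real.exp t) : ℝ) : ℂ) * v := by
    intro t
    rw [hk]
    have h1 : exp (ζ₁ + t - ζ₁.im * I) = ((m * Real.exp t : ℝ) : ℂ) := by
      rw [hm, ← Real.exp_add, Complex.ofReal_exp]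
      congr 1
      apply Complex.ext <;> simp
    rw [h1]
    push_cast
    ring
  refine ⟨fun ζ => h (Tm (exp ζ₁) (exp ζ)), ?_, ?_, ?_, ?_, ?_⟩
  · intro ζ hζ
    have hmemζ : Tm (exp ζ₁) (exp ζ) ∈ D := by
      rw [hk]
      exact hmem _ (hslit ζ hζ)
    have h1 : DifferentiableAt ℂ h (Tm (exp ζ₁) (exp ζ)) :=
      (hdiff _ hmemζ).differentiableAt (hopen.mem_nhds hmemζ)
    have h2 : DifferentiableAt ℂ (fun ζ => Tm (exp ζ₁) (exp ζ)) ζ := by
      have h3 : (fun ζ => Tm (exp ζ₁) (exp ζ)) =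
          fun ζ => v * ((exp (ζ - ζ₁.im * I) - m) / (1 + m * exp (ζ - ζ₁.im * I))) :=
        funext hk
      rw [h3]
      have h4 := hden _ (hslit ζ hζ)
      fun_prop (disch := exact h4)
    exact (h1.comp ζ h2).differentiableWithinAt
  · simp only
    rw [show Tm (exp ζ₁) (exp ζ₁) = 0 by rw [Tm, sub_self, zero_div]]
    exact hh0
  · intro ζ hζ
    have hmemζ : Tm (exp ζ₁) (exp ζ) ∈ D := by
      rw [hk]
      exact hmem _ (hslit ζ hζ)
    refine C2S.branch_eq ?_ (hbr _ hmemζ)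
    have h1 : 1 + conj (exp ζ₁) * exp ζ = 1 + m * exp (ζ - ζ₁.im * I) := by
      rw [hs, hσ ζ, map_mul, Complex.conj_ofReal]
      linear_combination (m * exp (ζ - ζ₁.im * I)) * hvc
    rw [h1]
    exact hden _ (hslit ζ hζ)
  · have h1 := hB u _ _ hrot z₁ D h hstar v (1 / m) hv0 hb1
    have h2 : Tendsto (fun t : ℝ => (m * Real.exp t - m) / (1 + m ^ 2 * Real.exp t)) atTop
        (𝓝[<] (1 / m)) := by
      have e : ∀ t : ℝ, (m * Real.exp t - m) / (1 + m ^ 2 * Real.exp t) =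
          1 / m - (1 + m ^ 2) / m * (1 + m ^ 2 * Real.exp t)⁻¹ := by
        intro t
        have : 0 < Real.exp t := Real.exp_pos t
        field_simp
        ring
      rw [tendsto_nhdsWithin_iff]
      constructor
      · have h3 : Tendsto (fun t : ℝ => 1 + m ^ 2 * Real.exp t) atTop atTop :=
          tendsto_atTop_add_const_left _ _ (Real.tendsto_exp_atTop.const_mul_atTop (by positivity))
        have h4 := (h3.inv_tendsto_atTop.const_mul ((1 + m ^ 2) / m)).const_sub (1 / m)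
        rw [mul_zero, sub_zero] at h4
        exact h4.congr fun t => (e t).symm
      · refine Eventually.of_forall fun t => ?_
        rw [mem_Iio, e]
        have : 0 < Real.exp t := Real.exp_pos t
        have : 0 < (1 + m ^ 2) / m * (1 + m ^ 2 * Real.exp t)⁻¹ := by positivity
        linarith
    refine (h1.comp h2).congr fun t => ?_
    simp only [Function.comp_apply, hcl]
  · have h1 := hB u _ _ hrot z₁ D h hstar (-v) m (neg_ne_zero.2 hv0) hb2
    have h2 : Tendsto (fun t : ℝ => -((m * Real.exp t - m) / (1 + m ^ 2 * Real.exp t))) atBot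
        (𝓝[<] m) := by
      have e : ∀ t : ℝ, -((m * Real.exp t - m) / (1 + m ^ 2 * Real.exp t)) =
          m - m * (1 + m ^ 2) * Real.exp t / (1 + m ^ 2 * Real.exp t) := by
        intro t
        have : 0 < Real.exp t := Real.exp_pos t
        field_simp
        ring
      rw [tendsto_nhdsWithin_iff]
      constructor
      · have h3 : Tendsto (fun t : ℝ => Real.exp t) atBot (𝓝 0) := Real.tendsto_exp_atBot
        have h4 : Tendsto (fun t : ℝ => m - m * (1 + m ^ 2) * Real.exp t /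
            (1 + m ^ 2 * Real.exp t)) atBot (𝓝 (m - m * (1 + m ^ 2) * 0 / (1 + m ^ 2 * 0))) := by
          refine ((h3.const_mul _).div ((h3.const_mul _).const_add 1) ?_).const_sub m
          norm_num
        rw [mul_zero, zero_div, sub_zero] at h4
        exact h4.congr fun t => (e t).symm
      · refine Eventually.of_forall fun t => ?_
        rw [mem_Iio, e]
        have : 0 < Real.exp t := Real.exp_pos t
        have : 0 < m * (1 + m ^ 2) * Real.exp t / (1 + m ^ 2 * Real.exp t) := by positivity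
        linarith
    refine (h1.comp h2).congr fun t => ?_
    simp only [Function.comp_apply, hcl]
    congr 2
    push_cast
    ring

end Pool.Agent.T6.H85.LV
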