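import Pool.Agent.T6.H85.LV.Stm

/-!
Project LV (helper85), MP_47dd70_an: module CONN.
-/

set_option autoImplicit false

namespace Pool.Agent.T6.H85.LV

open Complex Filter Topology Set
open scoped ComplexConjugate

namespace CONN

theorem snoc' {u : ℂ → ℝ} {x y z : ℂ} {L L' : ℝ} (γ : ℝ → ℂ) (hγ : ContDiff ℝ 1 γ)
    (h : IsPath u x y L) (h0 : γ 0 = y) (h1 : γ 1 = z) (hL : L + len u γ = L') :
    IsPath u x z L' := by
  subst h0 h1 hL
  exact IsPath.snoc γ hγ h

theorem concat {u : ℂ → ℝ} {p q r : ℂ} {L₁ L₂ : ℝ} (h1 : IsPath u p q L₁)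
    (h2 : IsPath u q r L₂) : IsPath u p r (L₁ + L₂) := by
  induction h2 with
  | nil => simpa using h1
  | snoc γ hγ h ih =>
    rw [← add_assoc]
    exact IsPath.snoc γ hγ ih

theorem len_nonneg (u : ℂ → ℝ) (γ : ℝ → ℂ) : 0 ≤ len u γ := by
  unfold len
  apply intervalIntegral.integral_nonneg zero_le_one
  intro t _
  positivity

theorem len_rev (u : ℂ → ℝ) (γ : ℝ → ℂ) : len u (fun t => γ (1 - t)) = len u γ := by
  unfold len
  have h : ∀ t : ℝ, deriv (fun t => γ (1 - t)) t = -deriv γ (1 - t) := by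
    intro t
    rw [deriv_comp_const_sub]
  simp only [h, norm_neg]
  rw [intervalIntegral.integral_comp_sub_left
    (fun t => Real.exp (u (γ t)) * ‖deriv γ t‖) 1]
  norm_num

theorem rev {u : ℂ → ℝ} {p q : ℂ} {L : ℝ} (h : IsPath u p q L) : IsPath u q p L := by
  induction h with
  | nil => exact IsPath.nil
  | @snoc L γ hγ h ih =>
    have h1 : IsPath u (γ 1) (γ 0) (len u γ) := by
      refine snoc' (fun t => γ (1 - t)) ?_ IsPath.nil ?_ ?_ ?_
      · exact hγ.comp (contDiff_const.sub contDiff_id)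
      · simp
      · simp
      · rw [len_rev, zero_add]
    have h2 := concat h1 ih
    rwa [add_comm] at h2

end CONN

theorem conn : StmCONN := by
  intro u _
  refine ⟨?_, ?_, ?_, ?_⟩
  · intro p q
    refine ⟨_, CONN.snoc' (L := 0) (fun t => p + (t : ℂ) * (q - p)) ?_ IsPath.nil ?_ ?_ rfl⟩
    · exact contDiff_const.add ((Complex.ofRealCLM.contDiff).mul contDiff_const)
    · simp
    · simp
  · intro p q L h
    induction h with
    | nil => exact le_refl _
    | snoc γ hγ h ih => exact add_nonneg ih (CONN.len_nonneg u γ)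
  · intro p q r L₁ L₂ h1 h2
    exact CONN.concat h1 h2
  · intro p q L h
    exact CONN.rev h

end Pool.Agent.T6.H85.LV
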