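import Pool.Agent.T6.H85.LV.Defs

/-!
Project LV (helper85), MP_47dd70_an: the statements of the modules.
-/

set_option autoImplicit false

namespace Pool.Agent.T6.H85.LV

open Complex Filter Topology Set
open scoped ComplexConjugate

/-- `∂f/∂z` -/
noncomputable def Dz (f : ℂ → ℂ) (z : ℂ) : ℂ := (fderiv ℝ f z 1 - I * fderiv ℝ f z I) / 2

/-- the coefficient `u_zz - (u_z)²` -/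
noncomputable def sq (u : ℂ → ℝ) (z : ℂ) : ℂ :=
  Dz (Dz (fun z => (u z : ℂ))) z - Dz (fun z => (u z : ℂ)) z ^ 2

def StmDEV1 : Prop := ∀ u : ℂ → ℝ, IsSol u → Differentiable ℂ (sq u)

def StmDEV2 : Prop := ∀ q : ℂ → ℂ, Differentiable ℂ q → ∃ y₁ y₂ : ℂ → ℂ,
  Differentiable ℂ y₁ ∧ Differentiable ℂ y₂ ∧ (∀ z, deriv (deriv y₁) z = -(q z * y₁ z)) ∧
    (∀ z, deriv (deriv y₂) z = -(q z * y₂ z)) ∧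
    ∀ z, y₁ z * deriv y₂ z - deriv y₁ z * y₂ z = 1

def StmDEV3 : Prop := ∀ (u : ℂ → ℝ) (y₁ y₂ : ℂ → ℂ), IsSol u →
  Differentiable ℂ y₁ → Differentiable ℂ y₂ → (∀ z, deriv (deriv y₁) z = -(sq u z * y₁ z)) →
    (∀ z, deriv (deriv y₂) z = -(sq u z * y₂ z)) →
    (∀ z, y₁ z * deriv y₂ z - deriv y₁ z * y₂ z = 1) → ∃ Y₁ Y₂ : ℂ → ℂ, Dev u Y₁ Y₂

def StmROT : Prop := ∀ (u : ℂ → ℝ) (y₁ y₂ : ℂ → ℂ) (a b : ℂ), Dev u y₁ y₂ →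
  ‖a‖ ^ 2 + ‖b‖ ^ 2 = 1 → Dev u (ro1 a b y₁ y₂) (ro2 a b y₁ y₂)

def StmFS : Prop :=
  (∀ a b c d e f : ℂ, (a ≠ 0 ∨ b ≠ 0) → (c ≠ 0 ∨ d ≠ 0) → (e ≠ 0 ∨ f ≠ 0) →
    sd a b e f ≤ sd a b c d + sd c d e f) ∧
  (∀ a b c d : ℂ, sd a b c d = sd c d a b) ∧
  (∀ k l a b c d : ℂ, k ≠ 0 → l ≠ 0 → sd (k * a) (k * b) (l * c) (l * d) = sd a b c d) ∧
  (∀ a b c d : ℂ, 0 ≤ sd a b c d ∧ sd a b c d ≤ Real.pi) ∧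
  (∀ w : ℂ, sd 1 0 1 w = 2 * Real.arctan ‖w‖) ∧
  (∀ w : ℂ, sd 0 1 1 w = Real.pi - 2 * Real.arctan ‖w‖) ∧
  (∀ a b c d : ℂ, (a ≠ 0 ∨ b ≠ 0) → (c ≠ 0 ∨ d ≠ 0) →
    (‖a‖ ^ 2 + ‖b‖ ^ 2) * (‖c‖ ^ 2 + ‖d‖ ^ 2) * (1 - cs a b c d ^ 2) = ‖a * d - b * c‖ ^ 2)

def StmLOW : Prop := ∀ (u : ℂ → ℝ) (y₁ y₂ : ℂ → ℂ), Dev u y₁ y₂ → ∀ (s t : ℂ) (L : ℝ),
  IsPath u s t L → sd (y₁ s) (y₂ s) (y₁ t) (y₂ t) ≤ L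

def StmCONN : Prop := ∀ u : ℂ → ℝ, Continuous u → (∀ p q : ℂ, ∃ L, IsPath u p q L) ∧
  (∀ (p q : ℂ) (L : ℝ), IsPath u p q L → 0 ≤ L) ∧
  (∀ (p q r : ℂ) (L₁ L₂ : ℝ), IsPath u p q L₁ → IsPath u q r L₂ → IsPath u p r (L₁ + L₂)) ∧
  (∀ (p q : ℂ) (L : ℝ), IsPath u p q L → IsPath u q p L)

def StmSPLIT : Prop := ∀ u : ℂ → ℝ, Continuous u → ∀ G A B : Set ℂ, IsOpen A → IsOpen B →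
  Disjoint A B → A ∪ B = Gᶜ → ∀ p ∈ A, ∀ q ∈ B, ∀ L : ℝ, IsPath u p q L →
    ∃ z ∈ G, ∃ L₁ L₂ : ℝ, IsPath u p z L₁ ∧ IsPath u z q L₂ ∧ L₁ + L₂ = L

def StmSTAR : Prop := ∀ (u : ℂ → ℝ) (y₁ y₂ : ℂ → ℂ), Dev u y₁ y₂ → ∀ x : ℂ, y₂ x = 0 →
  ∃ (D : Set ℂ) (h : ℂ → ℂ), IsStar y₁ y₂ x D h

def StmBLK0 : Prop := ∀ D : Set ℂ, StarSet D → ∀ (v : ℂ) (r : ℝ), 0 ≤ r → (r : ℂ) * v ∉ D →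
  ∃ R : ℝ, Blk D v R ∧ R ≤ r

def StmBLK : Prop := ∀ (u : ℂ → ℝ) (y₁ y₂ : ℂ → ℂ), Dev u y₁ y₂ →
  ∀ (x : ℂ) (D : Set ℂ) (h : ℂ → ℂ), IsStar y₁ y₂ x D h → ∀ (v : ℂ) (R : ℝ), v ≠ 0 →
    Blk D v R → Tendsto (fun r : ℝ => ‖h ((r : ℂ) * v)‖) (𝓝[<] R) atTop

def StmGR2 : Prop := ∀ (u : ℂ → ℝ) (y₁ y₂ : ℂ → ℂ), Dev u y₁ y₂ →
  ∀ (x : ℂ) (D : Set ℂ) (h : ℂ → ℂ), IsStar y₁ y₂ x D h → ∀ α β n : ℝ, α < β →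
    ¬ ∀ θ : ℝ, α < θ → θ < β → ∃ R : ℝ, R ≤ n ∧ Blk D (exp (θ * I)) R

def StmGROSS : Prop := ∀ (u : ℂ → ℝ) (y₁ y₂ : ℂ → ℂ), Dev u y₁ y₂ →
  ∀ (x : ℂ) (D : Set ℂ) (h : ℂ → ℂ), IsStar y₁ y₂ x D h → ∀ α β : ℝ, α < β →
    ∃ θ : ℝ, α < θ ∧ θ < β ∧ ∀ r : ℝ, 0 ≤ r → (r : ℂ) * exp (θ * I) ∈ D

def StmSEP0 : Prop := ∀ G U V : Set ℂ, IsClosed G → IsOpen U → IsOpen V → Disjoint U V →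
  Disjoint G U → Disjoint G V → IsPreconnected U → IsPreconnected V → IsOpen (G ∪ U ∪ V) →
    (∃ g ∈ G, g ∈ closure U ∧ g ∈ closure V) →
    ∃ A B : Set ℂ, IsOpen A ∧ IsOpen B ∧ Disjoint A B ∧ A ∪ B = Gᶜ ∧ U ⊆ A ∧ V ⊆ B

def StmSEP : Prop := ∀ (u : ℂ → ℝ) (y₁ y₂ : ℂ → ℂ), Dev u y₁ y₂ →
  ∀ (x : ℂ) (D : Set ℂ) (h : ℂ → ℂ), IsStar y₁ y₂ x D h → ∀ θ₁ θ₂ R₁ R₂ : ℝ, θ₁ < θ₂ →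
    θ₂ < θ₁ + 2 * Real.pi → Blk D (exp (θ₁ * I)) R₁ → Blk D (exp (θ₂ * I)) R₂ →
    ∃ A B : Set ℂ, IsOpen A ∧ IsOpen B ∧ Disjoint A B ∧
      A ∪ B = (h '' {w | ∃ r : ℝ, 0 ≤ r ∧
        (r < R₁ ∧ w = (r : ℂ) * exp (θ₁ * I) ∨ r < R₂ ∧ w = (r : ℂ) * exp (θ₂ * I))})ᶜ ∧
      (∀ r θ : ℝ, 0 < r → θ₁ < θ → θ < θ₂ → (r : ℂ) * exp (θ * I) ∈ D →
        h ((r : ℂ) * exp (θ * I)) ∈ A) ∧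
      (∀ r θ : ℝ, 0 < r → θ₂ < θ → θ < θ₁ + 2 * Real.pi → (r : ℂ) * exp (θ * I) ∈ D →
        h ((r : ℂ) * exp (θ * I)) ∈ B)

def StmPAIR : Prop := ∀ u : ℂ → ℝ, Continuous u → (∀ x y : ℂ, gdist u x y ≤ Real.pi) →
  PairProp u

def StmTRANS : Prop := ∀ (y₁ y₂ : ℂ → ℂ) (x : ℂ) (D : Set ℂ) (h : ℂ → ℂ) (w' : ℂ)
  (D' : Set ℂ) (h' : ℂ → ℂ), IsStar y₁ y₂ x D h → w' ∈ D →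
    IsStar (ro1 (ua w') (ub w') y₁ y₂) (ro2 (ua w') (ub w') y₁ y₂) (h w') D' h' →
    ∀ ω : ℂ, (∀ t : ℝ, 0 ≤ t → t ≤ 1 →
      1 - conj w' * ((t : ℂ) * ω) ≠ 0 ∧ Ti w' ((t : ℂ) * ω) ∈ D) → ω ∈ D' ∧ h' ω = h (Ti w' ω)

def StmLOC : Prop := ∀ (u : ℂ → ℝ) (y₁ y₂ : ℂ → ℂ), Dev u y₁ y₂ →
  ∀ (x : ℂ) (D : Set ℂ) (h : ℂ → ℂ), IsStar y₁ y₂ x D h → ∀ (v : ℂ) (R : ℝ), ‖v‖ = 1 →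
    Blk D v R → (∀ w : ℂ, (∀ r : ℝ, w ≠ (r : ℂ) * v) → w ∈ D) →
    ∀ w' : ℂ, (∀ r : ℝ, w' ≠ (r : ℂ) * v) → ∀ (D' : Set ℂ) (h' : ℂ → ℂ),
      IsStar (ro1 (ua w') (ub w') y₁ y₂) (ro2 (ua w') (ub w') y₁ y₂) (h w') D' h' →
      (∀ t : ℝ, 0 ≤ t → t < 1 → (t : ℂ) * Tm w' ((R : ℂ) * v) ∈ D') ∧
        Tm w' ((R : ℂ) * v) ∉ D' ∧ Tm w' ((R : ℂ) * v) ≠ 0

def StmANT : Prop := ∀ (u : ℂ → ℝ) (y₁ y₂ : ℂ → ℂ), Dev u y₁ y₂ → PairProp u →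
  ∀ (x : ℂ) (D : Set ℂ) (h : ℂ → ℂ), IsStar y₁ y₂ x D h → ∀ (v : ℂ) (R₁ R₂ : ℝ), ‖v‖ = 1 →
    Blk D v R₁ → Blk D (-v) R₂ → R₁ * R₂ = 1

def StmAFF : Prop := ∀ f : ℂ → ℂ, Differentiable ℂ f → Function.Injective f →
  ∃ a b : ℂ, a ≠ 0 ∧ ∀ z, f z = a * z + b

def StmC0 : Prop := ∀ (u : ℂ → ℝ) (y₁ y₂ : ℂ → ℂ), Dev u y₁ y₂ → ∀ (x : ℂ) (h : ℂ → ℂ),
  IsStar y₁ y₂ x univ h → IsRadial u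

def StmC1 : Prop := ∀ (u : ℂ → ℝ) (y₁ y₂ : ℂ → ℂ), Dev u y₁ y₂ →
  ∀ (x : ℂ) (D : Set ℂ) (h : ℂ → ℂ), IsStar y₁ y₂ x D h → ∀ (v : ℂ) (R : ℝ), ‖v‖ = 1 → 0 < R →
    D = {w | ∀ r : ℝ, R ≤ r → w ≠ (r : ℂ) * v} →
    ∀ w' : ℂ, (∀ r : ℝ, w' ≠ (r : ℂ) * v) → ∀ (D' : Set ℂ) (h' : ℂ → ℂ),
      IsStar (ro1 (ua w') (ub w') y₁ y₂) (ro2 (ua w') (ub w') y₁ y₂) (h w') D' h' →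
      D' = {ω | ∀ r : ℝ, 1 ≤ r → ω ≠ (r : ℂ) * Tm w' ((R : ℂ) * v)} → IsRadial u

/-- C2S: from the star of `z₁` (in the coordinates where `z₁` is the centre) to the strip -/
def StmC2S : Prop := ∀ (u : ℂ → ℝ) (Z₁ Z₂ : ℂ → ℂ), Dev u Z₁ Z₂ → ∀ z₁ ζ₁ : ℂ,
  ∀ (D : Set ℂ) (h : ℂ → ℂ),
    IsStar (ro1 (ua (exp ζ₁)) (ub (exp ζ₁)) Z₁ Z₂) (ro2 (ua (exp ζ₁)) (ub (exp ζ₁)) Z₁ Z₂)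
      z₁ D h →
    Blk D (exp (ζ₁.im * I)) (Real.exp (-ζ₁.re)) → Blk D (-exp (ζ₁.im * I)) (Real.exp ζ₁.re) →
    (∀ w : ℂ, (∀ r : ℝ, w ≠ (r : ℂ) * exp (ζ₁.im * I)) → w ∈ D) →
    ∃ k : ℂ → ℂ, Strip Z₁ Z₂ z₁ ζ₁ k

/-- C2B: in the strip every point has two opposite blocked directions -/
def StmC2B : Prop := ∀ (u : ℂ → ℝ) (Z₁ Z₂ : ℂ → ℂ), Dev u Z₁ Z₂ → ∀ (z ζ₀ : ℂ) (k : ℂ → ℂ),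
  Strip Z₁ Z₂ z ζ₀ k → ∀ ζ₁ : ℂ, |(ζ₁ - ζ₀).im| < Real.pi → ∀ (D : Set ℂ) (h : ℂ → ℂ),
    IsStar (ro1 (ua (exp ζ₁)) (ub (exp ζ₁)) Z₁ Z₂) (ro2 (ua (exp ζ₁)) (ub (exp ζ₁)) Z₁ Z₂)
      (k ζ₁) D h →
    Blk D (exp (ζ₁.im * I)) (Real.exp (-ζ₁.re)) ∧ Blk D (-exp (ζ₁.im * I)) (Real.exp ζ₁.re)

/-- one step of the continuation from strip to strip -/
def StepProp (Z₁ Z₂ : ℂ → ℂ) : Prop := ∀ (z ζ₀ : ℂ) (k : ℂ → ℂ), Strip Z₁ Z₂ z ζ₀ k →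
  ∀ ζ₁ : ℂ, |(ζ₁ - ζ₀).im| < Real.pi → ∃ k' : ℂ → ℂ, Strip Z₁ Z₂ (k ζ₁) ζ₁ k'

/-- C2C: the branches on strips define an entire function -/
def StmC2C : Prop := ∀ (u : ℂ → ℝ) (Z₁ Z₂ : ℂ → ℂ), Dev u Z₁ Z₂ → StepProp Z₁ Z₂ →
  ∀ (z ζ₀ : ℂ) (k : ℂ → ℂ), Strip Z₁ Z₂ z ζ₀ k → ∃ K : ℂ → ℂ, Differentiable ℂ K ∧
    (∀ ζ, Z₂ (K ζ) = exp ζ * Z₁ (K ζ)) ∧
    ∀ ζ : ℂ, Tendsto (fun t : ℝ => ‖K (ζ + t)‖) atTop atTop ∧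
      Tendsto (fun t : ℝ => ‖K (ζ + t)‖) atBot atTop

def StmC2D : Prop := ∀ (u : ℂ → ℝ) (Z₁ Z₂ : ℂ → ℂ), Dev u Z₁ Z₂ → ∀ K : ℂ → ℂ,
  Differentiable ℂ K → (∀ ζ, Z₂ (K ζ) = exp ζ * Z₁ (K ζ)) →
    (∀ ζ : ℂ, Tendsto (fun t : ℝ => ‖K (ζ + t)‖) atTop atTop ∧
      Tendsto (fun t : ℝ => ‖K (ζ + t)‖) atBot atTop) → Function.Surjective K

def StmC2E : Prop := ∀ (u : ℂ → ℝ) (Z₁ Z₂ : ℂ → ℂ), Dev u Z₁ Z₂ → ∀ K : ℂ → ℂ,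
  Differentiable ℂ K → Function.Surjective K → (∀ ζ, Z₂ (K ζ) = exp ζ * Z₁ (K ζ)) → IsOneDim u

def StmRAD : Prop := ∀ u : ℂ → ℝ, IsSol u → IsRadial u → ∃ (x₀ : ℂ) (l : ℝ), 0 < l ∧
  ∀ x, u x = Real.log (2 * l / (1 + l ^ 2 * ‖x - x₀‖ ^ 2))

def StmRADD : Prop := ∀ (u : ℂ → ℝ) (x₀ : ℂ) (l : ℝ), 0 < l →
  (∀ x, u x = Real.log (2 * l / (1 + l ^ 2 * ‖x - x₀‖ ^ 2))) →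
    IsLUB {r : ℝ | ∃ x y : ℂ, r = gdist u x y} Real.pi

def StmONE : Prop := ∀ u : ℂ → ℝ, IsSol u → IsOneDim u → ∃ (e : ℂ) (a s₀ : ℝ), ‖e‖ = 1 ∧
  0 < a ∧ ∀ x, u x = Real.log (a / Real.cosh (a * (inner ℝ e x - s₀)))

def StmONED : Prop := ∀ (u : ℂ → ℝ) (e : ℂ) (a s₀ : ℝ), ‖e‖ = 1 → 0 < a →
  (∀ x, u x = Real.log (a / Real.cosh (a * (inner ℝ e x - s₀)))) →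
    IsLUB {r : ℝ | ∃ x y : ℂ, r = gdist u x y} Real.pi

end Pool.Agent.T6.H85.LV
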