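import Mathlib
import Pool.Agent.T6.H85.LV.Stm

/-! Module DEV1: `u_zz - u_z²` is entire for the solutions of the Liouville equation. -/

set_option autoImplicit false

namespace Pool.Agent.T6.H85.LV

open Complex Filter Topology Set MeasureTheory
open scoped ComplexConjugate

namespace DEV1

/-- The real part of the gradient. -/
noncomputable def ga (u : ℂ → ℝ) (z : ℂ) : ℝ := fderiv ℝ u z 1

/-- The imaginary part of the gradient. -/
noncomputable def gb (u : ℂ → ℝ) (z : ℂ) : ℝ := fderiv ℝ u z I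

theorem cga {u : ℂ → ℝ} (hu : ContDiff ℝ 2 u) : ContDiff ℝ 1 (ga u) :=
  (hu.fderiv_right (m := 1) (by norm_num)).clm_apply contDiff_const

theorem cgb {u : ℂ → ℝ} (hu : ContDiff ℝ 2 u) : ContDiff ℝ 1 (gb u) :=
  (hu.fderiv_right (m := 1) (by norm_num)).clm_apply contDiff_const

theorem fga {u : ℂ → ℝ} (hu : ContDiff ℝ 2 u) (z v : ℂ) :
    fderiv ℝ (ga u) z v = fderiv ℝ (fderiv ℝ u) z v 1 := by
  have h := (hu.fderiv_right (m := 1) (by norm_num)).differentiable one_ne_zero
  have h1 : ga u = fun z => fderiv ℝ u z 1 := rfl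
  rw [h1, fderiv_clm_apply (h z) (differentiableAt_const _)]
  simp

theorem fgb {u : ℂ → ℝ} (hu : ContDiff ℝ 2 u) (z v : ℂ) :
    fderiv ℝ (gb u) z v = fderiv ℝ (fderiv ℝ u) z v I := by
  have h := (hu.fderiv_right (m := 1) (by norm_num)).differentiable one_ne_zero
  have h1 : gb u = fun z => fderiv ℝ u z I := rfl
  rw [h1, fderiv_clm_apply (h z) (differentiableAt_const _)]
  simp

theorem symm_ab {u : ℂ → ℝ} (hu : ContDiff ℝ 2 u) (z : ℂ) :
    fderiv ℝ (ga u) z I = fderiv ℝ (gb u) z 1 := by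
  rw [fga hu, fgb hu]
  exact (hu.contDiffAt.isSymmSndFDerivAt (by simp)).eq I 1

theorem lap {u : ℂ → ℝ} (hu : IsSol u) (z : ℂ) :
    fderiv ℝ (ga u) z 1 + fderiv ℝ (gb u) z I = -Real.exp (2 * u z) := by
  have h := hu.2 z
  rw [InnerProductSpace.laplacian_eq_iteratedFDeriv_complexPlane] at h
  simp only [iteratedFDeriv_two_apply, Matrix.cons_val_zero, Matrix.cons_val_one,
    Matrix.cons_val_fin_one] at h
  rw [fga hu.1, fgb hu.1]
  linarith

/-- The complex gradient. -/
noncomputable def U (u : ℂ → ℝ) (z : ℂ) : ℂ := ((ga u z : ℂ) - I * (gb u z : ℂ)) / 2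

theorem fderiv_ofReal {u : ℂ → ℝ} {z : ℂ} (hu : DifferentiableAt ℝ u z) (v : ℂ) :
    fderiv ℝ (fun z => (u z : ℂ)) z v = ((fderiv ℝ u z v : ℝ) : ℂ) := by
  have h := (ofRealCLM.hasFDerivAt (x := u z)).comp z hu.hasFDerivAt
  have h1 : (fun z => (u z : ℂ)) = ofRealCLM ∘ u := rfl
  rw [h1, h.fderiv]
  rfl

theorem Dz_eq {u : ℂ → ℝ} (hu : ContDiff ℝ 2 u) : Dz (fun z => (u z : ℂ)) = U u := by
  funext z
  have h := (hu.differentiable two_ne_zero) z
  unfold Dz U ga gb
  rw [fderiv_ofReal h, fderiv_ofReal h]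

theorem cU {u : ℂ → ℝ} (hu : ContDiff ℝ 2 u) : ContDiff ℝ 1 (U u) := by
  have ha : ContDiff ℝ 1 (fun z => (ga u z : ℂ)) := ofRealCLM.contDiff.comp (cga hu)
  have hb : ContDiff ℝ 1 (fun z => (gb u z : ℂ)) := ofRealCLM.contDiff.comp (cgb hu)
  exact (ha.sub (contDiff_const.mul hb)).div_const 2

theorem fU {u : ℂ → ℝ} (hu : ContDiff ℝ 2 u) (z v : ℂ) :
    fderiv ℝ (U u) z v = (((fderiv ℝ (ga u) z v : ℝ) : ℂ) - I * (fderiv ℝ (gb u) z v : ℝ)) / 2 := by
  have ha := (cga hu).differentiable one_ne_zero z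
  have hb := (cgb hu).differentiable one_ne_zero z
  have ha' := (ofRealCLM.hasFDerivAt (x := ga u z)).comp z ha.hasFDerivAt
  have hb' := (ofRealCLM.hasFDerivAt (x := gb u z)).comp z hb.hasFDerivAt
  have h := (ha'.sub (hb'.const_mul I)).mul_const' ((2 : ℂ)⁻¹)
  have h1 : U u = fun z => ((ofRealCLM ∘ ga u) z - I * (ofRealCLM ∘ gb u) z) * (2 : ℂ)⁻¹ := by
    funext z
    unfold U
    rw [div_eq_mul_inv]
    rfl
  have h2 : HasFDerivAt (U u) (MulOpposite.op ((2 : ℂ)⁻¹) • (ofRealCLM.comp (fderiv ℝ (ga u) z) -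
      I • ofRealCLM.comp (fderiv ℝ (gb u) z))) z := by
    rw [h1]
    exact h
  rw [h2.fderiv]
  simp [div_eq_mul_inv]

theorem Ux_add {u : ℂ → ℝ} (hu : IsSol u) (z : ℂ) :
    fderiv ℝ (U u) z 1 + I * fderiv ℝ (U u) z I = -(Real.exp (2 * u z) : ℂ) / 2 := by
  rw [fU hu.1, fU hu.1]
  have h1 := symm_ab hu.1 z
  have h2 := lap hu z
  rw [h1]
  have h3 : ((fderiv ℝ (ga u) z 1 : ℝ) : ℂ) = -(Real.exp (2 * u z) : ℂ) - (fderiv ℝ (gb u) z I : ℝ) := by
    have h4 := congrArg (fun t : ℝ => (t : ℂ)) h2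
    simp only [ofReal_add, ofReal_neg] at h4
    linear_combination h4
  rw [h3]
  linear_combination (-((fderiv ℝ (gb u) z I : ℝ) : ℂ) / 2) * I_sq

/-- The conjugate of an integral over an interval. -/
theorem iconj (f : ℝ → ℂ) (a b : ℝ) : ∫ x in a..b, conj (f x) = conj (∫ x in a..b, f x) := by
  unfold intervalIntegral
  rw [map_sub, ← integral_conj, ← integral_conj]

/-- Green's formula with the conjugate differential for a real function. -/
theorem green_conj (P : ℂ → ℂ) (hP : ContDiff ℝ 1 P) (hr : ∀ z, conj (P z) = P z) (z w : ℂ) :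
    (∫ x : ℝ in z.re..w.re, P (x + z.im * I)) - (∫ x : ℝ in z.re..w.re, P (x + w.im * I)) -
      I * (∫ y : ℝ in z.im..w.im, P (w.re + y * I)) +
      I * (∫ y : ℝ in z.im..w.im, P (z.re + y * I)) =
      ∫ x : ℝ in z.re..w.re, ∫ y : ℝ in z.im..w.im,
        conj (I * fderiv ℝ P (x + y * I) 1 - fderiv ℝ P (x + y * I) I) := by
  have h := Complex.integral_boundary_rect_of_differentiableOn_real P z w
    (hP.differentiable one_ne_zero).differentiableOn (by
      apply ContinuousOn.integrableOn_compact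
      · exact isCompact_uIcc.reProdIm isCompact_uIcc
      · apply Continuous.continuousOn
        have h1 := hP.continuous_fderiv one_ne_zero
        exact ((h1.clm_apply continuous_const).const_smul I).sub (h1.clm_apply continuous_const))
  have h2 := congrArg (fun t : ℂ => conj t) h
  simp only [smul_eq_mul, map_add, map_sub, map_mul, conj_I] at h2
  rw [← iconj, ← iconj, ← iconj, ← iconj, ← iconj] at h2
  simp only [← iconj, hr] at h2
  rw [← sub_eq_zero] at h2 ⊢
  rw [← h2]
  simp only [map_sub, map_mul, conj_I]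
  ring

theorem green (f : ℂ → ℂ) (hf : ContDiff ℝ 1 f) (z w : ℂ) :
    (∫ x : ℝ in z.re..w.re, f (x + z.im * I)) - (∫ x : ℝ in z.re..w.re, f (x + w.im * I)) +
      I * (∫ y : ℝ in z.im..w.im, f (w.re + y * I)) -
      I * (∫ y : ℝ in z.im..w.im, f (z.re + y * I)) =
      ∫ x : ℝ in z.re..w.re, ∫ y : ℝ in z.im..w.im,
        (I * fderiv ℝ f (x + y * I) 1 - fderiv ℝ f (x + y * I) I) := by
  have h := Complex.integral_boundary_rect_of_differentiableOn_real f z w
    (hf.differentiable one_ne_zero).differentiableOn (by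
      apply ContinuousOn.integrableOn_compact
      · exact isCompact_uIcc.reProdIm isCompact_uIcc
      · apply Continuous.continuousOn
        have h1 := hf.continuous_fderiv one_ne_zero
        exact ((h1.clm_apply continuous_const).const_smul I).sub (h1.clm_apply continuous_const))
  simpa only [smul_eq_mul] using h

/-- The function `e^{2u}`. -/
noncomputable def P (u : ℂ → ℝ) (z : ℂ) : ℂ := (Real.exp (2 * u z) : ℂ)

theorem cP {u : ℂ → ℝ} (hu : ContDiff ℝ 2 u) : ContDiff ℝ 1 (P u) := by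
  have h : ContDiff ℝ 1 (fun z => Real.exp (2 * u z)) :=
    Real.contDiff_exp.comp (contDiff_const.mul (hu.of_le (by norm_num)))
  exact ofRealCLM.contDiff.comp h

theorem fP {u : ℂ → ℝ} (hu : ContDiff ℝ 2 u) (z v : ℂ) :
    fderiv ℝ (P u) z v = P u z * (2 * (fderiv ℝ u z v : ℝ)) := by
  have h := (hu.differentiable two_ne_zero) z
  have h1 : HasFDerivAt (fun z => Real.exp (2 * u z)) (Real.exp (2 * u z) • ((2 : ℝ) • fderiv ℝ u z)) z :=
    (h.hasFDerivAt.const_mul 2).exp
  have h2 : fderiv ℝ (P u) z v = ((fderiv ℝ (fun z => Real.exp (2 * u z)) z v : ℝ) : ℂ) :=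
    fderiv_ofReal h1.differentiableAt v
  rw [h2, h1.fderiv]
  unfold P
  simp

theorem sq_eq {u : ℂ → ℝ} (hu : IsSol u) (z : ℂ) :
    sq u z = (fderiv ℝ (U u) z 1 - I * fderiv ℝ (U u) z I) / 2 - U u z ^ 2 := by
  unfold sq
  rw [Dz_eq hu.1]
  rfl

theorem sq_h {u : ℂ → ℝ} (hu : IsSol u) (z : ℂ) :
    sq u z = fderiv ℝ (U u) z 1 + (1 / 4) * P u z - U u z ^ 2 := by
  rw [sq_eq hu]
  have h := Ux_add hu z
  unfold P
  linear_combination (-1 / 2) * h

theorem sq_v {u : ℂ → ℝ} (hu : IsSol u) (z : ℂ) :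
    I * sq u z = fderiv ℝ (U u) z I - (I / 4) * P u z - I * U u z ^ 2 := by
  rw [sq_eq hu]
  have h := Ux_add hu z
  unfold P
  linear_combination (I / 2) * h - (fderiv ℝ (U u) z I) * I_sq

theorem sq_cont {u : ℂ → ℝ} (hu : IsSol u) : Continuous (sq u) := by
  have h : sq u = fun z => fderiv ℝ (U u) z 1 + (1 / 4) * P u z - U u z ^ 2 := funext (sq_h hu)
  rw [h]
  have h1 := (cU hu.1).continuous_fderiv one_ne_zero
  exact ((h1.clm_apply continuous_const).add (continuous_const.mul (cP hu.1).continuous)).sub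
    ((cU hu.1).continuous.pow 2)

theorem ftc_h {f : ℂ → ℂ} (hf : ContDiff ℝ 1 f) (a b c : ℝ) :
    ∫ x in a..b, fderiv ℝ f (x + c * I) 1 = f (b + c * I) - f (a + c * I) := by
  apply intervalIntegral.integral_eq_sub_of_hasDerivAt
  · intro x _
    have h1 : HasDerivAt (fun x : ℝ => (x : ℂ) + c * I) 1 x := ofRealCLM.hasDerivAt.add_const _
    exact ((hf.differentiable one_ne_zero) _).hasFDerivAt.comp_hasDerivAt x h1
  · apply Continuous.intervalIntegrable
    have h1 := hf.continuous_fderiv one_ne_zero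
    fun_prop

theorem ftc_v {f : ℂ → ℂ} (hf : ContDiff ℝ 1 f) (a b c : ℝ) :
    ∫ y in a..b, fderiv ℝ f (c + y * I) I = f (c + b * I) - f (c + a * I) := by
  apply intervalIntegral.integral_eq_sub_of_hasDerivAt
  · intro y _
    have h1 : HasDerivAt (fun y : ℝ => (c : ℂ) + (y : ℂ) * I) I y := by
      have h2 := ((ofRealCLM.hasDerivAt (x := y)).mul_const I).const_add (c : ℂ)
      simpa using h2
    exact ((hf.differentiable one_ne_zero) _).hasFDerivAt.comp_hasDerivAt y h1
  · apply Continuous.intervalIntegrable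
    have h1 := hf.continuous_fderiv one_ne_zero
    fun_prop

theorem fsq {f : ℂ → ℂ} (hf : ContDiff ℝ 1 f) (z v : ℂ) :
    fderiv ℝ (fun z => f z ^ 2) z v = 2 * f z * fderiv ℝ f z v := by
  have h := (hf.differentiable one_ne_zero) z
  have h1 := h.hasFDerivAt.pow 2
  rw [h1.fderiv]
  simp

theorem rect {u : ℂ → ℝ} (hu : IsSol u) (z w : ℂ) :
    (∫ x : ℝ in z.re..w.re, sq u (x + z.im * I)) - (∫ x : ℝ in z.re..w.re, sq u (x + w.im * I)) +
      I * (∫ y : ℝ in z.im..w.im, sq u (w.re + y * I)) -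
      I * (∫ y : ℝ in z.im..w.im, sq u (z.re + y * I)) = 0 := by
  have cu1 := (cU hu.1).continuous_fderiv one_ne_zero
  have cu := (cU hu.1).continuous
  have cp := (cP hu.1).continuous
  have hh : ∀ c : ℝ, ∫ x : ℝ in z.re..w.re, sq u (x + c * I) =
      (U u (w.re + c * I) - U u (z.re + c * I)) +
        (1 / 4) * (∫ x : ℝ in z.re..w.re, P u (x + c * I)) -
        ∫ x : ℝ in z.re..w.re, U u (x + c * I) ^ 2 := by
    intro c
    rw [← ftc_h (cU hu.1), ← intervalIntegral.integral_const_mul,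
      ← intervalIntegral.integral_add, ← intervalIntegral.integral_sub]
    · refine intervalIntegral.integral_congr fun x _ => ?_
      exact sq_h hu _
    all_goals
      apply Continuous.intervalIntegrable
      fun_prop
  have hv : ∀ c : ℝ, I * ∫ y : ℝ in z.im..w.im, sq u (c + y * I) =
      (U u (c + w.im * I) - U u (c + z.im * I)) -
        (I / 4) * (∫ y : ℝ in z.im..w.im, P u (c + y * I)) -
        I * ∫ y : ℝ in z.im..w.im, U u (c + y * I) ^ 2 := by
    intro c
    rw [← ftc_v (cU hu.1), ← intervalIntegral.integral_const_mul,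
      ← intervalIntegral.integral_const_mul, ← intervalIntegral.integral_const_mul,
      ← intervalIntegral.integral_sub, ← intervalIntegral.integral_sub]
    · refine intervalIntegral.integral_congr fun x _ => ?_
      exact sq_v hu _
    all_goals
      apply Continuous.intervalIntegrable
      fun_prop
  have g1 := green_conj (P u) (cP hu.1) (fun z => by unfold P; exact conj_ofReal _) z w
  have g2 := green (fun z => U u z ^ 2) ((cU hu.1).pow 2) z w
  have key : ∀ p : ℂ, conj (I * fderiv ℝ (P u) p 1 - fderiv ℝ (P u) p I) =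
      4 * (I * fderiv ℝ (fun z => U u z ^ 2) p 1 - fderiv ℝ (fun z => U u z ^ 2) p I) := by
    intro p
    rw [fP hu.1, fP hu.1, fsq (cU hu.1), fsq (cU hu.1)]
    have h := Ux_add hu p
    have hP : P u p = (Real.exp (2 * u p) : ℂ) := rfl
    rw [← hP] at h
    have hPc : conj (P u p) = P u p := by unfold P; exact conj_ofReal _
    have hU : U u p = ((fderiv ℝ u p 1 : ℝ) - I * (fderiv ℝ u p I : ℝ)) / 2 := rfl
    simp only [map_sub, map_mul, conj_I, hPc, conj_ofReal, map_ofNat]
    have e1 : (4 : ℂ) * (I * (2 * U u p * fderiv ℝ (U u) p 1) - 2 * U u p * fderiv ℝ (U u) p I) =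
        8 * I * U u p * (fderiv ℝ (U u) p 1 + I * fderiv ℝ (U u) p I) := by
      linear_combination (-8 * U u p * fderiv ℝ (U u) p I) * I_sq
    rw [e1, h, hU]
    linear_combination (-2 * P u p * (fderiv ℝ u p I : ℝ)) * I_sq
  have e2 : (∫ x : ℝ in z.re..w.re, ∫ y : ℝ in z.im..w.im,
        conj (I * fderiv ℝ (P u) (x + y * I) 1 - fderiv ℝ (P u) (x + y * I) I)) =
      4 * ∫ x : ℝ in z.re..w.re, ∫ y : ℝ in z.im..w.im,
        (I * fderiv ℝ (fun z => U u z ^ 2) (x + y * I) 1 -
          fderiv ℝ (fun z => U u z ^ 2) (x + y * I) I) := by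
    simp only [key, intervalIntegral.integral_const_mul]
  rw [e2, ← g2] at g1
  rw [hh, hh, hv, hv]
  linear_combination (1 / 4) * g1

end DEV1

open DEV1 in
theorem dev1 : StmDEV1 := by
  intro u hu
  rw [← differentiableOn_univ, ← isConservativeOn_and_continuousOn_iff_isDifferentiableOn isOpen_univ]
  refine ⟨?_, (sq_cont hu).continuousOn⟩
  intro z w _
  rw [← add_eq_zero_iff_eq_neg, wedgeIntegral_add_wedgeIntegral_eq]
  simp only [smul_eq_mul]
  exact rect hu z w

end Pool.Agent.T6.H85.LV
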