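import Pool.Agent.T6.H85.LV.Stm
import Pool.Agent.R402.EqG

/-! Module DEV2: entire solutions of `y'' = -q y` for entire `q`. -/

set_option autoImplicit false

namespace Pool.Agent.T6.H85.LV

open Complex Filter Topology Set

namespace DEV2

/-- Taylor coefficients -/
noncomputable def co (b : ℕ → ℂ) (c0 c1 : ℂ) : ℕ → ℂ
  | 0 => c0
  | 1 => c1
  | (n + 2) => -(∑ k : Fin (n + 1), b k.1 * co b c0 c1 (n - k.1)) / (((n : ℂ) + 2) * ((n : ℂ) + 1))
  decreasing_by omega

theorem co_zero (b : ℕ → ℂ) (c0 c1 : ℂ) : co b c0 c1 0 = c0 := by rw [co]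

theorem co_one (b : ℕ → ℂ) (c0 c1 : ℂ) : co b c0 c1 1 = c1 := by rw [co]

theorem co_succ (b : ℕ → ℂ) (c0 c1 : ℂ) (n : ℕ) : co b c0 c1 (n + 2) =
    -(∑ k ∈ Finset.range (n + 1), b k * co b c0 c1 (n - k)) / (((n : ℂ) + 2) * ((n : ℂ) + 1)) := by
  rw [co, Finset.sum_range]

theorem norm_cast_add (n m : ℕ) : ‖((n : ℂ) + m)‖ = (n : ℝ) + m := by
  have : ((n : ℂ) + m) = ((n + m : ℕ) : ℂ) := by push_cast; ring
  rw [this, Complex.norm_natCast]
  push_cast
  ring

theorem co_bdd (b : ℕ → ℂ) (hb : ∀ ρ : ℝ, 0 ≤ ρ → Summable (fun n => ‖b n‖ * ρ ^ n)) (c0 c1 : ℂ)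
    (R : ℝ) (hR : 0 ≤ R) : ∃ A : ℝ, 0 ≤ A ∧ ∀ n, ‖co b c0 c1 n‖ * R ^ n ≤ A := by
  obtain ⟨M, hM0, hM⟩ : ∃ M : ℝ, 0 ≤ M ∧ ∀ k, ‖b k‖ * R ^ k ≤ M := by
    refine ⟨∑' n, ‖b n‖ * R ^ n, tsum_nonneg fun n => by positivity, fun k => ?_⟩
    exact (hb R hR).le_tsum k fun n _ => by positivity
  obtain ⟨N, hN⟩ := exists_nat_ge (R ^ 2 * M)
  obtain ⟨A, hA⟩ : ∃ A, A = ∑ n ∈ Finset.range (N + 2), ‖co b c0 c1 n‖ * R ^ n := ⟨_, rfl⟩
  have hA0 : 0 ≤ A := by
    rw [hA]
    exact Finset.sum_nonneg fun n _ => by positivity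
  refine ⟨A, hA0, fun n => ?_⟩
  induction n using Nat.strong_induction_on with
  | _ n ih =>
    rcases lt_or_ge n (N + 2) with h | h
    · rw [hA]
      exact Finset.single_le_sum (f := fun n => ‖co b c0 c1 n‖ * R ^ n)
        (fun n _ => by positivity) (Finset.mem_range.2 h)
    · obtain ⟨j, rfl⟩ : ∃ j, n = j + 2 := ⟨n - 2, by omega⟩
      have hj : (N : ℝ) ≤ j := by
        have : N ≤ j := by omega
        exact_mod_cast this
      have h1 : ‖∑ k ∈ Finset.range (j + 1), b k * co b c0 c1 (j - k)‖ * R ^ j ≤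
          (j + 1) * (M * A) := by
        calc _ ≤ (∑ k ∈ Finset.range (j + 1), ‖b k * co b c0 c1 (j - k)‖) * R ^ j :=
              mul_le_mul_of_nonneg_right (norm_sum_le _ _) (by positivity)
          _ = ∑ k ∈ Finset.range (j + 1), (‖b k‖ * R ^ k) * (‖co b c0 c1 (j - k)‖ * R ^ (j - k)) := by
              rw [Finset.sum_mul]
              refine Finset.sum_congr rfl fun k hk => ?_
              have hk' : k ≤ j := by have := Finset.mem_range.1 hk; omega
              have : R ^ j = R ^ k * R ^ (j - k) := by rw [← pow_add]; congr 1; omega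
              rw [norm_mul, this]
              ring
          _ ≤ ∑ k ∈ Finset.range (j + 1), M * A := by
              refine Finset.sum_le_sum fun k hk => ?_
              exact mul_le_mul (hM k) (ih (j - k) (by omega)) (by positivity) hM0
          _ = (j + 1) * (M * A) := by simp
      rw [co_succ, norm_div, norm_neg, norm_mul]
      have e2 : ‖((j : ℂ) + 2)‖ = (j : ℝ) + 2 := by
        have := norm_cast_add j 2
        exact_mod_cast this
      have e1 : ‖((j : ℂ) + 1)‖ = (j : ℝ) + 1 := by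
        have := norm_cast_add j 1
        exact_mod_cast this
      rw [e1, e2, div_mul_eq_mul_div, div_le_iff₀ (by positivity)]
      have h2 : ‖∑ k ∈ Finset.range (j + 1), b k * co b c0 c1 (j - k)‖ * R ^ (j + 2) ≤
          R ^ 2 * ((j + 1) * (M * A)) := by
        have : R ^ (j + 2) = R ^ 2 * R ^ j := by ring
        rw [this]
        calc _ = R ^ 2 * (‖∑ k ∈ Finset.range (j + 1), b k * co b c0 c1 (j - k)‖ * R ^ j) := by ring
          _ ≤ _ := mul_le_mul_of_nonneg_left h1 (by positivity)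
      have h3 : R ^ 2 * M * ((j + 1) * A) ≤ (j + 2) * ((j + 1) * A) :=
        mul_le_mul_of_nonneg_right (by linarith) (by positivity)
      calc _ ≤ R ^ 2 * ((j + 1) * (M * A)) := h2
        _ = R ^ 2 * M * ((j + 1) * A) := by ring
        _ ≤ (j + 2) * ((j + 1) * A) := h3
        _ = _ := by ring

theorem co_summ (b : ℕ → ℂ) (hb : ∀ ρ : ℝ, 0 ≤ ρ → Summable (fun n => ‖b n‖ * ρ ^ n)) (c0 c1 : ℂ)
    (ρ : ℝ) (hρ : 0 ≤ ρ) : Summable (fun n => ‖co b c0 c1 n‖ * ρ ^ n) := by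
  obtain ⟨A, hA0, hA⟩ := co_bdd b hb c0 c1 (2 * ρ) (by positivity)
  have h1 : Summable (fun n : ℕ => A * (1 / 2 : ℝ) ^ n) :=
    (summable_geometric_of_lt_one (by norm_num) (by norm_num)).mul_left A
  refine Summable.of_nonneg_of_le (fun n => by positivity) (fun n => ?_) h1
  have h2 := hA n
  rw [mul_pow] at h2
  have h3 : (1 / 2 : ℝ) ^ n * 2 ^ n = 1 := by rw [← mul_pow]; norm_num
  calc ‖co b c0 c1 n‖ * ρ ^ n = (‖co b c0 c1 n‖ * (2 ^ n * ρ ^ n)) * (1 / 2) ^ n := by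
        linear_combination (-(‖co b c0 c1 n‖ * ρ ^ n)) * h3
    _ ≤ A * (1 / 2) ^ n := mul_le_mul_of_nonneg_right h2 (by positivity)

theorem sol {q : ℂ → ℂ} (hq : Differentiable ℂ q) (c0 c1 : ℂ) : ∃ y y' : ℂ → ℂ,
    (∀ z, HasDerivAt y (y' z) z) ∧ (∀ z, HasDerivAt y' (-(q z * y z)) z) ∧ y 0 = c0 ∧
      y' 0 = c1 := by
  obtain ⟨b, hbd⟩ : ∃ b : ℕ → ℂ, b = fun n => ((n.factorial : ℂ))⁻¹ * iteratedDeriv n q 0 :=
    ⟨_, rfl⟩
  have hqs : ∀ z, HasSum (fun n => b n * z ^ n) (q z) := by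
    intro z
    have h := Complex.hasSum_taylorSeries_of_entire hq 0 z
    have e : (fun n => b n * z ^ n) =
        fun n : ℕ => ((n.factorial : ℂ))⁻¹ • (z - 0) ^ n • iteratedDeriv n q 0 := by
      funext n
      rw [hbd, sub_zero, smul_eq_mul, smul_eq_mul]
      ring
    rw [e]
    exact h
  have hb : ∀ ρ : ℝ, 0 ≤ ρ → Summable (fun n => ‖b n‖ * ρ ^ n) := by
    intro ρ hρ
    have h := (hqs (ρ : ℂ)).summable.norm
    refine h.congr fun n => ?_
    rw [norm_mul, norm_pow, Complex.norm_real, Real.norm_of_nonneg hρ]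
  obtain ⟨a, ha⟩ : ∃ a, a = co b c0 c1 := ⟨_, rfl⟩
  have has : ∀ ρ : ℝ, 0 ≤ ρ → Summable (fun n => ‖a n‖ * ρ ^ n) := by
    rw [ha]; exact co_summ b hb c0 c1
  have has' := Pool.Agent.R402.Eq.ps_summ' has
  refine ⟨fun z => ∑' n, a n * z ^ n, fun z => ∑' n : ℕ, (((n : ℂ) + 1) * a (n + 1)) * z ^ n,
    Pool.Agent.R402.Eq.ps_deriv has, fun z => ?_, ?_, ?_⟩
  · have h1 := Pool.Agent.R402.Eq.ps_deriv has' z
    refine h1.congr_deriv ?_
    have hbn : Summable (fun n => ‖b n * z ^ n‖) := (hqs z).summable.norm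
    have han : Summable (fun n => ‖a n * z ^ n‖) := by
      refine (has ‖z‖ (norm_nonneg _)).congr fun n => ?_
      rw [norm_mul, norm_pow]
    rw [← (hqs z).tsum_eq, tsum_mul_tsum_eq_tsum_sum_range_of_summable_norm hbn han, ← tsum_neg]
    refine tsum_congr fun n => ?_
    have h2 : ∑ k ∈ Finset.range (n + 1), b k * z ^ k * (a (n - k) * z ^ (n - k)) =
        (∑ k ∈ Finset.range (n + 1), b k * a (n - k)) * z ^ n := by
      rw [Finset.sum_mul]
      refine Finset.sum_congr rfl fun k hk => ?_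
      have hk' : k ≤ n := by have := Finset.mem_range.1 hk; omega
      have : z ^ n = z ^ k * z ^ (n - k) := by rw [← pow_add]; congr 1; omega
      rw [this]
      ring
    rw [h2]
    have h3 := co_succ b c0 c1 n
    rw [← ha] at h3
    have e2 : ((n : ℂ) + 2) ≠ 0 := by
      have : ((n : ℂ) + 2) = ((n + 2 : ℕ) : ℂ) := by push_cast; ring
      rw [this]
      exact Nat.cast_ne_zero.2 (by omega)
    have e1 : ((n : ℂ) + 1) ≠ 0 := Nat.cast_add_one_ne_zero n
    have h4 : a (n + 1 + 1) * (((n : ℂ) + 2) * ((n : ℂ) + 1)) =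
        -(∑ k ∈ Finset.range (n + 1), b k * a (n - k)) := by
      rw [show n + 1 + 1 = n + 2 from rfl, h3]
      field_simp
    push_cast
    linear_combination (z ^ n) * h4
  · simp only
    rw [tsum_eq_single 0 (fun n hn => by rw [zero_pow hn, mul_zero])]
    rw [ha, co_zero]
    simp
  · simp only
    rw [tsum_eq_single 0 (fun n hn => by rw [zero_pow hn, mul_zero])]
    rw [ha]
    simp [co_one]

end DEV2

theorem dev2 : StmDEV2 := by
  intro q hq
  obtain ⟨y₁, y₁', h1, h1', h10, h11⟩ := DEV2.sol hq 1 0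
  obtain ⟨y₂, y₂', h2, h2', h20, h21⟩ := DEV2.sol hq 0 1
  have e1 : deriv y₁ = y₁' := funext fun z => (h1 z).deriv
  have e2 : deriv y₂ = y₂' := funext fun z => (h2 z).deriv
  refine ⟨y₁, y₂, fun z => (h1 z).differentiableAt, fun z => (h2 z).differentiableAt,
    fun z => by rw [e1]; exact (h1' z).deriv, fun z => by rw [e2]; exact (h2' z).deriv, ?_⟩
  rw [e1, e2]
  have hW : ∀ z, HasDerivAt (fun z => y₁ z * y₂' z - y₁' z * y₂ z) 0 z := by
    intro z
    refine (((h1 z).mul (h2' z)).sub ((h1' z).mul (h2 z))).congr_deriv ?_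
    ring
  intro z
  have h := is_const_of_deriv_eq_zero (fun z => (hW z).differentiableAt)
    (fun z => (hW z).deriv) z 0
  rw [h, h10, h11, h20, h21]
  ring

end Pool.Agent.T6.H85.LV
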