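import Mathlib
import Pool.Agent.T6.H85.LV.Stm
import Pool.Agent.T6.H85.LV.DEV1

/-! Module DEV3: the developing pair. -/

set_option autoImplicit false

namespace Pool.Agent.T6.H85.LV

open Complex Filter Topology Set
open scoped ComplexConjugate

namespace DEV3

open DEV1

/-! ### Derivatives -/

theorem dh {f : ℂ → ℂ} (hf : Differentiable ℂ f) (z v : ℂ) :
    fderiv ℝ f z v = deriv f z * v := by
  rw [(hf z).hasDerivAt.complexToReal_fderiv.fderiv]
  simp

theorem rh {f : ℂ → ℂ} (hf : Differentiable ℂ f) : Differentiable ℝ f :=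
  fun z => (hf z).restrictScalars ℝ

theorem dconj {f : ℂ → ℂ} {z : ℂ} (hf : DifferentiableAt ℝ f z) (v : ℂ) :
    fderiv ℝ (fun z => conj (f z)) z v = conj (fderiv ℝ f z v) := by
  have h := (conjCLE.toContinuousLinearMap.hasFDerivAt (x := f z)).comp z hf.hasFDerivAt
  have h1 : (fun z => conj (f z)) = conjCLE ∘ f := rfl
  rw [h1]
  have h2 : fderiv ℝ (conjCLE ∘ f) z = _ := h.fderiv
  rw [h2]
  rfl

theorem rconj {f : ℂ → ℂ} {z : ℂ} (hf : DifferentiableAt ℝ f z) :
    DifferentiableAt ℝ (fun z => conj (f z)) z :=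
  ((conjCLE.toContinuousLinearMap.hasFDerivAt (x := f z)).comp z hf.hasFDerivAt).differentiableAt

theorem dmul {f g : ℂ → ℂ} {z : ℂ} (hf : DifferentiableAt ℝ f z) (hg : DifferentiableAt ℝ g z)
    (v : ℂ) : fderiv ℝ (fun z => f z * g z) z v = f z * fderiv ℝ g z v + g z * fderiv ℝ f z v := by
  rw [fderiv_fun_mul hf hg]
  rfl

/-- Differentiation of a sum of products of holomorphic and antiholomorphic functions. -/
theorem dd {n : ℕ} (f g : Fin n → ℂ → ℂ) (hf : ∀ i, Differentiable ℂ (f i))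
    (hg : ∀ i, Differentiable ℂ (g i)) (h : ∀ z, ∑ i, f i z * conj (g i z) = 0) :
    (∀ z, ∑ i, deriv (f i) z * conj (g i z) = 0) ∧
      ∀ z, ∑ i, f i z * conj (deriv (g i) z) = 0 := by
  have key : ∀ z v : ℂ, ∑ i, (f i z * (conj (deriv (g i) z) * conj v) +
      conj (g i z) * (deriv (f i) z * v)) = 0 := by
    intro z v
    have h1 : (fun z => ∑ i, f i z * conj (g i z)) = fun _ => (0 : ℂ) := funext h
    have h2 : fderiv ℝ (fun z => ∑ i, f i z * conj (g i z)) z v = 0 := by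
      rw [h1]
      simp
    have h5 : ∀ i ∈ (Finset.univ : Finset (Fin n)),
        DifferentiableAt ℝ (fun z => f i z * conj (g i z)) z :=
      fun i _ => ((rh (hf i)) z).mul (rconj ((rh (hg i)) z))
    rw [fderiv_fun_sum h5] at h2
    rw [sum_apply] at h2
    rw [← h2]
    refine Finset.sum_congr rfl fun i _ => ?_
    rw [dmul ((rh (hf i)) z) (rconj ((rh (hg i)) z)), dconj ((rh (hg i)) z), dh (hf i), dh (hg i),
      map_mul]
  have k1 : ∀ z, (∑ i, f i z * conj (deriv (g i) z)) + ∑ i, deriv (f i) z * conj (g i z) = 0 := by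
    intro z
    rw [← key z 1, ← Finset.sum_add_distrib]
    refine Finset.sum_congr rfl fun i _ => ?_
    rw [map_one]
    ring
  have k2 : ∀ z, (∑ i, f i z * conj (deriv (g i) z)) - ∑ i, deriv (f i) z * conj (g i z) = 0 := by
    intro z
    have h3 := key z I
    rw [conj_I] at h3
    have h4 : -I * ((∑ i, f i z * conj (deriv (g i) z)) - ∑ i, deriv (f i) z * conj (g i z)) = 0 := by
      rw [← h3, ← Finset.sum_sub_distrib, Finset.mul_sum]
      refine Finset.sum_congr rfl fun i _ => ?_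
      ring
    rcases mul_eq_zero.1 h4 with h5 | h5
    · simp at h5
    · exact h5
  constructor
  · intro z
    linear_combination (1 / 2) * k1 z - (1 / 2) * k2 z
  · intro z
    linear_combination (1 / 2) * k1 z + (1 / 2) * k2 z

section pair

variable {y₁ y₂ : ℂ → ℂ} (d1 : Differentiable ℂ y₁) (d2 : Differentiable ℂ y₂)
  (W : ∀ z, y₁ z * deriv y₂ z - deriv y₁ z * y₂ z = 1)

include d1 d2 W

theorem li {c₁ c₂ : ℂ → ℂ} (h1 : Differentiable ℂ c₁) (h2 : Differentiable ℂ c₂)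
    (h : ∀ z, c₁ z * conj (y₁ z) + c₂ z * conj (y₂ z) = 0) : (∀ z, c₁ z = 0) ∧ ∀ z, c₂ z = 0 := by
  have h3 := (dd ![c₁, c₂] ![y₁, y₂] (by intro i; fin_cases i <;> assumption)
    (by intro i; fin_cases i <;> assumption) (by
      intro z
      rw [Fin.sum_univ_two]
      exact h z)).2
  simp only [Fin.sum_univ_two, Matrix.cons_val_zero, Matrix.cons_val_one,
    Matrix.cons_val_fin_one] at h3
  have Wc : ∀ z, conj (y₁ z) * conj (deriv y₂ z) - conj (deriv y₁ z) * conj (y₂ z) = 1 := by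
    intro z
    have := congrArg (fun t => conj t) (W z)
    simpa using this
  constructor
  · intro z
    linear_combination (conj (deriv y₂ z)) * h z - (conj (y₂ z)) * h3 z - c₁ z * Wc z
  · intro z
    linear_combination (conj (y₁ z)) * h3 z - (conj (deriv y₁ z)) * h z - c₂ z * Wc z

theorem li0 {c d : ℂ} (h : ∀ z, c * y₁ z + d * y₂ z = 0) : c = 0 ∧ d = 0 := by
  have h1 : ∀ z, c * deriv y₁ z + d * deriv y₂ z = 0 := by
    intro z
    have h2 : HasDerivAt (fun z => c * y₁ z + d * y₂ z) (c * deriv y₁ z + d * deriv y₂ z) z :=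
      ((d1 z).hasDerivAt.const_mul c).add ((d2 z).hasDerivAt.const_mul d)
    have h3 : (fun z => c * y₁ z + d * y₂ z) = fun _ => (0 : ℂ) := funext h
    rw [h3] at h2
    exact h2.unique (hasDerivAt_const z 0)
  constructor
  · linear_combination (deriv y₂ 0) * h 0 - (y₂ 0) * h1 0 - c * W 0
  · linear_combination (y₁ 0) * h1 0 - (deriv y₁ 0) * h 0 - d * W 0

/-- The solutions of the linear equation. -/
theorem sol {q a : ℂ → ℂ} (e1 : ∀ z, deriv (deriv y₁) z = -(q z * y₁ z))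
    (e2 : ∀ z, deriv (deriv y₂) z = -(q z * y₂ z)) (da : Differentiable ℂ a)
    (ea : ∀ z, deriv (deriv a) z = -(q z * a z)) :
    ∃ α β : ℂ, ∀ z, a z = α * y₁ z + β * y₂ z := by
  have dy1 : Differentiable ℂ (deriv y₁) := d1.deriv
  have dy2 : Differentiable ℂ (deriv y₂) := d2.deriv
  have da' : Differentiable ℂ (deriv a) := da.deriv
  have c1 : ∀ z, a z * deriv y₂ z - deriv a z * y₂ z = a 0 * deriv y₂ 0 - deriv a 0 * y₂ 0 := by
    intro z
    apply is_const_of_deriv_eq_zero (f := fun z => a z * deriv y₂ z - deriv a z * y₂ z)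
    · exact (da.mul dy2).sub (da'.mul d2)
    · intro z
      have h : HasDerivAt (fun z => a z * deriv y₂ z - deriv a z * y₂ z)
          ((deriv a z * deriv y₂ z + a z * deriv (deriv y₂) z) -
            (deriv (deriv a) z * y₂ z + deriv a z * deriv y₂ z)) z :=
        ((da z).hasDerivAt.mul (dy2 z).hasDerivAt).sub
          ((da' z).hasDerivAt.mul (d2 z).hasDerivAt)
      rw [h.deriv, e2, ea]
      ring
  have c2 : ∀ z, deriv a z * y₁ z - a z * deriv y₁ z = deriv a 0 * y₁ 0 - a 0 * deriv y₁ 0 := by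
    intro z
    apply is_const_of_deriv_eq_zero (f := fun z => deriv a z * y₁ z - a z * deriv y₁ z)
    · exact (da'.mul d1).sub (da.mul dy1)
    · intro z
      have h : HasDerivAt (fun z => deriv a z * y₁ z - a z * deriv y₁ z)
          ((deriv (deriv a) z * y₁ z + deriv a z * deriv y₁ z) -
            (deriv a z * deriv y₁ z + a z * deriv (deriv y₁) z)) z :=
        ((da' z).hasDerivAt.mul (d1 z).hasDerivAt).sub
          ((da z).hasDerivAt.mul (dy1 z).hasDerivAt)
      rw [h.deriv, e1, ea]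
      ring
  refine ⟨a 0 * deriv y₂ 0 - deriv a 0 * y₂ 0, deriv a 0 * y₁ 0 - a 0 * deriv y₁ 0, ?_⟩
  intro z
  rw [← c1 z, ← c2 z]
  linear_combination (-(a z)) * W z

end pair

/-! ### The antiholomorphic functions -/

/-- The function `e^{-u}`. -/
noncomputable def E (u : ℂ → ℝ) (z : ℂ) : ℂ := (Real.exp (-(u z)) : ℂ)

theorem dE {u : ℂ → ℝ} (hu : ContDiff ℝ 2 u) (z : ℂ) :
    DifferentiableAt ℝ (E u) z ∧ ∀ v, fderiv ℝ (E u) z v = -(E u z * (fderiv ℝ u z v : ℝ)) := by
  have h := (hu.differentiable two_ne_zero) z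
  have h1 : HasFDerivAt (fun z => Real.exp (-(u z))) (Real.exp (-(u z)) • (-fderiv ℝ u z)) z :=
    h.hasFDerivAt.neg.exp
  constructor
  · have := (ofRealCLM.hasFDerivAt (x := Real.exp (-(u z)))).comp z h1
    exact this.differentiableAt
  · intro v
    have h2 : fderiv ℝ (E u) z v = ((fderiv ℝ (fun z => Real.exp (-(u z))) z v : ℝ) : ℂ) :=
      fderiv_ofReal h1.differentiableAt v
    rw [h2, h1.fderiv]
    unfold E
    simp

/-- The function `E (y' + U y)`. -/
noncomputable def A (u : ℂ → ℝ) (y : ℂ → ℂ) (z : ℂ) : ℂ := E u z * (deriv y z + U u z * y z)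

theorem dA {u : ℂ → ℝ} (hu : IsSol u) {y : ℂ → ℂ} (dy : Differentiable ℂ y)
    (ey : ∀ z, deriv (deriv y) z = -(sq u z * y z)) (z : ℂ) :
    DifferentiableAt ℝ (A u y) z ∧ ∀ v, fderiv ℝ (A u y) z v =
      E u z * (-(sq u z * y z) * v + (U u z * (deriv y z * v) + y z * fderiv ℝ (U u) z v)) -
        (deriv y z + U u z * y z) * (E u z * (fderiv ℝ u z v : ℝ)) := by
  obtain ⟨hE, hE'⟩ := dE hu.1 z
  have hU := (cU hu.1).differentiable one_ne_zero z
  have hy := rh dy z
  have hy' := rh dy.deriv z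
  have hs : DifferentiableAt ℝ (fun z => deriv y z + U u z * y z) z := hy'.add (hU.mul hy)
  constructor
  · exact hE.mul hs
  · intro v
    have h1 : fderiv ℝ (A u y) z v = E u z * fderiv ℝ (fun z => deriv y z + U u z * y z) z v +
        (deriv y z + U u z * y z) * fderiv ℝ (E u) z v := dmul hE hs v
    have h2 : fderiv ℝ (fun z => deriv y z + U u z * y z) z v =
        fderiv ℝ (deriv y) z v + fderiv ℝ (fun z => U u z * y z) z v := by
      have hm : DifferentiableAt ℝ (fun z => U u z * y z) z := hU.mul hy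
      rw [fderiv_fun_add hy' hm]
      rfl
    rw [h1, h2, dmul hU hy, dh dy.deriv, dh dy, ey, hE']
    ring

theorem conjA {u : ℂ → ℝ} (hu : IsSol u) {y : ℂ → ℂ} (dy : Differentiable ℂ y)
    (ey : ∀ z, deriv (deriv y) z = -(sq u z * y z)) :
    Differentiable ℂ (fun z => conj (A u y z)) := by
  intro z
  obtain ⟨h1, h2⟩ := dA hu dy ey z
  rw [differentiableAt_complex_iff_differentiableAt_real]
  refine ⟨rconj h1, ?_⟩
  rw [dconj h1, dconj h1]
  have h3 : fderiv ℝ (A u y) z 1 = I * fderiv ℝ (A u y) z I := by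
    rw [h2, h2]
    have hq := sq_eq hu z
    have hU : U u z = ((fderiv ℝ u z 1 : ℝ) - I * (fderiv ℝ u z I : ℝ)) / 2 := rfl
    have hU2 : ((fderiv ℝ u z 1 : ℝ) : ℂ) = 2 * U u z + I * (fderiv ℝ u z I : ℝ) := by
      rw [hU]
      ring
    rw [hU2]
    linear_combination (-2 * E u z * y z) * hq -
      (E u z * (-(sq u z * y z) + U u z * deriv y z)) * I_sq
  rw [h3, map_mul, conj_I, smul_eq_mul]
  linear_combination (conj (fderiv ℝ (A u y) z I)) * I_sq

/-- The numbers in the Hermitian form. -/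
theorem coeffs {u : ℂ → ℝ} (hu : IsSol u) {y₁ y₂ : ℂ → ℂ} (d1 : Differentiable ℂ y₁)
    (d2 : Differentiable ℂ y₂) (W : ∀ z, y₁ z * deriv y₂ z - deriv y₁ z * y₂ z = 1)
    (e1 : ∀ z, deriv (deriv y₁) z = -(sq u z * y₁ z))
    (e2 : ∀ z, deriv (deriv y₂) z = -(sq u z * y₂ z)) :
    ∃ (α δ : ℝ) (β : ℂ), (∀ z, E u z = α * (y₁ z * conj (y₁ z)) + conj β * (y₁ z * conj (y₂ z)) +
      β * (y₂ z * conj (y₁ z)) + δ * (y₂ z * conj (y₂ z))) ∧
      (α : ℂ) * δ - β * conj β = 1 / 4 := by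
  have hq := dev1 u hu
  set a : ℂ → ℂ := fun z => conj (A u y₂ z) with ha
  set b : ℂ → ℂ := fun z => -conj (A u y₁ z) with hb
  have da : Differentiable ℂ a := conjA hu d2 e2
  have db : Differentiable ℂ b := (conjA hu d1 e1).neg
  have ca : ∀ z, conj (a z) = A u y₂ z := by
    intro z
    rw [ha]
    simp
  have cb : ∀ z, conj (b z) = -A u y₁ z := by
    intro z
    rw [hb]
    simp
  -- E = conj a y₁ + conj b y₂
  have hE : ∀ z, E u z = conj (a z) * y₁ z + conj (b z) * y₂ z := by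
    intro z
    rw [ca, cb]
    unfold A
    linear_combination (-(E u z)) * W z
  have cE : ∀ z, conj (E u z) = E u z := fun z => conj_ofReal _
  have hE2 : ∀ z, E u z = a z * conj (y₁ z) + b z * conj (y₂ z) := by
    intro z
    rw [← cE, hE]
    simp
  -- the second derivatives
  have h4 : ∀ z, ∑ i, (![a, b, fun z => -y₁ z, fun z => -y₂ z] : Fin 4 → ℂ → ℂ) i z *
      conj ((![y₁, y₂, a, b] : Fin 4 → ℂ → ℂ) i z) = 0 := by
    intro z
    simp only [Fin.sum_univ_four, Matrix.cons_val]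
    linear_combination hE z - hE2 z
  have dn1 : Differentiable ℂ (fun z => -y₁ z) := d1.neg
  have dn2 : Differentiable ℂ (fun z => -y₂ z) := d2.neg
  have h5 := (dd _ _ (by intro i; fin_cases i <;> assumption)
    (by intro i; fin_cases i <;> assumption) h4).1
  have da' := da.deriv
  have db' := db.deriv
  have dn1' := dn1.deriv
  have dn2' := dn2.deriv
  have h6 : ∀ z, ∑ i, (![deriv a, deriv b, deriv (fun z => -y₁ z), deriv (fun z => -y₂ z)] :
      Fin 4 → ℂ → ℂ) i z * conj ((![y₁, y₂, a, b] : Fin 4 → ℂ → ℂ) i z) = 0 := by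
    intro z
    rw [← h5 z]
    simp only [Fin.sum_univ_four, Matrix.cons_val]
  have h7 := (dd _ _ (by intro i; fin_cases i <;> assumption)
    (by intro i; fin_cases i <;> assumption) h6).1
  have n1 : ∀ z, deriv (deriv (fun z => -y₁ z)) z = sq u z * y₁ z := by
    intro z
    have e : deriv (fun z => -y₁ z) = fun z => -deriv y₁ z := by
      funext z
      exact deriv.fun_neg
    rw [e, deriv.fun_neg, e1]
    ring
  have n2 : ∀ z, deriv (deriv (fun z => -y₂ z)) z = sq u z * y₂ z := by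
    intro z
    have e : deriv (fun z => -y₂ z) = fun z => -deriv y₂ z := by
      funext z
      exact deriv.fun_neg
    rw [e, deriv.fun_neg, e2]
    ring
  have h8 : ∀ z, (deriv (deriv a) z + sq u z * a z) * conj (y₁ z) +
      (deriv (deriv b) z + sq u z * b z) * conj (y₂ z) = 0 := by
    intro z
    have h9 := h7 z
    simp only [Fin.sum_univ_four, Matrix.cons_val] at h9
    rw [n1, n2] at h9
    linear_combination h9 + sq u z * (hE z - hE2 z)
  obtain ⟨ea, eb⟩ := li d1 d2 W (da'.deriv.add (hq.mul da)) (db'.deriv.add (hq.mul db)) h8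
  have ea' : ∀ z, deriv (deriv a) z = -(sq u z * a z) := by
    intro z
    have h : deriv (deriv a) z + sq u z * a z = 0 := ea z
    linear_combination h
  have eb' : ∀ z, deriv (deriv b) z = -(sq u z * b z) := by
    intro z
    have h : deriv (deriv b) z + sq u z * b z = 0 := eb z
    linear_combination h
  obtain ⟨α, β, hab⟩ := sol d1 d2 W e1 e2 da ea'
  obtain ⟨γ, δ, hgd⟩ := sol d1 d2 W e1 e2 db eb'
  -- reality
  have h10 : ∀ z, ((α - conj α) * y₁ z + (β - conj γ) * y₂ z) * conj (y₁ z) +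
      ((γ - conj β) * y₁ z + (δ - conj δ) * y₂ z) * conj (y₂ z) = 0 := by
    intro z
    have h11 := hE z
    have h12 := hE2 z
    rw [hab z, hgd z] at h11 h12
    simp only [map_add, map_mul] at h11
    linear_combination h11 - h12
  obtain ⟨h13, h14⟩ := li d1 d2 W ((d1.const_mul _).add (d2.const_mul _))
    ((d1.const_mul _).add (d2.const_mul _)) h10
  obtain ⟨r1, r2⟩ := li0 d1 d2 W h13
  obtain ⟨r3, r4⟩ := li0 d1 d2 W h14
  have hα : ((α.re : ℝ) : ℂ) = α := by
    rw [← conj_eq_iff_re]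
    linear_combination -r1
  have hδ : ((δ.re : ℝ) : ℂ) = δ := by
    rw [← conj_eq_iff_re]
    linear_combination -r4
  have hγ : γ = conj β := by linear_combination r3
  refine ⟨α.re, δ.re, β, ?_, ?_⟩
  · intro z
    rw [hα, hδ, hE2 z, hab z, hgd z, hγ]
    ring
  · rw [hα, hδ, ← hγ]
    have k1 : α * δ - β * γ = a 0 * deriv b 0 - b 0 * deriv a 0 := by
      have t1 : deriv a 0 = α * deriv y₁ 0 + β * deriv y₂ 0 := by
        have t : HasDerivAt (fun z => α * y₁ z + β * y₂ z) (α * deriv y₁ 0 + β * deriv y₂ 0) 0 :=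
          ((d1 0).hasDerivAt.const_mul α).add ((d2 0).hasDerivAt.const_mul β)
        rw [show a = fun z => α * y₁ z + β * y₂ z from funext hab]
        exact t.deriv
      have t2 : deriv b 0 = γ * deriv y₁ 0 + δ * deriv y₂ 0 := by
        have t : HasDerivAt (fun z => γ * y₁ z + δ * y₂ z) (γ * deriv y₁ 0 + δ * deriv y₂ 0) 0 :=
          ((d1 0).hasDerivAt.const_mul γ).add ((d2 0).hasDerivAt.const_mul δ)
        rw [show b = fun z => γ * y₁ z + δ * y₂ z from funext hgd]
        exact t.deriv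
      rw [t1, t2, hab 0, hgd 0]
      linear_combination (-(α * δ - β * γ)) * W 0
    obtain ⟨q1, q2⟩ := dA hu d2 e2 0
    obtain ⟨q3, q4⟩ := dA hu d1 e1 0
    have k2 : conj (deriv a 0) = fderiv ℝ (A u y₂) 0 1 := by
      have t := dh da 0 1
      rw [mul_one] at t
      rw [← t]
      have t' : fderiv ℝ a 0 1 = conj (fderiv ℝ (A u y₂) 0 1) := dconj q1 1
      rw [t', conj_conj]
    have k3 : conj (deriv b 0) = -fderiv ℝ (A u y₁) 0 1 := by
      have t := dh (conjA hu d1 e1) 0 1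
      rw [mul_one] at t
      have t' : fderiv ℝ (fun z => conj (A u y₁ z)) 0 1 = conj (fderiv ℝ (A u y₁) 0 1) := dconj q3 1
      have t'' : deriv b 0 = -deriv (fun z => conj (A u y₁ z)) 0 := by
        rw [hb]
        exact deriv.fun_neg
      rw [t'', ← t, t', map_neg, conj_conj]
    have k4 : conj (a 0 * deriv b 0 - b 0 * deriv a 0) = 1 / 4 := by
      rw [map_sub, map_mul, map_mul, ca, cb, k2, k3, q2, q4]
      have hs := sq_h hu 0
      have hEP : E u 0 ^ 2 * P u 0 = 1 := by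
        unfold E P
        rw [← ofReal_pow, ← ofReal_mul, ← Real.exp_nat_mul, ← Real.exp_add]
        norm_num
      unfold A
      rw [hs]
      linear_combination (E u 0 ^ 2 * ((1 / 4) * P u 0)) * W 0 + (1 / 4) * hEP
    rw [k1]
    have k5 := congrArg (fun t : ℂ => conj t) k4
    simp only [conj_conj, map_div₀, map_one, map_ofNat] at k5
    exact k5

end DEV3

open DEV3 in
theorem dev3 : StmDEV3 := by
  intro u y₁ y₂ hu d1 d2 e1 e2 W
  obtain ⟨α, δ, β, hE, hdet⟩ := coeffs hu d1 d2 W e1 e2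
  have hreal : ∀ z, α * Real.exp (-(u z)) = ‖(α : ℂ) * y₁ z + β * y₂ z‖ ^ 2 + ‖y₂ z‖ ^ 2 / 4 := by
    intro z
    have h1 : (α : ℂ) * E u z = ((α : ℂ) * y₁ z + β * y₂ z) * conj ((α : ℂ) * y₁ z + β * y₂ z) +
        (1 / 4) * (y₂ z * conj (y₂ z)) := by
      rw [hE z, ← hdet, map_add, map_mul, map_mul, conj_ofReal]
      ring
    rw [mul_conj', mul_conj'] at h1
    unfold E at h1
    have h2 : ((α * Real.exp (-(u z)) : ℝ) : ℂ) =
        ((‖(α : ℂ) * y₁ z + β * y₂ z‖ ^ 2 + ‖y₂ z‖ ^ 2 / 4 : ℝ) : ℂ) := by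
      rw [ofReal_mul, h1]
      push_cast
      ring
    exact_mod_cast h2
  have hdr : α * δ - ‖β‖ ^ 2 = 1 / 4 := by
    rw [mul_conj'] at hdet
    have h2 : ((α * δ - ‖β‖ ^ 2 : ℝ) : ℂ) = ((1 / 4 : ℝ) : ℂ) := by
      push_cast
      exact hdet
    exact_mod_cast h2
  have hα : 0 < α := by
    have h1 : 0 ≤ α * Real.exp (-(u 0)) := by
      rw [hreal 0]
      positivity
    have h2 : 0 ≤ α := by
      by_contra hlt
      push Not at hlt
      have := mul_neg_of_neg_of_pos hlt (Real.exp_pos (-(u 0)))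
      linarith
    have h3 : α ≠ 0 := by
      intro h0
      rw [h0] at hdr
      nlinarith [sq_nonneg ‖β‖]
    exact lt_of_le_of_ne h2 (Ne.symm h3)
  set s : ℝ := √(2 * α) with hs
  have hs2 : s ^ 2 = 2 * α := Real.sq_sqrt (by positivity)
  have hs0 : 0 < s := Real.sqrt_pos.2 (by positivity)
  have hsc : (s : ℂ) ≠ 0 := by exact_mod_cast hs0.ne'
  have hαc : (α : ℂ) ≠ 0 := by exact_mod_cast hα.ne'
  have dz : ∀ z, HasDerivAt (fun z => (s / α : ℂ) * ((α : ℂ) * y₁ z + β * y₂ z))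
      ((s / α : ℂ) * ((α : ℂ) * deriv y₁ z + β * deriv y₂ z)) z := fun z =>
    (((d1 z).hasDerivAt.const_mul _).add ((d2 z).hasDerivAt.const_mul _)).const_mul _
  have dw : ∀ z, HasDerivAt (fun z => (s : ℂ)⁻¹ * y₂ z) ((s : ℂ)⁻¹ * deriv y₂ z) z := fun z =>
    (d2 z).hasDerivAt.const_mul _
  refine ⟨fun z => (s / α : ℂ) * ((α : ℂ) * y₁ z + β * y₂ z), fun z => (s : ℂ)⁻¹ * y₂ z,
    fun z => (dz z).differentiableAt, fun z => (dw z).differentiableAt, ?_, ?_⟩
  · intro z
    rw [(dz z).deriv, (dw z).deriv]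
    have h1 : (s / α : ℂ) * ((α : ℂ) * y₁ z + β * y₂ z) * ((s : ℂ)⁻¹ * deriv y₂ z) -
        (s / α : ℂ) * ((α : ℂ) * deriv y₁ z + β * deriv y₂ z) * ((s : ℂ)⁻¹ * y₂ z) =
        y₁ z * deriv y₂ z - deriv y₁ z * y₂ z := by
      field_simp
      ring
    rw [h1, W z]
  · intro z
    rw [norm_mul, norm_mul, mul_pow, mul_pow, norm_div, norm_inv, norm_real, norm_real,
      Real.norm_of_nonneg hs0.le, Real.norm_of_nonneg hα.le, div_pow, inv_pow, hs2]
    have h1 := hreal z
    have h2 : 2 * α / α ^ 2 * ‖(α : ℂ) * y₁ z + β * y₂ z‖ ^ 2 + (2 * α)⁻¹ * ‖y₂ z‖ ^ 2 =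
        (2 / α) * (‖(α : ℂ) * y₁ z + β * y₂ z‖ ^ 2 + ‖y₂ z‖ ^ 2 / 4) := by
      field_simp
      ring
    rw [h2, ← h1]
    field_simp

end Pool.Agent.T6.H85.LV
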