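import Pool.Agent.T6.H85.LV.Stm

/-!
Project LV (helper85), MP_47dd70_an: module SPLIT.
-/

set_option autoImplicit false

namespace Pool.Agent.T6.H85.LV

open Complex Filter Topology Set
open scoped ComplexConjugate

namespace SPLIT

theorem snoc' {u : ℂ → ℝ} {x y z : ℂ} {L L' : ℝ} (γ : ℝ → ℂ) (hγ : ContDiff ℝ 1 γ)
    (h : IsPath u x y L) (h0 : γ 0 = y) (h1 : γ 1 = z) (hL : L + len u γ = L') :
    IsPath u x z L' := by
  subst h0 h1 hL
  exact IsPath.snoc γ hγ h

theorem len_aff (u : ℂ → ℝ) (γ : ℝ → ℂ) (hγ : ContDiff ℝ 1 γ) (a b : ℝ) (hb : 0 ≤ b) :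
    len u (fun t => γ (a + b * t)) = ∫ t in a..(a + b), Real.exp (u (γ t)) * ‖deriv γ t‖ := by
  unfold len
  have h : ∀ t : ℝ, deriv (fun t => γ (a + b * t)) t = b • deriv γ (a + b * t) := by
    intro t
    have h1 : HasDerivAt γ (deriv γ (a + b * t)) (a + b * t) :=
      ((hγ.differentiable one_ne_zero) _).hasDerivAt
    have h2 : HasDerivAt (fun t : ℝ => a + b * t) b t := by
      simpa using ((hasDerivAt_id t).const_mul b).const_add a
    exact (h1.scomp t h2).deriv
  have e : ∀ t : ℝ, Real.exp (u (γ (a + b * t))) * ‖deriv (fun t => γ (a + b * t)) t‖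
      = b * (fun s => Real.exp (u (γ s)) * ‖deriv γ s‖) (a + b * t) := by
    intro t
    rw [h, norm_smul, Real.norm_eq_abs, abs_of_nonneg hb]
    ring
  have e2 := intervalIntegral.mul_integral_comp_add_mul (a := 0) (b := 1)
    (f := fun s => Real.exp (u (γ s)) * ‖deriv γ s‖) b a
  rw [mul_zero, add_zero, mul_one] at e2
  rw [← e2, ← intervalIntegral.integral_const_mul]
  exact intervalIntegral.integral_congr fun t _ => e t

end SPLIT

theorem split : StmSPLIT := by
  intro u hu G A B hA hB hAB hG p hp q hq L hL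
  induction hL with
  | nil => exact absurd (mem_inter hp hq) (disjoint_iff_inter_eq_empty.mp hAB ▸ notMem_empty _)
  | @snoc L γ hγ h ih =>
    by_cases h0 : γ 0 ∈ G
    · exact ⟨γ 0, h0, L, 0 + len u γ, h, IsPath.snoc γ hγ IsPath.nil, by ring⟩
    have h0' : γ 0 ∈ A ∪ B := by rw [hG]; exact h0
    rcases h0' with h0a | h0b
    · -- crossing
      have hex : ∃ t ∈ Icc (0 : ℝ) 1, γ t ∈ G := by
        by_contra hc
        push Not at hc
        have hsub : γ '' Icc (0 : ℝ) 1 ⊆ A ∪ B := by
          rintro _ ⟨t, ht, rfl⟩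
          rw [hG]
          exact hc t ht
        have hpc : IsPreconnected (γ '' Icc (0 : ℝ) 1) :=
          isPreconnected_Icc.image γ hγ.continuous.continuousOn
        rcases IsPreconnected.subset_or_subset hA hB hAB hsub hpc with h1 | h1
        · have := h1 ⟨1, ⟨zero_le_one, le_refl _⟩, rfl⟩
          exact (Set.disjoint_left.mp hAB) this hq
        · have := h1 ⟨0, ⟨le_refl _, zero_le_one⟩, rfl⟩
          exact (Set.disjoint_left.mp hAB) h0a this
      obtain ⟨t, ht, htG⟩ := hex
      refine ⟨γ t, htG, L + len u (fun s => γ (0 + t * s)),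
        0 + len u (fun s => γ (t + (1 - t) * s)), ?_, ?_, ?_⟩
      · refine SPLIT.snoc' (fun s => γ (0 + t * s)) ?_ h ?_ ?_ rfl
        · exact hγ.comp (contDiff_const.add (contDiff_const.mul contDiff_id))
        · simp
        · simp
      · refine SPLIT.snoc' (fun s => γ (t + (1 - t) * s)) ?_ IsPath.nil ?_ ?_ rfl
        · exact hγ.comp (contDiff_const.add (contDiff_const.mul contDiff_id))
        · simp
        · simp
      · rw [SPLIT.len_aff u γ hγ 0 t ht.1, SPLIT.len_aff u γ hγ t (1 - t) (by linarith [ht.2])]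
        have hcont : Continuous fun s : ℝ => Real.exp (u (γ s)) * ‖deriv γ s‖ := by
          have h1 : Continuous (deriv γ) := hγ.continuous_deriv (le_refl _)
          have h2 : Continuous γ := hγ.continuous
          fun_prop
        have hadd := intervalIntegral.integral_add_adjacent_intervals
          (μ := MeasureTheory.volume)
          (hcont.intervalIntegrable 0 t) (hcont.intervalIntegrable t 1)
        have e1 : (0 : ℝ) + t = t := zero_add t
        have e2 : t + (1 - t) = 1 := by ring
        rw [e1, e2]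
        unfold len
        rw [← hadd]
        ring
    · obtain ⟨z, hz, L₁, L₂, p1, p2, e⟩ := ih h0b
      exact ⟨z, hz, L₁, L₂ + len u γ, p1, IsPath.snoc γ hγ p2, by rw [← e]; ring⟩

end Pool.Agent.T6.H85.LV
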