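import Pool.Agent.T6.H85.LV.Stm2
import Pool.Agent.T6.H85.LV.SPLIT

/-!
Project LV (helper85), MP_47dd70_an: module EQV.
-/

set_option autoImplicit false

namespace Pool.Agent.T6.H85.LV

open Complex Filter Topology Set MeasureTheory

namespace EQV

/-- the integrand of the length -/
noncomputable def F (u : ℂ → ℝ) (γ : ℝ → ℂ) (s : ℝ) : ℝ := Real.exp (u (γ s)) * ‖deriv γ s‖

theorem F_cont {u : ℂ → ℝ} (hu : Continuous u) {g : ℝ → ℂ} (hg : ContDiff ℝ 1 g) :
    Continuous (F u g) := by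
  have h1 : Continuous (deriv g) := hg.continuous_deriv (le_refl _)
  have h2 : Continuous g := hg.continuous
  unfold F
  fun_prop

/-- `C¹` extension of a `C¹` function on a closed interval -/
theorem ext1 {γ : ℝ → ℂ} {a b : ℝ} (hab : a < b) (h : ContDiffOn ℝ 1 γ (Icc a b)) :
    ∃ g : ℝ → ℂ, ContDiff ℝ 1 g ∧ ∀ s ∈ Icc a b, g s = γ s := by
  have hD0 : ContinuousOn (derivWithin γ (Icc a b)) (Icc a b) :=
    h.continuousOn_derivWithin (uniqueDiffOn_Icc hab) (le_refl _)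
  set D : ℝ → ℂ := IccExtend hab.le ((Icc a b).domRestrict (derivWithin γ (Icc a b))) with hD
  have hDc : Continuous D := (continuousOn_iff_continuous_domRestrict.1 hD0).Icc_extend'
  have hDv : ∀ s ∈ Icc a b, D s = derivWithin γ (Icc a b) s := by
    intro s hs
    rw [hD, IccExtend_of_mem hab.le _ hs]
    rfl
  have hder : ∀ s, HasDerivAt (fun s => γ a + ∫ r in a..s, D r) (D s) s := by
    intro s
    exact (intervalIntegral.integral_hasDerivAt_right (hDc.intervalIntegrable _ _)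
      (hDc.stronglyMeasurableAtFilter _ _) hDc.continuousAt).const_add _
  refine ⟨fun s => γ a + ∫ r in a..s, D r, ?_, ?_⟩
  · rw [contDiff_one_iff_deriv]
    refine ⟨fun s => (hder s).differentiableAt, ?_⟩
    have : deriv (fun s => γ a + ∫ r in a..s, D r) = D := by
      ext s
      exact (hder s).deriv
    rw [this]
    exact hDc
  · intro s hs
    have h1 := intervalIntegral.integral_eq_sub_of_hasDerivAt_of_le (f := γ) (f' := D) hs.1
      (h.continuousOn.mono (Icc_subset_Icc le_rfl hs.2)) (by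
        intro x hx
        have hx' : x ∈ Icc a b := ⟨hx.1.le, hx.2.le.trans hs.2⟩
        rw [hDv x hx']
        have hd : DifferentiableWithinAt ℝ γ (Icc a b) x :=
          (h x hx').differentiableWithinAt one_ne_zero
        exact hd.hasDerivWithinAt.hasDerivAt (Icc_mem_nhds hx.1 (hx.2.trans_le hs.2)))
      (hDc.intervalIntegrable _ _)
    show γ a + ∫ r in a..s, D r = γ s
    rw [h1]
    ring

theorem F_congr {u : ℂ → ℝ} {γ g : ℝ → ℂ} {a b : ℝ} (h : ∀ s ∈ Icc a b, g s = γ s) :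
    EqOn (F u g) (F u γ) (Ioo a b) := by
  intro s hs
  have h1 : g =ᶠ[𝓝 s] γ := by
    filter_upwards [Icc_mem_nhds hs.1 hs.2] with r hr using h r hr
  unfold F
  rw [h1.deriv_eq, h1.eq_of_nhds]

/-- one piece -/
theorem piece {u : ℂ → ℝ} (hu : Continuous u) {γ : ℝ → ℂ} {a b : ℝ} (hab : a < b)
    (h : ContDiffOn ℝ 1 γ (Icc a b)) : IntervalIntegrable (F u γ) volume a b ∧
      ∀ (x : ℂ) (L : ℝ), IsPath u x (γ a) L → IsPath u x (γ b) (L + ∫ s in a..b, F u γ s) := by
  obtain ⟨g, hg, hgγ⟩ := ext1 hab h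
  have h1 : ∫ s in a..b, F u γ s = ∫ s in a..b, F u g s := by
    exact (intervalIntegral.integral_congr_Ioo_of_le hab.le (F_congr hgγ)).symm
  constructor
  · have h2 : IntervalIntegrable (F u g) volume a b := (F_cont hu hg).intervalIntegrable _ _
    refine h2.congr_ae ?_
    rw [uIoc_of_le hab.le, ← Measure.restrict_congr_set Ioo_ae_eq_Ioc]
    exact (ae_restrict_iff' measurableSet_Ioo).2 (Eventually.of_forall fun s hs => F_congr hgγ hs)
  · intro x L hL
    refine SPLIT.snoc' (fun t => g (a + (b - a) * t)) ?_ hL ?_ ?_ ?_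
    · exact hg.comp (contDiff_const.add (contDiff_const.mul contDiff_id))
    · simp only [mul_zero, add_zero]
      exact hgγ a ⟨le_rfl, hab.le⟩
    · simp only [mul_one, add_sub_cancel]
      exact hgγ b ⟨hab.le, le_rfl⟩
    · rw [SPLIT.len_aff u g hg a (b - a) (by linarith), add_sub_cancel, h1]
      rfl

theorem chain {u : ℂ → ℝ} (hu : Continuous u) {γ : ℝ → ℂ} {n : ℕ} {t : ℕ → ℝ} (h0 : t 0 = 0)
    (hlt : ∀ i < n, t i < t (i + 1)) (hC : ∀ i < n, ContDiffOn ℝ 1 γ (Icc (t i) (t (i + 1)))) :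
    ∀ i ≤ n, IntervalIntegrable (F u γ) volume 0 (t i) ∧
      IsPath u (γ 0) (γ (t i)) (∫ s in (0 : ℝ)..t i, F u γ s) := by
  intro i
  induction i with
  | zero =>
    intro _
    rw [h0]
    refine ⟨IntervalIntegrable.refl, ?_⟩
    rw [intervalIntegral.integral_same]
    exact IsPath.nil
  | succ i ih =>
    intro hi
    obtain ⟨i1, i2⟩ := ih (by omega)
    obtain ⟨p1, p2⟩ := piece hu (hlt i (by omega)) (hC i (by omega))
    refine ⟨i1.trans p1, ?_⟩
    rw [← intervalIntegral.integral_add_adjacent_intervals i1 p1]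
    exact p2 _ _ i2

theorem t_le {n : ℕ} {t : ℕ → ℝ} (hlt : ∀ i < n, t i < t (i + 1)) :
    ∀ j ≤ n, ∀ i ≤ j, t i ≤ t j := by
  intro j
  induction j with
  | zero =>
    intro _ i hi
    have : i = 0 := by omega
    rw [this]
  | succ j ih =>
    intro hj i hi
    rcases Nat.lt_or_ge i (j + 1) with h1 | h1
    · exact (ih (by omega) i (by omega)).trans (hlt j (by omega)).le
    · have : i = j + 1 := by omega
      rw [this]

theorem int_pw {u : ℂ → ℝ} (hu : Continuous u) {γ : ℝ → ℂ} (h : PwC1 γ) :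
    IntervalIntegrable (F u γ) volume 0 1 := by
  obtain ⟨_, n, t, h0, h1, h2, h3⟩ := h
  have := (chain hu h0 h2 h3 n le_rfl).1
  rwa [h1] at this

theorem path_pw {u : ℂ → ℝ} (hu : Continuous u) {γ : ℝ → ℂ} (h : PwC1 γ) :
    IsPath u (γ 0) (γ 1) (∫ s in (0 : ℝ)..1, F u γ s) := by
  obtain ⟨_, n, t, h0, h1, h2, h3⟩ := h
  have := (chain hu h0 h2 h3 n le_rfl).2
  rwa [h1] at this

/-- concatenation -/
noncomputable def cat (γ₁ γ₂ : ℝ → ℂ) (s : ℝ) : ℂ := if s ≤ 1 / 2 then γ₁ (2 * s) else γ₂ (2 * s - 1)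

theorem cat_left (γ₁ γ₂ : ℝ → ℂ) {s : ℝ} (hs : s ≤ 1 / 2) : cat γ₁ γ₂ s = γ₁ (2 * s) := if_pos hs

theorem cat_right {γ₁ γ₂ : ℝ → ℂ} (h : γ₁ 1 = γ₂ 0) {s : ℝ} (hs : 1 / 2 ≤ s) :
    cat γ₁ γ₂ s = γ₂ (2 * s - 1) := by
  rcases hs.eq_or_lt with h1 | h1
  · rw [← h1, cat_left γ₁ γ₂ le_rfl]
    norm_num
    exact h
  · exact if_neg (not_le.2 h1)

theorem cat_pw {γ₁ γ₂ : ℝ → ℂ} (h1 : PwC1 γ₁) (h2 : ContDiff ℝ 1 γ₂) (h : γ₁ 1 = γ₂ 0) :
    PwC1 (cat γ₁ γ₂) := by
  obtain ⟨hc, n, t, ht0, ht1, ht2, ht3⟩ := h1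
  constructor
  · have e : Icc (0 : ℝ) 1 = Icc 0 (1 / 2) ∪ Icc (1 / 2) 1 :=
      (Icc_union_Icc_eq_Icc (by norm_num) (by norm_num)).symm
    rw [e]
    apply ContinuousOn.union_of_isClosed _ _ isClosed_Icc isClosed_Icc
    · have h3 : ContinuousOn (fun s : ℝ => γ₁ (2 * s)) (Icc 0 (1 / 2)) := by
        apply hc.comp (by fun_prop)
        intro s hs
        constructor <;> linarith [hs.1, hs.2]
      exact h3.congr fun s hs => cat_left γ₁ γ₂ hs.2
    · have h3 : ContinuousOn (fun s : ℝ => γ₂ (2 * s - 1)) (Icc (1 / 2) 1) := by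
        have := h2.continuous
        fun_prop
      exact h3.congr fun s hs => cat_right h hs.1
  · refine ⟨n + 1, fun i => if i ≤ n then t i / 2 else 1, ?_, ?_, ?_, ?_⟩
    · simp [ht0]
    · simp
    · intro i hi
      beta_reduce
      rcases Nat.lt_or_ge i n with h3 | h3
      · rw [if_pos h3.le, if_pos (by omega)]
        linarith [ht2 i h3]
      · have h4 : i = n := by omega
        subst h4
        rw [if_pos le_rfl, if_neg (by omega), ht1]
        norm_num
    · intro i hi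
      beta_reduce
      rcases Nat.lt_or_ge i n with h3 | h3
      · rw [if_pos h3.le, if_pos (by omega)]
        have h4 : ContDiffOn ℝ 1 (fun s : ℝ => γ₁ (2 * s)) (Icc (t i / 2) (t (i + 1) / 2)) := by
          apply (ht3 i h3).comp (contDiff_const.mul contDiff_id).contDiffOn
          intro s hs
          constructor
          · show t i ≤ 2 * s
            linarith [hs.1]
          · show 2 * s ≤ t (i + 1)
            linarith [hs.2]
        refine h4.congr fun s hs => cat_left γ₁ γ₂ ?_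
        have := t_le ht2 n le_rfl (i + 1) (by omega)
        rw [ht1] at this
        linarith [hs.2]
      · have h4 : i = n := by omega
        subst h4
        rw [if_pos le_rfl, if_neg (by omega), ht1]
        have h5 : ContDiff ℝ 1 (fun s : ℝ => γ₂ (2 * s - 1)) :=
          h2.comp ((contDiff_const.mul contDiff_id).sub contDiff_const)
        exact h5.contDiffOn.congr fun s hs => cat_right h hs.1

theorem deriv_left (γ₁ γ₂ : ℝ → ℂ) {s : ℝ} (hs : s < 1 / 2) :
    deriv (cat γ₁ γ₂) s = (2 : ℝ) • deriv γ₁ (2 * s) := by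
  have h1 : cat γ₁ γ₂ =ᶠ[𝓝 s] fun s => γ₁ (2 * s) := by
    filter_upwards [Iio_mem_nhds hs] with r hr using cat_left γ₁ γ₂ (le_of_lt hr)
  rw [h1.deriv_eq]
  exact deriv_comp_mul_left (2 : ℝ) γ₁ s

theorem deriv_right (γ₁ γ₂ : ℝ → ℂ) {s : ℝ} (hs : 1 / 2 < s) :
    deriv (cat γ₁ γ₂) s = (2 : ℝ) • deriv γ₂ (2 * s - 1) := by
  have h1 : cat γ₁ γ₂ =ᶠ[𝓝 s] fun s => γ₂ (2 * s - 1) := by
    filter_upwards [Ioi_mem_nhds hs] with r hr using if_neg (not_le.2 hr)
  rw [h1.deriv_eq]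
  have h2 := deriv_comp_mul_left (2 : ℝ) (fun r => γ₂ (r - 1)) s
  rw [h2, deriv_comp_sub_const]

theorem cat_int {u : ℂ → ℝ} (hu : Continuous u) {γ₁ γ₂ : ℝ → ℂ} (h1 : PwC1 γ₁)
    (h2 : ContDiff ℝ 1 γ₂) (h : γ₁ 1 = γ₂ 0) : ∫ s in (0 : ℝ)..1, F u (cat γ₁ γ₂) s =
      (∫ s in (0 : ℝ)..1, F u γ₁ s) + ∫ s in (0 : ℝ)..1, F u γ₂ s := by
  have hi := int_pw hu (cat_pw h1 h2 h)
  have hi1 : IntervalIntegrable (F u (cat γ₁ γ₂)) volume 0 (1 / 2) := by
    apply hi.mono_set
    rw [uIcc_of_le (by norm_num), uIcc_of_le (by norm_num)]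
    exact Icc_subset_Icc le_rfl (by norm_num)
  have hi2 : IntervalIntegrable (F u (cat γ₁ γ₂)) volume (1 / 2) 1 := by
    apply hi.mono_set
    rw [uIcc_of_le (by norm_num), uIcc_of_le (by norm_num)]
    exact Icc_subset_Icc (by norm_num) le_rfl
  rw [← intervalIntegral.integral_add_adjacent_intervals hi1 hi2]
  congr 1
  · have e1 : ∫ s in (0 : ℝ)..(1 / 2), F u (cat γ₁ γ₂) s =
        ∫ s in (0 : ℝ)..(1 / 2), 2 * F u γ₁ (2 * s) := by
      apply intervalIntegral.integral_congr_Ioo_of_le (by norm_num)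
      intro s hs
      show F u (cat γ₁ γ₂) s = 2 * F u γ₁ (2 * s)
      unfold F
      rw [deriv_left γ₁ γ₂ hs.2, cat_left γ₁ γ₂ hs.2.le, norm_smul]
      norm_num
      ring
    rw [e1, intervalIntegral.integral_const_mul]
    have e2 := intervalIntegral.mul_integral_comp_mul_left (a := 0) (b := 1 / 2) (f := F u γ₁) 2
    rw [e2]
    norm_num
  · have e1 : ∫ s in (1 / 2 : ℝ)..1, F u (cat γ₁ γ₂) s =
        ∫ s in (1 / 2 : ℝ)..1, 2 * F u γ₂ (2 * s - 1) := by
      apply intervalIntegral.integral_congr_Ioo_of_le (by norm_num)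
      intro s hs
      show F u (cat γ₁ γ₂) s = 2 * F u γ₂ (2 * s - 1)
      unfold F
      rw [deriv_right γ₁ γ₂ hs.1, cat_right h hs.1.le, norm_smul]
      norm_num
      ring
    rw [e1, intervalIntegral.integral_const_mul]
    have e2 := intervalIntegral.mul_integral_comp_mul_sub (a := 1 / 2) (b := 1) (f := F u γ₂) 2 1
    rw [e2]
    norm_num

theorem pw_path {u : ℂ → ℝ} (hu : Continuous u) {x y : ℂ} {L : ℝ} (h : IsPath u x y L) :
    ∃ γ : ℝ → ℂ, PwC1 γ ∧ γ 0 = x ∧ γ 1 = y ∧ L = ∫ s in (0 : ℝ)..1, F u γ s := by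
  induction h with
  | nil =>
    refine ⟨fun _ => x, ⟨continuousOn_const, 1, fun i => i, by simp, by simp, ?_, ?_⟩, rfl, rfl, ?_⟩
    · intro i _
      push_cast
      linarith
    · intro i _
      exact contDiffOn_const
    · unfold F
      simp
  | @snoc L γ₂ hγ h ih =>
    obtain ⟨γ₁, h1, h2, h3, h4⟩ := ih
    refine ⟨cat γ₁ γ₂, cat_pw h1 hγ h3, ?_, ?_, ?_⟩
    · rw [cat_left γ₁ γ₂ (by norm_num), mul_zero, h2]
    · rw [cat_right h3 (by norm_num)]
      norm_num
    · rw [cat_int hu h1 hγ h3, ← h4]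
      rfl

end EQV

/-- module EQV -/
theorem eqv : StmEQV := by
  intro u hu x y
  unfold pdist gdist
  congr 1
  ext L
  constructor
  · rintro ⟨γ, h1, rfl, rfl, rfl⟩
    exact EQV.path_pw hu h1
  · intro h
    exact EQV.pw_path hu h

end Pool.Agent.T6.H85.LV
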