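import Pool.Agent.T6.H85.LV.Stm

/-!
Module FS of project LV: the spherical distance.
-/

set_option autoImplicit false

namespace Pool.Agent.T6.H85.LV

open Complex Filter Topology Set
open scoped ComplexConjugate

namespace ModFS

theorem lagr (a b c d : ℂ) : ‖conj a * c + conj b * d‖ ^ 2 + ‖a * d - b * c‖ ^ 2 =
    (‖a‖ ^ 2 + ‖b‖ ^ 2) * (‖c‖ ^ 2 + ‖d‖ ^ 2) := by
  simp only [Complex.sq_norm, Complex.normSq_apply]
  simp only [Complex.add_re, Complex.add_im, Complex.mul_re, Complex.mul_im, Complex.sub_re,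
    Complex.sub_im, Complex.conj_re, Complex.conj_im]
  ring

theorem pos_n {a b : ℂ} (h : a ≠ 0 ∨ b ≠ 0) : 0 < ‖a‖ ^ 2 + ‖b‖ ^ 2 := by
  rcases h with h | h
  · have : 0 < ‖a‖ := norm_pos_iff.2 h
    positivity
  · have : 0 < ‖b‖ := norm_pos_iff.2 h
    positivity

theorem cs_nonneg (a b c d : ℂ) : 0 ≤ cs a b c d := by
  unfold cs
  positivity

theorem cs_le_one (a b c d : ℂ) : cs a b c d ≤ 1 := by
  unfold cs
  refine div_le_one_of_le₀ ?_ (by positivity)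
  rw [← Real.sqrt_mul (by positivity), ← lagr a b c d]
  refine Real.le_sqrt_of_sq_le ?_
  have := sq_nonneg ‖a * d - b * c‖
  linarith

theorem cs_symm (a b c d : ℂ) : cs a b c d = cs c d a b := by
  unfold cs
  rw [mul_comm (√(‖a‖ ^ 2 + ‖b‖ ^ 2))]
  congr 1
  rw [← Complex.norm_conj]
  congr 1
  simp only [map_add, map_mul, Complex.conj_conj]
  ring

theorem cs_sq (a b c d : ℂ) (h : a ≠ 0 ∨ b ≠ 0) (h' : c ≠ 0 ∨ d ≠ 0) :
    (‖a‖ ^ 2 + ‖b‖ ^ 2) * (‖c‖ ^ 2 + ‖d‖ ^ 2) * (1 - cs a b c d ^ 2) = ‖a * d - b * c‖ ^ 2 := by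
  have h1 := pos_n h
  have h2 := pos_n h'
  have h3 := lagr a b c d
  unfold cs
  rw [div_pow, mul_pow, Real.sq_sqrt h1.le, Real.sq_sqrt h2.le, mul_sub, mul_one,
    mul_div_cancel₀ _ (by positivity)]
  linarith

theorem sin_arccos_cs (a b c d : ℂ) (h : a ≠ 0 ∨ b ≠ 0) (h' : c ≠ 0 ∨ d ≠ 0) :
    Real.sin (Real.arccos (cs a b c d)) =
      ‖a * d - b * c‖ / (√(‖a‖ ^ 2 + ‖b‖ ^ 2) * √(‖c‖ ^ 2 + ‖d‖ ^ 2)) := by
  have h1 := pos_n h
  have h2 := pos_n h'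
  have h3 := cs_sq a b c d h h'
  rw [Real.sin_arccos]
  have h4 : 1 - cs a b c d ^ 2 =
      (‖a * d - b * c‖ / (√(‖a‖ ^ 2 + ‖b‖ ^ 2) * √(‖c‖ ^ 2 + ‖d‖ ^ 2))) ^ 2 := by
    rw [div_pow, mul_pow, Real.sq_sqrt h1.le, Real.sq_sqrt h2.le, ← h3]
    field_simp
  rw [h4, Real.sqrt_sq (by positivity)]

theorem tri (a b c d e f : ℂ) (h1 : a ≠ 0 ∨ b ≠ 0) (h2 : c ≠ 0 ∨ d ≠ 0) (h3 : e ≠ 0 ∨ f ≠ 0) :
    sd a b e f ≤ sd a b c d + sd c d e f := by
  unfold sd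
  have hα : Real.arccos (cs a b c d) ≤ Real.pi / 2 := Real.arccos_le_pi_div_two.2 (cs_nonneg _ _ _ _)
  have hβ : Real.arccos (cs c d e f) ≤ Real.pi / 2 := Real.arccos_le_pi_div_two.2 (cs_nonneg _ _ _ _)
  have hα0 := Real.arccos_nonneg (cs a b c d)
  have hβ0 := Real.arccos_nonneg (cs c d e f)
  suffices h : Real.arccos (cs a b e f) ≤
      Real.arccos (cs a b c d) + Real.arccos (cs c d e f) by linarith
  have key : Real.cos (Real.arccos (cs a b c d) + Real.arccos (cs c d e f)) ≤ cs a b e f := by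
    rw [Real.cos_add, sin_arccos_cs a b c d h1 h2, sin_arccos_cs c d e f h2 h3,
      Real.cos_arccos (by linarith [cs_nonneg a b c d]) (cs_le_one _ _ _ _),
      Real.cos_arccos (by linarith [cs_nonneg c d e f]) (cs_le_one _ _ _ _)]
    have n1 := pos_n h1
    have n2 := pos_n h2
    have n3 := pos_n h3
    unfold cs
    obtain ⟨A, hA⟩ : ∃ A : ℝ, A = √(‖a‖ ^ 2 + ‖b‖ ^ 2) := ⟨_, rfl⟩
    obtain ⟨B, hB⟩ : ∃ B : ℝ, B = √(‖c‖ ^ 2 + ‖d‖ ^ 2) := ⟨_, rfl⟩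
    obtain ⟨C, hC⟩ : ∃ C : ℝ, C = √(‖e‖ ^ 2 + ‖f‖ ^ 2) := ⟨_, rfl⟩
    have hA0 : 0 < A := by rw [hA]; exact Real.sqrt_pos.2 n1
    have hB0 : 0 < B := by rw [hB]; exact Real.sqrt_pos.2 n2
    have hC0 : 0 < C := by rw [hC]; exact Real.sqrt_pos.2 n3
    have hB2 : B ^ 2 = ‖c‖ ^ 2 + ‖d‖ ^ 2 := by rw [hB]; exact Real.sq_sqrt n2.le
    rw [← hA, ← hB, ← hC]
    have hid : ((‖c‖ ^ 2 + ‖d‖ ^ 2 : ℝ) : ℂ) * (conj a * e + conj b * f) =
        (conj a * c + conj b * d) * (conj c * e + conj d * f) -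
          conj (a * d - b * c) * (c * f - d * e) := by
      have e1 : ((‖c‖ ^ 2 + ‖d‖ ^ 2 : ℝ) : ℂ) = c * conj c + d * conj d := by
        rw [Complex.mul_conj, Complex.mul_conj, Complex.normSq_eq_norm_sq,
          Complex.normSq_eq_norm_sq]
        push_cast
        ring
      rw [e1]
      simp only [map_sub, map_mul]
      ring
    have hn : ‖(conj a * c + conj b * d) * (conj c * e + conj d * f)‖ ≤
        ‖((‖c‖ ^ 2 + ‖d‖ ^ 2 : ℝ) : ℂ) * (conj a * e + conj b * f)‖ +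
          ‖conj (a * d - b * c) * (c * f - d * e)‖ := by
      have e2 : (conj a * c + conj b * d) * (conj c * e + conj d * f) =
          ((‖c‖ ^ 2 + ‖d‖ ^ 2 : ℝ) : ℂ) * (conj a * e + conj b * f) +
            conj (a * d - b * c) * (c * f - d * e) := by
        rw [hid]; ring
      rw [e2]
      exact norm_add_le _ _
    rw [norm_mul, norm_mul, norm_mul, Complex.norm_conj, Complex.norm_real, Real.norm_eq_abs,
      abs_of_pos n2, ← hB2] at hn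
    have e3 : ‖conj a * c + conj b * d‖ / (A * B) * (‖conj c * e + conj d * f‖ / (B * C)) -
        ‖a * d - b * c‖ / (A * B) * (‖c * f - d * e‖ / (B * C)) =
        (‖conj a * c + conj b * d‖ * ‖conj c * e + conj d * f‖ -
          ‖a * d - b * c‖ * ‖c * f - d * e‖) / (A * B ^ 2 * C) := by
      field_simp
    have e4 : ‖conj a * e + conj b * f‖ / (A * C) =
        (B ^ 2 * ‖conj a * e + conj b * f‖) / (A * B ^ 2 * C) := by
      field_simp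
    rw [e3, e4]
    refine div_le_div_of_nonneg_right ?_ (by positivity)
    linarith
  calc Real.arccos (cs a b e f) ≤
      Real.arccos (Real.cos (Real.arccos (cs a b c d) + Real.arccos (cs c d e f))) :=
        Real.arccos_le_arccos key
    _ = _ := Real.arccos_cos (by linarith) (by linarith)

theorem scal (k l a b c d : ℂ) (hk : k ≠ 0) (hl : l ≠ 0) :
    sd (k * a) (k * b) (l * c) (l * d) = sd a b c d := by
  have hk' : 0 < ‖k‖ := norm_pos_iff.2 hk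
  have hl' : 0 < ‖l‖ := norm_pos_iff.2 hl
  unfold sd cs
  have e1 : conj (k * a) * (l * c) + conj (k * b) * (l * d) =
      (conj k * l) * (conj a * c + conj b * d) := by
    simp only [map_mul]
    ring
  have e2 : ∀ m p q : ℂ, √(‖m * p‖ ^ 2 + ‖m * q‖ ^ 2) = ‖m‖ * √(‖p‖ ^ 2 + ‖q‖ ^ 2) := by
    intro m p q
    rw [norm_mul, norm_mul, mul_pow, mul_pow, ← mul_add, Real.sqrt_mul (by positivity),
      Real.sqrt_sq (norm_nonneg _)]
  rw [e1, e2, e2, norm_mul, norm_mul, Complex.norm_conj]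
  congr 2
  rw [show ‖k‖ * √(‖a‖ ^ 2 + ‖b‖ ^ 2) * (‖l‖ * √(‖c‖ ^ 2 + ‖d‖ ^ 2)) =
    (‖k‖ * ‖l‖) * (√(‖a‖ ^ 2 + ‖b‖ ^ 2) * √(‖c‖ ^ 2 + ‖d‖ ^ 2)) by ring]
  exact mul_div_mul_left _ _ (by positivity)

end ModFS

open ModFS in
theorem fs : StmFS := by
  refine ⟨tri, ?_, scal, ?_, ?_, ?_, cs_sq⟩
  · intro a b c d
    unfold sd
    rw [cs_symm]
  · intro a b c d
    unfold sd
    have h1 := Real.arccos_nonneg (cs a b c d)
    have h2 : Real.arccos (cs a b c d) ≤ Real.pi / 2 :=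
      Real.arccos_le_pi_div_two.2 (cs_nonneg _ _ _ _)
    exact ⟨by linarith, by linarith⟩
  · intro w
    unfold sd cs
    have h1 : ‖conj (1 : ℂ) * 1 + conj (0 : ℂ) * w‖ /
        (√(‖(1 : ℂ)‖ ^ 2 + ‖(0 : ℂ)‖ ^ 2) * √(‖(1 : ℂ)‖ ^ 2 + ‖w‖ ^ 2)) =
        Real.cos (Real.arctan ‖w‖) := by
      rw [Real.cos_arctan]
      simp
    rw [h1, Real.arccos_cos (Real.arctan_nonneg.2 (norm_nonneg _))
      (by linarith [Real.arctan_lt_pi_div_two ‖w‖, Real.pi_pos])]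
  · intro w
    unfold sd cs
    have h1 : ‖conj (0 : ℂ) * 1 + conj (1 : ℂ) * w‖ /
        (√(‖(0 : ℂ)‖ ^ 2 + ‖(1 : ℂ)‖ ^ 2) * √(‖(1 : ℂ)‖ ^ 2 + ‖w‖ ^ 2)) =
        Real.cos (Real.pi / 2 - Real.arctan ‖w‖) := by
      rw [Real.cos_pi_div_two_sub, Real.sin_arctan]
      simp
    have h2 : 0 ≤ Real.arctan ‖w‖ := Real.arctan_nonneg.2 (norm_nonneg _)
    rw [h1, Real.arccos_cos (by linarith [Real.arctan_lt_pi_div_two ‖w‖])
      (by linarith [Real.pi_pos])]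
    ring

end Pool.Agent.T6.H85.LV
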