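import Pool.Agent.T6.H85.LV.Stm

/-!
Project LV (helper85), module GR2 (helper83): the length-area argument of Gross. It is impossible
that all directions in an interval are blocked at a bounded distance.
-/

set_option autoImplicit false

namespace Pool.Agent.T6.H85.LV.GR2

open Complex Filter Topology Set MeasureTheory
open scoped ComplexConjugate ENNReal

/-! ### The branch -/

lemma y1_ne {u : ℂ → ℝ} {y₁ y₂ : ℂ → ℂ} (hd : Dev u y₁ y₂) {x : ℂ} {D : Set ℂ} {h : ℂ → ℂ}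
    (hb : Branch y₁ y₂ x D h) {w : ℂ} (hw : w ∈ D) : y₁ (h w) ≠ 0 := by
  intro h1
  have h2 := hb.2.2.2 w hw
  rw [h1, mul_zero] at h2
  have h3 := hd.wr (h w)
  rw [h1, h2] at h3
  simp at h3

lemma injOn {u : ℂ → ℝ} {y₁ y₂ : ℂ → ℂ} (hd : Dev u y₁ y₂) {x : ℂ} {D : Set ℂ} {h : ℂ → ℂ}
    (hb : Branch y₁ y₂ x D h) : InjOn h D := by
  intro w hw w' hw' he
  have h1 := hb.2.2.2 w hw
  have h2 := hb.2.2.2 w' hw'
  rw [← he] at h2
  rw [h1] at h2
  exact mul_right_cancel₀ (y1_ne hd hb hw) h2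

/-! ### Area -/

lemma det_smul (a : ℂ) : (a • (1 : ℂ →L[ℝ] ℂ)).det = ‖a‖ ^ 2 := by
  rw [ContinuousLinearMap.det, ← LinearMap.det_toMatrix Complex.basisOneI, Matrix.det_fin_two]
  simp only [LinearMap.toMatrix_apply]
  simp [Complex.sq_norm, Complex.normSq_apply]

lemma area {h : ℂ → ℂ} {D A : Set ℂ} (hD : IsOpen D) (hh : DifferentiableOn ℂ h D) (hi : InjOn h D)
    (hA : MeasurableSet A) (hAD : A ⊆ D) (G : ℂ → ℝ≥0∞) :
    ∫⁻ z in h '' A, G z = ∫⁻ w in A, ENNReal.ofReal (‖deriv h w‖ ^ 2) * G (h w) := by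
  have h1 := lintegral_image_eq_lintegral_abs_det_fderiv_mul (volume : Measure ℂ) hA
    (f := h) (f' := fun w => deriv h w • (1 : ℂ →L[ℝ] ℂ)) (fun w hw =>
      ((((hh w (hAD hw)).differentiableAt (hD.mem_nhds (hAD hw))).hasDerivAt).complexToReal_fderiv
        ).hasFDerivWithinAt) (hi.mono hAD) G
  rw [h1]
  refine lintegral_congr fun w => ?_
  rw [det_smul, abs_of_nonneg (by positivity)]

/-! ### The annulus -/

lemma annulus {a b : ℝ} (ha : 0 < a) (hab : a < b) :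
    ∫⁻ z in {z : ℂ | a < ‖z‖ ∧ ‖z‖ < b}, ENNReal.ofReal (1 / ‖z‖ ^ 2) =
      ENNReal.ofReal (2 * Real.pi * Real.log (b / a)) := by
  have hm : MeasurableSet {z : ℂ | a < ‖z‖ ∧ ‖z‖ < b} :=
    (measurableSet_lt measurable_const measurable_norm).inter
      (measurableSet_lt measurable_norm measurable_const)
  have hpi := Real.pi_pos
  rw [← lintegral_indicator hm, ← Complex.lintegral_comp_polarCoord_symm]
  have h1 : ∀ p ∈ polarCoord.target, ENNReal.ofReal p.1 •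
      ({z : ℂ | a < ‖z‖ ∧ ‖z‖ < b}.indicator (fun z => ENNReal.ofReal (1 / ‖z‖ ^ 2))
        (Complex.polarCoord.symm p)) =
      (Ioo a b).indicator (fun r : ℝ => ENNReal.ofReal r⁻¹) p.1 := by
    intro p hp
    have hp1 : 0 < p.1 := hp.1
    have hn : ‖Complex.polarCoord.symm p‖ = p.1 := by
      rw [Complex.norm_polarCoord_symm, abs_of_pos hp1]
    by_cases hc : a < p.1 ∧ p.1 < b
    · rw [indicator_of_mem (show Complex.polarCoord.symm p ∈ {z : ℂ | a < ‖z‖ ∧ ‖z‖ < b} by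
        rw [Set.mem_ofPred_eq, hn]; exact hc), indicator_of_mem (show p.1 ∈ Ioo a b from hc), hn,
        smul_eq_mul, ← ENNReal.ofReal_mul hp1.le]
      congr 1
      field_simp
    · rw [indicator_of_notMem (show Complex.polarCoord.symm p ∉ {z : ℂ | a < ‖z‖ ∧ ‖z‖ < b} by
        rw [Set.mem_ofPred_eq, hn]; exact hc),
        indicator_of_notMem (show p.1 ∉ Ioo a b from hc), smul_zero]
  rw [setLIntegral_congr_fun (polarCoord.open_target.measurableSet) h1]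
  have hmi : Measurable ((Ioo a b).indicator (fun r : ℝ => ENNReal.ofReal r⁻¹)) :=
    (ENNReal.measurable_ofReal.comp measurable_inv).indicator measurableSet_Ioo
  have h2 : ∫⁻ p in polarCoord.target,
      (Ioo a b).indicator (fun r : ℝ => ENNReal.ofReal r⁻¹) p.1 =
      ∫⁻ r in Ioi (0 : ℝ), ∫⁻ _θ in Ioo (-Real.pi) Real.pi,
        (Ioo a b).indicator (fun r : ℝ => ENNReal.ofReal r⁻¹) r := by
    rw [polarCoord_target, Measure.volume_eq_prod, setLIntegral_prod]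
    exact (hmi.comp measurable_fst).aemeasurable
  rw [h2]
  simp only [setLIntegral_const, Real.volume_Ioo]
  rw [lintegral_mul_const _ hmi, lintegral_indicator measurableSet_Ioo,
    Measure.restrict_restrict measurableSet_Ioo,
    inter_eq_left.2 (show Ioo a b ⊆ Ioi 0 from fun r hr => lt_trans ha hr.1)]
  have hint : IntegrableOn (fun r : ℝ => r⁻¹) (Ioo a b) := by
    have hc : ContinuousOn (fun r : ℝ => r⁻¹) (Icc a b) :=
      continuousOn_id.inv₀ fun r hr => (lt_of_lt_of_le ha hr.1).ne'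
    exact (hc.integrableOn_Icc).mono_set Ioo_subset_Icc_self
  have h3 : ∫⁻ r in Ioo a b, ENNReal.ofReal r⁻¹ = ENNReal.ofReal (Real.log (b / a)) := by
    rw [← ofReal_integral_eq_lintegral_ofReal hint]
    · rw [← integral_Ioc_eq_integral_Ioo, ← intervalIntegral.integral_of_le hab.le,
        integral_inv_of_pos ha (ha.trans hab)]
    · filter_upwards [ae_restrict_mem measurableSet_Ioo] with r hr
      exact (inv_pos.2 (ha.trans hr.1)).le
  rw [h3, ← ENNReal.ofReal_mul (Real.log_nonneg (by rw [le_div_iff₀ ha]; linarith))]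
  congr 1
  ring

/-! ### One ray -/

lemma ray {φ φ' : ℝ → ℂ} {r₀ b ρ M : ℝ} (h0b : r₀ ≤ b)
    (hd : ∀ r ∈ Icc r₀ b, HasDerivAt φ (φ' r) r) (hc : ContinuousOn φ' (Icc r₀ b))
    (hρ : 0 < ρ) (hρM : ρ < M) (h0 : ‖φ r₀‖ < ρ) (hb : M ≤ ‖φ b‖) :
    ∃ r₁ r₂ : ℝ, r₀ ≤ r₁ ∧ r₁ < r₂ ∧ r₂ ≤ b ∧ (∀ r ∈ Ioo r₁ r₂, ρ < ‖φ r‖ ∧ ‖φ r‖ < M) ∧
      ENNReal.ofReal (Real.log (M / ρ)) ≤
        ∫⁻ r in Ioo r₁ r₂, ENNReal.ofReal (‖φ' r‖ / ‖φ r‖) := by
  have hφc : ContinuousOn φ (Icc r₀ b) := fun r hr => (hd r hr).continuousAt.continuousWithinAt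
  have hψ : ContinuousOn (fun r => ‖φ r‖) (Icc r₀ b) := hφc.norm
  -- first time `‖φ‖ ≥ M`
  have hK2 : IsCompact {r ∈ Icc r₀ b | M ≤ ‖φ r‖} := by
    have h1 := hψ.preimage_isClosed_of_isClosed isClosed_Icc (isClosed_Ici (a := M))
    exact isCompact_Icc.of_isClosed_subset h1 inter_subset_left
  have hne2 : {r ∈ Icc r₀ b | M ≤ ‖φ r‖}.Nonempty := ⟨b, ⟨h0b, le_rfl⟩, hb⟩
  obtain ⟨r₂, hr2⟩ : ∃ r₂, r₂ = sInf {r ∈ Icc r₀ b | M ≤ ‖φ r‖} := ⟨_, rfl⟩
  have hr2m : r₂ ∈ {r ∈ Icc r₀ b | M ≤ ‖φ r‖} := hr2 ▸ hK2.sInf_mem hne2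
  have hlt2 : ∀ r ∈ Icc r₀ b, r < r₂ → ‖φ r‖ < M := by
    intro r hr hlt
    by_contra hge
    have := csInf_le hK2.bddBelow (show r ∈ {r ∈ Icc r₀ b | M ≤ ‖φ r‖} from ⟨hr, not_lt.1 hge⟩)
    rw [← hr2] at this
    linarith
  -- last time before `r₂` with `‖φ‖ ≤ ρ`
  have hsub : Icc r₀ r₂ ⊆ Icc r₀ b := Icc_subset_Icc_right hr2m.1.2
  have hψ2 : ContinuousOn (fun r => ‖φ r‖) (Icc r₀ r₂) := hψ.mono hsub
  have hK1 : IsCompact {r ∈ Icc r₀ r₂ | ‖φ r‖ ≤ ρ} := by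
    have h1 := hψ2.preimage_isClosed_of_isClosed isClosed_Icc (isClosed_Iic (a := ρ))
    exact isCompact_Icc.of_isClosed_subset h1 inter_subset_left
  have hne1 : {r ∈ Icc r₀ r₂ | ‖φ r‖ ≤ ρ}.Nonempty := ⟨r₀, ⟨le_rfl, hr2m.1.1⟩, h0.le⟩
  obtain ⟨r₁, hr1⟩ : ∃ r₁, r₁ = sSup {r ∈ Icc r₀ r₂ | ‖φ r‖ ≤ ρ} := ⟨_, rfl⟩
  have hr1m : r₁ ∈ {r ∈ Icc r₀ r₂ | ‖φ r‖ ≤ ρ} := hr1 ▸ hK1.sSup_mem hne1
  have hgt1 : ∀ r ∈ Icc r₀ r₂, r₁ < r → ρ < ‖φ r‖ := by
    intro r hr hlt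
    by_contra hge
    have := le_csSup hK1.bddAbove
      (show r ∈ {r ∈ Icc r₀ r₂ | ‖φ r‖ ≤ ρ} from ⟨hr, not_lt.1 hge⟩)
    rw [← hr1] at this
    linarith
  have h12 : r₁ < r₂ := by
    rcases lt_or_eq_of_le hr1m.1.2 with h | h
    · exact h
    · have h1 := hr1m.2
      rw [h] at h1
      have h2 := hr2m.2
      linarith
  have hρ1 : ‖φ r₁‖ = ρ := by
    have h1 : ρ ∈ (fun r => ‖φ r‖) '' Icc r₁ r₂ := by
      have h2 := intermediate_value_Icc h12.le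
        (hψ2.mono (Icc_subset_Icc_left hr1m.1.1))
      exact h2 ⟨hr1m.2, by have := hr2m.2; linarith⟩
    obtain ⟨r, hr, hre⟩ := h1
    rcases lt_or_eq_of_le hr.1 with h | h
    · have := hgt1 r ⟨hr1m.1.1.trans hr.1, hr.2⟩ h
      simp only at hre
      linarith
    · rw [h]; exact hre
  refine ⟨r₁, r₂, hr1m.1.1, h12, hr2m.1.2, fun r hr => ⟨hgt1 r ⟨hr1m.1.1.trans hr.1.le, hr.2.le⟩ hr.1,
    hlt2 r ⟨hr1m.1.1.trans hr.1.le, hr.2.le.trans hr2m.1.2⟩ hr.2⟩, ?_⟩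
  -- the fundamental theorem of calculus
  have hs12 : Icc r₁ r₂ ⊆ Icc r₀ b := fun r hr => ⟨hr1m.1.1.trans hr.1, hr.2.trans hr2m.1.2⟩
  have hpos : ∀ r ∈ Icc r₁ r₂, 0 < ‖φ r‖ := by
    intro r hr
    rcases lt_or_eq_of_le hr.1 with h | h
    · exact hρ.trans (hgt1 r ⟨hr1m.1.1.trans hr.1, hr.2⟩ h)
    · rw [← h, hρ1]; exact hρ
  have hder : ∀ r ∈ uIcc r₁ r₂, HasDerivAt (fun r => Real.log (‖φ r‖ ^ 2))
      (2 * inner ℝ (φ r) (φ' r) / ‖φ r‖ ^ 2) r := by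
    intro r hr
    rw [uIcc_of_le h12.le] at hr
    exact (hd r (hs12 hr)).norm_sq.log (pow_pos (hpos r hr) 2).ne'
  have hcφ : ContinuousOn φ (Icc r₁ r₂) := hφc.mono hs12
  have hcφ' : ContinuousOn φ' (Icc r₁ r₂) := hc.mono hs12
  have hc1 : ContinuousOn (fun r => 2 * inner ℝ (φ r) (φ' r) / ‖φ r‖ ^ 2) (Icc r₁ r₂) :=
    (continuousOn_const.mul (hcφ.inner hcφ')).div (hcφ.norm.pow 2)
      fun r hr => (pow_pos (hpos r hr) 2).ne'
  have hc2 : ContinuousOn (fun r => ‖φ' r‖ / ‖φ r‖) (Icc r₁ r₂) :=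
    hcφ'.norm.div hcφ.norm fun r hr => (hpos r hr).ne'
  have hi1 : IntervalIntegrable (fun r => 2 * inner ℝ (φ r) (φ' r) / ‖φ r‖ ^ 2) volume r₁ r₂ := by
    apply ContinuousOn.intervalIntegrable
    rw [uIcc_of_le h12.le]; exact hc1
  have hi2 : IntervalIntegrable (fun r => ‖φ' r‖ / ‖φ r‖) volume r₁ r₂ := by
    apply ContinuousOn.intervalIntegrable
    rw [uIcc_of_le h12.le]; exact hc2
  have hFTC := intervalIntegral.integral_eq_sub_of_hasDerivAt hder hi1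
  have hmono : ∫ r in r₁..r₂, 2 * inner ℝ (φ r) (φ' r) / ‖φ r‖ ^ 2 ≤
      ∫ r in r₁..r₂, 2 * (‖φ' r‖ / ‖φ r‖) := by
    refine intervalIntegral.integral_mono_on h12.le hi1 (hi2.const_mul 2) fun r hr => ?_
    have hp := hpos r hr
    rw [div_le_iff₀ (pow_pos hp 2)]
    have h1 := real_inner_le_norm (φ r) (φ' r)
    have h2 : 2 * (‖φ' r‖ / ‖φ r‖) * ‖φ r‖ ^ 2 = 2 * (‖φ r‖ * ‖φ' r‖) := by
      field_simp
    rw [h2]
    linarith
  rw [intervalIntegral.integral_const_mul, hFTC, Real.log_pow, Real.log_pow, hρ1] at hmono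
  have hlogM : Real.log M ≤ Real.log ‖φ r₂‖ := Real.log_le_log (hρ.trans hρM) hr2m.2
  have hfin : Real.log (M / ρ) ≤ ∫ r in r₁..r₂, ‖φ' r‖ / ‖φ r‖ := by
    rw [Real.log_div (hρ.trans hρM).ne' hρ.ne']
    push_cast at hmono
    linarith
  rw [intervalIntegral.integral_of_le h12.le, integral_Ioc_eq_integral_Ioo] at hfin
  refine (ENNReal.ofReal_le_ofReal hfin).trans (le_of_eq ?_)
  refine ofReal_integral_eq_lintegral_ofReal ?_ ?_
  · exact (hc2.integrableOn_Icc).mono_set Ioo_subset_Icc_self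
  · exact Eventually.of_forall fun r => by positivity

/-! ### The density -/

/-- the domain of integration -/
def dom (D : Set ℂ) (h : ℂ → ℂ) (ρ M : ℝ) : Set ℂ := {w | w ∈ D ∧ (ρ < ‖h w‖ ∧ ‖h w‖ < M)}

lemma isOpen_dom {D : Set ℂ} {h : ℂ → ℂ} (hD : IsOpen D) (hh : ContinuousOn h D) (ρ M : ℝ) :
    IsOpen (dom D h ρ M) := by
  have h1 : IsOpen (D ∩ (fun w => ‖h w‖) ⁻¹' (Ioo ρ M)) :=
    hh.norm.isOpen_inter_preimage hD isOpen_Ioo
  exact h1

/-- the density `|h'| / |h|` on the domain of integration -/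
noncomputable def dens (D : Set ℂ) (h : ℂ → ℂ) (ρ M : ℝ) : ℂ → ℝ :=
  (dom D h ρ M).indicator fun w => ‖deriv h w‖ / ‖h w‖

lemma dens_nonneg (D : Set ℂ) (h : ℂ → ℂ) (ρ M : ℝ) (w : ℂ) : 0 ≤ dens D h ρ M w :=
  indicator_nonneg (fun w _ => by positivity) w

lemma measurable_dens {D : Set ℂ} {h : ℂ → ℂ} (hD : IsOpen D) (hh : DifferentiableOn ℂ h D)
    {ρ M : ℝ} (hρ : 0 < ρ) : Measurable (dens D h ρ M) := by
  classical
  have ho := isOpen_dom hD hh.continuousOn ρ M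
  have hs : dom D h ρ M ⊆ D := fun w hw => hw.1
  have hc : ContinuousOn (fun w => ‖deriv h w‖ / ‖h w‖) (dom D h ρ M) :=
    ((hh.deriv hD).continuousOn.mono hs).norm.div (hh.continuousOn.mono hs).norm
      fun w hw => (hρ.trans hw.2.1).ne'
  have h1 := hc.measurable_piecewise (g := fun _ => (0 : ℝ)) continuousOn_const ho.measurableSet
  have h2 : dens D h ρ M = (dom D h ρ M).piecewise (fun w => ‖deriv h w‖ / ‖h w‖)
      (fun _ => (0 : ℝ)) := by
    rw [dens, ← piecewise_eq_indicator]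
    rfl
  rw [h2]
  exact h1

lemma energy {D : Set ℂ} {h : ℂ → ℂ} (hD : IsOpen D) (hh : DifferentiableOn ℂ h D)
    (hi : InjOn h D) {ρ M : ℝ} (hρ : 0 < ρ) (hM : ρ < M) :
    ∫⁻ w, ENNReal.ofReal (dens D h ρ M w ^ 2) ≤
      ENNReal.ofReal (2 * Real.pi * Real.log (M / ρ)) := by
  have ho := isOpen_dom hD hh.continuousOn ρ M
  have hs : dom D h ρ M ⊆ D := fun w hw => hw.1
  have h1 : ∀ w, ENNReal.ofReal (dens D h ρ M w ^ 2) = (dom D h ρ M).indicator
      (fun w => ENNReal.ofReal (‖deriv h w‖ ^ 2) * ENNReal.ofReal (1 / ‖h w‖ ^ 2)) w := by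
    intro w
    by_cases hw : w ∈ dom D h ρ M
    · rw [dens, indicator_of_mem hw, indicator_of_mem hw, ← ENNReal.ofReal_mul (by positivity)]
      congr 1
      rw [div_pow]; ring
    · rw [dens, indicator_of_notMem hw, indicator_of_notMem hw]
      simp
  rw [lintegral_congr h1, lintegral_indicator ho.measurableSet]
  have h2 := area hD hh hi ho.measurableSet hs (fun z => ENNReal.ofReal (1 / ‖z‖ ^ 2))
  rw [← h2, ← annulus hρ hM]
  refine lintegral_mono_set ?_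
  rintro z ⟨w, hw, rfl⟩
  exact hw.2

lemma polar {α β r₀ n : ℝ} (hα : -Real.pi ≤ α) (hβ : β ≤ Real.pi) (hr : 0 ≤ r₀) {g : ℂ → ℝ≥0∞}
    (hg : Measurable g) :
    ∫⁻ θ in Ioo α β, ∫⁻ r in Ioo r₀ n, ENNReal.ofReal r * g ((r : ℂ) * exp ((θ : ℂ) * I)) ≤
      ∫⁻ w, g w := by
  have hm : Measurable fun p : ℝ × ℝ => ENNReal.ofReal p.1 *
      g ((p.1 : ℂ) * exp ((p.2 : ℂ) * I)) := by
    refine (ENNReal.measurable_ofReal.comp measurable_fst).mul (hg.comp ?_)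
    have : Continuous fun p : ℝ × ℝ => (p.1 : ℂ) * exp ((p.2 : ℂ) * I) := by fun_prop
    exact this.measurable
  have h1 : ∫⁻ θ in Ioo α β, ∫⁻ r in Ioo r₀ n,
      ENNReal.ofReal r * g ((r : ℂ) * exp ((θ : ℂ) * I)) =
      ∫⁻ p in Ioo r₀ n ×ˢ Ioo α β, ENNReal.ofReal p.1 * g ((p.1 : ℂ) * exp ((p.2 : ℂ) * I)) := by
    rw [Measure.volume_eq_prod, setLIntegral_prod_symm _ hm.aemeasurable]
  rw [h1, ← Complex.lintegral_comp_polarCoord_symm]
  refine (lintegral_mono_set (t := polarCoord.target) ?_).trans (le_of_eq ?_)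
  · rintro ⟨r, θ⟩ ⟨hr1, hθ⟩
    exact ⟨lt_of_le_of_lt hr hr1.1, lt_of_le_of_lt hα hθ.1, lt_of_lt_of_le hθ.2 hβ⟩
  · refine lintegral_congr fun p => ?_
    rw [smul_eq_mul, Complex.polarCoord_symm_apply, exp_mul_I, ofReal_cos, ofReal_sin]

/-! ### The main inequality -/

lemma amgm {G l r : ℝ} (hl : 0 < l) (hr : 0 < r) :
    G ≤ l / 2 * (r * G ^ 2) + 1 / (2 * l) * r⁻¹ := by
  have h1 : l / 2 * (r * G ^ 2) + 1 / (2 * l) * r⁻¹ - G = 1 / (2 * l * r) * (l * r * G - 1) ^ 2 := by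
    field_simp
    ring
  have h2 : 0 ≤ 1 / (2 * l * r) * (l * r * G - 1) ^ 2 := by positivity
  linarith

lemma key {u : ℂ → ℝ} {y₁ y₂ : ℂ → ℂ} (hd : Dev u y₁ y₂) {x : ℂ} {D : Set ℂ} {h : ℂ → ℂ}
    (hs : IsStar y₁ y₂ x D h) (hB : StmBLK) {α β n : ℝ} (hα : -Real.pi ≤ α) (hαβ : α < β)
    (hβ : β ≤ Real.pi)
    (H : ∀ θ : ℝ, α < θ → θ < β → ∃ R : ℝ, R ≤ n ∧ Blk D (exp (θ * I)) R) : False := by
  have hpi := Real.pi_pos
  have hb : Branch y₁ y₂ x D h := hs.1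
  have hDo : IsOpen D := hb.1.1
  have h0D : (0 : ℂ) ∈ D := hb.1.2.1
  have hh : DifferentiableOn ℂ h D := hb.2.1
  have hi : InjOn h D := injOn hd hb
  obtain ⟨r₀, hr0, hball⟩ := Metric.nhds_basis_closedBall.mem_iff.1 (hDo.mem_nhds h0D)
  obtain ⟨C, hC⟩ := (isCompact_closedBall (0 : ℂ) r₀).exists_bound_of_continuousOn
    (hh.continuousOn.mono hball)
  obtain ⟨ρ, hρdef⟩ : ∃ ρ, ρ = |C| + 1 := ⟨_, rfl⟩
  have hρ : 0 < ρ := by rw [hρdef]; positivity
  -- one ray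
  have hnorm : ∀ (θ r : ℝ), ‖(r : ℂ) * exp ((θ : ℂ) * I)‖ = |r| := by
    intro θ r
    rw [norm_mul, Complex.norm_exp_ofReal_mul_I, mul_one, Complex.norm_real, Real.norm_eq_abs]
  have hr0R : ∀ θ R : ℝ, Blk D (exp (θ * I)) R → r₀ < R := by
    intro θ R hR
    by_contra hle
    refine hR.2.2 (hball ?_)
    rw [mem_closedBall_zero_iff, hnorm, abs_of_pos hR.1]
    exact not_lt.1 hle
  have hray : ∀ M : ℝ, ρ < M → ∀ θ ∈ Ioo α β, ENNReal.ofReal (Real.log (M / ρ)) ≤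
      ∫⁻ r in Ioo r₀ n, ENNReal.ofReal (dens D h ρ M ((r : ℂ) * exp ((θ : ℂ) * I))) := by
    intro M hM θ hθ
    obtain ⟨R, hRn, hR⟩ := H θ hθ.1 hθ.2
    have hlt := hr0R θ R hR
    have ht := hB u y₁ y₂ hd x D h hs (exp (θ * I)) R (exp_ne_zero _) hR
    obtain ⟨b, hbM, hb0, hbR⟩ := ((ht.eventually_ge_atTop M).and
      (Ioo_mem_nhdsLT hlt)).exists
    have hin : ∀ r ∈ Icc r₀ b, (r : ℂ) * exp ((θ : ℂ) * I) ∈ D := fun r hr =>
      hR.2.1 r (hr0.le.trans hr.1) (lt_of_le_of_lt hr.2 hbR)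
    have hcr : Continuous fun r : ℝ => (r : ℂ) * exp ((θ : ℂ) * I) := by fun_prop
    obtain ⟨r₁, r₂, h1, h12, h2, hmid, hfin⟩ := ray
      (φ := fun r : ℝ => h ((r : ℂ) * exp ((θ : ℂ) * I)))
      (φ' := fun r : ℝ => deriv h ((r : ℂ) * exp ((θ : ℂ) * I)) * exp ((θ : ℂ) * I))
      (r₀ := r₀) (b := b) (ρ := ρ) (M := M) hb0.le
      (by
        intro r hr
        have e1 : HasDerivAt h (deriv h ((r : ℂ) * exp ((θ : ℂ) * I)))
            ((r : ℂ) * exp ((θ : ℂ) * I)) :=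
          ((hh _ (hin r hr)).differentiableAt (hDo.mem_nhds (hin r hr))).hasDerivAt
        have e2 : HasDerivAt (fun r : ℝ => (r : ℂ) * exp ((θ : ℂ) * I))
            (exp ((θ : ℂ) * I)) r := by
          have := (Complex.ofRealCLM.hasDerivAt (x := r)).mul_const (exp ((θ : ℂ) * I))
          simpa using this
        exact e1.comp_of_eq r e2 rfl)
      (by
        refine ContinuousOn.mul ?_ continuousOn_const
        exact (hh.deriv hDo).continuousOn.comp hcr.continuousOn hin)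
      hρ hM
      (by
        have e1 := hC ((r₀ : ℂ) * exp ((θ : ℂ) * I)) (by
          rw [mem_closedBall_zero_iff, hnorm, abs_of_pos hr0])
        have e2 := le_abs_self C
        rw [hρdef]
        linarith)
      hbM
    refine hfin.trans ?_
    have hsub : Ioo r₁ r₂ ⊆ Ioo r₀ n := fun r hr =>
      ⟨lt_of_le_of_lt h1 hr.1, (hr.2.trans_le h2).trans (hbR.trans_le hRn)⟩
    refine (le_of_eq ?_).trans (lintegral_mono_set hsub)
    refine setLIntegral_congr_fun measurableSet_Ioo fun r hr => ?_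
    have hrD : (r : ℂ) * exp ((θ : ℂ) * I) ∈ dom D h ρ M :=
      ⟨hin r ⟨h1.trans hr.1.le, hr.2.le.trans h2⟩, hmid r hr⟩
    rw [dens, indicator_of_mem hrD, norm_mul, Complex.norm_exp_ofReal_mul_I, mul_one]
  -- `r₀ < n`
  have hr0n : r₀ < n := by
    obtain ⟨R, hRn, hR⟩ := H ((α + β) / 2) (by linarith) (by linarith)
    exact (hr0R _ R hR).trans_le hRn
  obtain ⟨N, hN⟩ : ∃ N, N = Real.log (n / r₀) := ⟨_, rfl⟩
  have hN0 : 0 ≤ N := by
    rw [hN]; exact Real.log_nonneg (by rw [le_div_iff₀ hr0]; linarith)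
  have hmain : ∀ M : ℝ, ρ < M → (β - α) * Real.log (M / ρ) ≤ 2 * Real.pi * N := by
    intro M hM
    have hL0 : 0 ≤ Real.log (M / ρ) := Real.log_nonneg (by rw [le_div_iff₀ hρ]; linarith)
    obtain ⟨L, hL⟩ : ∃ L, L = Real.log (M / ρ) := ⟨_, rfl⟩
    rw [← hL] at hL0 ⊢
    obtain ⟨l, hl⟩ : ∃ l, l = (β - α) / (2 * Real.pi) := ⟨_, rfl⟩
    have hl0 : 0 < l := by rw [hl]; exact div_pos (by linarith) (by linarith)
    have hmd := measurable_dens (ρ := ρ) (M := M) hDo hh hρ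
    have hmd2 : Measurable fun w => ENNReal.ofReal (dens D h ρ M w ^ 2) :=
      ENNReal.measurable_ofReal.comp (hmd.pow_const 2)
    have e1 : ENNReal.ofReal L * ENNReal.ofReal (β - α) ≤
        ∫⁻ θ in Ioo α β, ∫⁻ r in Ioo r₀ n,
          ENNReal.ofReal (dens D h ρ M ((r : ℂ) * exp ((θ : ℂ) * I))) := by
      rw [← Real.volume_Ioo, ← setLIntegral_const]
      refine setLIntegral_mono' measurableSet_Ioo fun θ hθ => ?_
      rw [hL]
      exact hray M hM θ hθ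
    have hmr : ∀ θ : ℝ, Measurable fun r : ℝ => ENNReal.ofReal r *
        ENNReal.ofReal (dens D h ρ M ((r : ℂ) * exp ((θ : ℂ) * I)) ^ 2) := by
      intro θ
      refine ENNReal.measurable_ofReal.mul (hmd2.comp ?_)
      have : Continuous fun r : ℝ => (r : ℂ) * exp ((θ : ℂ) * I) := by fun_prop
      exact this.measurable
    have hinv : ∫⁻ r in Ioo r₀ n, ENNReal.ofReal r⁻¹ = ENNReal.ofReal N := by
      have hint : IntegrableOn (fun r : ℝ => r⁻¹) (Ioo r₀ n) := by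
        have hc : ContinuousOn (fun r : ℝ => r⁻¹) (Icc r₀ n) :=
          continuousOn_id.inv₀ fun r hr => (lt_of_lt_of_le hr0 hr.1).ne'
        exact (hc.integrableOn_Icc).mono_set Ioo_subset_Icc_self
      rw [← ofReal_integral_eq_lintegral_ofReal hint]
      · rw [← integral_Ioc_eq_integral_Ioo, ← intervalIntegral.integral_of_le hr0n.le,
          integral_inv_of_pos hr0 (hr0.trans hr0n), hN]
      · filter_upwards [ae_restrict_mem measurableSet_Ioo] with r hr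
        exact (inv_pos.2 (hr0.trans hr.1)).le
    have e2 : ∀ θ : ℝ, ∫⁻ r in Ioo r₀ n,
        ENNReal.ofReal (dens D h ρ M ((r : ℂ) * exp ((θ : ℂ) * I))) ≤
        ENNReal.ofReal (l / 2) * (∫⁻ r in Ioo r₀ n, ENNReal.ofReal r *
          ENNReal.ofReal (dens D h ρ M ((r : ℂ) * exp ((θ : ℂ) * I)) ^ 2)) +
        ENNReal.ofReal (1 / (2 * l)) * ENNReal.ofReal N := by
      intro θ
      have hmi : Measurable fun r : ℝ => ENNReal.ofReal r⁻¹ :=
        ENNReal.measurable_ofReal.comp measurable_inv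
      rw [← hinv, ← lintegral_const_mul _ (hmr θ), ← lintegral_const_mul _ hmi,
        ← lintegral_add_left ((hmr θ).const_mul _)]
      refine setLIntegral_mono' measurableSet_Ioo fun r hr => ?_
      have hr' : 0 < r := hr0.trans hr.1
      rw [← ENNReal.ofReal_mul hr'.le, ← ENNReal.ofReal_mul (by positivity),
        ← ENNReal.ofReal_mul (by positivity),
        ← ENNReal.ofReal_add (by positivity) (by positivity)]
      exact ENNReal.ofReal_le_ofReal (amgm hl0 hr')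
    have hmθ : Measurable fun θ : ℝ => ∫⁻ r in Ioo r₀ n, ENNReal.ofReal r *
        ENNReal.ofReal (dens D h ρ M ((r : ℂ) * exp ((θ : ℂ) * I)) ^ 2) := by
      have hm : Measurable fun p : ℝ × ℝ => ENNReal.ofReal p.2 *
          ENNReal.ofReal (dens D h ρ M ((p.2 : ℂ) * exp ((p.1 : ℂ) * I)) ^ 2) := by
        refine (ENNReal.measurable_ofReal.comp measurable_snd).mul (hmd2.comp ?_)
        have : Continuous fun p : ℝ × ℝ => (p.2 : ℂ) * exp ((p.1 : ℂ) * I) := by fun_prop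
        exact this.measurable
      exact hm.lintegral_prod_right'
    have e3 : ∫⁻ θ in Ioo α β, ∫⁻ r in Ioo r₀ n,
          ENNReal.ofReal (dens D h ρ M ((r : ℂ) * exp ((θ : ℂ) * I))) ≤
        ENNReal.ofReal (l / 2) * ENNReal.ofReal (2 * Real.pi * L) +
        ENNReal.ofReal (1 / (2 * l)) * ENNReal.ofReal N * ENNReal.ofReal (β - α) := by
      refine (setLIntegral_mono' measurableSet_Ioo fun θ _ => e2 θ).trans ?_
      rw [lintegral_add_left (hmθ.const_mul _), lintegral_const_mul _ hmθ, setLIntegral_const,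
        Real.volume_Ioo]
      gcongr
      have e4 := polar (n := n) hα hβ hr0.le hmd2
      refine e4.trans ?_
      rw [hL]
      exact energy hDo hh hi hρ hM
    have e5 := e1.trans e3
    rw [← ENNReal.ofReal_mul hL0, ← ENNReal.ofReal_mul (by positivity),
      ← ENNReal.ofReal_mul (by positivity), ← ENNReal.ofReal_mul (by positivity),
      ← ENNReal.ofReal_add (by positivity) (mul_nonneg (by positivity) (by linarith)),
      ENNReal.ofReal_le_ofReal_iff (add_nonneg (by positivity)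
        (mul_nonneg (by positivity) (by linarith)))] at e5
    have e6 : l / 2 * (2 * Real.pi * L) = (β - α) * L / 2 := by
      rw [hl]; field_simp
    have hba : (β - α) ≠ 0 := by linarith
    have e7 : 1 / (2 * l) * N * (β - α) = Real.pi * N := by
      rw [hl]; field_simp
    rw [e6, e7] at e5
    linarith
  -- conclusion
  have hba : 0 < β - α := by linarith
  obtain ⟨K, hK⟩ : ∃ K, K = 2 * Real.pi * N / (β - α) + 1 := ⟨_, rfl⟩
  have hK0 : 0 < K := by rw [hK]; positivity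
  have h1 := hmain (ρ * Real.exp K) (by
    have := Real.one_lt_exp_iff.2 hK0
    nlinarith)
  have h2 : ρ * Real.exp K / ρ = Real.exp K := by field_simp
  rw [h2, Real.log_exp, hK] at h1
  have h3 : (β - α) * (2 * Real.pi * N / (β - α) + 1) = 2 * Real.pi * N + (β - α) := by
    field_simp
  linarith

end Pool.Agent.T6.H85.LV.GR2

namespace Pool.Agent.T6.H85.LV

open Complex Filter Topology Set

theorem gr2 (hB : StmBLK) : StmGR2 := by
  intro u y₁ y₂ hd x D h hs α β n hαβ H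
  have hpi := Real.pi_pos
  -- shift the midpoint
  obtain ⟨δ, hδ⟩ : ∃ δ, δ = (β - α) / 2 := ⟨_, rfl⟩
  have hδ0 : 0 < δ := by rw [hδ]; linarith
  obtain ⟨t, ht⟩ : ∃ t, t = toIocMod Real.two_pi_pos (-Real.pi) ((α + β) / 2) := ⟨_, rfl⟩
  obtain ⟨k, hk⟩ : ∃ k, k = toIocDiv Real.two_pi_pos (-Real.pi) ((α + β) / 2) := ⟨_, rfl⟩
  have htm : t ∈ Ioc (-Real.pi) (-Real.pi + 2 * Real.pi) := ht ▸ toIocMod_mem_Ioc _ _ _
  have htk : (α + β) / 2 - k * (2 * Real.pi) = t := by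
    rw [ht, hk, ← zsmul_eq_mul]
    exact self_sub_toIocDiv_zsmul _ _ _
  refine GR2.key hd hs hB (α := max (-Real.pi) (t - δ)) (β := t) (n := n) (le_max_left _ _)
    (max_lt htm.1 (by linarith)) (by linarith [htm.2]) ?_
  intro θ hθ1 hθ2
  have h1 : t - δ < θ := lt_of_le_of_lt (le_max_right _ _) hθ1
  obtain ⟨R, hR, hRB⟩ := H (θ + k * (2 * Real.pi)) (by rw [hδ] at h1; linarith) (by linarith)
  refine ⟨R, hR, ?_⟩
  have h2 : exp (((θ + k * (2 * Real.pi) : ℝ) : ℂ) * I) = exp ((θ : ℂ) * I) := by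
    push_cast
    rw [add_mul, exp_add, mul_assoc, exp_int_mul_two_pi_mul_I, mul_one]
  rwa [h2] at hRB

end Pool.Agent.T6.H85.LV
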