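import Pool.Agent.T6.H85.LV.Stm

/-!
Project LV (helper85), MP_47dd70_an: module GROSS.  In every interval of directions there is one
with the whole ray in the star.
-/

set_option autoImplicit false

namespace Pool.Agent.T6.H85.LV

open Complex Filter Topology Set
open scoped ComplexConjugate

theorem gross (h0 : StmBLK0) (h2 : StmGR2) : StmGROSS := by
  intro u y₁ y₂ hDev x D h hst α β hαβ
  by_contra hcon
  push Not at hcon
  have hstar : StarSet D := hst.1.1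
  have hopen : IsOpen D := hstar.1
  set a : ℝ := (2 * α + β) / 3 with ha
  set b : ℝ := (α + 2 * β) / 3 with hb
  have hab : a < b := by rw [ha, hb]; linarith
  have haα : α < a := by rw [ha]; linarith
  have hbβ : b < β := by rw [hb]; linarith
  let K : ℕ → Set (ℝ × ℝ) := fun n => (Icc a b ×ˢ Icc (0 : ℝ) n) ∩
    {p : ℝ × ℝ | (p.2 : ℂ) * exp (p.1 * I) ∈ Dᶜ}
  have hKc : ∀ n, IsCompact (K n) := by
    intro n
    apply (isCompact_Icc.prod isCompact_Icc).inter_right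
    apply hopen.isClosed_compl.preimage
    fun_prop
  let C : ℕ → Set ℝ := fun n => Prod.fst '' (K n)
  have hCclosed : ∀ n, IsClosed (C n) := fun n => ((hKc n).image continuous_fst).isClosed
  have hcover : ∀ θ ∈ Ioo a b, ∃ n, θ ∈ C n := by
    intro θ hθ
    obtain ⟨r, hr0, hr⟩ := hcon θ (haα.trans hθ.1) (hθ.2.trans hbβ)
    obtain ⟨n, hn⟩ := exists_nat_ge r
    exact ⟨n, ⟨(θ, r), ⟨⟨⟨hθ.1.le, hθ.2.le⟩, ⟨hr0, hn⟩⟩, hr⟩, rfl⟩⟩
  have hex : ∃ n, ¬ Dense (C n)ᶜ := by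
    by_contra hall
    push Not at hall
    have hd := dense_iInter_of_isOpen (fun n => (hCclosed n).isOpen_compl) hall
    obtain ⟨θ, hθ1, hθ2⟩ := hd.inter_open_nonempty (Ioo a b) isOpen_Ioo ⟨(a + b) / 2,
      by constructor <;> linarith⟩
    obtain ⟨n, hn⟩ := hcover θ hθ1
    exact (mem_iInter.mp hθ2 n) hn
  obtain ⟨n, hn⟩ := hex
  rw [← interior_eq_empty_iff_dense_compl, ← Ne, ← Set.nonempty_iff_ne_empty] at hn
  obtain ⟨θ₀, hθ₀⟩ := hn
  obtain ⟨ε, hε, hball⟩ := Metric.isOpen_iff.mp isOpen_interior θ₀ hθ₀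
  refine h2 u y₁ y₂ hDev x D h hst (θ₀ - ε) (θ₀ + ε) n (by linarith) ?_
  intro θ hθ1 hθ2
  have hθC : θ ∈ C n := by
    apply interior_subset
    apply hball
    rw [Metric.mem_ball, Real.dist_eq, abs_lt]
    constructor <;> linarith
  obtain ⟨⟨θ', r⟩, ⟨⟨_, hr⟩, hnot⟩, heq⟩ := hθC
  simp only at heq hr hnot
  subst heq
  obtain ⟨R, hR, hRr⟩ := h0 D hstar (exp (θ' * I)) r hr.1 hnot
  exact ⟨R, hRr.trans hr.2, hR⟩

end Pool.Agent.T6.H85.LV
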