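import Pool.Agent.T6.H85.LV.Stm

/-!
# Local inverses and uniqueness of branches (helper94)
-/

set_option autoImplicit false

namespace Pool.Agent.T6.H85.LV.LI

open Complex Filter Topology Set Metric

/-- **Holomorphic local inverse.** -/
theorem local_inv {F : ℂ → ℂ} {U : Set ℂ} (hU : IsOpen U) (hF : DifferentiableOn ℂ F U) {z₀ : ℂ}
    (hz : z₀ ∈ U) (hd : deriv F z₀ ≠ 0) :
    ∃ N : Set ℂ, IsOpen N ∧ z₀ ∈ N ∧ N ⊆ U ∧ InjOn F N ∧ ∃ δ : ℝ, 0 < δ ∧ ∃ g : ℂ → ℂ,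
      DifferentiableOn ℂ g (ball (F z₀) δ) ∧ g (F z₀) = z₀ ∧
        ∀ w ∈ ball (F z₀) δ, g w ∈ N ∧ F (g w) = w := by
  have hA : AnalyticOnNhd ℂ F U := hF.analyticOnNhd hU
  have hs : HasStrictDerivAt F (deriv F z₀) z₀ := (hA z₀ hz).hasStrictDerivAt
  let e := (hs.hasStrictFDerivAt_equiv hd).toOpenPartialHomeomorph F
  have he : ∀ z, e z = F z := fun z => by
    simp only [e, HasStrictFDerivAt.toOpenPartialHomeomorph_coe]
  have hz0 : z₀ ∈ e.source :=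
    HasStrictFDerivAt.mem_toOpenPartialHomeomorph_source (hs.hasStrictFDerivAt_equiv hd)
  have hcd : ContinuousOn (deriv F) U := (hA.deriv).continuousOn
  have hV : IsOpen (U ∩ {z | deriv F z ≠ 0}) := by
    have := hcd.isOpen_inter_preimage hU (isOpen_compl_singleton (x := (0 : ℂ)))
    exact this
  let N : Set ℂ := e.source ∩ (U ∩ {z | deriv F z ≠ 0})
  have hN : IsOpen N := e.open_source.inter hV
  have hzN : z₀ ∈ N := ⟨hz0, hz, hd⟩
  have hinj : InjOn F N := by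
    intro a ha b hb hab
    exact e.injOn ha.1 hb.1 (by rw [he, he, hab])
  have him : IsOpen (e '' N) := e.isOpen_image_of_subset_source hN inter_subset_left
  have hmem : F z₀ ∈ e '' N := ⟨z₀, hzN, he z₀⟩
  obtain ⟨δ, hδ, hball⟩ := Metric.isOpen_iff.1 him _ hmem
  refine ⟨N, hN, hzN, fun z h => h.2.1, hinj, δ, hδ, e.symm, ?_, ?_, ?_⟩
  · intro w hw
    obtain ⟨z, hzN', rfl⟩ := hball hw
    have hc : ContinuousAt e.symm (e z) :=
      e.symm.continuousAt (by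
        change e z ∈ e.target
        exact e.map_source hzN'.1)
    have h1 : HasDerivAt F (deriv F z) (e.symm (e z)) := by
      rw [e.left_inv hzN'.1]
      exact ((hF z hzN'.2.1).differentiableAt (hU.mem_nhds hzN'.2.1)).hasDerivAt
    have h2 : ∀ᶠ y in 𝓝 (e z), F (e.symm y) = y := by
      filter_upwards [e.open_target.mem_nhds (e.map_source hzN'.1)] with y hy
      rw [← he]
      exact e.right_inv hy
    exact (HasDerivAt.of_local_left_inverse hc h1 hzN'.2.2 h2).differentiableAt.differentiableWithinAt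
  · have := e.left_inv hz0
    rwa [he] at this
  · intro w hw
    obtain ⟨z, hzN', rfl⟩ := hball hw
    rw [e.left_inv hzN'.1]
    exact ⟨hzN', (he z).symm⟩

theorem uniq {X : Type*} [TopologicalSpace X] [PreconnectedSpace X] {h h' : X → ℂ}
    (hc : Continuous h) (hc' : Continuous h')
    (hl : ∀ x, h x = h' x → ∀ᶠ x' in 𝓝 x, h x' = h' x') {x₀ : X} (h0 : h x₀ = h' x₀) (x : X) :
    h x = h' x := by
  have hcl : IsClopen {x | h x = h' x} :=
    ⟨isClosed_eq hc hc', isOpen_iff_mem_nhds.2 fun x hx => hl x hx⟩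
  have := hcl.eq_univ ⟨x₀, h0⟩
  have hx : x ∈ {x | h x = h' x} := by rw [this]; trivial
  exact hx

variable {u : ℂ → ℝ} {y₁ y₂ : ℂ → ℂ}

theorem y1_ne (hD : Dev u y₁ y₂) {z w : ℂ} (h : y₂ z = w * y₁ z) : y₁ z ≠ 0 := by
  intro h0
  have := hD.wr z
  rw [h, h0] at this
  simp at this

theorem deriv_F (hD : Dev u y₁ y₂) {z : ℂ} (h : y₁ z ≠ 0) :
    HasDerivAt (fun z => y₂ z / y₁ z) (1 / y₁ z ^ 2) z := by
  have h1 := (hD.d2 z).hasDerivAt.div (hD.d1 z).hasDerivAt h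
  have h2 : (deriv y₂ z * y₁ z - y₂ z * deriv y₁ z) / y₁ z ^ 2 = 1 / y₁ z ^ 2 := by
    rw [← hD.wr z]
    ring
  exact h1.congr_deriv h2

theorem isOpen_ne (hD : Dev u y₁ y₂) : IsOpen {z | y₁ z ≠ 0} :=
  isOpen_ne_fun hD.d1.continuous continuous_const

/-- local inverse of `y₂ / y₁` at a point with `y₂ z₀ = w₀ y₁ z₀` -/
theorem local_F (hD : Dev u y₁ y₂) {z₀ w₀ : ℂ} (h : y₂ z₀ = w₀ * y₁ z₀) :
    ∃ N : Set ℂ, IsOpen N ∧ z₀ ∈ N ∧
      (∀ z ∈ N, ∀ z' ∈ N, ∀ w, y₂ z = w * y₁ z → y₂ z' = w * y₁ z' → z = z') ∧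
      ∃ δ : ℝ, 0 < δ ∧ ∃ g : ℂ → ℂ, DifferentiableOn ℂ g (ball w₀ δ) ∧ g w₀ = z₀ ∧
        ∀ w ∈ ball w₀ δ, g w ∈ N ∧ y₂ (g w) = w * y₁ (g w) := by
  have h1 : y₁ z₀ ≠ 0 := y1_ne hD h
  have hw : y₂ z₀ / y₁ z₀ = w₀ := by rw [h]; field_simp
  obtain ⟨N, hN, hz, hNU, hinj, δ, hδ, g, hg, hg0, hgw⟩ := local_inv (F := fun z => y₂ z / y₁ z)
    (isOpen_ne hD) (fun z hz => (deriv_F hD hz).differentiableAt.differentiableWithinAt) h1
    (by rw [(deriv_F hD h1).deriv]; exact div_ne_zero one_ne_zero (pow_ne_zero _ h1))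
  simp only [hw] at hg hg0 hgw
  refine ⟨N, hN, hz, ?_, δ, hδ, g, hg, hg0, ?_⟩
  · intro z hzN z' hzN' w e1 e2
    refine hinj hzN hzN' ?_
    have a1 : y₁ z ≠ 0 := hNU hzN
    have a2 : y₁ z' ≠ 0 := hNU hzN'
    change y₂ z / y₁ z = y₂ z' / y₁ z'
    rw [e1, e2]
    field_simp
  · intro w hw'
    obtain ⟨b1, b2⟩ := hgw w hw'
    have a1 : y₁ (g w) ≠ 0 := hNU b1
    refine ⟨b1, ?_⟩
    rw [div_eq_iff a1] at b2
    exact b2

/-- local injectivity gives the openness of the set where two branches agree -/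
theorem agree_nhds (hD : Dev u y₁ y₂) {X : Type*} [TopologicalSpace X] {h h' ω : X → ℂ} {x : X}
    (hc : ContinuousAt h x) (hc' : ContinuousAt h' x) (e : ∀ x, y₂ (h x) = ω x * y₁ (h x))
    (e' : ∀ x, y₂ (h' x) = ω x * y₁ (h' x)) (hx : h x = h' x) :
    ∀ᶠ x' in 𝓝 x, h x' = h' x' := by
  obtain ⟨N, hN, hz, hinj, -⟩ := local_F hD (e x)
  filter_upwards [hc (hN.mem_nhds hz), hc' (hN.mem_nhds (hx ▸ hz))] with x' h1 h2
  exact hinj _ h1 _ h2 _ (e x') (e' x')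

/-- **Uniqueness of branches on preconnected sets.** -/
theorem branch_uniq (hD : Dev u y₁ y₂) {S : Set ℂ} (hS : IsPreconnected S) {h h' : ℂ → ℂ}
    (hc : ContinuousOn h S) (hc' : ContinuousOn h' S) (e : ∀ w ∈ S, y₂ (h w) = w * y₁ (h w))
    (e' : ∀ w ∈ S, y₂ (h' w) = w * y₁ (h' w)) {w₀ : ℂ} (hw₀ : w₀ ∈ S) (h0 : h w₀ = h' w₀) :
    ∀ w ∈ S, h w = h' w := by
  intro w hw
  have : PreconnectedSpace S := Subtype.preconnectedSpace hS
  have c1 : Continuous (S.domRestrict h) := continuousOn_iff_continuous_domRestrict.1 hc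
  have c2 : Continuous (S.domRestrict h') := continuousOn_iff_continuous_domRestrict.1 hc'
  have := uniq c1 c2 (fun x hx => agree_nhds hD c1.continuousAt c2.continuousAt
    (ω := fun x : S => (x : ℂ)) (fun x => e x x.2) (fun x => e' x x.2) hx) (x₀ := ⟨w₀, hw₀⟩) h0
    ⟨w, hw⟩
  exact this

end Pool.Agent.T6.H85.LV.LI
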