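import Pool.Agent.T6.H85.LV.Stm
import Pool.Agent.T6.H85.LV.LI

/-!
Project LV (helper85), MP_47dd70_an: module LOC.  The blocked point `R v` of a star is a blocked
point of the star of every point off the line `ℝ v`.
-/

set_option autoImplicit false

namespace Pool.Agent.T6.H85.LV

open Complex Filter Topology Set
open scoped ComplexConjugate

namespace LOC

/-- numerator -/
noncomputable def Nm (ζ : ℂ) (R t : ℝ) : ℂ := t * ((R : ℂ) - ζ) + ζ * (1 + conj ζ * R)

/-- denominator -/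
noncomputable def Dn (ζ : ℂ) (R t : ℝ) : ℂ := 1 + conj ζ * R - t * (conj ζ * ((R : ℂ) - ζ))

theorem im_formula (ζ : ℂ) (R t : ℝ) : (Nm ζ R t * conj (Dn ζ R t)).im =
    ζ.im * (1 - t) * ((1 - t) * ((1 + ζ.re * R) ^ 2 + (ζ.im * R) ^ 2) +
      t * (1 + (ζ.re ^ 2 + ζ.im ^ 2) * R ^ 2 + (ζ.re ^ 2 + ζ.im ^ 2) + R ^ 2)) := by
  unfold Nm Dn
  simp only [map_add, map_sub, map_mul, map_one, Complex.conj_conj, Complex.conj_ofReal,
    Complex.mul_im, Complex.add_re, Complex.add_im, Complex.sub_re, Complex.sub_im,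
    Complex.mul_re, Complex.conj_re, Complex.conj_im, Complex.ofReal_re, Complex.ofReal_im,
    Complex.one_re, Complex.one_im]
  ring

theorem im_pos (ζ : ℂ) (hζ : ζ.im ≠ 0) (R t : ℝ) (hR : 0 < R) (ht0 : 0 ≤ t) (ht1 : t < 1) :
    0 < ζ.im * (Nm ζ R t * conj (Dn ζ R t)).im := by
  rw [im_formula]
  have h1 : 0 < (1 + ζ.re * R) ^ 2 + (ζ.im * R) ^ 2 := by
    have : 0 < (ζ.im * R) ^ 2 := by
      have := mul_ne_zero hζ hR.ne'
      positivity
    positivity
  have h2 : 0 < 1 + (ζ.re ^ 2 + ζ.im ^ 2) * R ^ 2 + (ζ.re ^ 2 + ζ.im ^ 2) + R ^ 2 := by positivity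
  have h3 : 0 < (1 - t) * ((1 + ζ.re * R) ^ 2 + (ζ.im * R) ^ 2) +
      t * (1 + (ζ.re ^ 2 + ζ.im ^ 2) * R ^ 2 + (ζ.re ^ 2 + ζ.im ^ 2) + R ^ 2) := by
    have a1 : 0 < (1 - t) * ((1 + ζ.re * R) ^ 2 + (ζ.im * R) ^ 2) :=
      mul_pos (by linarith) h1
    have a2 := mul_nonneg ht0 h2.le
    linarith
  have h4 : 0 < ζ.im ^ 2 := by positivity
  have h5 : 0 < ζ.im ^ 2 * (1 - t) := mul_pos h4 (by linarith)
  have := mul_pos h5 h3
  calc (0 : ℝ) < _ := this
    _ = _ := by ring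

theorem Dn_ne (ζ : ℂ) (hζ : ζ.im ≠ 0) (R t : ℝ) (hR : 0 < R) (ht0 : 0 ≤ t) (ht1 : t < 1) :
    Dn ζ R t ≠ 0 := by
  intro h
  have := im_pos ζ hζ R t hR ht0 ht1
  rw [h] at this
  simp at this

theorem Dn_one (ζ : ℂ) (R : ℝ) : Dn ζ R 1 = ((1 + Complex.normSq ζ : ℝ) : ℂ) := by
  unfold Dn
  push_cast
  have := Complex.mul_conj ζ
  linear_combination this

theorem Nm_one (ζ : ℂ) (R : ℝ) : Nm ζ R 1 = R * ((1 + Complex.normSq ζ : ℝ) : ℂ) := by
  unfold Nm
  push_cast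
  have := Complex.mul_conj ζ
  linear_combination (R : ℂ) * this

theorem M_ne (ζ : ℂ) (hζ : ζ.im ≠ 0) (R : ℝ) (hR : 0 < R) : (1 : ℂ) + conj ζ * R ≠ 0 := by
  intro h
  have := congrArg Complex.im h
  simp at this
  rcases this with h | h
  · exact hζ h
  · exact hR.ne' h

theorem tm_eq (v ζ : ℂ) (hv : conj v * v = 1) (R : ℝ) :
    Tm (v * ζ) ((R : ℂ) * v) = v * ((R : ℂ) - ζ) / (1 + conj ζ * R) := by
  have h2 : (1 : ℂ) + conj (v * ζ) * ((R : ℂ) * v) = 1 + conj ζ * R := by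
    rw [map_mul]
    linear_combination (conj ζ * R) * hv
  unfold Tm
  rw [h2]
  congr 1
  ring

theorem den_eq (v ζ : ℂ) (hv : conj v * v = 1) (hζ : ζ.im ≠ 0) (R t : ℝ) (hR : 0 < R) :
    1 - conj (v * ζ) * ((t : ℂ) * Tm (v * ζ) ((R : ℂ) * v)) = Dn ζ R t / (1 + conj ζ * R) := by
  have hM := M_ne ζ hζ R hR
  rw [tm_eq v ζ hv, map_mul, eq_div_iff hM]
  unfold Dn
  field_simp
  linear_combination (-conj ζ * t * ((R : ℂ) - ζ)) * hv

theorem ti_eq (v ζ : ℂ) (hv : conj v * v = 1) (hζ : ζ.im ≠ 0) (R t : ℝ) (hR : 0 < R)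
    (hD : Dn ζ R t ≠ 0) :
    Ti (v * ζ) ((t : ℂ) * Tm (v * ζ) ((R : ℂ) * v)) = v * (Nm ζ R t / Dn ζ R t) := by
  have hM := M_ne ζ hζ R hR
  unfold Ti
  rw [den_eq v ζ hv hζ R t hR, tm_eq v ζ hv]
  rw [div_div_eq_mul_div, ← mul_div_assoc v (Nm ζ R t) (Dn ζ R t), div_left_inj' hD, add_mul,
    mul_assoc (t : ℂ), div_mul_cancel₀ _ hM]
  unfold Nm
  ring

theorem off_line (v : ℂ) (hv : conj v * v = 1) (q : ℂ) (hq : q.im ≠ 0) (r : ℝ) :
    v * q ≠ (r : ℂ) * v := by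
  intro h
  apply hq
  have : q = (r : ℂ) := by
    have h2 : conj v * (v * q) = conj v * ((r : ℂ) * v) := by rw [h]
    linear_combination h2 + ((r : ℂ) - q) * hv
  rw [this]; simp

theorem quot_im (a b : ℂ) (hb : b ≠ 0) (s : ℝ) (h : 0 < s * (a * conj b).im) :
    0 < s * (a / b).im := by
  have : a / b = (a * conj b) * (((Complex.normSq b)⁻¹ : ℝ) : ℂ) := by
    rw [div_eq_mul_inv, Complex.inv_def]
    ring
  rw [this, Complex.im_mul_ofReal, ← mul_assoc]
  exact mul_pos h (inv_pos.mpr (Complex.normSq_pos.mpr hb))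

/-- the lexicographic half plane is convex -/
theorem convex_half (v : ℂ) (s R : ℝ) : Convex ℝ {w : ℂ | 0 < s * (conj v * w).im ∨
    (s * (conj v * w).im = 0 ∧ (conj v * w).re < R)} := by
  intro p hp q hq a b ha hb hab
  have e1 : (conj v * (a • p + b • q)).im = a * (conj v * p).im + b * (conj v * q).im := by
    simp only [Complex.real_smul, mul_add, Complex.add_im, Complex.mul_im, Complex.ofReal_re,
      Complex.ofReal_im, Complex.mul_re]
    ring
  have e2 : (conj v * (a • p + b • q)).re = a * (conj v * p).re + b * (conj v * q).re := by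
    simp only [Complex.real_smul, mul_add, Complex.add_re, Complex.mul_im, Complex.ofReal_re,
      Complex.ofReal_im, Complex.mul_re]
    ring
  simp only [mem_ofPred_eq] at hp hq ⊢
  rw [e1, e2]
  generalize (conj v * p).im = X at *
  generalize (conj v * q).im = Y at *
  generalize (conj v * p).re = X' at *
  generalize (conj v * q).re = Y' at *
  have e3 : s * (a * X + b * Y) = a * (s * X) + b * (s * Y) := by ring
  rw [e3]
  generalize s * X = P at *
  generalize s * Y = Q at *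
  rcases ha.eq_or_lt with h0 | h0
  · have hb1 : b = 1 := by linarith
    rw [← h0, hb1]
    simpa using hq
  rcases hb.eq_or_lt with h0' | h0'
  · have ha1 : a = 1 := by linarith
    rw [← h0', ha1]
    simpa using hp
  rcases hp with hp | ⟨hp, hp'⟩
  · left
    have : 0 ≤ Q := by
      rcases hq with h | h
      · exact h.le
      · exact h.1.ge
    have := mul_nonneg h0'.le this
    have := mul_pos h0 hp
    linarith
  · rcases hq with hq | ⟨hq, hq'⟩
    · left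
      rw [hp]
      have := mul_pos h0' hq
      linarith
    · right
      rw [hp, hq]
      refine ⟨by ring, ?_⟩
      have h1 := mul_lt_mul_of_pos_left hp' h0
      have h2 := mul_lt_mul_of_pos_left hq' h0'
      calc a * X' + b * Y' < a * R + b * R := by linarith
        _ = R := by rw [← add_mul, hab, one_mul]

end LOC

open LOC in
theorem loc (hB : StmBLK) (hT : StmTRANS) : StmLOC := by
  intro u y₁ y₂ hDev x D h hst v R hv hblk hD w' hw' D' h' hst'
  have hR : 0 < R := hblk.1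
  have hv1 : conj v * v = 1 := by
    rw [Complex.conj_mul', hv]; simp
  have hv1' : v * conj v = 1 := by rw [mul_comm]; exact hv1
  have hv0 : v ≠ 0 := by
    intro h0; rw [h0] at hv; simp at hv
  -- the coordinate
  obtain ⟨ζ, rfl⟩ : ∃ ζ : ℂ, w' = v * ζ := ⟨conj v * w', by
    linear_combination (-w') * hv1⟩
  have hζ : ζ.im ≠ 0 := by
    intro h0
    apply hw' ζ.re
    have : ζ = (ζ.re : ℂ) := by
      apply Complex.ext <;> simp [h0]
    rw [mul_comm]
    congr 1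
  have hM := M_ne ζ hζ R hR
  have hD1 : Dn ζ R 1 ≠ 0 := by
    rw [Dn_one, Ne, Complex.ofReal_eq_zero]
    have := Complex.normSq_nonneg ζ
    positivity
  set Om : ℂ := Tm (v * ζ) ((R : ℂ) * v) with hOm
  have hside : ∀ t : ℝ, 0 ≤ t → t < 1 → 0 < ζ.im * (Nm ζ R t / Dn ζ R t).im := fun t h0 h1 =>
    quot_im _ _ (Dn_ne ζ hζ R t hR h0 h1) _ (im_pos ζ hζ R t hR h0 h1)
  have hTi : ∀ t : ℝ, 0 ≤ t → t < 1 → Ti (v * ζ) ((t : ℂ) * Om) = v * (Nm ζ R t / Dn ζ R t) :=
    fun t h0 h1 => ti_eq v ζ hv1 hζ R t hR (Dn_ne ζ hζ R t hR h0 h1)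
  have hne : ∀ t : ℝ, 0 ≤ t → t < 1 → 1 - conj (v * ζ) * ((t : ℂ) * Om) ≠ 0 := by
    intro t h0 h1
    rw [hOm, den_eq v ζ hv1 hζ R t hR]
    exact div_ne_zero (Dn_ne ζ hζ R t hR h0 h1) hM
  have hTiD : ∀ t : ℝ, 0 ≤ t → t < 1 → Ti (v * ζ) ((t : ℂ) * Om) ∈ D := by
    intro t h0 h1
    apply hD
    intro r
    rw [hTi t h0 h1]
    apply off_line v hv1
    intro h2
    have := hside t h0 h1
    rw [h2] at this
    simp at this
  have hw'D : v * ζ ∈ D := hD _ hw'
  have htr : ∀ t : ℝ, 0 ≤ t → t < 1 → (t : ℂ) * Om ∈ D' ∧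
      h' ((t : ℂ) * Om) = h (Ti (v * ζ) ((t : ℂ) * Om)) := by
    intro t h0 h1
    apply hT y₁ y₂ x D h (v * ζ) D' h' hst hw'D hst'
    intro s hs0 hs1
    have e : (s : ℂ) * ((t : ℂ) * Om) = ((s * t : ℝ) : ℂ) * Om := by push_cast; ring
    have p0 : 0 ≤ s * t := mul_nonneg hs0 h0
    have p1 : s * t < 1 := by nlinarith
    rw [e]
    exact ⟨hne _ p0 p1, hTiD _ p0 p1⟩
  refine ⟨fun t h0 h1 => (htr t h0 h1).1, ?_, ?_⟩
  swap
  · rw [hOm, tm_eq v ζ hv1]
    apply div_ne_zero _ hM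
    apply mul_ne_zero hv0
    intro h0
    have := congrArg Complex.im h0
    simp at this
    exact hζ this
  -- the main part
  intro hOmD
  have hD'open : IsOpen D' := hst'.1.1.1
  have hDopen : IsOpen D := hst.1.1.1
  have hh'c : ContinuousAt h' Om := (hst'.1.2.1.continuousOn).continuousAt (hD'open.mem_nhds hOmD)
  -- the value of F at z*
  have hval : y₂ (h' Om) = ((R : ℂ) * v) * y₁ (h' Om) := by
    have e := hst'.1.2.2.2 Om hOmD
    generalize h' Om = z at e ⊢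
    have hs : (((1 / √(1 + ‖v * ζ‖ ^ 2) : ℝ)) : ℂ) ≠ 0 := by
      rw [Ne, Complex.ofReal_eq_zero]
      positivity
    unfold ro2 ro1 ub ua at e
    rw [map_mul, Complex.conj_ofReal] at e
    have e1 : -(v * ζ) * y₁ z + y₂ z = Om * (y₁ z + conj (v * ζ) * y₂ z) := by
      apply mul_left_cancel₀ hs
      linear_combination e
    have e2 : Om * (1 + conj ζ * R) = v * ((R : ℂ) - ζ) := by
      rw [hOm, tm_eq v ζ hv1]
      exact div_mul_cancel₀ _ hM
    have e3 : (-(v * ζ) * y₁ z + y₂ z) * (1 + conj ζ * R) =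
        (v * ((R : ℂ) - ζ)) * (y₁ z + conj (v * ζ) * y₂ z) := by
      rw [e1, ← e2]; ring
    rw [map_mul] at e3
    have hn : (1 : ℂ) + ζ * conj ζ ≠ 0 := by
      rw [Complex.mul_conj]
      have := Complex.normSq_nonneg ζ
      have h2 : (1 : ℂ) + ((Complex.normSq ζ : ℝ) : ℂ) = ((1 + Complex.normSq ζ : ℝ) : ℂ) := by
        push_cast; ring
      rw [h2, Ne, Complex.ofReal_eq_zero]
      positivity
    apply mul_left_cancel₀ hn
    linear_combination e3 + ((R : ℂ) - ζ) * conj ζ * y₂ z * hv1'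
  obtain ⟨N, hNo, hzN, hinj, δ, hδ, g, hg, hg0, hgw⟩ := LI.local_F hDev hval
  set c : ℂ := (R : ℂ) * v with hc
  set δ' : ℝ := min δ R with hδ'
  have hδ'pos : 0 < δ' := lt_min hδ hR
  -- the convex set
  set S : Set ℂ := Metric.ball c δ' ∩ {w : ℂ | 0 < ζ.im * (conj v * w).im ∨
    (ζ.im * (conj v * w).im = 0 ∧ (conj v * w).re < R)} with hS
  have hSpre : IsPreconnected S :=
    ((convex_ball c δ').inter (convex_half v ζ.im R)).isPreconnected
  have hSball : S ⊆ Metric.ball c δ := fun w hw => Metric.ball_subset_ball (min_le_left _ _) hw.1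
  have hSD : S ⊆ D := by
    rintro w ⟨hwb, hw⟩
    rcases hw with hw | ⟨hw1, hw2⟩
    · apply hD
      intro r hr
      rw [hr] at hw
      have : conj v * ((r : ℂ) * v) = (r : ℂ) := by linear_combination (r : ℂ) * hv1
      rw [this] at hw
      simp at hw
    · have him : (conj v * w).im = 0 := by
        rcases mul_eq_zero.mp hw1 with h0 | h0
        · exact absurd h0 hζ
        · exact h0
      have hwe : w = (((conj v * w).re : ℝ) : ℂ) * v := by
        have h1 : conj v * w = (((conj v * w).re : ℝ) : ℂ) := by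
          apply Complex.ext <;> simp [him]
        calc w = v * (conj v * w) := by linear_combination (-w) * hv1
          _ = v * (((conj v * w).re : ℝ) : ℂ) := by rw [← h1]
          _ = _ := mul_comm _ _
      have hpos : 0 ≤ (conj v * w).re := by
        rw [Metric.mem_ball, Complex.dist_eq] at hwb
        have h1 : ‖conj v * (w - c)‖ < δ' := by
          rw [norm_mul, Complex.norm_conj, hv, one_mul]; exact hwb
        have h2 : |(conj v * (w - c)).re| < R :=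
          ((Complex.abs_re_le_norm _).trans_lt h1).trans_le (min_le_right _ _)
        have h3 : conj v * (w - c) = conj v * w - (R : ℂ) := by
          rw [hc]; linear_combination (-(R : ℂ)) * hv1
        rw [h3, Complex.sub_re, Complex.ofReal_re, abs_lt] at h2
        linarith [h2.1]
      rw [hwe]
      exact hblk.2.1 _ hpos hw2
  -- convergence
  have hTic : Tendsto (fun t : ℝ => Ti (v * ζ) ((t : ℂ) * Om)) (𝓝[<] 1) (𝓝 c) := by
    have hcont : ContinuousAt (fun t : ℝ => Ti (v * ζ) ((t : ℂ) * Om)) 1 := by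
      unfold Ti
      apply ContinuousAt.div
      · fun_prop
      · fun_prop
      · rw [hOm, den_eq v ζ hv1 hζ R 1 hR]
        exact div_ne_zero hD1 hM
    have hv2 : Ti (v * ζ) (((1 : ℝ) : ℂ) * Om) = c := by
      rw [hOm, ti_eq v ζ hv1 hζ R 1 hR hD1, Nm_one, Dn_one, hc]
      have : (((1 + Complex.normSq ζ : ℝ)) : ℂ) ≠ 0 := by
        rw [← Dn_one ζ R]; exact hD1
      field_simp
    have := hcont.tendsto
    rw [hv2] at this
    exact this.mono_left nhdsWithin_le_nhds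
  have hh't : Tendsto (fun t : ℝ => h' ((t : ℂ) * Om)) (𝓝[<] 1) (𝓝 (h' Om)) := by
    have h1 : Tendsto (fun t : ℝ => (t : ℂ) * Om) (𝓝[<] 1) (𝓝 Om) := by
      have hc1 : ContinuousAt (fun t : ℝ => (t : ℂ) * Om) 1 := by fun_prop
      have := hc1.tendsto
      simp only [Complex.ofReal_one, one_mul] at this
      exact this.mono_left nhdsWithin_le_nhds
    exact hh'c.tendsto.comp h1
  have ev1 : ∀ᶠ t : ℝ in 𝓝[<] 1, Ti (v * ζ) ((t : ℂ) * Om) ∈ Metric.ball c δ' :=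
    hTic (Metric.ball_mem_nhds c hδ'pos)
  have ev2 : ∀ᶠ t : ℝ in 𝓝[<] 1, h' ((t : ℂ) * Om) ∈ N := hh't (hNo.mem_nhds hzN)
  have ev3 : ∀ᶠ t : ℝ in 𝓝[<] 1, t ∈ Ico (0 : ℝ) 1 := by
    have := Ioo_mem_nhdsLT (show (0 : ℝ) < 1 from one_pos)
    filter_upwards [this] with t ht
    exact ⟨ht.1.le, ht.2⟩
  obtain ⟨t, ⟨ht1, ht2⟩, ht3⟩ := ((ev1.and ev2).and ev3).exists
  set w₁ : ℂ := Ti (v * ζ) ((t : ℂ) * Om) with hw₁
  have hw₁S : w₁ ∈ S := by
    refine ⟨ht1, Or.inl ?_⟩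
    rw [hw₁, hTi t ht3.1 ht3.2]
    have : conj v * (v * (Nm ζ R t / Dn ζ R t)) = Nm ζ R t / Dn ζ R t := by
      linear_combination (Nm ζ R t / Dn ζ R t) * hv1
    rw [this]
    exact hside t ht3.1 ht3.2
  have heq1 : h w₁ = g w₁ := by
    have h1 : h w₁ ∈ N := by rw [hw₁, ← (htr t ht3.1 ht3.2).2]; exact ht2
    obtain ⟨h2, h3⟩ := hgw w₁ (hSball hw₁S)
    exact hinj _ h1 _ h2 w₁ (hst.1.2.2.2 w₁ (hSD hw₁S)) h3
  have heq := LI.branch_uniq hDev hSpre (h := h) (h' := g)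
    (hst.1.2.1.continuousOn.mono hSD) (hg.continuousOn.mono hSball)
    (fun w hw => hst.1.2.2.2 w (hSD hw)) (fun w hw => (hgw w (hSball hw)).2) hw₁S heq1
  -- contradiction
  have hlim := hB u y₁ y₂ hDev x D h hst v R hv0 hblk
  have hgc : ContinuousAt g c := (hg.continuousOn).continuousAt
    (Metric.isOpen_ball.mem_nhds (Metric.mem_ball_self hδ))
  have h1 : Tendsto (fun r : ℝ => (r : ℂ) * v) (𝓝[<] R) (𝓝 c) := by
    have hc1 : ContinuousAt (fun r : ℝ => (r : ℂ) * v) R := by fun_prop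
    exact hc1.tendsto.mono_left nhdsWithin_le_nhds
  have h2 : Tendsto (fun r : ℝ => ‖g ((r : ℂ) * v)‖) (𝓝[<] R) (𝓝 ‖g c‖) :=
    (hgc.tendsto.comp h1).norm
  have h3 : ∀ᶠ r : ℝ in 𝓝[<] R, ‖h ((r : ℂ) * v)‖ = ‖g ((r : ℂ) * v)‖ := by
    have e1 : ∀ᶠ r : ℝ in 𝓝[<] R, (r : ℂ) * v ∈ Metric.ball c δ' :=
      h1 (Metric.ball_mem_nhds c hδ'pos)
    filter_upwards [e1, self_mem_nhdsWithin] with r hr1 hr2
    rw [heq]
    refine ⟨hr1, Or.inr ?_⟩
    have : conj v * ((r : ℂ) * v) = (r : ℂ) := by linear_combination (r : ℂ) * hv1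
    rw [this]
    exact ⟨by simp, by simpa using hr2⟩
  have h4 : Tendsto (fun r : ℝ => ‖h ((r : ℂ) * v)‖) (𝓝[<] R) (𝓝 ‖g c‖) :=
    h2.congr' (h3.mono fun r hr => hr.symm)
  exact not_tendsto_nhds_of_tendsto_atTop hlim _ h4

end Pool.Agent.T6.H85.LV
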