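import Pool.Agent.T6.H85.LV.FS

/-!
Module LOW of project LV: the spherical distance of the developed end points is at most the length.
-/

set_option autoImplicit false

namespace Pool.Agent.T6.H85.LV

open Complex Filter Topology Set
open scoped ComplexConjugate

namespace ModLOW

theorem sd_self (a b : ℂ) (h : a ≠ 0 ∨ b ≠ 0) : sd a b a b = 0 := by
  have h1 := ModFS.cs_sq a b a b h h
  have h2 := ModFS.pos_n h
  have h3 : a * b - b * a = 0 := by ring
  rw [h3, norm_zero] at h1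
  have h4 : 1 - cs a b a b ^ 2 = 0 := by
    have h5 : 0 < (‖a‖ ^ 2 + ‖b‖ ^ 2) * (‖a‖ ^ 2 + ‖b‖ ^ 2) := by positivity
    have h6 : (‖a‖ ^ 2 + ‖b‖ ^ 2) * (‖a‖ ^ 2 + ‖b‖ ^ 2) * (1 - cs a b a b ^ 2) = 0 := by
      rw [h1]; norm_num
    rcases mul_eq_zero.1 h6 with h7 | h7
    · exact absurd h7 h5.ne'
    · exact h7
  have h5 := ModFS.cs_nonneg a b a b
  have h6 : cs a b a b = 1 := by nlinarith
  unfold sd
  rw [h6, Real.arccos_one]
  ring

theorem sd_le_tan (a b c d : ℂ) (h : conj a * c + conj b * d ≠ 0) :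
    sd a b c d ≤ 2 * (‖a * d - b * c‖ / ‖conj a * c + conj b * d‖) := by
  have h1 : a ≠ 0 ∨ b ≠ 0 := by
    by_contra hc
    push Not at hc
    apply h
    rw [hc.1, hc.2]
    simp
  have h2 : c ≠ 0 ∨ d ≠ 0 := by
    by_contra hc
    push Not at hc
    apply h
    rw [hc.1, hc.2]
    simp
  have n1 := ModFS.pos_n h1
  have n2 := ModFS.pos_n h2
  have n3 : 0 < ‖conj a * c + conj b * d‖ := norm_pos_iff.2 h
  have s1 : 0 < √(‖a‖ ^ 2 + ‖b‖ ^ 2) := Real.sqrt_pos.2 n1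
  have s2 : 0 < √(‖c‖ ^ 2 + ‖d‖ ^ 2) := Real.sqrt_pos.2 n2
  have hc : 0 < cs a b c d := by
    unfold cs
    positivity
  have hθ := Real.le_tan (Real.arccos_nonneg (cs a b c d)) (Real.arccos_lt_pi_div_two.2 hc)
  rw [Real.tan_eq_sin_div_cos, ModFS.sin_arccos_cs a b c d h1 h2,
    Real.cos_arccos (by linarith) (ModFS.cs_le_one _ _ _ _)] at hθ
  have e : ‖a * d - b * c‖ / (√(‖a‖ ^ 2 + ‖b‖ ^ 2) * √(‖c‖ ^ 2 + ‖d‖ ^ 2)) / cs a b c d =
      ‖a * d - b * c‖ / ‖conj a * c + conj b * d‖ := by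
    unfold cs
    rw [div_div_div_cancel_right₀ (by positivity)]
  rw [e] at hθ
  unfold sd
  linarith

variable {u : ℂ → ℝ} {y₁ y₂ : ℂ → ℂ}

theorem npos (h : Dev u y₁ y₂) (z : ℂ) : 0 < ‖y₁ z‖ ^ 2 + ‖y₂ z‖ ^ 2 := by
  rw [h.eq z]
  positivity

theorem nz (h : Dev u y₁ y₂) (z : ℂ) : y₁ z ≠ 0 ∨ y₂ z ≠ 0 := by
  by_contra hc
  push Not at hc
  have := npos h z
  rw [hc.1, hc.2] at this
  simp at this

theorem exp_u (h : Dev u y₁ y₂) (z : ℂ) : Real.exp (u z) = 2 / (‖y₁ z‖ ^ 2 + ‖y₂ z‖ ^ 2) := by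
  rw [h.eq z, Real.exp_neg]
  have := Real.exp_pos (u z)
  field_simp

theorem core (h : Dev u y₁ y₂) (γ : ℝ → ℂ) (hγ : ContDiff ℝ 1 γ) :
    sd (y₁ (γ 0)) (y₂ (γ 0)) (y₁ (γ 1)) (y₂ (γ 1)) ≤ len u γ := by
  have hγc : Continuous γ := hγ.continuous
  have hγd : Differentiable ℝ γ := hγ.differentiable (by norm_num)
  have hγ' : Continuous (deriv γ) := hγ.continuous_deriv (le_refl _)
  have hc1 : Continuous fun t => y₁ (γ t) := h.d1.continuous.comp hγc
  have hc2 : Continuous fun t => y₂ (γ t) := h.d2.continuous.comp hγc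
  have hcu : Continuous fun t => Real.exp (u (γ t)) := by
    have : (fun t => Real.exp (u (γ t))) = fun t => 2 / (‖y₁ (γ t)‖ ^ 2 + ‖y₂ (γ t)‖ ^ 2) := by
      funext t
      exact exp_u h _
    rw [this]
    exact continuous_const.div ((hc1.norm.pow 2).add (hc2.norm.pow 2)) fun t => (npos h _).ne'
  have hB : Continuous fun t => Real.exp (u (γ t)) * ‖deriv γ t‖ := hcu.mul hγ'.norm
  have hphi : Continuous fun t => sd (y₁ (γ 0)) (y₂ (γ 0)) (y₁ (γ t)) (y₂ (γ t)) := by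
    unfold sd cs
    refine continuous_const.mul (Real.continuous_arccos.comp ?_)
    refine Continuous.div ?_ ?_ ?_
    · exact ((continuous_const.mul hc1).add (continuous_const.mul hc2)).norm
    · exact continuous_const.mul
        (Real.continuous_sqrt.comp ((hc1.norm.pow 2).add (hc2.norm.pow 2)))
    · intro t
      have h1 := Real.sqrt_pos.2 (npos h (γ 0))
      have h2 := Real.sqrt_pos.2 (npos h (γ t))
      positivity
  have key := image_le_of_liminf_slope_right_le_deriv_boundary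
    (f := fun t => sd (y₁ (γ 0)) (y₂ (γ 0)) (y₁ (γ t)) (y₂ (γ t))) (a := 0) (b := 1)
    hphi.continuousOn
    (B := fun t => ∫ s in (0 : ℝ)..t, Real.exp (u (γ s)) * ‖deriv γ s‖)
    (B' := fun t => Real.exp (u (γ t)) * ‖deriv γ t‖)
    (by
      simp only [intervalIntegral.integral_same]
      exact (sd_self _ _ (nz h _)).le)
    (fun t _ => ((hB.integral_hasStrictDerivAt 0 t).hasDerivAt.continuousAt).continuousWithinAt)
    (fun t _ => (hB.integral_hasStrictDerivAt 0 t).hasDerivAt.hasDerivWithinAt)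
    (by
      intro x _ r hr
      -- the comparison function
      have hg : HasDerivAt (fun z => y₁ (γ x) * y₂ (γ z) - y₂ (γ x) * y₁ (γ z)) (deriv γ x) x := by
        have hx : HasDerivAt γ (deriv γ x) x := (hγd x).hasDerivAt
        have d1 : HasDerivAt (fun z => y₁ (γ z)) (deriv y₁ (γ x) * deriv γ x) x := by
          have := (h.d1 (γ x)).hasDerivAt.comp x hx
          exact this
        have d2 : HasDerivAt (fun z => y₂ (γ z)) (deriv y₂ (γ x) * deriv γ x) x := by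
          have := (h.d2 (γ x)).hasDerivAt.comp x hx
          exact this
        have d3 := (d2.const_mul (y₁ (γ x))).sub (d1.const_mul (y₂ (γ x)))
        refine d3.congr_deriv ?_
        have hw := h.wr (γ x)
        calc y₁ (γ x) * (deriv y₂ (γ x) * deriv γ x) - y₂ (γ x) * (deriv y₁ (γ x) * deriv γ x) =
            (y₁ (γ x) * deriv y₂ (γ x) - deriv y₁ (γ x) * y₂ (γ x)) * deriv γ x := by ring
          _ = deriv γ x := by rw [hw, one_mul]
      have hs : Tendsto (fun z => slope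
          (fun z => y₁ (γ x) * y₂ (γ z) - y₂ (γ x) * y₁ (γ z)) x z) (𝓝[>] x)
          (𝓝 (deriv γ x)) := by
        have := (hasDerivAt_iff_tendsto_slope.1 hg)
        exact this.mono_left (nhdsWithin_mono _ fun z hz => ne_of_gt hz)
      have hI : Tendsto (fun z => ‖conj (y₁ (γ x)) * y₁ (γ z) + conj (y₂ (γ x)) * y₂ (γ z)‖)
          (𝓝[>] x) (𝓝 (‖y₁ (γ x)‖ ^ 2 + ‖y₂ (γ x)‖ ^ 2)) := by
        have hcont : Continuous fun z =>
            ‖conj (y₁ (γ x)) * y₁ (γ z) + conj (y₂ (γ x)) * y₂ (γ z)‖ :=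
          ((continuous_const.mul hc1).add (continuous_const.mul hc2)).norm
        have h1 := (hcont.tendsto x).mono_left (nhdsWithin_le_nhds (s := Ioi x))
        have h2 : ‖conj (y₁ (γ x)) * y₁ (γ x) + conj (y₂ (γ x)) * y₂ (γ x)‖ =
            ‖y₁ (γ x)‖ ^ 2 + ‖y₂ (γ x)‖ ^ 2 := by
          have e1 : conj (y₁ (γ x)) * y₁ (γ x) + conj (y₂ (γ x)) * y₂ (γ x) =
              ((‖y₁ (γ x)‖ ^ 2 + ‖y₂ (γ x)‖ ^ 2 : ℝ) : ℂ) := by
            rw [mul_comm, Complex.mul_conj, mul_comm (conj (y₂ (γ x))), Complex.mul_conj,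
              Complex.normSq_eq_norm_sq, Complex.normSq_eq_norm_sq]
            push_cast
            ring
          rw [e1, Complex.norm_real, Real.norm_eq_abs, abs_of_pos (npos h _)]
        rw [h2] at h1
        exact h1
      have hlim : Tendsto (fun z => 2 * (‖slope
          (fun z => y₁ (γ x) * y₂ (γ z) - y₂ (γ x) * y₁ (γ z)) x z‖ /
          ‖conj (y₁ (γ x)) * y₁ (γ z) + conj (y₂ (γ x)) * y₂ (γ z)‖)) (𝓝[>] x)
          (𝓝 (Real.exp (u (γ x)) * ‖deriv γ x‖)) := by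
        have h1 := (hs.norm.div hI (npos h _).ne').const_mul 2
        have h2 : 2 * (‖deriv γ x‖ / (‖y₁ (γ x)‖ ^ 2 + ‖y₂ (γ x)‖ ^ 2)) =
            Real.exp (u (γ x)) * ‖deriv γ x‖ := by
          rw [exp_u h]
          ring
        rw [h2] at h1
        exact h1
      have hev1 := hlim.eventually_lt_const hr
      have hev2 := hI.eventually_ne (npos h _).ne'
      refine Filter.Eventually.frequently ?_
      filter_upwards [hev1, hev2, self_mem_nhdsWithin] with z hz1 hz2 hz3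
      refine lt_of_le_of_lt ?_ hz1
      have hz3' : 0 < z - x := sub_pos.2 hz3
      have htri := ModFS.tri (y₁ (γ 0)) (y₂ (γ 0)) (y₁ (γ x)) (y₂ (γ x)) (y₁ (γ z)) (y₂ (γ z))
        (nz h _) (nz h _) (nz h _)
      have htan := sd_le_tan (y₁ (γ x)) (y₂ (γ x)) (y₁ (γ z)) (y₂ (γ z)) (norm_ne_zero_iff.1 hz2)
      rw [slope_def_field, slope_def_module, norm_smul]
      have e0 : y₁ (γ x) * y₂ (γ z) - y₂ (γ x) * y₁ (γ z) -
          (y₁ (γ x) * y₂ (γ x) - y₂ (γ x) * y₁ (γ x)) =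
          y₁ (γ x) * y₂ (γ z) - y₂ (γ x) * y₁ (γ z) := by ring
      rw [e0, norm_inv, Real.norm_eq_abs, abs_of_pos hz3', div_le_iff₀ hz3']
      have e1 : 2 * ((z - x)⁻¹ * ‖y₁ (γ x) * y₂ (γ z) - y₂ (γ x) * y₁ (γ z)‖ /
          ‖conj (y₁ (γ x)) * y₁ (γ z) + conj (y₂ (γ x)) * y₂ (γ z)‖) * (z - x) =
          2 * (‖y₁ (γ x) * y₂ (γ z) - y₂ (γ x) * y₁ (γ z)‖ /
          ‖conj (y₁ (γ x)) * y₁ (γ z) + conj (y₂ (γ x)) * y₂ (γ z)‖) := by
        field_simp
      rw [e1]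
      linarith)
  exact key (right_mem_Icc.2 zero_le_one)

end ModLOW

theorem low (_ : StmFS) : StmLOW := by
  intro u y₁ y₂ h s t L hp
  induction hp with
  | nil => exact (ModLOW.sd_self _ _ (ModLOW.nz h s)).le
  | snoc γ hγ _ ih =>
    have h1 := ModLOW.core h γ hγ
    have h2 := ModFS.tri (y₁ s) (y₂ s) (y₁ (γ 0)) (y₂ (γ 0)) (y₁ (γ 1)) (y₂ (γ 1))
      (ModLOW.nz h _) (ModLOW.nz h _) (ModLOW.nz h _)
    linarith

end Pool.Agent.T6.H85.LV
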