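import Pool.Agent.T6.H85.LV.LOW

/-!
Module ONED of project LV: the diameter in the one-dimensional case is exactly `π`.
-/

set_option autoImplicit false

namespace Pool.Agent.T6.H85.LV

open Complex Filter Topology Set
open scoped ComplexConjugate

namespace ModONED

/-- append a curve of known length -/
theorem ap {u : ℂ → ℝ} {x p q : ℂ} {L ℓ : ℝ} (h : IsPath u x p L) (γ : ℝ → ℂ)
    (hγ : ContDiff ℝ 1 γ) (h0 : γ 0 = p) (h1 : γ 1 = q) (hl : len u γ = ℓ) :
    IsPath u x q (L + ℓ) := by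
  subst h0
  subst h1
  subst hl
  exact IsPath.snoc γ hγ h

/-- the length of a curve from a primitive -/
theorem len_eq {u : ℂ → ℝ} {γ : ℝ → ℂ} (G : ℝ → ℝ) (c : ℝ) (hc : c = 1 ∨ c = -1)
    (hcont : Continuous fun t => Real.exp (u (γ t)) * ‖deriv γ t‖)
    (hG : ∀ t, HasDerivAt G (c * (Real.exp (u (γ t)) * ‖deriv γ t‖)) t) :
    len u γ = |G 1 - G 0| := by
  have h1 : ∫ t in (0 : ℝ)..1, c * (Real.exp (u (γ t)) * ‖deriv γ t‖) = G 1 - G 0 :=
    intervalIntegral.integral_eq_sub_of_hasDerivAt (fun t _ => hG t)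
      ((continuous_const.mul hcont).intervalIntegrable _ _)
  rw [intervalIntegral.integral_const_mul] at h1
  have h2 : 0 ≤ len u γ := by
    unfold len
    exact intervalIntegral.integral_nonneg (by norm_num) fun t _ => by positivity
  unfold len at h2 ⊢
  rw [← h1]
  rcases hc with rfl | rfl
  · rw [one_mul, abs_of_nonneg h2]
  · rw [neg_one_mul, abs_neg, abs_of_nonneg h2]

theorem gdist_le {u : ℂ → ℝ} (hu : Continuous u) (hC : StmCONN) {x y : ℂ} {L : ℝ}
    (h : IsPath u x y L) : gdist u x y ≤ L :=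
  csInf_le ⟨0, fun _ hm => (hC u hu).2.1 x y _ hm⟩ h

theorem le_gdist {u : ℂ → ℝ} (hu : Continuous u) (hC : StmCONN) (hL : StmLOW)
    {y₁ y₂ : ℂ → ℂ} (hd : Dev u y₁ y₂) {x y : ℂ}
    (h : conj (y₁ x) * y₁ y + conj (y₂ x) * y₂ y = 0) : Real.pi ≤ gdist u x y := by
  obtain ⟨L0, hL0⟩ := (hC u hu).1 x y
  refine le_csInf ⟨L0, hL0⟩ fun L hm => ?_
  refine le_trans (le_of_eq ?_) (hL u y₁ y₂ hd x y L hm)
  unfold sd cs
  rw [h, norm_zero, zero_div, Real.arccos_zero]
  ring

section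

variable {u : ℂ → ℝ} {e : ℂ} {a s₀ : ℝ}

/-- the length along the direction `e` -/
noncomputable def Phi (a s₀ s : ℝ) : ℝ := 2 * Real.arctan (Real.exp (a * (s - s₀))) - Real.pi / 2

theorem phi_deriv (a s₀ s : ℝ) :
    HasDerivAt (Phi a s₀) (a / Real.cosh (a * (s - s₀))) s := by
  have h1 : HasDerivAt (fun s : ℝ => a * (s - s₀)) a s := by
    simpa using ((hasDerivAt_id s).sub_const s₀).const_mul a
  have h2 := (((Real.hasDerivAt_exp (a * (s - s₀))).comp s h1).arctan.const_mul 2).sub_const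
    (Real.pi / 2)
  refine h2.congr_deriv ?_
  rw [Real.cosh_eq, Real.exp_neg]
  have h3 := Real.exp_pos (a * (s - s₀))
  simp only [Function.comp]
  field_simp
  ring

theorem phi_mono (ha : 0 < a) {s t : ℝ} (h : s ≤ t) : Phi a s₀ s ≤ Phi a s₀ t := by
  unfold Phi
  have h1 : Real.exp (a * (s - s₀)) ≤ Real.exp (a * (t - s₀)) :=
    Real.exp_le_exp.2 (by nlinarith)
  have h2 := Real.arctan_strictMono.monotone h1
  linarith

theorem phi_top (ha : 0 < a) : Tendsto (Phi a s₀) atTop (𝓝 (Real.pi / 2)) := by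
  have h1 : Tendsto (fun s : ℝ => a * (s - s₀)) atTop atTop :=
    (tendsto_id.atTop_add (tendsto_const_nhds (x := -s₀))).const_mul_atTop ha
  have h2 : Tendsto (fun s : ℝ => Real.arctan (Real.exp (a * (s - s₀)))) atTop
      (𝓝 (Real.pi / 2)) :=
    (Real.tendsto_arctan_atTop.mono_right nhdsWithin_le_nhds).comp (Real.tendsto_exp_atTop.comp h1)
  have h3 := (h2.const_mul 2).sub_const (Real.pi / 2)
  have h4 : 2 * (Real.pi / 2) - Real.pi / 2 = Real.pi / 2 := by ring
  rw [h4] at h3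
  exact h3

theorem phi_bot (ha : 0 < a) : Tendsto (Phi a s₀) atBot (𝓝 (-(Real.pi / 2))) := by
  have h1 : Tendsto (fun s : ℝ => a * (s - s₀)) atBot atBot :=
    (tendsto_id.atBot_add (tendsto_const_nhds (x := -s₀))).const_mul_atBot ha
  have h2 : Tendsto (fun s : ℝ => Real.arctan (Real.exp (a * (s - s₀)))) atBot
      (𝓝 (Real.arctan 0)) :=
    (Real.continuous_arctan.tendsto 0).comp (Real.tendsto_exp_atBot.comp h1)
  have h3 := (h2.const_mul 2).sub_const (Real.pi / 2)
  have h4 : 2 * Real.arctan 0 - Real.pi / 2 = -(Real.pi / 2) := by rw [Real.arctan_zero]; ring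
  rw [h4] at h3
  exact h3

theorem inner_e (he : ‖e‖ = 1) (p : ℂ) (s t : ℝ) :
    inner ℝ e (p + (s : ℂ) * e + (t : ℂ) * (I * e)) = inner ℝ e p + s := by
  have h1 : e.re * e.re + e.im * e.im = 1 := by
    have := Complex.sq_norm e
    rw [he, Complex.normSq_apply] at this
    linarith
  simp only [Complex.inner, Complex.add_re, Complex.add_im, Complex.mul_re, Complex.mul_im,
    Complex.conj_re, Complex.conj_im, Complex.ofReal_re, Complex.ofReal_im, Complex.I_re,
    Complex.I_im]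
  linear_combination s * h1

variable (he : ‖e‖ = 1) (ha : 0 < a)
  (hu : ∀ x, u x = Real.log (a / Real.cosh (a * (inner ℝ e x - s₀))))

include ha hu in
theorem eu (x : ℂ) : Real.exp (u x) = a / Real.cosh (a * (inner ℝ e x - s₀)) := by
  rw [hu, Real.exp_log (div_pos ha (Real.cosh_pos _))]

include ha hu in
theorem ucont : Continuous u := by
  have : u = fun x => Real.log (a / Real.cosh (a * (inner ℝ e x - s₀))) := funext hu
  rw [this]
  refine Continuous.log ?_ fun x => (div_pos ha (Real.cosh_pos _)).ne'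
  refine continuous_const.div ?_ fun x => (Real.cosh_pos _).ne'
  exact Real.continuous_cosh.comp (continuous_const.mul
    ((continuous_const.inner continuous_id).sub continuous_const))

theorem deriv_line (p w : ℂ) (τ t : ℝ) :
    HasDerivAt (fun t : ℝ => p + ((t * τ : ℝ) : ℂ) * w) ((τ : ℂ) * w) t := by
  have h1 : HasDerivAt (fun t : ℝ => ((t * τ : ℝ) : ℂ)) ((τ : ℝ) : ℂ) t := by
    have h2 : HasDerivAt (fun t : ℝ => t * τ) τ t := by
      simpa using (hasDerivAt_id t).mul_const τ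
    exact h2.ofReal_comp
  exact (h1.mul_const w).const_add p

theorem contDiff_line (p w : ℂ) (τ : ℝ) :
    ContDiff ℝ 1 (fun t : ℝ => p + ((t * τ : ℝ) : ℂ) * w) := by
  refine contDiff_const.add (ContDiff.mul ?_ contDiff_const)
  exact Complex.ofRealCLM.contDiff.comp (contDiff_id.mul contDiff_const)

include he ha hu in
/-- go along `e` -/
theorem go_e {x p : ℂ} {L : ℝ} (h : IsPath u x p L) (τ : ℝ) :
    IsPath u x (p + (τ : ℂ) * e)
      (L + |Phi a s₀ (inner ℝ e p + τ) - Phi a s₀ (inner ℝ e p)|) := by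
  have hin : ∀ t : ℝ, inner ℝ e (p + ((t * τ : ℝ) : ℂ) * e) = inner ℝ e p + t * τ := by
    intro t
    have := inner_e he p (t * τ) 0
    simpa using this
  have hder : ∀ t : ℝ, deriv (fun t : ℝ => p + ((t * τ : ℝ) : ℂ) * e) t = (τ : ℂ) * e :=
    fun t => (deriv_line p e τ t).deriv
  have hval : ∀ t : ℝ, Real.exp (u (p + ((t * τ : ℝ) : ℂ) * e)) *
      ‖deriv (fun t : ℝ => p + ((t * τ : ℝ) : ℂ) * e) t‖ =
      a / Real.cosh (a * (inner ℝ e p + t * τ - s₀)) * |τ| := by
    intro t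
    rw [eu ha hu, hin, hder, norm_mul, he, mul_one, Complex.norm_real, Real.norm_eq_abs]
  have hcont : Continuous fun t : ℝ => Real.exp (u (p + ((t * τ : ℝ) : ℂ) * e)) *
      ‖deriv (fun t : ℝ => p + ((t * τ : ℝ) : ℂ) * e) t‖ := by
    have : (fun t : ℝ => Real.exp (u (p + ((t * τ : ℝ) : ℂ) * e)) *
      ‖deriv (fun t : ℝ => p + ((t * τ : ℝ) : ℂ) * e) t‖) = fun t : ℝ =>
      a / Real.cosh (a * (inner ℝ e p + t * τ - s₀)) * |τ| := funext hval
    rw [this]
    refine Continuous.mul (continuous_const.div ?_ fun x => (Real.cosh_pos _).ne') continuous_const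
    exact Real.continuous_cosh.comp (by fun_prop)
  have hGd : ∀ t : ℝ, HasDerivAt (fun t : ℝ => Phi a s₀ (inner ℝ e p + t * τ))
      (a / Real.cosh (a * (inner ℝ e p + t * τ - s₀)) * τ) t := by
    intro t
    have h2 : HasDerivAt (fun t : ℝ => inner ℝ e p + t * τ) τ t := by
      simpa using ((hasDerivAt_id t).mul_const τ).const_add (inner ℝ e p)
    exact (phi_deriv a s₀ (inner ℝ e p + t * τ)).comp t h2
  refine ap h (fun t : ℝ => p + ((t * τ : ℝ) : ℂ) * e) (contDiff_line p e τ) (by simp) (by simp) ?_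
  have key : ∃ c : ℝ, (c = 1 ∨ c = -1) ∧ τ = c * |τ| := by
    rcases le_total 0 τ with h0 | h0
    · exact ⟨1, Or.inl rfl, by rw [abs_of_nonneg h0, one_mul]⟩
    · exact ⟨-1, Or.inr rfl, by rw [abs_of_nonpos h0]; ring⟩
  obtain ⟨c, hc, hτ⟩ := key
  rw [len_eq (fun t : ℝ => Phi a s₀ (inner ℝ e p + t * τ)) c hc hcont]
  · simp
  · intro t
    rw [hval]
    refine (hGd t).congr_deriv ?_
    have e1 : c * (a / Real.cosh (a * (inner ℝ e p + t * τ - s₀)) * |τ|) =
        a / Real.cosh (a * (inner ℝ e p + t * τ - s₀)) * (c * |τ|) := by ring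
    rw [e1, ← hτ]

include he ha hu in
/-- go orthogonally to `e` -/
theorem go_ie {x p : ℂ} {L : ℝ} (h : IsPath u x p L) (τ : ℝ) :
    IsPath u x (p + (τ : ℂ) * (I * e))
      (L + |τ| * (a / Real.cosh (a * (inner ℝ e p - s₀)))) := by
  have hin : ∀ t : ℝ, inner ℝ e (p + ((t * τ : ℝ) : ℂ) * (I * e)) = inner ℝ e p := by
    intro t
    have := inner_e he p 0 (t * τ)
    simpa using this
  have hder : ∀ t : ℝ, deriv (fun t : ℝ => p + ((t * τ : ℝ) : ℂ) * (I * e)) t =
      (τ : ℂ) * (I * e) :=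
    fun t => (deriv_line p (I * e) τ t).deriv
  refine ap h (fun t : ℝ => p + ((t * τ : ℝ) : ℂ) * (I * e)) (contDiff_line p (I * e) τ)
    (by simp) (by simp) ?_
  unfold len
  have hval : ∀ t : ℝ, Real.exp (u (p + ((t * τ : ℝ) : ℂ) * (I * e))) *
      ‖deriv (fun t : ℝ => p + ((t * τ : ℝ) : ℂ) * (I * e)) t‖ =
      |τ| * (a / Real.cosh (a * (inner ℝ e p - s₀))) := by
    intro t
    rw [eu ha hu, hin, hder, norm_mul, norm_mul, he, Complex.norm_I, mul_one, mul_one,
      Complex.norm_real, Real.norm_eq_abs, mul_comm]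
  simp only [hval]
  simp

include he in
theorem decomp (x : ℂ) :
    x = ((inner ℝ e x : ℝ) : ℂ) * e + ((inner ℝ (I * e) x : ℝ) : ℂ) * (I * e) := by
  have h1 : e.re * e.re + e.im * e.im = 1 := by
    have := Complex.sq_norm e
    rw [he, Complex.normSq_apply] at this
    linarith
  apply Complex.ext
  · simp only [Complex.inner, Complex.add_re, Complex.add_im, Complex.mul_re, Complex.mul_im,
      Complex.conj_re, Complex.conj_im, Complex.ofReal_re, Complex.ofReal_im, Complex.I_re,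
      Complex.I_im]
    linear_combination (-x.re) * h1
  · simp only [Complex.inner, Complex.add_re, Complex.add_im, Complex.mul_re, Complex.mul_im,
      Complex.conj_re, Complex.conj_im, Complex.ofReal_re, Complex.ofReal_im, Complex.I_re,
      Complex.I_im]
    linear_combination (-x.im) * h1

include he ha hu in
theorem via (x y : ℂ) (T : ℝ) : IsPath u x y
    (|Phi a s₀ T - Phi a s₀ (inner ℝ e x)| +
      |inner ℝ (I * e) y - inner ℝ (I * e) x| * (a / Real.cosh (a * (T - s₀))) +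
      |Phi a s₀ (inner ℝ e y) - Phi a s₀ T|) := by
  have h1 := go_e he ha hu (IsPath.nil (u := u) (x := x)) (T - inner ℝ e x)
  have h2 := go_ie he ha hu h1 (inner ℝ (I * e) y - inner ℝ (I * e) x)
  have h3 := go_e he ha hu h2 (inner ℝ e y - T)
  have e1 : inner ℝ e (x + ((T - inner ℝ e x : ℝ) : ℂ) * e) = T := by
    have := inner_e he x (T - inner ℝ e x) 0
    simp only [Complex.ofReal_zero, zero_mul, add_zero] at this
    rw [this]
    ring
  have e2 : inner ℝ e (x + ((T - inner ℝ e x : ℝ) : ℂ) * e +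
      ((inner ℝ (I * e) y - inner ℝ (I * e) x : ℝ) : ℂ) * (I * e)) = T := by
    rw [inner_e he]
    ring
  have e3 : x + ((T - inner ℝ e x : ℝ) : ℂ) * e +
      ((inner ℝ (I * e) y - inner ℝ (I * e) x : ℝ) : ℂ) * (I * e) +
      ((inner ℝ e y - T : ℝ) : ℂ) * e = y := by
    have d1 := decomp he x
    have d2 := decomp he y
    push_cast
    linear_combination d1 - d2
  rw [e2, e3, e1] at h3
  have e4 : inner ℝ e x + (T - inner ℝ e x) = T := by ring
  have e5 : T + (inner ℝ e y - T) = inner ℝ e y := by ring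
  rw [e4, e5, zero_add] at h3
  exact h3

theorem width_lim (ha : 0 < a) (c : ℝ) {l : Filter ℝ} (hl : l = atTop ∨ l = atBot) :
    Tendsto (fun T : ℝ => c * (a / Real.cosh (a * (T - s₀)))) l (𝓝 0) := by
  have hcosh : Tendsto (fun T : ℝ => Real.cosh (a * (T - s₀))) l atTop := by
    rcases hl with rfl | rfl
    · have h1 : Tendsto (fun s : ℝ => a * (s - s₀)) atTop atTop :=
        (tendsto_id.atTop_add (tendsto_const_nhds (x := -s₀))).const_mul_atTop ha
      have h2 : Tendsto (fun s : ℝ => Real.exp (a * (s - s₀)) / 2) atTop atTop :=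
        (Real.tendsto_exp_atTop.comp h1).atTop_div_const (by norm_num)
      refine tendsto_atTop_mono (fun s => ?_) h2
      rw [Real.cosh_eq]
      have := Real.exp_pos (-(a * (s - s₀)))
      linarith
    · have h1 : Tendsto (fun s : ℝ => a * (s - s₀)) atBot atBot :=
        (tendsto_id.atBot_add (tendsto_const_nhds (x := -s₀))).const_mul_atBot ha
      have h2 : Tendsto (fun s : ℝ => Real.exp (-(a * (s - s₀))) / 2) atBot atTop :=
        (Real.tendsto_exp_atTop.comp (tendsto_neg_atBot_atTop.comp h1)).atTop_div_const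
          (by norm_num)
      refine tendsto_atTop_mono (fun s => ?_) h2
      rw [Real.cosh_eq]
      have := Real.exp_pos (a * (s - s₀))
      linarith
  have h3 : Tendsto (fun T : ℝ => a / Real.cosh (a * (T - s₀))) l (𝓝 0) :=
    hcosh.const_div_atTop a
  have h4 := h3.const_mul c
  rw [mul_zero] at h4
  exact h4

include he ha hu in
theorem upper (hC : StmCONN) (x y : ℂ) : gdist u x y ≤ Real.pi := by
  have hcu := ucont ha hu
  have hb : ∀ T : ℝ, gdist u x y ≤ |Phi a s₀ T - Phi a s₀ (inner ℝ e x)| +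
      |inner ℝ (I * e) y - inner ℝ (I * e) x| * (a / Real.cosh (a * (T - s₀))) +
      |Phi a s₀ (inner ℝ e y) - Phi a s₀ T| := fun T => gdist_le hcu hC (via he ha hu x y T)
  have hlt : ∀ s : ℝ, -(Real.pi / 2) ≤ Phi a s₀ s ∧ Phi a s₀ s ≤ Real.pi / 2 := by
    intro s
    unfold Phi
    have h1 := Real.arctan_lt_pi_div_two (Real.exp (a * (s - s₀)))
    have h2 : 0 ≤ Real.arctan (Real.exp (a * (s - s₀))) :=
      Real.arctan_nonneg.2 (Real.exp_pos _).le
    constructor <;> linarith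
  have l1 : gdist u x y ≤ |Real.pi / 2 - Phi a s₀ (inner ℝ e x)| + 0 +
      |Phi a s₀ (inner ℝ e y) - Real.pi / 2| := by
    refine ge_of_tendsto (x := (atTop : Filter ℝ)) ?_ (Eventually.of_forall hb)
    exact ((((phi_top ha).sub_const _).abs).add (width_lim ha _ (Or.inl rfl))).add
      (((phi_top ha).const_sub _).abs)
  have l2 : gdist u x y ≤ |-(Real.pi / 2) - Phi a s₀ (inner ℝ e x)| + 0 +
      |Phi a s₀ (inner ℝ e y) - -(Real.pi / 2)| := by
    refine ge_of_tendsto (x := (atBot : Filter ℝ)) ?_ (Eventually.of_forall hb)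
    exact ((((phi_bot ha).sub_const _).abs).add (width_lim ha _ (Or.inr rfl))).add
      (((phi_bot ha).const_sub _).abs)
  have b1 := hlt (inner ℝ e x)
  have b2 := hlt (inner ℝ e y)
  rw [abs_of_nonneg (by linarith), abs_of_nonpos (by linarith)] at l1
  rw [abs_of_nonpos (by linarith), abs_of_nonneg (by linarith)] at l2
  linarith

end

end ModONED

open ModONED in
theorem oned (_ : StmFS) (hL : StmLOW) (hC : StmCONN) : StmONED := by
  intro u e a s₀ he ha hu
  have hcu := ucont ha hu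
  have hee : e * conj e = 1 := by
    rw [Complex.mul_conj, Complex.normSq_eq_norm_sq, he]
    norm_num
  have hsa : 0 < √a := Real.sqrt_pos.2 ha
  have hsa2 : ((√a : ℝ) : ℂ) * ((√a : ℝ) : ℂ) = (a : ℂ) := by
    rw [← Complex.ofReal_mul, Real.mul_self_sqrt ha.le]
  have hsa0 : ((√a : ℝ) : ℂ) ≠ 0 := by exact_mod_cast hsa.ne'
  have ha0 : (a : ℂ) ≠ 0 := by exact_mod_cast ha.ne'
  obtain ⟨ζ, hζ⟩ : ∃ ζ : ℂ → ℂ, ζ = fun z => (a : ℂ) * (conj e * z - (s₀ : ℂ)) := ⟨_, rfl⟩
  have hζd : ∀ z, HasDerivAt ζ ((a : ℂ) * conj e) z := by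
    intro z
    rw [hζ]
    have h1 : HasDerivAt (fun z : ℂ => conj e * z - (s₀ : ℂ)) (conj e) z := by
      simpa using ((hasDerivAt_id z).const_mul (conj e)).sub_const (s₀ : ℂ)
    exact h1.const_mul (a : ℂ)
  have hd1 : ∀ z, HasDerivAt (fun z => ((√a : ℝ) : ℂ)⁻¹ * exp (-(ζ z / 2)))
      (((√a : ℝ) : ℂ)⁻¹ * (exp (-(ζ z / 2)) * -((a : ℂ) * conj e / 2))) z := by
    intro z
    exact ((((hζd z).div_const 2).neg).cexp).const_mul _
  have hd2 : ∀ z, HasDerivAt (fun z => e * ((√a : ℝ) : ℂ)⁻¹ * exp (ζ z / 2))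
      (e * ((√a : ℝ) : ℂ)⁻¹ * (exp (ζ z / 2) * ((a : ℂ) * conj e / 2))) z := by
    intro z
    exact (((hζd z).div_const 2).cexp).const_mul _
  have hre : ∀ z, (ζ z).re = a * (inner ℝ e z - s₀) := by
    intro z
    rw [hζ]
    simp only [Complex.inner, Complex.mul_re, Complex.sub_re, Complex.ofReal_re,
      Complex.ofReal_im, zero_mul, sub_zero]
    ring
  have hdev : Dev u (fun z => ((√a : ℝ) : ℂ)⁻¹ * exp (-(ζ z / 2)))
      (fun z => e * ((√a : ℝ) : ℂ)⁻¹ * exp (ζ z / 2)) := by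
    refine ⟨fun z => (hd1 z).differentiableAt, fun z => (hd2 z).differentiableAt, ?_, ?_⟩
    · intro z
      rw [(hd1 z).deriv, (hd2 z).deriv]
      have h1 : exp (-(ζ z / 2)) * exp (ζ z / 2) = 1 := by
        rw [← Complex.exp_add, neg_add_cancel, Complex.exp_zero]
      have h2 : ((√a : ℝ) : ℂ)⁻¹ * ((√a : ℝ) : ℂ)⁻¹ * (a : ℂ) = 1 := by
        rw [← hsa2]
        field_simp
      calc ((√a : ℝ) : ℂ)⁻¹ * exp (-(ζ z / 2)) *
            (e * ((√a : ℝ) : ℂ)⁻¹ * (exp (ζ z / 2) * ((a : ℂ) * conj e / 2))) -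
            ((√a : ℝ) : ℂ)⁻¹ * (exp (-(ζ z / 2)) * -((a : ℂ) * conj e / 2)) *
              (e * ((√a : ℝ) : ℂ)⁻¹ * exp (ζ z / 2)) =
          (((√a : ℝ) : ℂ)⁻¹ * ((√a : ℝ) : ℂ)⁻¹ * (a : ℂ)) * (e * conj e) *
            (exp (-(ζ z / 2)) * exp (ζ z / 2)) := by ring
        _ = 1 := by rw [h1, h2, hee]; ring
    · intro z
      rw [norm_mul, norm_mul, norm_mul, he, one_mul, norm_inv, Complex.norm_real,
        Real.norm_eq_abs, abs_of_pos hsa, mul_pow, mul_pow, inv_pow, Real.sq_sqrt ha.le,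
        Complex.norm_exp, Complex.norm_exp, ← Real.exp_nat_mul, ← Real.exp_nat_mul,
        Real.exp_neg, eu ha hu, Real.cosh_eq]
      have h1 : (((2 : ℕ) : ℝ) * (-(ζ z / 2)).re) = -(a * (inner ℝ e z - s₀)) := by
        rw [Complex.neg_re, Complex.div_ofNat_re, hre]
        push_cast
        ring
      have h2 : (((2 : ℕ) : ℝ) * (ζ z / 2).re) = a * (inner ℝ e z - s₀) := by
        rw [Complex.div_ofNat_re, hre]
        push_cast
        ring
      rw [h1, h2]
      field_simp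
      ring
  -- two points at distance `π`
  have hz0 : ζ ((s₀ : ℂ) * e) = 0 := by
    rw [hζ]
    simp only
    linear_combination (a : ℂ) * (s₀ : ℂ) * hee
  have hz1 : ζ ((s₀ : ℂ) * e + I * Real.pi / a * e) = I * Real.pi := by
    rw [hζ]
    simp only
    have h1 : (a : ℂ) * (conj e * ((s₀ : ℂ) * e + I * Real.pi / a * e) - (s₀ : ℂ)) =
        (a : ℂ) * (s₀ : ℂ) * (e * conj e) + (a : ℂ) * (I * Real.pi / a) * (e * conj e) -
          (a : ℂ) * (s₀ : ℂ) := by ring
    rw [h1, hee]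
    field_simp
    ring
  have hlow : Real.pi ≤ gdist u ((s₀ : ℂ) * e) ((s₀ : ℂ) * e + I * Real.pi / a * e) := by
    refine le_gdist hcu hC hL hdev ?_
    simp only [hz0, hz1, map_mul, map_inv₀, Complex.conj_ofReal, zero_div, neg_zero,
      Complex.exp_zero, map_one, mul_one]
    have h1 : exp (-(I * Real.pi / 2)) = -I := by
      rw [Complex.exp_neg, show I * (Real.pi : ℂ) / 2 = (Real.pi : ℂ) / 2 * I by ring,
        Complex.exp_pi_div_two_mul_I, Complex.inv_I]
    have h2 : exp (I * Real.pi / 2) = I := by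
      rw [show I * (Real.pi : ℂ) / 2 = (Real.pi : ℂ) / 2 * I by ring,
        Complex.exp_pi_div_two_mul_I]
    rw [h1, h2]
    linear_combination ((√a : ℝ) : ℂ)⁻¹ * ((√a : ℝ) : ℂ)⁻¹ * I * hee
  constructor
  · rintro r ⟨x, y, rfl⟩
    exact upper he ha hu hC x y
  · intro b hb
    refine le_trans hlow (hb ⟨_, _, rfl⟩)

end Pool.Agent.T6.H85.LV
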