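import Pool.Agent.T6.H85.LV.Stm

/-!
Project LV (helper85), MP_47dd70_an: module PAIR.
-/

set_option autoImplicit false

namespace Pool.Agent.T6.H85.LV

open Complex Filter Topology Set
open scoped ComplexConjugate

namespace PAIR

theorem nrm (ω s r ε : ℝ) :
    ‖1 + conj ((ε : ℂ) * exp (ω * I)) * ((r : ℂ) * exp (((ω - Real.pi + s : ℝ) : ℂ) * I))‖ ^ 2
      = 1 - 2 * (ε * r) * Real.cos s + (ε * r) ^ 2 := by
  have h1 : conj ((ε : ℂ) * exp (ω * I)) * ((r : ℂ) * exp (((ω - Real.pi + s : ℝ) : ℂ) * I))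
      = -(((ε * r : ℝ) : ℂ) * exp ((s : ℂ) * I)) := by
    rw [map_mul, Complex.conj_ofReal, ← Complex.exp_conj, map_mul, Complex.conj_ofReal,
      Complex.conj_I]
    have h2 : exp (((ω - Real.pi + s : ℝ) : ℂ) * I)
        = exp (ω * I) * (exp (-(Real.pi : ℂ) * I) * exp ((s : ℂ) * I)) := by
      rw [← Complex.exp_add, ← Complex.exp_add]
      congr 1
      push_cast
      ring
    have h3 : exp (-(Real.pi : ℂ) * I) = -1 := by
      rw [neg_mul, Complex.exp_neg, Complex.exp_pi_mul_I]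
      norm_num
    have h4 : exp ((ω : ℂ) * -I) * exp (ω * I) = 1 := by
      rw [← Complex.exp_add]
      simp
    rw [h2, h3]
    push_cast
    linear_combination (-(ε : ℂ) * r * exp ((s : ℂ) * I)) * h4
  rw [h1, Complex.exp_mul_I, ← Complex.ofReal_cos, ← Complex.ofReal_sin,
    ← Complex.normSq_eq_norm_sq, Complex.normSq_apply]
  simp only [Complex.add_re, Complex.add_im, Complex.neg_re, Complex.neg_im, Complex.mul_re,
    Complex.mul_im, Complex.ofReal_re, Complex.ofReal_im, Complex.I_re, Complex.I_im,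
    Complex.one_re, Complex.one_im]
  have h5 := Real.sin_sq_add_cos_sq s
  nlinarith [h5]

theorem arccos_low {x c : ℝ} (hx0 : 0 ≤ x) (hx1 : x ≤ 1) (hc0 : 0 ≤ c) (hc1 : c ≤ 1) :
    Real.arccos x + x * (1 - c) ≤ Real.arccos (c * x) := by
  have hcx : c * x ≤ x := by nlinarith
  have hcx0 : 0 ≤ c * x := mul_nonneg hc0 hx0
  have hmono : Real.arcsin (c * x) ≤ Real.arcsin x := Real.monotone_arcsin hcx
  have h1 : |Real.sin (Real.arcsin x) - Real.sin (Real.arcsin (c * x))|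
      ≤ |Real.arcsin x - Real.arcsin (c * x)| := by
    exact Real.abs_sin_sub_sin_le _ _
  rw [Real.sin_arcsin (by linarith) hx1, Real.sin_arcsin (by linarith) (by linarith),
    abs_of_nonneg (by linarith), abs_of_nonneg (by linarith)] at h1
  unfold Real.arccos
  linarith


theorem cs_form (p w : ℂ) :
    cs 1 p 1 w = ‖1 + conj p * w‖ / (√(1 + ‖p‖ ^ 2) * √(1 + ‖w‖ ^ 2)) := by
  unfold cs
  simp

/-- the lower bound for `sd 1 P 1 w` -/
theorem sd_low (hF : StmFS) (P w : ℂ) (r M c : ℝ) (hr : ‖w‖ = r) (hrM : r ≤ M)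
    (hc : c = 1 / √(1 + ‖P‖ ^ 2)) (hle : ‖1 + conj P * w‖ ≤ 1) :
    2 * Real.arctan r + 2 * (1 - c) / √(1 + M ^ 2) ≤ sd 1 P 1 w := by
  have hr0 : 0 ≤ r := hr ▸ norm_nonneg w
  set x : ℝ := 1 / √(1 + r ^ 2) with hx
  have h1 : (0 : ℝ) < √(1 + r ^ 2) := Real.sqrt_pos.mpr (by positivity)
  have h1' : (1 : ℝ) ≤ √(1 + r ^ 2) := by
    rw [Real.one_le_sqrt]; nlinarith [sq_nonneg r]
  have h2 : (0 : ℝ) < √(1 + ‖P‖ ^ 2) := Real.sqrt_pos.mpr (by positivity)
  have h2' : (1 : ℝ) ≤ √(1 + ‖P‖ ^ 2) := by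
    rw [Real.one_le_sqrt]; nlinarith [sq_nonneg ‖P‖]
  have h3 : (0 : ℝ) < √(1 + M ^ 2) := Real.sqrt_pos.mpr (by positivity)
  have hx0 : 0 < x := by positivity
  have hx1 : x ≤ 1 := by rw [hx, div_le_one h1]; exact h1'
  have hc0 : 0 < c := by rw [hc]; positivity
  have hc1 : c ≤ 1 := by rw [hc, div_le_one h2]; exact h2'
  have harc : Real.arccos x = Real.arctan r := by
    have h4 := hF.2.2.2.2.1 w
    have h5 : sd 1 0 1 w = 2 * Real.arccos x := by
      unfold sd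
      rw [cs_form, hr, hx]
      simp
    rw [h5, hr] at h4
    linarith
  have hcs : cs 1 P 1 w ≤ c * x := by
    rw [cs_form, hr, hc, hx, div_mul_div_comm, one_mul]
    exact div_le_div_of_nonneg_right hle (by positivity)
  have h6 : Real.arccos (c * x) ≤ Real.arccos (cs 1 P 1 w) := Real.arccos_le_arccos hcs
  have h7 := arccos_low hx0.le hx1 hc0.le hc1
  have h8 : 1 / √(1 + M ^ 2) ≤ x := by
    rw [hx]
    apply one_div_le_one_div_of_le h1
    apply Real.sqrt_le_sqrt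
    nlinarith
  have h9 : (1 - c) / √(1 + M ^ 2) ≤ x * (1 - c) := by
    have := mul_le_mul_of_nonneg_right h8 (sub_nonneg.mpr hc1)
    calc (1 - c) / √(1 + M ^ 2) = 1 / √(1 + M ^ 2) * (1 - c) := by ring
      _ ≤ x * (1 - c) := this
  unfold sd
  rw [harc] at h7
  have h10 : 2 * (1 - c) / √(1 + M ^ 2) = 2 * ((1 - c) / √(1 + M ^ 2)) := by ring
  rw [h10]
  linarith

/-- the lower bound for `sd 1 w 1 q` -/
theorem sd_low2 (hF : StmFS) (w q : ℂ) :
    2 * Real.arctan ‖q‖ - 2 * Real.arctan ‖w‖ ≤ sd 1 w 1 q := by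
  have h1 := hF.1 0 1 1 q 1 w (Or.inr one_ne_zero) (Or.inl one_ne_zero) (Or.inl one_ne_zero)
  have h2 := hF.2.2.2.2.2.1 w
  have h3 := hF.2.2.2.2.2.1 q
  have h4 := hF.2.1 1 q 1 w
  rw [h2, h3, h4] at h1
  linarith

theorem y1_ne {u : ℂ → ℝ} {y₁ y₂ : ℂ → ℂ} (hd : Dev u y₁ y₂) {z w : ℂ}
    (h : y₂ z = w * y₁ z) : y₁ z ≠ 0 := by
  intro h1
  have h2 := hd.wr z
  rw [h, h1] at h2
  simp at h2

theorem sd_scale (hF : StmFS) {u : ℂ → ℝ} {y₁ y₂ : ℂ → ℂ} (hd : Dev u y₁ y₂) {z z' w w' : ℂ}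
    (h : y₂ z = w * y₁ z) (h' : y₂ z' = w' * y₁ z') :
    sd (y₁ z) (y₂ z) (y₁ z') (y₂ z') = sd 1 w 1 w' := by
  have h1 := hF.2.2.1 (y₁ z) (y₁ z') 1 w 1 w' (y1_ne hd h) (y1_ne hd h')
  rw [mul_one, mul_one, mul_comm (y₁ z) w, mul_comm (y₁ z') w', ← h, ← h'] at h1
  exact h1

theorem key (hF : StmFS) (hL : StmLOW) (hC : StmCONN) (hS : StmSPLIT) (hG : StmGROSS)
    (hSep : StmSEP) (u : ℂ → ℝ) (hu : Continuous u) (hg : ∀ x y, gdist u x y ≤ Real.pi)
    (y₁ y₂ : ℂ → ℂ) (hd : Dev u y₁ y₂) (x : ℂ) (D : Set ℂ) (h : ℂ → ℂ)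
    (hs : IsStar y₁ y₂ x D h) (t₁ t₂ R R' : ℝ) (ht : t₁ < t₂) (ht' : t₂ < t₁ + Real.pi)
    (hb : Blk D (exp (t₁ * I)) R) (hb' : Blk D (exp (t₂ * I)) R') : False := by
  have hpi := Real.pi_pos
  set δ : ℝ := (t₂ - t₁) / 2 with hδ
  have hδ0 : 0 < δ := by rw [hδ]; linarith
  have hδ1 : δ < Real.pi / 2 := by rw [hδ]; linarith
  have hcos : 0 < Real.cos δ := Real.cos_pos_of_mem_Ioo ⟨by linarith, hδ1⟩
  set ω : ℝ := (t₁ + t₂) / 2 + Real.pi with hω
  obtain ⟨θ, hθ1, hθ2, hray⟩ := hG u y₁ y₂ hd x D h hs t₁ t₂ ht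
  set M : ℝ := max R R' with hM
  have hRpos := hb.1
  have hMpos : 0 < M := lt_of_lt_of_le hRpos (le_max_left _ _)
  -- choice of ε
  obtain ⟨ho, h0D, -⟩ := hs.1.1
  obtain ⟨ε₀, hε0, hball⟩ := Metric.isOpen_iff.mp ho 0 h0D
  set ε : ℝ := min (ε₀ / 2) (2 * Real.cos δ / M) with hε
  have hεpos : 0 < ε := lt_min (by linarith) (by positivity)
  have hεε : ε < ε₀ := lt_of_le_of_lt (min_le_left _ _) (by linarith)
  have hεM : ε * M ≤ 2 * Real.cos δ := by
    have : ε ≤ 2 * Real.cos δ / M := min_le_right _ _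
    rwa [le_div_iff₀ hMpos] at this
  set P : ℂ := (ε : ℂ) * exp (ω * I) with hP
  have hPn : ‖P‖ = ε := by
    rw [hP, norm_mul, Complex.norm_exp_ofReal_mul_I, mul_one, Complex.norm_real,
      Real.norm_eq_abs, abs_of_pos hεpos]
  have hPD : P ∈ D := by
    apply hball
    rw [Metric.mem_ball, dist_zero_right, hPn]
    exact hεε
  set c : ℝ := 1 / √(1 + ‖P‖ ^ 2) with hc
  have hc1 : c < 1 := by
    rw [hc, div_lt_one (Real.sqrt_pos.mpr (by positivity))]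
    rw [Real.lt_sqrt zero_le_one, hPn]
    nlinarith [sq_pos_of_pos hεpos]
  set κ : ℝ := 2 * (1 - c) / √(1 + M ^ 2) with hκ
  have hκpos : 0 < κ := by
    have : (0 : ℝ) < √(1 + M ^ 2) := Real.sqrt_pos.mpr (by positivity)
    rw [hκ]
    have h1 : 0 < 1 - c := by linarith
    positivity
  -- choice of T
  obtain ⟨T, hTpos, hT⟩ : ∃ T : ℝ, 0 < T ∧ Real.pi - κ / 2 < 2 * Real.arctan T := by
    have ht := Real.tendsto_arctan_atTop
    have h1 : ∀ᶠ T in atTop, Real.pi / 2 - κ / 4 < Real.arctan T := by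
      have h2 : Tendsto Real.arctan atTop (𝓝 (Real.pi / 2)) :=
        tendsto_nhds_of_tendsto_nhdsWithin ht
      exact h2.eventually_const_lt (by linarith)
    obtain ⟨T, hT1, hT2⟩ := (h1.and (eventually_gt_atTop 0)).exists
    exact ⟨T, hT2, by linarith⟩
  set Q : ℂ := (T : ℂ) * exp (θ * I) with hQ
  have hQn : ‖Q‖ = T := by
    rw [hQ, norm_mul, Complex.norm_exp_ofReal_mul_I, mul_one, Complex.norm_real,
      Real.norm_eq_abs, abs_of_pos hTpos]
  have hQD : Q ∈ D := hray T hTpos.le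
  -- the path
  obtain ⟨L, hLp, hLlt⟩ : ∃ L, IsPath u (h P) (h Q) L ∧ L < Real.pi + κ / 2 := by
    have h1 : gdist u (h P) (h Q) < Real.pi + κ / 2 := lt_of_le_of_lt (hg _ _) (by linarith)
    obtain ⟨L, hL1, hL2⟩ := exists_lt_of_csInf_lt ((hC u hu).1 (h P) (h Q)) h1
    exact ⟨L, hL1, hL2⟩
  obtain ⟨A, B, hA, hB, hAB, hun, hin1, hin2⟩ := hSep u y₁ y₂ hd x D h hs t₁ t₂ R R' ht
    (by linarith) hb hb'
  have hpB : h P ∈ B := hin2 ε ω hεpos (by rw [hω]; linarith) (by rw [hω]; linarith) hPD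
  have hqA : h Q ∈ A := hin1 T θ hTpos hθ1 hθ2 hQD
  obtain ⟨z, hz, L₁, L₂, hp1, hp2, hsum⟩ := hS u hu _ B A hB hA hAB.symm
    (by rw [union_comm]; exact hun) (h P) hpB (h Q) hqA L hLp
  obtain ⟨w, ⟨r, hr0, hw⟩, rfl⟩ := hz
  -- data of the crossing point
  have hdata : w ∈ D ∧ ‖w‖ = r ∧ r ≤ M ∧ ‖1 + conj P * w‖ ≤ 1 := by
    have hnorm : ∀ t : ℝ, ‖(r : ℂ) * exp (t * I)‖ = r := by
      intro t
      rw [norm_mul, Complex.norm_exp_ofReal_mul_I, mul_one, Complex.norm_real,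
        Real.norm_eq_abs, abs_of_nonneg hr0]
    have hbound : ∀ s : ℝ, Real.cos s = Real.cos δ → r ≤ M →
        ‖1 + conj P * ((r : ℂ) * exp (((ω - Real.pi + s : ℝ) : ℂ) * I))‖ ≤ 1 := by
      intro s hs hrM
      have h1 := nrm ω s r ε
      rw [hs] at h1
      have h2 : ‖1 + conj P * ((r : ℂ) * exp (((ω - Real.pi + s : ℝ) : ℂ) * I))‖ ^ 2 ≤ 1 := by
        rw [hP, h1]
        have h3 : ε * r ≤ 2 * Real.cos δ :=
          le_trans (mul_le_mul_of_nonneg_left hrM hεpos.le) hεM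
        have h4 : 0 ≤ ε * r := mul_nonneg hεpos.le hr0
        nlinarith
      have h5 := norm_nonneg (1 + conj P * ((r : ℂ) * exp (((ω - Real.pi + s : ℝ) : ℂ) * I)))
      nlinarith
    rcases hw with ⟨hrR, rfl⟩ | ⟨hrR, rfl⟩
    · have hrM : r ≤ M := hrR.le.trans (le_max_left _ _)
      refine ⟨hb.2.1 r hr0 hrR, hnorm t₁, hrM, ?_⟩
      have h1 := hbound (-δ) (Real.cos_neg δ) hrM
      have e : ω - Real.pi + -δ = t₁ := by rw [hω, hδ]; ring
      rwa [e] at h1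
    · have hrM : r ≤ M := hrR.le.trans (le_max_right _ _)
      refine ⟨hb'.2.1 r hr0 hrR, hnorm t₂, hrM, ?_⟩
      have h1 := hbound δ rfl hrM
      have e : ω - Real.pi + δ = t₂ := by rw [hω, hδ]; ring
      rwa [e] at h1
  obtain ⟨hwD, hwn, hrM, hle⟩ := hdata
  have hl1 := hL u y₁ y₂ hd _ _ _ hp1
  have hl2 := hL u y₁ y₂ hd _ _ _ hp2
  have hbr := hs.1.2.2.2
  rw [sd_scale hF hd (hbr P hPD) (hbr w hwD)] at hl1
  rw [sd_scale hF hd (hbr w hwD) (hbr Q hQD)] at hl2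
  have b1 := sd_low hF P w r M c hwn hrM hc hle
  have b2 := sd_low2 hF w Q
  rw [hwn, hQn] at b2
  rw [← hκ] at b1
  linarith

end PAIR

theorem pair (hF : StmFS) (hL : StmLOW) (hC : StmCONN) (hS : StmSPLIT) (hG : StmGROSS)
    (hSep : StmSEP) : StmPAIR := by
  intro u hu hg y₁ y₂ hd x D h hs v v' R R' hv hv' hb hb'
  by_contra hcon
  push Not at hcon
  obtain ⟨hne, hne'⟩ := hcon
  have hvne : v ≠ 0 := by
    intro e; rw [e, norm_zero] at hv; exact zero_ne_one hv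
  have hv'ne : v' ≠ 0 := by
    intro e; rw [e, norm_zero] at hv'; exact zero_ne_one hv'
  set a : ℝ := Complex.arg v with ha
  set b : ℝ := Complex.arg (v' / v) with hb_
  have hpi := Real.pi_pos
  have ev : exp (a * I) = v := by
    have := Complex.norm_mul_exp_arg_mul_I v
    rwa [hv, Complex.ofReal_one, one_mul] at this
  have eb : exp (b * I) = v' / v := by
    have := Complex.norm_mul_exp_arg_mul_I (v' / v)
    rwa [norm_div, hv, hv', div_one, Complex.ofReal_one, one_mul] at this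
  have ev' : exp (((a + b : ℝ) : ℂ) * I) = v' := by
    push_cast
    rw [add_mul, Complex.exp_add, ev, eb]
    field_simp
  have hb0 : b ≠ 0 := by
    intro e
    rw [e] at eb
    simp at eb
    apply hne
    have : v' = v := by
      have h1 : v' / v = 1 := by rw [← eb]
      rwa [div_eq_one_iff_eq hvne] at h1
    exact this.symm
  have hb1 : b ≠ Real.pi := by
    intro e
    rw [e, Complex.exp_pi_mul_I] at eb
    apply hne'
    have h1 : v' = -1 * v := by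
      rw [eb]; field_simp
    rw [h1]; ring
  have hbm := Complex.arg_mem_Ioc (v' / v)
  rw [← hb_] at hbm
  rcases lt_or_gt_of_ne hb0 with hlt | hgt
  · -- b < 0
    refine PAIR.key hF hL hC hS hG hSep u hu hg y₁ y₂ hd x D h hs (a + b) a R' R (by linarith)
      (by linarith [hbm.1]) ?_ ?_
    · rw [ev']; exact hb'
    · rw [ev]; exact hb
  · have : b < Real.pi := lt_of_le_of_ne hbm.2 hb1
    refine PAIR.key hF hL hC hS hG hSep u hu hg y₁ y₂ hd x D h hs a (a + b) R R' (by linarith)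
      (by linarith) ?_ ?_
    · rw [ev]; exact hb
    · rw [ev']; exact hb'

end Pool.Agent.T6.H85.LV
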