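import Pool.Agent.T6.H85.LV.ONE

/-!
# Radial solutions (helper94, module RAD)
-/

set_option autoImplicit false

namespace Pool.Agent.T6.H85.LV

open Complex Filter Topology Set

namespace RAD

/-- solutions of the radial equation -/
theorem ode {f f' f'' : ℝ → ℝ} (h1 : ∀ r, HasDerivAt f (f' r) r)
    (h2 : ∀ r, HasDerivAt f' (f'' r) r)
    (h3 : ∀ r, 0 < r → f'' r + f' r / r + Real.exp (2 * f r) = 0) :
    ∃ l : ℝ, 0 < l ∧ ∀ r, 0 ≤ r → f r = Real.log (2 * l / (1 + l ^ 2 * r ^ 2)) := by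
  have hfc : Continuous f := continuous_iff_continuousAt.2 fun r => (h1 r).continuousAt
  have hf'c : Continuous f' := continuous_iff_continuousAt.2 fun r => (h2 r).continuousAt
  -- first integral
  let J : ℝ → ℝ := fun r => r ^ 2 * f' r ^ 2 + 2 * r * f' r + r ^ 2 * Real.exp (2 * f r)
  have hJc : Continuous J := by
    change Continuous fun r => r ^ 2 * f' r ^ 2 + 2 * r * f' r + r ^ 2 * Real.exp (2 * f r)
    fun_prop
  have hJ : ∀ r, 0 < r → HasDerivAt J 0 r := by
    intro r hr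
    have e1 := ((hasDerivAt_id r).pow 2).mul ((h2 r).pow 2)
    have e2 := ((hasDerivAt_id r).const_mul 2).mul (h2 r)
    have e3 := ((hasDerivAt_id r).pow 2).mul (((h1 r).const_mul 2).exp)
    refine ((e1.add e2).add e3).congr_deriv ?_
    have h4 := h3 r hr
    have h5 : f'' r = -(f' r / r) - Real.exp (2 * f r) := by linarith
    simp only [Pi.pow_apply, id, h5]
    field_simp
    ring
  have hJ0 : ∀ r, 0 ≤ r → J r = 0 := by
    have e1 : ∀ r, 0 < r → J r = J 1 := by
      intro r hr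
      exact isOpen_Ioi.is_const_of_deriv_eq_zero isPreconnected_Ioi
        (fun x hx => (hJ x hx).differentiableAt.differentiableWithinAt)
        (fun x hx => (hJ x hx).deriv) hr (zero_lt_one' ℝ)
    have e2 : J 1 = 0 := by
      have t1 : Tendsto J (𝓝[>] 0) (𝓝 (J 0)) := (hJc.tendsto 0).mono_left nhdsWithin_le_nhds
      have t2 : Tendsto J (𝓝[>] 0) (𝓝 (J 1)) := by
        refine tendsto_const_nhds.congr' ?_
        filter_upwards [self_mem_nhdsWithin] with r hr using (e1 r hr).symm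
      have := tendsto_nhds_unique t2 t1
      rw [this]
      simp [J]
    intro r hr
    rcases eq_or_lt_of_le hr with h0 | h0
    · rw [← h0]; simp [J]
    · rw [e1 r h0, e2]
  -- g = exp (-f)
  let g : ℝ → ℝ := fun s => Real.exp (-f s)
  have hg : ∀ s, HasDerivAt g (-f' s * g s) s := by
    intro s
    refine ((h1 s).neg.exp).congr_deriv ?_
    change Real.exp (-f s) * -f' s = -f' s * Real.exp (-f s)
    ring
  have hgc : Continuous g := by
    change Continuous fun s => Real.exp (-f s)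
    fun_prop
  have hge : ∀ s, Real.exp (2 * f s) * g s ^ 2 = 1 := by
    intro s
    change Real.exp (2 * f s) * Real.exp (-f s) ^ 2 = 1
    rw [← Real.exp_nat_mul, ← Real.exp_add]
    norm_num
  have hg0 : ∀ s, 0 < g s := fun s => Real.exp_pos _
  -- g' / r is constant
  have hK : ∀ r, 0 < r → HasDerivAt (fun r => -f' r * g r / r) 0 r := by
    intro r hr
    have e1 := ((h2 r).neg.mul (hg r)).div (hasDerivAt_id r) hr.ne'
    refine e1.congr_deriv ?_
    have h4 := h3 r hr
    have h5 : f'' r = -(f' r / r) - Real.exp (2 * f r) := by linarith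
    have h6 := hJ0 r hr.le
    change r ^ 2 * f' r ^ 2 + 2 * r * f' r + r ^ 2 * Real.exp (2 * f r) = 0 at h6
    have h7 : r * f' r ^ 2 + 2 * f' r + r * Real.exp (2 * f r) = 0 := by
      have : r * (r * f' r ^ 2 + 2 * f' r + r * Real.exp (2 * f r)) = 0 := by
        linear_combination h6
      rcases mul_eq_zero.1 this with h | h
      · exact absurd h hr.ne'
      · exact h
    simp only [Pi.neg_apply, Pi.mul_apply, id, h5]
    have hr' : r ≠ 0 := hr.ne'
    field_simp
    linear_combination (g r) * h7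
  obtain ⟨A, hA⟩ : ∃ A : ℝ, ∀ r, 0 < r → -f' r * g r = 2 * A * r := by
    refine ⟨(-f' 1 * g 1 / 1) / 2, fun r hr => ?_⟩
    have := isOpen_Ioi.is_const_of_deriv_eq_zero isPreconnected_Ioi
        (fun x hx => (hK x hx).differentiableAt.differentiableWithinAt)
        (fun x hx => (hK x hx).deriv) hr (zero_lt_one' ℝ)
    have h8 : -f' r * g r / r = -f' 1 * g 1 / 1 := this
    rw [← h8]
    field_simp
  have hL : ∀ r, 0 < r → HasDerivAt (fun r => g r - A * r ^ 2) 0 r := by
    intro r hr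
    have e1 := (hg r).sub (((hasDerivAt_id r).pow 2).const_mul A)
    refine e1.congr_deriv ?_
    rw [hA r hr]
    simp
    ring
  let B := g 1 - A * 1 ^ 2
  have hgB : ∀ r, 0 < r → g r = A * r ^ 2 + B := by
    intro r hr
    have := isOpen_Ioi.is_const_of_deriv_eq_zero isPreconnected_Ioi
        (fun x hx => (hL x hx).differentiableAt.differentiableWithinAt)
        (fun x hx => (hL x hx).deriv) hr (zero_lt_one' ℝ)
    have h8 : g r - A * r ^ 2 = g 1 - A * 1 ^ 2 := this
    change g r = A * r ^ 2 + (g 1 - A * 1 ^ 2)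
    linarith
  have hB : g 0 = B := by
    have t1 : Tendsto g (𝓝[>] 0) (𝓝 (g 0)) := (hgc.tendsto 0).mono_left nhdsWithin_le_nhds
    have t2 : Tendsto g (𝓝[>] 0) (𝓝 (A * 0 ^ 2 + B)) := by
      have : Tendsto (fun r : ℝ => A * r ^ 2 + B) (𝓝[>] 0) (𝓝 (A * 0 ^ 2 + B)) := by
        refine (Continuous.tendsto ?_ 0).mono_left nhdsWithin_le_nhds
        fun_prop
      refine this.congr' ?_
      filter_upwards [self_mem_nhdsWithin] with r hr using (hgB r hr).symm
    have := tendsto_nhds_unique t1 t2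
    rw [this]
    ring
  have hB0 : 0 < B := hB ▸ hg0 0
  have hAB : 4 * A * B = 1 := by
    have h6 := hJ0 1 zero_le_one
    change (1:ℝ) ^ 2 * f' 1 ^ 2 + 2 * 1 * f' 1 + 1 ^ 2 * Real.exp (2 * f 1) = 0 at h6
    have h7 := hge 1
    have h8 := hA 1 zero_lt_one
    have h9 := hgB 1 zero_lt_one
    have h10 : (f' 1 * g 1) ^ 2 + 2 * (f' 1 * g 1) * g 1 + 1 = 0 := by
      linear_combination (g 1 ^ 2) * h6 + (-1 : ℝ) * h7
    have h11 : f' 1 * g 1 = -(2 * A) := by linarith
    rw [h11, h9] at h10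
    linear_combination -h10
  refine ⟨1 / (2 * B), by positivity, fun r hr => ?_⟩
  have hgr : g r = A * r ^ 2 + B := by
    rcases eq_or_lt_of_le hr with h0 | h0
    · rw [← h0, hB]; ring
    · exact hgB r h0
  have hA' : A = 1 / (4 * B) := by
    field_simp
    linarith
  have e3 : f r = Real.log (g r)⁻¹ := by
    rw [Real.log_inv]
    change f r = -Real.log (Real.exp (-f r))
    rw [Real.log_exp]
    ring
  rw [e3, hgr, hA']
  congr 1
  field_simp
  ring

end RAD

open RAD ONE in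
theorem rad : StmRAD := by
  intro u hu ⟨x₀, φ, hφ⟩
  let F : ℝ → ℝ := fun s => u (x₀ + s • (1 : ℂ))
  let F' : ℝ → ℝ := fun s => fderiv ℝ u (x₀ + s • (1 : ℂ)) 1
  let F'' : ℝ → ℝ := fun s => iteratedFDeriv ℝ 2 u (x₀ + s • (1 : ℂ)) ![1, 1]
  have hF1 : ∀ s, HasDerivAt F (F' s) s := fun s => line1 hu.1 x₀ 1 s
  have hF2 : ∀ s, HasDerivAt F' (F'' s) s := fun s => line2 hu.1 x₀ 1 s
  have hFf : ∀ s, 0 ≤ s → F s = φ s := by
    intro s hs
    change u (x₀ + s • (1 : ℂ)) = φ s
    rw [hφ]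
    congr 1
    rw [add_sub_cancel_left, norm_smul, Real.norm_eq_abs, abs_of_nonneg hs, norm_one, mul_one]
  have huF : ∀ x, u x = F ‖x - x₀‖ := fun x => by
    rw [hFf _ (norm_nonneg _), hφ]
  have key : ∀ r, 0 < r → iteratedFDeriv ℝ 2 u (x₀ + r • (1 : ℂ)) ![I, I] = F' r / r := by
    intro r hr
    set x := x₀ + r • (1 : ℂ) with hx
    have hpos : ∀ t : ℝ, 0 < r ^ 2 + t ^ 2 := fun t => by positivity
    have g1 : ∀ t : ℝ, u (x + t • I) = F (√(r ^ 2 + t ^ 2)) := by
      intro t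
      rw [huF]
      congr 1
      have h1 : x + t • I - x₀ = (r : ℂ) + t * I := by
        rw [hx]
        simp
        ring
      rw [h1, Complex.norm_add_mul_I]
    have hl : ∀ t : ℝ, HasDerivAt (fun t : ℝ => √(r ^ 2 + t ^ 2)) (t / √(r ^ 2 + t ^ 2)) t := by
      intro t
      have h1 : HasDerivAt (fun t : ℝ => r ^ 2 + t ^ 2) (2 * t) t := by
        have := ((hasDerivAt_id t).pow 2).const_add (r ^ 2)
        simpa using this
      refine (h1.sqrt (hpos t).ne').congr_deriv ?_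
      have : √(r ^ 2 + t ^ 2) ≠ 0 := (Real.sqrt_pos.2 (hpos t)).ne'
      field_simp
    have g2 : ∀ t : ℝ, fderiv ℝ u (x + t • I) I =
        F' (√(r ^ 2 + t ^ 2)) * (t / √(r ^ 2 + t ^ 2)) := by
      intro t
      refine (line1 hu.1 x I t).unique ?_
      have := (hF1 (√(r ^ 2 + t ^ 2))).comp t (hl t)
      exact this.congr_of_eventuallyEq (Filter.Eventually.of_forall fun s => g1 s)
    have g3 := line2 hu.1 x I 0
    have hr0 : √(r ^ 2 + 0 ^ 2) = r := by
      rw [zero_pow two_ne_zero, add_zero, Real.sqrt_sq hr.le]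
    have g4 : HasDerivAt (fun t : ℝ => F' (√(r ^ 2 + t ^ 2)) * (t / √(r ^ 2 + t ^ 2)))
        (F' r / r) 0 := by
      have g6 : HasDerivAt (fun t : ℝ => F' (√(r ^ 2 + t ^ 2)))
          (F'' (√(r ^ 2 + 0 ^ 2)) * (0 / √(r ^ 2 + 0 ^ 2))) 0 :=
        HasDerivAt.comp (h := fun t : ℝ => √(r ^ 2 + t ^ 2)) (0 : ℝ) (hF2 _) (hl 0)
      have g7 : HasDerivAt (fun t : ℝ => t / √(r ^ 2 + t ^ 2))
          ((1 * √(r ^ 2 + 0 ^ 2) - 0 * (0 / √(r ^ 2 + 0 ^ 2))) / √(r ^ 2 + 0 ^ 2) ^ 2) 0 :=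
        (hasDerivAt_id (0 : ℝ)).div (hl 0) (Real.sqrt_pos.2 (hpos 0)).ne'
      refine (g6.mul g7).congr_deriv ?_
      rw [hr0]
      field_simp
      ring
    have g5 : (fun t : ℝ => fderiv ℝ u (x + t • I) I) =
        fun t : ℝ => F' (√(r ^ 2 + t ^ 2)) * (t / √(r ^ 2 + t ^ 2)) := funext g2
    rw [g5] at g3
    have := g3.unique g4
    rwa [zero_smul, add_zero] at this
  obtain ⟨l, hl, hs⟩ := ode hF1 hF2 (fun r hr => by
    have h1 := lap_eq hu (x₀ + r • (1 : ℂ))
    rw [key r hr] at h1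
    exact h1)
  exact ⟨x₀, l, hl, fun x => by rw [huF, hs _ (norm_nonneg _)]⟩

end Pool.Agent.T6.H85.LV
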