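import Pool.Agent.T6.H85.LV.ONED

/-!
Module RADD of project LV: the diameter of the round case is exactly `π`.
-/

set_option autoImplicit false

namespace Pool.Agent.T6.H85.LV

open Complex Filter Topology Set
open scoped ComplexConjugate

namespace ModRADD

section

variable {u : ℂ → ℝ} {x₀ : ℂ} {l : ℝ}

/-- the length along a ray -/
noncomputable def P (l r : ℝ) : ℝ := 2 * Real.arctan (l * r)

theorem p_deriv (l r : ℝ) : HasDerivAt (P l) (2 * l / (1 + l ^ 2 * r ^ 2)) r := by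
  have h1 : HasDerivAt (fun r : ℝ => l * r) l r := by
    simpa using (hasDerivAt_id r).const_mul l
  have h2 := (h1.arctan).const_mul 2
  refine h2.congr_deriv ?_
  rw [mul_pow]
  ring

theorem p_top (hl : 0 < l) : Tendsto (P l) atTop (𝓝 Real.pi) := by
  have h1 : Tendsto (fun r : ℝ => l * r) atTop atTop := tendsto_id.const_mul_atTop hl
  have h2 : Tendsto (fun r : ℝ => Real.arctan (l * r)) atTop (𝓝 (Real.pi / 2)) :=
    (Real.tendsto_arctan_atTop.mono_right nhdsWithin_le_nhds).comp h1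
  have h3 := h2.const_mul 2
  have h4 : 2 * (Real.pi / 2) = Real.pi := by ring
  rw [h4] at h3
  exact h3

variable (hl : 0 < l) (hu : ∀ x, u x = Real.log (2 * l / (1 + l ^ 2 * ‖x - x₀‖ ^ 2)))

include hl hu in
theorem eu (x : ℂ) : Real.exp (u x) = 2 * l / (1 + l ^ 2 * ‖x - x₀‖ ^ 2) := by
  rw [hu, Real.exp_log (by positivity)]

include hl hu in
theorem ucont : Continuous u := by
  have : u = fun x => Real.log (2 * l / (1 + l ^ 2 * ‖x - x₀‖ ^ 2)) := funext hu
  rw [this]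
  refine Continuous.log ?_ fun x => (by positivity)
  refine continuous_const.div (by fun_prop) fun x => (by positivity)

include hl hu in
/-- go along a ray -/
theorem go_r {x : ℂ} {L r : ℝ} (α : ℝ) (h : IsPath u x (x₀ + (r : ℂ) * exp (α * I)) L)
    (r' : ℝ) : IsPath u x (x₀ + (r' : ℂ) * exp (α * I)) (L + |P l r' - P l r|) := by
  obtain ⟨p, hp⟩ : ∃ p : ℂ, p = x₀ + (r : ℂ) * exp (α * I) := ⟨_, rfl⟩
  have hexp : ‖exp ((α : ℂ) * I)‖ = 1 := Complex.norm_exp_ofReal_mul_I α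
  have hpt : ∀ t : ℝ, p + ((t * (r' - r) : ℝ) : ℂ) * exp (α * I) =
      x₀ + ((r + t * (r' - r) : ℝ) : ℂ) * exp (α * I) := by
    intro t
    rw [hp]
    push_cast
    ring
  have hnorm : ∀ t : ℝ, ‖p + ((t * (r' - r) : ℝ) : ℂ) * exp (α * I) - x₀‖ ^ 2 =
      (r + t * (r' - r)) ^ 2 := by
    intro t
    rw [hpt, add_sub_cancel_left, norm_mul, hexp, mul_one, Complex.norm_real, Real.norm_eq_abs,
      sq_abs]
  have hval : ∀ t : ℝ, Real.exp (u (p + ((t * (r' - r) : ℝ) : ℂ) * exp (α * I))) *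
      ‖deriv (fun t : ℝ => p + ((t * (r' - r) : ℝ) : ℂ) * exp (α * I)) t‖ =
      2 * l / (1 + l ^ 2 * (r + t * (r' - r)) ^ 2) * |r' - r| := by
    intro t
    rw [eu hl hu, hnorm, (ModONED.deriv_line p (exp (α * I)) (r' - r) t).deriv, norm_mul, hexp,
      mul_one, Complex.norm_real, Real.norm_eq_abs]
  have hcont : Continuous fun t : ℝ =>
      Real.exp (u (p + ((t * (r' - r) : ℝ) : ℂ) * exp (α * I))) *
      ‖deriv (fun t : ℝ => p + ((t * (r' - r) : ℝ) : ℂ) * exp (α * I)) t‖ := by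
    have : (fun t : ℝ => Real.exp (u (p + ((t * (r' - r) : ℝ) : ℂ) * exp (α * I))) *
      ‖deriv (fun t : ℝ => p + ((t * (r' - r) : ℝ) : ℂ) * exp (α * I)) t‖) = fun t : ℝ =>
      2 * l / (1 + l ^ 2 * (r + t * (r' - r)) ^ 2) * |r' - r| := funext hval
    rw [this]
    refine Continuous.mul (continuous_const.div (by fun_prop) fun x => (by positivity))
      continuous_const
  have hGd : ∀ t : ℝ, HasDerivAt (fun t : ℝ => P l (r + t * (r' - r)))
      (2 * l / (1 + l ^ 2 * (r + t * (r' - r)) ^ 2) * (r' - r)) t := by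
    intro t
    have h2 : HasDerivAt (fun t : ℝ => r + t * (r' - r)) (r' - r) t := by
      simpa using ((hasDerivAt_id t).mul_const (r' - r)).const_add r
    have h3 := (p_deriv l (r + t * (r' - r))).comp t h2
    exact h3
  rw [← hp] at h
  refine ModONED.ap h (fun t : ℝ => p + ((t * (r' - r) : ℝ) : ℂ) * exp (α * I))
    (ModONED.contDiff_line p _ (r' - r)) (by simp) ?_ ?_
  · rw [hpt]
    push_cast
    ring
  have key : ∃ c : ℝ, (c = 1 ∨ c = -1) ∧ r' - r = c * |r' - r| := by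
    rcases le_total 0 (r' - r) with h0 | h0
    · exact ⟨1, Or.inl rfl, by rw [abs_of_nonneg h0, one_mul]⟩
    · exact ⟨-1, Or.inr rfl, by rw [abs_of_nonpos h0]; ring⟩
  obtain ⟨c, hc, hτ⟩ := key
  rw [ModONED.len_eq (fun t : ℝ => P l (r + t * (r' - r))) c hc hcont]
  · have e1 : r + 1 * (r' - r) = r' := by ring
    have e2 : r + 0 * (r' - r) = r := by ring
    rw [e1, e2]
  · intro t
    rw [hval]
    refine (hGd t).congr_deriv ?_
    have e1 : c * (2 * l / (1 + l ^ 2 * (r + t * (r' - r)) ^ 2) * |r' - r|) =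
        2 * l / (1 + l ^ 2 * (r + t * (r' - r)) ^ 2) * (c * |r' - r|) := by ring
    rw [e1, ← hτ]

include hl hu in
/-- go along an arc of a circle -/
theorem go_arc {x : ℂ} {L T : ℝ} (α : ℝ) (h : IsPath u x (x₀ + (T : ℂ) * exp (α * I)) L)
    (α' : ℝ) : IsPath u x (x₀ + (T : ℂ) * exp (α' * I))
      (L + |α' - α| * (|T| * (2 * l / (1 + l ^ 2 * T ^ 2)))) := by
  have hin : ∀ t : ℝ, HasDerivAt (fun t : ℝ => (((α + t * (α' - α) : ℝ) : ℂ) * I))
      (((α' - α : ℝ) : ℂ) * I) t := by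
    intro t
    have h2 : HasDerivAt (fun t : ℝ => α + t * (α' - α)) (α' - α) t := by
      simpa using ((hasDerivAt_id t).mul_const (α' - α)).const_add α
    exact (h2.ofReal_comp).mul_const I
  have hder : ∀ t : ℝ, deriv (fun t : ℝ => x₀ + (T : ℂ) * exp (((α + t * (α' - α) : ℝ) : ℂ) * I)) t =
      (T : ℂ) * (exp (((α + t * (α' - α) : ℝ) : ℂ) * I) * (((α' - α : ℝ) : ℂ) * I)) :=
    fun t => ((((hin t).cexp).const_mul (T : ℂ)).const_add x₀).deriv
  refine ModONED.ap h (fun t : ℝ => x₀ + (T : ℂ) * exp (((α + t * (α' - α) : ℝ) : ℂ) * I))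
    ?_ (by simp) (by simp) ?_
  · refine contDiff_const.add (contDiff_const.mul ?_)
    refine ContDiff.cexp ?_
    refine ContDiff.mul ?_ contDiff_const
    exact Complex.ofRealCLM.contDiff.comp (contDiff_const.add (contDiff_id.mul contDiff_const))
  · unfold len
    have hval : ∀ t : ℝ, Real.exp (u (x₀ + (T : ℂ) * exp (((α + t * (α' - α) : ℝ) : ℂ) * I))) *
        ‖deriv (fun t : ℝ => x₀ + (T : ℂ) * exp (((α + t * (α' - α) : ℝ) : ℂ) * I)) t‖ =
        |α' - α| * (|T| * (2 * l / (1 + l ^ 2 * T ^ 2))) := by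
      intro t
      rw [eu hl hu, hder, add_sub_cancel_left, norm_mul, norm_mul, norm_mul, norm_mul,
        Complex.norm_exp_ofReal_mul_I, Complex.norm_I, Complex.norm_real, Complex.norm_real,
        Real.norm_eq_abs, Real.norm_eq_abs, mul_one, one_mul, mul_one, sq_abs]
      ring
    simp only [hval]
    simp

include hl hu in
theorem via (r r' α α' T : ℝ) : IsPath u (x₀ + (r : ℂ) * exp (α * I))
    (x₀ + (r' : ℂ) * exp (α' * I))
    (|P l T - P l r| + |α' - α| * (|T| * (2 * l / (1 + l ^ 2 * T ^ 2))) + |P l r' - P l T|) := by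
  have h1 := go_r hl hu α (IsPath.nil (u := u) (x := x₀ + (r : ℂ) * exp (α * I))) T
  have h2 := go_arc hl hu α h1 α'
  have h3 := go_r hl hu α' h2 r'
  rw [zero_add] at h3
  exact h3

theorem width_lim (hl : 0 < l) (c : ℝ) :
    Tendsto (fun T : ℝ => c * (|T| * (2 * l / (1 + l ^ 2 * T ^ 2)))) atTop (𝓝 0) := by
  have h1 : Tendsto (fun T : ℝ => 2 / l / T) atTop (𝓝 0) :=
    tendsto_id.const_div_atTop (2 / l)
  have h2 : Tendsto (fun T : ℝ => |T| * (2 * l / (1 + l ^ 2 * T ^ 2))) atTop (𝓝 0) := by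
    refine squeeze_zero' (Eventually.of_forall fun T => by positivity) ?_ h1
    filter_upwards [eventually_gt_atTop 0] with T hT
    rw [abs_of_pos hT, ← mul_div_assoc, div_le_div_iff₀ (by positivity) hT]
    have h3 : 2 / l * (1 + l ^ 2 * T ^ 2) = 2 / l + 2 * l * T ^ 2 := by
      field_simp
    rw [h3]
    have h4 : 0 < 2 / l := by positivity
    nlinarith
  have h4 := h2.const_mul c
  rw [mul_zero] at h4
  exact h4

theorem polar (x₀ x : ℂ) : x = x₀ + ((‖x - x₀‖ : ℝ) : ℂ) * exp (((x - x₀).arg : ℝ) * I) := by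
  rw [Complex.norm_mul_exp_arg_mul_I]
  ring

include hl hu in
theorem upper (hC : StmCONN) (x y : ℂ) : gdist u x y ≤ Real.pi := by
  have hcu := ucont hl hu
  obtain ⟨r, hr⟩ : ∃ r : ℝ, r = ‖x - x₀‖ := ⟨_, rfl⟩
  obtain ⟨r', hr'⟩ : ∃ r' : ℝ, r' = ‖y - x₀‖ := ⟨_, rfl⟩
  have hx := polar x₀ x
  have hy := polar x₀ y
  obtain ⟨α, hα⟩ : ∃ α : ℝ, α = (x - x₀).arg := ⟨_, rfl⟩
  obtain ⟨α', hα'⟩ : ∃ α' : ℝ, α' = (y - x₀).arg := ⟨_, rfl⟩
  rw [← hr, ← hα] at hx
  rw [← hr', ← hα'] at hy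
  have hr0 : 0 ≤ r := by rw [hr]; exact norm_nonneg _
  have hr0' : 0 ≤ r' := by rw [hr']; exact norm_nonneg _
  have hb : ∀ T : ℝ, gdist u x y ≤
      |P l T - P l r| + |α' - α| * (|T| * (2 * l / (1 + l ^ 2 * T ^ 2))) + |P l r' - P l T| := by
    intro T
    have h := via hl hu r r' α α' T
    rw [← hx, ← hy] at h
    exact ModONED.gdist_le hcu hC h
  have hP : ∀ s : ℝ, 0 ≤ s → 0 ≤ P l s ∧ P l s ≤ Real.pi := by
    intro s hs
    unfold P
    have h1 := Real.arctan_lt_pi_div_two (l * s)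
    have h2 : 0 ≤ Real.arctan (l * s) := Real.arctan_nonneg.2 (by positivity)
    constructor <;> linarith
  have hP0 : P l 0 = 0 := by unfold P; simp
  have l1 := hb 0
  rw [hP0] at l1
  have l2 : gdist u x y ≤ |Real.pi - P l r| + 0 + |P l r' - Real.pi| := by
    refine ge_of_tendsto (x := (atTop : Filter ℝ)) ?_ (Eventually.of_forall hb)
    exact ((((p_top hl).sub_const _).abs).add (width_lim hl _)).add (((p_top hl).const_sub _).abs)
  have b1 := hP r hr0
  have b2 := hP r' hr0'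
  rw [abs_of_nonneg (by linarith), abs_of_nonpos (by linarith)] at l2
  rw [zero_sub, abs_neg, abs_of_nonneg b1.1, sub_zero, abs_of_nonneg b2.1, abs_zero, zero_mul,
    mul_zero] at l1
  linarith

end

end ModRADD

open ModRADD in
theorem radd (_ : StmFS) (hL : StmLOW) (hC : StmCONN) : StmRADD := by
  intro u x₀ l hl hu
  have hcu := ucont hl hu
  have hsl : 0 < √l := Real.sqrt_pos.2 hl
  have hsl0 : ((√l : ℝ) : ℂ) ≠ 0 := by exact_mod_cast hsl.ne'
  have hsl2 : ((√l : ℝ) : ℂ) * ((√l : ℝ) : ℂ) = (l : ℂ) := by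
    rw [← Complex.ofReal_mul, Real.mul_self_sqrt hl.le]
  have hl0 : (l : ℂ) ≠ 0 := by exact_mod_cast hl.ne'
  have hd1 : ∀ z : ℂ, HasDerivAt (fun _ : ℂ => ((√l : ℝ) : ℂ)⁻¹) 0 z := fun z => hasDerivAt_const z _
  have hd2 : ∀ z : ℂ, HasDerivAt (fun z : ℂ => ((√l : ℝ) : ℂ) * (z - x₀)) ((√l : ℝ) : ℂ) z := by
    intro z
    simpa using ((hasDerivAt_id z).sub_const x₀).const_mul ((√l : ℝ) : ℂ)
  have hdev : Dev u (fun _ => ((√l : ℝ) : ℂ)⁻¹) (fun z => ((√l : ℝ) : ℂ) * (z - x₀)) := by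
    refine ⟨fun z => (hd1 z).differentiableAt, fun z => (hd2 z).differentiableAt, ?_, ?_⟩
    · intro z
      rw [(hd1 z).deriv, (hd2 z).deriv]
      field_simp
      ring
    · intro z
      rw [norm_mul, norm_inv, Complex.norm_real, Real.norm_eq_abs, abs_of_pos hsl, mul_pow,
        inv_pow, Real.sq_sqrt hl.le, Real.exp_neg, eu hl hu]
      field_simp
  have hlow : Real.pi ≤ gdist u (x₀ + (l : ℂ)⁻¹) (x₀ - (l : ℂ)⁻¹) := by
    refine ModONED.le_gdist hcu hC hL hdev ?_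
    simp only [map_mul, map_inv₀, Complex.conj_ofReal, add_sub_cancel_left, map_sub, map_add]
    have h1 : ((√l : ℝ) : ℂ)⁻¹ * ((√l : ℝ) : ℂ)⁻¹ = (l : ℂ)⁻¹ := by
      rw [← mul_inv, hsl2]
    rw [h1]
    have h2 : ((√l : ℝ) : ℂ) * (l : ℂ)⁻¹ * (((√l : ℝ) : ℂ) * (x₀ - (l : ℂ)⁻¹ - x₀)) =
        -((((√l : ℝ) : ℂ) * ((√l : ℝ) : ℂ)) * (l : ℂ)⁻¹ * (l : ℂ)⁻¹) := by ring
    rw [h2, hsl2]
    field_simp
    ring
  constructor
  · rintro r ⟨x, y, rfl⟩
    exact upper hl hu hC x y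
  · intro b hb
    refine le_trans hlow (hb ⟨_, _, rfl⟩)

end Pool.Agent.T6.H85.LV
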