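import Pool.Agent.T6.H85.LV.Stm

/-!
Project LV (helper85), MP_47dd70_an, module SEP (helper51): the image of two blocked rays
separates the images of the two sectors.
-/

set_option autoImplicit false

namespace Pool.Agent.T6.H85.LV

open Complex Filter Topology Set
open scoped ComplexConjugate

namespace ModSEP

variable {u : ℂ → ℝ} {y₁ y₂ : ℂ → ℂ} {x : ℂ} {D : Set ℂ} {h : ℂ → ℂ}

theorem y1_ne (hd : Dev u y₁ y₂) (hb : Branch y₁ y₂ x D h) {w : ℂ} (hw : w ∈ D) :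
    y₁ (h w) ≠ 0 := by
  intro h0
  have h1 := hb.2.2.2 w hw
  rw [h0, mul_zero] at h1
  have h2 := hd.wr (h w)
  rw [h0, h1] at h2
  simp at h2

theorem injOn (hd : Dev u y₁ y₂) (hb : Branch y₁ y₂ x D h) : InjOn h D := by
  intro w hw w' hw' he
  have h1 := hb.2.2.2 w hw
  have h2 := hb.2.2.2 w' hw'
  rw [← he] at h2
  have h3 : (w - w') * y₁ (h w) = 0 := by
    rw [sub_mul, ← h1, ← h2, sub_self]
  rcases mul_eq_zero.1 h3 with h4 | h4
  · exact sub_eq_zero.1 h4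
  · exact absurd h4 (y1_ne hd hb hw)

theorem preconn (hb : Branch y₁ y₂ x D h) : IsPreconnected D := by
  have h1 : StarConvex ℝ 0 D := by
    intro w hw a b ha hb' hab
    have h2 := hb.1.2.2 w hw b hb' (by linarith)
    rw [smul_zero, zero_add]
    rwa [Complex.real_smul]
  exact (h1.isPathConnected hb.1.2.1).isConnected.isPreconnected

theorem open_image (hd : Dev u y₁ y₂) (hb : Branch y₁ y₂ x D h) {s : Set ℂ} (hs : s ⊆ D)
    (hso : IsOpen s) : IsOpen (h '' s) := by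
  have han : AnalyticOnNhd ℂ h D := hb.2.1.analyticOnNhd hb.1.1
  rcases han.is_constant_or_isOpen (preconn hb) with ⟨c, hc⟩ | h1
  · exfalso
    -- two points of `D`
    obtain ⟨ε, hε, hεD⟩ := Metric.isOpen_iff.1 hb.1.1 0 hb.1.2.1
    have h2 : ((ε / 2 : ℝ) : ℂ) ∈ D := by
      apply hεD
      rw [mem_ball_zero_iff, Complex.norm_real, Real.norm_eq_abs, abs_of_pos (by linarith)]
      linarith
    have h3 := injOn hd hb h2 hb.1.2.1 (by rw [hc _ h2, hc _ hb.1.2.1])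
    have h4 : (ε / 2 : ℝ) = 0 := by exact_mod_cast h3
    linarith
  · exact h1 s hs hso

/-- the sector -/
def Sec (D : Set ℂ) (α β : ℝ) : Set ℂ :=
  {w | w ∈ D ∧ ∃ r θ : ℝ, 0 < r ∧ α < θ ∧ θ < β ∧ w = (r : ℂ) * exp (θ * I)}

theorem sec_eq (D : Set ℂ) (α β : ℝ) :
    Sec D α β = exp '' {ζ : ℂ | α < ζ.im ∧ ζ.im < β ∧ exp ζ ∈ D} := by
  ext w
  constructor
  · rintro ⟨hw, r, θ, hr, h1, h2, rfl⟩
    have h3 : exp ((Real.log r : ℂ) + θ * I) = (r : ℂ) * exp (θ * I) := by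
      rw [Complex.exp_add, ← Complex.ofReal_exp, Real.exp_log hr]
    refine ⟨(Real.log r : ℂ) + θ * I, ⟨?_, ?_, ?_⟩, h3⟩
    · simpa using h1
    · simpa using h2
    · rw [h3]
      exact hw
  · rintro ⟨ζ, ⟨h1, h2, h3⟩, rfl⟩
    refine ⟨h3, Real.exp ζ.re, ζ.im, Real.exp_pos _, h1, h2, ?_⟩
    rw [Complex.ofReal_exp, ← Complex.exp_add, Complex.re_add_im]

theorem sec_open (hD : IsOpen D) (α β : ℝ) : IsOpen (Sec D α β) := by
  rw [sec_eq]
  apply Complex.isOpenMap_exp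
  have h1 : {ζ : ℂ | α < ζ.im ∧ ζ.im < β ∧ exp ζ ∈ D} =
      ({ζ : ℂ | α < ζ.im} ∩ {ζ : ℂ | ζ.im < β}) ∩ exp ⁻¹' D := by
    ext ζ
    simp [and_assoc]
  rw [h1]
  exact ((isOpen_lt continuous_const Complex.continuous_im).inter
    (isOpen_lt Complex.continuous_im continuous_const)).inter (hD.preimage Complex.continuous_exp)

theorem sec_preconn (hD : StarSet D) (α β : ℝ) (hαβ : α < β) : IsPreconnected (Sec D α β) := by
  rw [sec_eq]
  refine IsPreconnected.image ?_ _ Complex.continuous_exp.continuousOn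
  obtain ⟨ε, hε, hεD⟩ := Metric.isOpen_iff.1 hD.1 0 hD.2.1
  set H : Set ℂ := {ζ : ℂ | ζ.re < Real.log ε ∧ α < ζ.im ∧ ζ.im < β} with hH
  have hHc : Convex ℝ H := by
    have h1 : H = {ζ : ℂ | ζ.re < Real.log ε} ∩ ({ζ : ℂ | α < ζ.im} ∩ {ζ : ℂ | ζ.im < β}) := by
      ext ζ
      simp [hH]
    rw [h1]
    exact (convex_halfSpace_re_lt _).inter ((convex_halfSpace_im_gt _).inter
      (convex_halfSpace_im_lt _))
  have hHs : H ⊆ {ζ : ℂ | α < ζ.im ∧ ζ.im < β ∧ exp ζ ∈ D} := by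
    rintro ζ ⟨h1, h2, h3⟩
    refine ⟨h2, h3, hεD ?_⟩
    rw [mem_ball_zero_iff, Complex.norm_exp]
    exact (Real.lt_log_iff_exp_lt hε).1 h1
  set x0 : ℂ := ⟨Real.log ε - 1, (α + β) / 2⟩ with hx0
  have hx0H : x0 ∈ H := by
    refine ⟨?_, ?_, ?_⟩
    · simp [hx0]
    · simp only [hx0]
      linarith
    · simp only [hx0]
      linarith
  refine isPreconnected_of_forall x0 ?_
  rintro y ⟨hy1, hy2, hy3⟩
  set L : Set ℂ := {ζ : ℂ | ζ.re ≤ y.re ∧ y.im ≤ ζ.im ∧ ζ.im ≤ y.im} with hL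
  have hLc : Convex ℝ L := by
    have h1 : L = {ζ : ℂ | ζ.re ≤ y.re} ∩ ({ζ : ℂ | y.im ≤ ζ.im} ∩ {ζ : ℂ | ζ.im ≤ y.im}) := by
      ext ζ
      simp [hL]
    rw [h1]
    exact (convex_halfSpace_re_le _).inter ((convex_halfSpace_im_ge _).inter
      (convex_halfSpace_im_le _))
  refine ⟨H ∪ L, union_subset hHs ?_, Or.inl hx0H, Or.inr ⟨le_rfl, le_rfl, le_rfl⟩, ?_⟩
  · rintro ζ ⟨h1, h2, h3⟩
    have h4 : ζ.im = y.im := le_antisymm h3 h2
    refine ⟨by rw [h4]; exact hy1, by rw [h4]; exact hy2, ?_⟩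
    have h5 : exp ζ = ((Real.exp (ζ.re - y.re) : ℝ) : ℂ) * exp y := by
      rw [Complex.ofReal_exp, ← Complex.exp_add]
      congr 1
      apply Complex.ext
      · simp
      · simp [h4]
    rw [h5]
    exact hD.2.2 _ hy3 _ (Real.exp_pos _).le (Real.exp_le_one_iff.2 (by linarith))
  · refine IsPreconnected.union' ?_ hHc.isPreconnected hLc.isPreconnected
    refine ⟨⟨min y.re (Real.log ε - 1), y.im⟩, ⟨?_, hy1, hy2⟩, ?_, le_rfl, le_rfl⟩
    · show min y.re (Real.log ε - 1) < Real.log ε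
      exact (min_le_right _ _).trans_lt (by linarith)
    · exact min_le_left _ _

/-- comparison of polar coordinates -/
theorem polar {r r' θ θ' : ℝ} (hr : 0 < r) (hr' : 0 ≤ r')
    (he : (r : ℂ) * exp (θ * I) = (r' : ℂ) * exp (θ' * I)) (h1 : |θ - θ'| < 2 * Real.pi) :
    r = r' ∧ θ = θ' := by
  have h2 : r = r' := by
    have h3 := congrArg norm he
    rw [norm_mul, norm_mul, Complex.norm_exp_ofReal_mul_I, Complex.norm_exp_ofReal_mul_I,
      Complex.norm_real, Complex.norm_real, Real.norm_of_nonneg hr.le,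
      Real.norm_of_nonneg hr'] at h3
    linarith
  refine ⟨h2, ?_⟩
  subst h2
  have h3 : (r : ℂ) ≠ 0 := by exact_mod_cast hr.ne'
  have h4 := mul_left_cancel₀ h3 he
  obtain ⟨n, hn⟩ := Complex.exp_eq_exp_iff_exists_int.1 h4
  have h5 : θ = θ' + n * (2 * Real.pi) := by
    have h6 := congrArg Complex.im hn
    simpa using h6
  have h6 : |(n : ℝ)| < 1 := by
    have h7 : θ - θ' = n * (2 * Real.pi) := by linarith
    rw [h7, abs_mul, abs_of_pos Real.two_pi_pos] at h1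
    by_contra h8
    push Not at h8
    nlinarith [Real.two_pi_pos]
  have h7 : |n| < 1 := by exact_mod_cast h6
  rw [Int.abs_lt_one_iff] at h7
  rw [h7] at h5
  simpa using h5

/-- the radii of the points of a blocked ray in `D` -/
theorem blk_lt (hD : StarSet D) {v : ℂ} {R r : ℝ} (hB : Blk D v R) (hr0 : 0 ≤ r)
    (hr : (r : ℂ) * v ∈ D) : r < R := by
  by_contra h1
  push Not at h1
  have hr1 : 0 < r := hB.1.trans_le h1
  apply hB.2.2
  have h2 := hD.2.2 _ hr (R / r) (div_nonneg hB.1.le hr1.le) ((div_le_one hr1).2 h1)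
  have h3 : ((R / r : ℝ) : ℂ) * ((r : ℂ) * v) = (R : ℂ) * v := by
    have h4 : (r : ℂ) ≠ 0 := by exact_mod_cast hr1.ne'
    push_cast
    field_simp
  rwa [h3] at h2

/-- the image of a blocked ray is closed -/
theorem closed_ray (hd : Dev u y₁ y₂) (hb : Branch y₁ y₂ x D h) {v : ℂ} {R : ℝ}
    (hB : Blk D v R) (ht : Tendsto (fun r : ℝ => ‖h ((r : ℂ) * v)‖) (𝓝[<] R) atTop) :
    IsClosed (h '' {w | ∃ r : ℝ, 0 ≤ r ∧ r < R ∧ w = (r : ℂ) * v}) := by
  refine isClosed_of_closure_subset ?_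
  intro z hz
  have hev : ∀ᶠ r : ℝ in 𝓝[<] R, ‖z‖ + 1 < ‖h ((r : ℂ) * v)‖ := ht.eventually_gt_atTop _
  rw [eventually_iff, mem_nhdsLT_iff_exists_Ioo_subset] at hev
  obtain ⟨ρ, hρ, hρs⟩ := hev
  have hρ' : ρ < R := hρ
  set K : Set ℂ := (fun r : ℝ => h ((r : ℂ) * v)) '' Icc 0 (max ρ 0) with hK
  have hmR : max ρ 0 < R := max_lt hρ' hB.1
  have hKc : IsCompact K := by
    refine isCompact_Icc.image_of_continuousOn ?_
    have h1 : ContinuousOn h D := hb.2.1.continuousOn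
    refine h1.comp (by fun_prop) ?_
    rintro r ⟨h2, h3⟩
    exact hB.2.1 r h2 (h3.trans_lt hmR)
  have h1 : (h '' {w | ∃ r : ℝ, 0 ≤ r ∧ r < R ∧ w = (r : ℂ) * v}) ∩ Metric.ball z 1 ⊆ K := by
    rintro _ ⟨⟨w, ⟨r, hr0, hr, rfl⟩, rfl⟩, hzb⟩
    refine ⟨r, ⟨hr0, ?_⟩, rfl⟩
    by_contra h2
    push Not at h2
    have h3 : r ∈ Ioo ρ R := ⟨(le_max_left _ _).trans_lt h2, hr⟩
    have h4 := hρs h3
    simp only [mem_setOf_eq] at h4
    rw [mem_ball_iff_norm] at hzb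
    have h5 : ‖h ((r : ℂ) * v)‖ ≤ ‖h ((r : ℂ) * v) - z‖ + ‖z‖ := by
      have := norm_add_le (h ((r : ℂ) * v) - z) z
      simpa using this
    linarith
  have h2 : z ∈ closure ((h '' {w | ∃ r : ℝ, 0 ≤ r ∧ r < R ∧ w = (r : ℂ) * v}) ∩
      Metric.ball z 1) := by
    rw [inter_comm]
    exact Metric.isOpen_ball.inter_closure ⟨Metric.mem_ball_self one_pos, hz⟩
  have h3 : z ∈ K := hKc.isClosed.closure_subset_iff.2 h1 h2
  obtain ⟨r, ⟨hr0, hr1⟩, hr2⟩ := h3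
  exact ⟨(r : ℂ) * v, ⟨r, hr0, hr1.trans_lt hmR, rfl⟩, hr2⟩

/-- the centre is in the closure of a sector -/
theorem zero_mem_closure (hD : StarSet D) {α β : ℝ} (hαβ : α < β) :
    (0 : ℂ) ∈ closure (Sec D α β) := by
  obtain ⟨ε, hε, hεD⟩ := Metric.isOpen_iff.1 hD.1 0 hD.2.1
  have h1 : Tendsto (fun r : ℝ => (r : ℂ) * exp (((α + β) / 2 : ℝ) * I)) (𝓝[>] 0) (𝓝 0) := by
    have h2 : Continuous (fun r : ℝ => (r : ℂ) * exp (((α + β) / 2 : ℝ) * I)) := by fun_prop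
    have h3 := h2.tendsto 0
    simp only [ofReal_zero, zero_mul] at h3
    exact h3.mono_left nhdsWithin_le_nhds
  refine mem_closure_of_tendsto h1 ?_
  have h2 : ∀ᶠ r : ℝ in 𝓝[>] 0, r ∈ Ioo 0 ε := Ioo_mem_nhdsGT hε
  filter_upwards [h2] with r hr
  refine ⟨hεD ?_, r, (α + β) / 2, hr.1, by linarith, by linarith, rfl⟩
  rw [mem_ball_zero_iff, norm_mul, Complex.norm_exp_ofReal_mul_I, mul_one, Complex.norm_real,
    Real.norm_of_nonneg hr.1.le]
  exact hr.2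

end ModSEP

open ModSEP in
theorem sep (hB : StmBLK) (h0 : StmSEP0) : StmSEP := by
  intro u y₁ y₂ hd x D h hstar θ₁ θ₂ R₁ R₂ h12 h21 hB1 hB2
  have hb := hstar.1
  have hD := hb.1
  have hv1 : exp (θ₁ * I) ≠ 0 := Complex.exp_ne_zero _
  have hv2 : exp (θ₂ * I) ≠ 0 := Complex.exp_ne_zero _
  have ht1 := hB u y₁ y₂ hd x D h hstar _ R₁ hv1 hB1
  have ht2 := hB u y₁ y₂ hd x D h hstar _ R₂ hv2 hB2
  set Γ : Set ℂ := {w | ∃ r : ℝ, 0 ≤ r ∧
        (r < R₁ ∧ w = (r : ℂ) * exp (θ₁ * I) ∨ r < R₂ ∧ w = (r : ℂ) * exp (θ₂ * I))} with hΓ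
  set G : Set ℂ := h '' Γ with hG
  set S1 := Sec D θ₁ θ₂ with hS1
  set S2 := Sec D θ₂ (θ₁ + 2 * Real.pi) with hS2
  have hΓD : Γ ⊆ D := by
    rintro w ⟨r, hr0, (⟨hr, rfl⟩ | ⟨hr, rfl⟩)⟩
    · exact hB1.2.1 r hr0 hr
    · exact hB2.2.1 r hr0 hr
  have hS1D : S1 ⊆ D := fun w hw => hw.1
  have hS2D : S2 ⊆ D := fun w hw => hw.1
  have hinj := injOn hd hb
  have hGc : IsClosed G := by
    have h1 : G = h '' {w | ∃ r : ℝ, 0 ≤ r ∧ r < R₁ ∧ w = (r : ℂ) * exp (θ₁ * I)} ∪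
        h '' {w | ∃ r : ℝ, 0 ≤ r ∧ r < R₂ ∧ w = (r : ℂ) * exp (θ₂ * I)} := by
      rw [← image_union, hG]
      congr 1
      ext w
      constructor
      · rintro ⟨r, hr0, (⟨hr, hw⟩ | ⟨hr, hw⟩)⟩
        · exact Or.inl ⟨r, hr0, hr, hw⟩
        · exact Or.inr ⟨r, hr0, hr, hw⟩
      · rintro (⟨r, hr0, hr, hw⟩ | ⟨r, hr0, hr, hw⟩)
        · exact ⟨r, hr0, Or.inl ⟨hr, hw⟩⟩
        · exact ⟨r, hr0, Or.inr ⟨hr, hw⟩⟩
    rw [h1]
    exact (closed_ray hd hb hB1 ht1).union (closed_ray hd hb hB2 ht2)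
  have hU : IsOpen (h '' S1) := open_image hd hb hS1D (sec_open hD.1 _ _)
  have hV : IsOpen (h '' S2) := open_image hd hb hS2D (sec_open hD.1 _ _)
  have hUV : Disjoint (h '' S1) (h '' S2) := by
    rw [Set.disjoint_left]
    rintro _ ⟨w, hw, rfl⟩ ⟨w', hw', he⟩
    have h1 := hinj (hS2D hw') (hS1D hw) he
    obtain ⟨-, r, θ, hr, ha, hb', hw1⟩ := hw
    obtain ⟨-, r', θ', hr', ha', hb'', hw1'⟩ := hw'
    have h2 := polar hr hr'.le (hw1.symm.trans (h1.symm.trans hw1')) (by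
      rw [abs_lt]
      constructor <;> linarith)
    linarith [h2.2]
  have hGU : Disjoint G (h '' S1) := by
    rw [Set.disjoint_left]
    rintro _ ⟨w', hw', rfl⟩ ⟨w, hw, he⟩
    have h1 := hinj (hS1D hw) (hΓD hw') he
    obtain ⟨-, r, θ, hr, ha, hb', hw1⟩ := hw
    obtain ⟨r', hr', (⟨-, hw1'⟩ | ⟨-, hw1'⟩)⟩ := hw'
    · have h2 := polar hr hr' (hw1.symm.trans (h1.trans hw1')) (by
        rw [abs_lt]
        constructor <;> linarith)
      linarith [h2.2]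
    · have h2 := polar hr hr' (hw1.symm.trans (h1.trans hw1')) (by
        rw [abs_lt]
        constructor <;> linarith)
      linarith [h2.2]
  have hGV : Disjoint G (h '' S2) := by
    rw [Set.disjoint_left]
    rintro _ ⟨w', hw', rfl⟩ ⟨w, hw, he⟩
    have h1 := hinj (hS2D hw) (hΓD hw') he
    obtain ⟨-, r, θ, hr, ha, hb', hw1⟩ := hw
    obtain ⟨r', hr', (⟨-, hw1'⟩ | ⟨-, hw1'⟩)⟩ := hw'
    · have h2 := polar hr hr' (hw1.symm.trans (h1.trans hw1')) (by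
        rw [abs_lt]
        constructor <;> linarith)
      linarith [h2.2]
    · have h2 := polar hr hr' (hw1.symm.trans (h1.trans hw1')) (by
        rw [abs_lt]
        constructor <;> linarith)
      linarith [h2.2]
  have hUc : IsPreconnected (h '' S1) :=
    (sec_preconn hD _ _ h12).image _ (hb.2.1.continuousOn.mono hS1D)
  have hVc : IsPreconnected (h '' S2) :=
    (sec_preconn hD _ _ h21).image _ (hb.2.1.continuousOn.mono hS2D)
  have hcov : D ⊆ Γ ∪ S1 ∪ S2 := by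
    intro w hw
    set θ : ℝ := toIcoMod Real.two_pi_pos θ₁ w.arg with hθ
    have hθm := toIcoMod_mem_Ico Real.two_pi_pos θ₁ w.arg
    rw [← hθ] at hθm
    have hwθ : w = (‖w‖ : ℂ) * exp (θ * I) := by
      have h1 : exp (θ * I) = exp (w.arg * I) := by
        rw [Complex.exp_eq_exp_iff_exists_int]
        refine ⟨-toIcoDiv Real.two_pi_pos θ₁ w.arg, ?_⟩
        have h2 : θ = w.arg - toIcoDiv Real.two_pi_pos θ₁ w.arg • (2 * Real.pi) := rfl
        rw [h2]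
        push_cast
        simp only [zsmul_eq_mul]
        push_cast
        ring
      rw [h1, Complex.norm_mul_exp_arg_mul_I]
    by_cases hw0 : w = 0
    · refine Or.inl (Or.inl ⟨0, le_rfl, Or.inl ⟨hB1.1, ?_⟩⟩)
      rw [hw0]
      simp
    have hr : 0 < ‖w‖ := norm_pos_iff.2 hw0
    rcases eq_or_lt_of_le hθm.1 with h1 | h1
    · refine Or.inl (Or.inl ⟨‖w‖, hr.le, Or.inl ⟨?_, ?_⟩⟩)
      · refine blk_lt hD hB1 hr.le ?_
        rw [h1, ← hwθ]
        exact hw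
      · rw [h1]
        exact hwθ
    · rcases lt_trichotomy θ θ₂ with h2 | h2 | h2
      · exact Or.inl (Or.inr ⟨hw, ‖w‖, θ, hr, h1, h2, hwθ⟩)
      · refine Or.inl (Or.inl ⟨‖w‖, hr.le, Or.inr ⟨?_, ?_⟩⟩)
        · refine blk_lt hD hB2 hr.le ?_
          rw [← h2, ← hwθ]
          exact hw
        · rw [← h2]
          exact hwθ
      · exact Or.inr ⟨hw, ‖w‖, θ, hr, h2, hθm.2, hwθ⟩
  have hΩ : IsOpen (G ∪ h '' S1 ∪ h '' S2) := by
    have h1 : G ∪ h '' S1 ∪ h '' S2 = h '' D := by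
      rw [hG, ← image_union, ← image_union]
      refine congrArg (fun s => h '' s) (subset_antisymm ?_ hcov)
      exact union_subset (union_subset hΓD hS1D) hS2D
    rw [h1]
    exact open_image hd hb subset_rfl hD.1
  have hcont : ContinuousAt h 0 := (hb.2.1.continuousOn.continuousAt (hD.1.mem_nhds hD.2.1))
  obtain ⟨A, B, hA, hBo, hAB, hABG, hUA, hVB⟩ := h0 G (h '' S1) (h '' S2) hGc hU hV hUV hGU hGV
    hUc hVc hΩ ⟨h 0, ⟨0, ⟨0, le_rfl, Or.inl ⟨hB1.1, by simp⟩⟩, rfl⟩,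
      hcont.continuousWithinAt.mem_closure_image (zero_mem_closure hD h12),
      hcont.continuousWithinAt.mem_closure_image (zero_mem_closure hD h21)⟩
  refine ⟨A, B, hA, hBo, hAB, hABG, ?_, ?_⟩
  · intro r θ hr ha hb' hm
    exact hUA ⟨_, ⟨hm, r, θ, hr, ha, hb', rfl⟩, rfl⟩
  · intro r θ hr ha hb' hm
    exact hVB ⟨_, ⟨hm, r, θ, hr, ha, hb', rfl⟩, rfl⟩

end Pool.Agent.T6.H85.LV
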