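import Pool.Agent.T6.H85.LV.LI

/-!
# Existence of the maximal star-shaped branch (helper94, module STAR)
-/

set_option autoImplicit false

namespace Pool.Agent.T6.H85.LV

open Complex Filter Topology Set Metric

namespace STAR

theorem starSet_ball {δ : ℝ} (hδ : 0 < δ) : StarSet (ball 0 δ) := by
  refine ⟨isOpen_ball, mem_ball_self hδ, ?_⟩
  intro w hw t h0 h1
  rw [mem_ball_zero_iff] at hw ⊢
  rw [norm_mul, Complex.norm_real, Real.norm_eq_abs, abs_of_nonneg h0]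
  nlinarith [norm_nonneg w]

variable {u : ℂ → ℝ} {y₁ y₂ : ℂ → ℂ}

theorem exists_branch (hD : Dev u y₁ y₂) {x : ℂ} (hx : y₂ x = 0) :
    ∃ (D : Set ℂ) (h : ℂ → ℂ), Branch y₁ y₂ x D h := by
  obtain ⟨N, hN, hz, hinj, δ, hδ, g, hg, hg0, hgw⟩ := LI.local_F hD (z₀ := x) (w₀ := 0)
    (by rw [hx, zero_mul])
  exact ⟨ball 0 δ, g, starSet_ball hδ, hg, hg0, fun w hw => (hgw w hw).2⟩

/-- two branches agree where both are defined -/
theorem branch_eq (hD : Dev u y₁ y₂) {x : ℂ} {D D' : Set ℂ} {h h' : ℂ → ℂ}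
    (hb : Branch y₁ y₂ x D h) (hb' : Branch y₁ y₂ x D' h') {w : ℂ} (hw : w ∈ D) (hw' : w ∈ D') :
    h w = h' w := by
  obtain ⟨hs, hd, h0, he⟩ := hb
  obtain ⟨hs', hd', h0', he'⟩ := hb'
  have hpc : IsPreconnected (segment ℝ 0 w) := (convex_segment 0 w).isPreconnected
  have hsub : ∀ z ∈ segment ℝ 0 w, ∃ t : ℝ, 0 ≤ t ∧ t ≤ 1 ∧ z = (t : ℂ) * w := by
    intro z hz
    rw [segment_eq_image ℝ 0 w] at hz
    obtain ⟨t, ht, rfl⟩ := hz
    exact ⟨t, ht.1, ht.2, by simp⟩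
  have h1 : segment ℝ 0 w ⊆ D := fun z hz => by
    obtain ⟨t, a, b, rfl⟩ := hsub z hz
    exact hs.2.2 w hw t a b
  have h2 : segment ℝ 0 w ⊆ D' := fun z hz => by
    obtain ⟨t, a, b, rfl⟩ := hsub z hz
    exact hs'.2.2 w hw' t a b
  exact LI.branch_uniq hD hpc (hd.continuousOn.mono h1) (hd'.continuousOn.mono h2)
    (fun z hz => he z (h1 hz)) (fun z hz => he' z (h2 hz)) (left_mem_segment ℝ 0 w)
    (by rw [h0, h0']) w (right_mem_segment ℝ 0 w)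

end STAR

open STAR in
theorem star : StmSTAR := by
  classical
  intro u y₁ y₂ hD x hx
  let P : ℂ → Set ℂ × (ℂ → ℂ) → Prop := fun w p => Branch y₁ y₂ x p.1 p.2 ∧ w ∈ p.1
  let D : Set ℂ := {w | ∃ p, P w p}
  let h : ℂ → ℂ := fun w => if H : ∃ p, P w p then (Classical.choose H).2 w else 0
  have key : ∀ (D' : Set ℂ) (h' : ℂ → ℂ), Branch y₁ y₂ x D' h' → D' ⊆ D ∧ ∀ w ∈ D', h' w = h w := by
    intro D' h' hb
    have h1 : D' ⊆ D := fun w hw => ⟨(D', h'), hb, hw⟩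
    refine ⟨h1, fun w hw => ?_⟩
    have H : ∃ p, P w p := h1 hw
    have h2 := Classical.choose_spec H
    have h3 : h w = (Classical.choose H).2 w := dif_pos H
    rw [h3]
    exact branch_eq hD hb h2.1 hw h2.2
  refine ⟨D, h, ⟨⟨?_, ?_, ?_⟩, ?_, ?_, ?_⟩, key⟩
  · refine isOpen_iff_mem_nhds.2 ?_
    rintro w ⟨p, hp, hw⟩
    exact mem_of_superset (hp.1.1.mem_nhds hw) fun w' hw' => ⟨p, hp, hw'⟩
  · obtain ⟨D', h', hb⟩ := exists_branch hD hx
    exact ⟨(D', h'), hb, hb.1.2.1⟩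
  · rintro w ⟨p, hp, hw⟩ t h0 h1
    exact ⟨p, hp, hp.1.2.2 w hw t h0 h1⟩
  · rintro w ⟨p, hp, hw⟩
    have h1 := (key p.1 p.2 hp).2
    have h2 : DifferentiableAt ℂ p.2 w := (hp.2.1 w hw).differentiableAt (hp.1.1.mem_nhds hw)
    have h3 : p.2 =ᶠ[𝓝 w] h := by
      filter_upwards [hp.1.1.mem_nhds hw] with w' hw' using h1 w' hw'
    exact (h2.congr_of_eventuallyEq h3.symm).differentiableWithinAt
  · obtain ⟨D', h', hb⟩ := exists_branch hD hx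
    rw [← (key D' h' hb).2 0 hb.1.2.1]
    exact hb.2.2.1
  · rintro w ⟨p, hp, hw⟩
    rw [← (key p.1 p.2 hp).2 w hw]
    exact hp.2.2.2 w hw

end Pool.Agent.T6.H85.LV
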