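import Pool.Agent.T6.H85.LV.T43

/-!
Project LV (helper85), MP_47dd70_an: module TRANS (helper43), change of centre.
-/

set_option autoImplicit false

namespace Pool.Agent.T6.H85.LV

open T43 in
theorem trans : StmTRANS := by
  intro y₁ y₂ x D h w' D' h' hst hw hst' ω hω
  have hb := branch_trans y₁ y₂ hst.1.1.1 hst.1.2.1 hst.1.2.2.2 hw
  obtain ⟨h1, h2⟩ := hst'.2 _ _ hb
  exact ⟨h1 hω, (h2 ω hω).symm⟩

end Pool.Agent.T6.H85.LV
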