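import Pool.Agent.T6.H85.LV.Stm

/-!
Project LV (helper85), MP_47dd70_an: assembly of the modules.
-/

set_option autoImplicit false

namespace Pool.Agent.T6.H85.LV.ASM

open Complex Filter Topology Set
open scoped ComplexConjugate

theorem devEx (h1 : StmDEV1) (h2 : StmDEV2) (h3 : StmDEV3) (u : ℂ → ℝ) (hu : IsSol u) :
    ∃ y₁ y₂ : ℂ → ℂ, Dev u y₁ y₂ := by
  obtain ⟨y₁, y₂, d1, d2, o1, o2, w⟩ := h2 (sq u) (h1 u hu)
  exact h3 u y₁ y₂ hu d1 d2 o1 o2 w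

theorem ua_real (c : ℂ) : conj (ua c) = ua c := by
  unfold ua
  exact Complex.conj_ofReal _

theorem ua_ne (c : ℂ) : ua c ≠ 0 := by
  unfold ua
  have h : (0 : ℝ) < √(1 + ‖c‖ ^ 2) := Real.sqrt_pos.mpr (by positivity)
  exact_mod_cast (one_div_pos.mpr h).ne'

theorem ub_eq (c : ℂ) : ub c = ua c * c := rfl

theorem norm_ua (c : ℂ) : ‖ua c‖ ^ 2 = 1 / (1 + ‖c‖ ^ 2) := by
  unfold ua
  have h0 : (0 : ℝ) ≤ 1 + ‖c‖ ^ 2 := by positivity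
  rw [Complex.norm_real, Real.norm_eq_abs, sq_abs, div_pow, one_pow, Real.sq_sqrt h0]

theorem norm_ua_ub (c : ℂ) : ‖ua c‖ ^ 2 + ‖ub c‖ ^ 2 = 1 := by
  rw [ub_eq, norm_mul, mul_pow, norm_ua]
  have h0 : (0 : ℝ) < 1 + ‖c‖ ^ 2 := by positivity
  field_simp

theorem ua_ub_one (c : ℂ) : ua c * ua c + ub c * conj (ub c) = 1 := by
  have h := norm_ua_ub c
  have h1 : ua c * ua c = ((‖ua c‖ ^ 2 : ℝ) : ℂ) := by
    have := Complex.mul_conj (ua c)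
    rw [ua_real] at this
    rw [this, Complex.normSq_eq_norm_sq]
  have h2 : ub c * conj (ub c) = ((‖ub c‖ ^ 2 : ℝ) : ℂ) := by
    rw [Complex.mul_conj, Complex.normSq_eq_norm_sq]
  rw [h1, h2, ← Complex.ofReal_add, h, Complex.ofReal_one]

/-- the star of `h w'` for the rotated pair -/
theorem rotStar (hR : StmROT) (hS : StmSTAR) (u : ℂ → ℝ) (y₁ y₂ : ℂ → ℂ) (hd : Dev u y₁ y₂)
    (z w' : ℂ) (hz : y₂ z = w' * y₁ z) :
    Dev u (ro1 (ua w') (ub w') y₁ y₂) (ro2 (ua w') (ub w') y₁ y₂) ∧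
      ∃ (D' : Set ℂ) (h' : ℂ → ℂ),
        IsStar (ro1 (ua w') (ub w') y₁ y₂) (ro2 (ua w') (ub w') y₁ y₂) z D' h' := by
  have hD := hR u y₁ y₂ (ua w') (ub w') hd (norm_ua_ub w')
  refine ⟨hD, hS u _ _ hD z ?_⟩
  unfold ro2
  rw [hz, ub_eq]
  ring

theorem starAt (hR : StmROT) (hS : StmSTAR) (u : ℂ → ℝ) (y₁ y₂ : ℂ → ℂ) (hd : Dev u y₁ y₂)
    (x : ℂ) : ∃ Y₁ Y₂ : ℂ → ℂ, Dev u Y₁ Y₂ ∧ ∃ (D : Set ℂ) (h : ℂ → ℂ), IsStar Y₁ Y₂ x D h := by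
  set N : ℝ := √(‖y₁ x‖ ^ 2 + ‖y₂ x‖ ^ 2) with hN
  have hpos : 0 < ‖y₁ x‖ ^ 2 + ‖y₂ x‖ ^ 2 := by
    rw [hd.eq x]; positivity
  have hNp : 0 < N := Real.sqrt_pos.mpr hpos
  have hNs : N ^ 2 = ‖y₁ x‖ ^ 2 + ‖y₂ x‖ ^ 2 := Real.sq_sqrt hpos.le
  have hu : ‖y₁ x / N‖ ^ 2 + ‖y₂ x / N‖ ^ 2 = 1 := by
    rw [norm_div, norm_div, Complex.norm_real, Real.norm_eq_abs, div_pow, div_pow, sq_abs,
      ← add_div, ← hNs]
    exact div_self (by positivity)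
  have hD := hR u y₁ y₂ (y₁ x / N) (y₂ x / N) hd hu
  refine ⟨_, _, hD, hS u _ _ hD x ?_⟩
  unfold ro2
  ring

/-- with `PairProp` and one blocked direction, the star contains the complement of the line -/
theorem allDir (h0 : StmBLK0) (u : ℂ → ℝ) (hP : PairProp u) (y₁ y₂ : ℂ → ℂ)
    (hd : Dev u y₁ y₂) (x : ℂ) (D : Set ℂ) (h : ℂ → ℂ) (hs : IsStar y₁ y₂ x D h) (v : ℂ) (R : ℝ)
    (hv : ‖v‖ = 1) (hb : Blk D v R) (w : ℂ) (hw : ∀ r : ℝ, w ≠ (r : ℂ) * v) : w ∈ D := by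
  by_contra hc
  have hw0 : w ≠ 0 := by
    have := hw 0
    simpa using this
  have hn : (‖w‖ : ℂ) ≠ 0 := by exact_mod_cast norm_ne_zero_iff.mpr hw0
  have hv' : ‖w / (‖w‖ : ℂ)‖ = 1 := by
    rw [norm_div, Complex.norm_real, norm_norm]
    exact div_self (norm_ne_zero_iff.mpr hw0)
  have hc' : ((‖w‖ : ℝ) : ℂ) * (w / (‖w‖ : ℂ)) ∉ D := by
    rwa [mul_div_cancel₀ _ hn]
  obtain ⟨R', hR', -⟩ := h0 D hs.1.1 (w / (‖w‖ : ℂ)) ‖w‖ (norm_nonneg w) hc'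
  rcases hP y₁ y₂ hd x D h hs v (w / (‖w‖ : ℂ)) R R' hv hv' hb hR' with e | e
  · apply hw ‖w‖
    rw [e, mul_div_cancel₀ _ hn]
  · apply hw (-‖w‖)
    rw [e]
    push_cast
    rw [neg_mul_neg, mul_div_cancel₀ _ hn]

/-- the case of two opposite blocked directions -/
theorem chain (hR : StmROT) (hS : StmSTAR) (h0 : StmBLK0) (hA : StmANT) (hC2S : StmC2S)
    (hC2B : StmC2B) (hC2C : StmC2C) (hC2D : StmC2D) (hC2E : StmC2E) (u : ℂ → ℝ)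
    (hP : PairProp u) (y₁ y₂ : ℂ → ℂ) (hd : Dev u y₁ y₂) (x : ℂ) (D : Set ℂ) (h : ℂ → ℂ)
    (hs : IsStar y₁ y₂ x D h) (v : ℂ) (R₁ R₂ : ℝ) (hv : ‖v‖ = 1) (hb₁ : Blk D v R₁)
    (hb₂ : Blk D (-v) R₂) : IsOneDim u := by
  have hRR := hA u y₁ y₂ hd hP x D h hs v R₁ R₂ hv hb₁ hb₂
  have hR1 : 0 < R₁ := hb₁.1
  have hR2 : R₂ = 1 / R₁ := by field_simp; linarith [hRR, mul_comm R₁ R₂]
  have hvne : v ≠ 0 := by
    intro e; rw [e, norm_zero] at hv; exact zero_ne_one hv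
  have hR1c : (R₁ : ℂ) ≠ 0 := by exact_mod_cast hR1.ne'
  set s₁ : ℂ := v / R₁ with hs1
  have hs1ne : s₁ ≠ 0 := div_ne_zero hvne hR1c
  set ζ₁ : ℂ := Complex.log s₁ with hζ
  have hexp : exp ζ₁ = s₁ := Complex.exp_log hs1ne
  have hnorm : ‖s₁‖ = 1 / R₁ := by
    rw [hs1, norm_div, hv, Complex.norm_real, Real.norm_eq_abs, abs_of_pos hR1]
  have hre : Real.exp ζ₁.re = 1 / R₁ := by
    rw [← Complex.norm_exp, hexp, hnorm]
  have hre' : Real.exp (-ζ₁.re) = R₁ := by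
    rw [Real.exp_neg, hre, one_div, inv_inv]
  have him : exp (ζ₁.im * I) = v := by
    have h1 : exp ζ₁ = exp (ζ₁.re : ℂ) * exp (ζ₁.im * I) := by
      rw [← Complex.exp_add, Complex.re_add_im]
    rw [hexp, ← Complex.ofReal_exp, hre] at h1
    rw [hs1] at h1
    have h2 : v = R₁ * (v / R₁) := by field_simp
    rw [h2, h1]
    push_cast
    field_simp
  -- the inverse rotation
  set Z₁ : ℂ → ℂ := ro1 (ua s₁) (-ub s₁) y₁ y₂ with hZ1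
  set Z₂ : ℂ → ℂ := ro2 (ua s₁) (-ub s₁) y₁ y₂ with hZ2
  have hZ : Dev u Z₁ Z₂ := by
    apply hR u y₁ y₂ (ua s₁) (-ub s₁) hd
    rw [norm_neg]; exact norm_ua_ub s₁
  have e1 : ro1 (ua s₁) (ub s₁) Z₁ Z₂ = y₁ := by
    funext z
    have h1 := ua_ub_one s₁
    simp only [ro1, ro2, hZ1, hZ2, ua_real, map_neg]
    linear_combination (y₁ z) * h1
  have e2 : ro2 (ua s₁) (ub s₁) Z₁ Z₂ = y₂ := by
    funext z
    have h1 := ua_ub_one s₁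
    simp only [ro1, ro2, hZ1, hZ2, ua_real, map_neg]
    linear_combination (y₂ z) * h1
  have hstrip : ∃ k : ℂ → ℂ, Strip Z₁ Z₂ x ζ₁ k := by
    apply hC2S u Z₁ Z₂ hZ x ζ₁ D h
    · rw [hexp, e1, e2]; exact hs
    · rw [him, hre']; exact hb₁
    · rw [him, hre, ← hR2]; exact hb₂
    · intro w hw
      rw [him] at hw
      exact allDir h0 u hP y₁ y₂ hd x D h hs v R₁ hv hb₁ w hw
  have hstep : StepProp Z₁ Z₂ := by
    intro z ζ₀ k hk ζ₂ hζ₂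
    obtain ⟨hdev, D', h', hs'⟩ := rotStar hR hS u Z₁ Z₂ hZ (k ζ₂) (exp ζ₂) (hk.2.2.1 ζ₂ hζ₂)
    obtain ⟨b1, b2⟩ := hC2B u Z₁ Z₂ hZ z ζ₀ k hk ζ₂ hζ₂ D' h' hs'
    apply hC2S u Z₁ Z₂ hZ (k ζ₂) ζ₂ D' h' hs' b1 b2
    intro w hw
    exact allDir h0 u hP _ _ hdev (k ζ₂) D' h' hs' _ _ (Complex.norm_exp_ofReal_mul_I _) b1 w hw
  obtain ⟨k, hk⟩ := hstrip
  obtain ⟨K, hK, hK2, hK3⟩ := hC2C u Z₁ Z₂ hZ hstep x ζ₁ k hk
  have hsurj := hC2D u Z₁ Z₂ hZ K hK hK2 hK3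
  exact hC2E u Z₁ Z₂ hZ K hK hsurj hK2

/-- `D` from its only blocked direction -/
theorem domain_eq (h0 : StmBLK0) (u : ℂ → ℝ) (hP : PairProp u) (y₁ y₂ : ℂ → ℂ)
    (hd : Dev u y₁ y₂) (x : ℂ) (D : Set ℂ) (h : ℂ → ℂ) (hs : IsStar y₁ y₂ x D h) (v : ℂ) (R : ℝ)
    (hv : ‖v‖ = 1) (hb : Blk D v R) (hno : ∀ R', ¬ Blk D (-v) R') :
    D = {w | ∀ r : ℝ, R ≤ r → w ≠ (r : ℂ) * v} := by
  have hst : StarSet D := hs.1.1
  ext w
  constructor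
  · intro hw r hr e
    have hrpos : 0 < r := lt_of_lt_of_le hb.1 hr
    apply hb.2.2
    have := hst.2.2 w hw (R / r) (div_nonneg hb.1.le hrpos.le) ((div_le_one hrpos).mpr hr)
    rw [e] at this
    have hrc : (r : ℂ) ≠ 0 := by exact_mod_cast hrpos.ne'
    have e2 : ((R / r : ℝ) : ℂ) * ((r : ℂ) * v) = (R : ℂ) * v := by
      push_cast; field_simp
    rwa [e2] at this
  · intro hw
    by_cases hl : ∀ r : ℝ, w ≠ (r : ℂ) * v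
    · exact allDir h0 u hP y₁ y₂ hd x D h hs v R hv hb w hl
    · push_neg at hl
      obtain ⟨r, hr⟩ := hl
      by_cases hr0 : 0 ≤ r
      · have : r < R := by
          by_contra hc
          exact hw r (not_lt.mp hc) hr
        rw [hr]
        exact hb.2.1 r hr0 this
      · by_contra hc
        have hc' : ((-r : ℝ) : ℂ) * (-v) ∉ D := by
          push_cast
          rw [neg_mul_neg, ← hr]
          exact hc
        obtain ⟨R', hR', -⟩ := h0 D hst (-v) (-r) (by linarith) hc'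
        exact hno R' hR'

theorem forward (h1 : StmDEV1) (h2 : StmDEV2) (h3 : StmDEV3) (hR : StmROT) (hS : StmSTAR)
    (h0 : StmBLK0) (hPA : StmPAIR) (hL : StmLOC) (hA : StmANT) (hC0 : StmC0) (hC1 : StmC1)
    (hC2S : StmC2S) (hC2B : StmC2B) (hC2C : StmC2C) (hC2D : StmC2D) (hC2E : StmC2E)
    (u : ℂ → ℝ) (hu : IsSol u) (hg : ∀ x y, gdist u x y ≤ Real.pi) : IsRadial u ∨ IsOneDim u := by
  obtain ⟨a₁, a₂, hda⟩ := devEx h1 h2 h3 u hu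
  obtain ⟨y₁, y₂, hd, D, h, hs⟩ := starAt hR hS u a₁ a₂ hda 0
  have hP : PairProp u := hPA u hu.1.continuous hg
  by_cases hopp : ∃ (y₁ y₂ : ℂ → ℂ) (x : ℂ) (D : Set ℂ) (h : ℂ → ℂ) (v : ℂ) (R₁ R₂ : ℝ),
      Dev u y₁ y₂ ∧ IsStar y₁ y₂ x D h ∧ ‖v‖ = 1 ∧ Blk D v R₁ ∧ Blk D (-v) R₂
  · obtain ⟨y₁, y₂, x, D, h, v, R₁, R₂, hd, hs, hv, hb1, hb2⟩ := hopp
    exact Or.inr (chain hR hS h0 hA hC2S hC2B hC2C hC2D hC2E u hP y₁ y₂ hd x D h hs v R₁ R₂ hv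
      hb1 hb2)
  left
  have hno : ∀ (y₁ y₂ : ℂ → ℂ) (x : ℂ) (D : Set ℂ) (h : ℂ → ℂ) (v : ℂ) (R₁ : ℝ),
      Dev u y₁ y₂ → IsStar y₁ y₂ x D h → ‖v‖ = 1 → Blk D v R₁ → ∀ R₂, ¬ Blk D (-v) R₂ := by
    intro y₁ y₂ x D h v R₁ hd hs hv hb1 R₂ hb2
    exact hopp ⟨y₁, y₂, x, D, h, v, R₁, R₂, hd, hs, hv, hb1, hb2⟩
  by_cases huniv : D = univ
  · subst huniv
    exact hC0 u y₁ y₂ hd 0 h hs
  obtain ⟨w, hw⟩ : ∃ w, w ∉ D := by
    by_contra hc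
    push_neg at hc
    exact huniv (eq_univ_of_forall hc)
  have hw0 : w ≠ 0 := by
    rintro rfl
    exact hw hs.1.1.2.1
  have hn : (‖w‖ : ℂ) ≠ 0 := by exact_mod_cast norm_ne_zero_iff.mpr hw0
  set v : ℂ := w / (‖w‖ : ℂ) with hvdef
  have hv : ‖v‖ = 1 := by
    rw [hvdef, norm_div, Complex.norm_real, norm_norm]
    exact div_self (norm_ne_zero_iff.mpr hw0)
  have hvne : v ≠ 0 := by
    intro e; rw [e, norm_zero] at hv; exact zero_ne_one hv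
  have hc' : ((‖w‖ : ℝ) : ℂ) * v ∉ D := by
    rwa [hvdef, mul_div_cancel₀ _ hn]
  obtain ⟨R, hb, -⟩ := h0 D hs.1.1 v ‖w‖ (norm_nonneg w) hc'
  have hD := domain_eq h0 u hP y₁ y₂ hd 0 D h hs v R hv hb (hno y₁ y₂ 0 D h v R hd hs hv hb)
  -- the second centre
  have hw' : ∀ r : ℝ, I * v ≠ (r : ℂ) * v := by
    intro r e
    have := mul_right_cancel₀ hvne e
    have h2 := congrArg Complex.im this
    simp at h2
  have hall := allDir h0 u hP y₁ y₂ hd 0 D h hs v R hv hb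
  have hw'D : I * v ∈ D := hall _ hw'
  obtain ⟨hdev, D', h', hs'⟩ := rotStar hR hS u y₁ y₂ hd (h (I * v)) (I * v)
    (hs.1.2.2.2 _ hw'D)
  obtain ⟨l1, l2, l3⟩ := hL u y₁ y₂ hd 0 D h hs v R hv hb hall (I * v) hw' D' h' hs'
  set Om : ℂ := Tm (I * v) ((R : ℂ) * v) with hOm
  have hOn : (‖Om‖ : ℂ) ≠ 0 := by exact_mod_cast norm_ne_zero_iff.mpr l3
  have hOpos : 0 < ‖Om‖ := norm_pos_iff.mpr l3
  have hv2 : ‖Om / (‖Om‖ : ℂ)‖ = 1 := by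
    rw [norm_div, Complex.norm_real, norm_norm]
    exact div_self hOpos.ne'
  have hb2 : Blk D' (Om / (‖Om‖ : ℂ)) ‖Om‖ := by
    refine ⟨hOpos, ?_, ?_⟩
    · intro r hr0 hr
      have := l1 (r / ‖Om‖) (div_nonneg hr0 hOpos.le) ((div_lt_one hOpos).mpr hr)
      have e2 : ((r / ‖Om‖ : ℝ) : ℂ) * Om = (r : ℂ) * (Om / (‖Om‖ : ℂ)) := by
        push_cast; ring
      rwa [e2] at this
    · rwa [mul_div_cancel₀ _ hOn]
  have hD' := domain_eq h0 u hP _ _ hdev (h (I * v)) D' h' hs' _ _ hv2 hb2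
    (hno _ _ _ D' h' _ _ hdev hs' hv2 hb2)
  have hD'' : D' = {ω | ∀ r : ℝ, 1 ≤ r → ω ≠ (r : ℂ) * Tm (I * v) ((R : ℂ) * v)} := by
    rw [hD']
    ext ω
    simp only [mem_setOf_eq]
    constructor
    · intro hω r hr e
      apply hω (r * ‖Om‖) (by nlinarith)
      rw [e, ← hOm]
      push_cast
      field_simp
    · intro hω r hr e
      apply hω (r / ‖Om‖) ((one_le_div hOpos).mpr hr)
      rw [e, ← hOm]
      push_cast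
      ring
  exact hC1 u y₁ y₂ hd 0 D h hs v R hv hb.1 hD (I * v) hw' D' h' hs' hD''

theorem assembly (h1 : StmDEV1) (h2 : StmDEV2) (h3 : StmDEV3) (hR : StmROT) (hS : StmSTAR)
    (h0 : StmBLK0) (hPA : StmPAIR) (hL : StmLOC) (hA : StmANT) (hC0 : StmC0) (hC1 : StmC1)
    (hC2S : StmC2S) (hC2B : StmC2B) (hC2C : StmC2C) (hC2D : StmC2D) (hC2E : StmC2E)
    (hRAD : StmRAD) (hRADD : StmRADD) (hONE : StmONE) (hONED : StmONED)
    (u : ℂ → ℝ) (hu : IsSol u) :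
    IsLUB {r : ℝ | ∃ x y : ℂ, r = gdist u x y} Real.pi ↔ IsRadial u ∨ IsOneDim u := by
  constructor
  · intro hl
    apply forward h1 h2 h3 hR hS h0 hPA hL hA hC0 hC1 hC2S hC2B hC2C hC2D hC2E u hu
    intro x y
    exact hl.1 ⟨x, y, rfl⟩
  · rintro (hr | ho)
    · obtain ⟨x₀, l, hl, he⟩ := hRAD u hu hr
      exact hRADD u x₀ l hl he
    · obtain ⟨e, a, s₀, hen, ha, he⟩ := hONE u hu ho
      exact hONED u e a s₀ hen ha he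

end Pool.Agent.T6.H85.LV.ASM
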