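import Pool.Agent.T6.H85.LV.Stm

/-!
Project LV (helper85): tools for the modules C2C and C2D.  The developing map `y₂ / y₁` is locally
injective, lifts along it are unique on connected sets, local inverses.
-/

set_option autoImplicit false

namespace Pool.Agent.T6.H85.LV.C2U

open Complex Filter Topology Set

/-- the developing map with values in `Option ℂ` (`none` is the point at infinity) -/
noncomputable def dv (y₁ y₂ : ℂ → ℂ) (z : ℂ) : Option ℂ :=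
  if y₁ z = 0 then none else some (y₂ z / y₁ z)

/-- a locally injective differentiable function -/
theorem inj_of_strict {F : ℂ → ℂ} {F' z : ℂ} (h : HasStrictDerivAt F F' z) (h0 : F' ≠ 0) :
    ∃ U : Set ℂ, IsOpen U ∧ z ∈ U ∧ InjOn F U := by
  have h1 : HasStrictFDerivAt F
      ((ContinuousLinearEquiv.unitsEquivAut ℂ (Units.mk0 F' h0) : ℂ ≃L[ℂ] ℂ) : ℂ →L[ℂ] ℂ) z :=
    h.hasStrictFDerivAt_equiv h0
  exact ⟨(h1.toOpenPartialHomeomorph F).source, (h1.toOpenPartialHomeomorph F).open_source,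
    h1.mem_toOpenPartialHomeomorph_source, (h1.toOpenPartialHomeomorph F).injOn⟩

/-- a local inverse -/
theorem loc_inv {F : ℂ → ℂ} {F' z : ℂ} (h : HasStrictDerivAt F F' z) (h0 : F' ≠ 0) {U : Set ℂ}
    (hU : U ∈ 𝓝 z) {ε : ℝ} (hε : 0 < ε) : ∃ (δ : ℝ) (N : Set ℂ) (g : ℂ → ℂ), 0 < δ ∧ δ ≤ ε ∧
      IsOpen N ∧ z ∈ N ∧ N ⊆ U ∧ ContinuousOn g (Metric.ball (F z) δ) ∧
      (∀ w ∈ Metric.ball (F z) δ, g w ∈ N ∧ F (g w) = w) ∧
      ∀ p ∈ N, F p ∈ Metric.ball (F z) δ ∧ g (F p) = p := by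
  have h1 : HasStrictFDerivAt F
      ((ContinuousLinearEquiv.unitsEquivAut ℂ (Units.mk0 F' h0) : ℂ ≃L[ℂ] ℂ) : ℂ →L[ℂ] ℂ) z :=
    h.hasStrictFDerivAt_equiv h0
  set e := h1.toOpenPartialHomeomorph F with he
  have hz : z ∈ e.source := h1.mem_toOpenPartialHomeomorph_source
  have heF : ∀ p, e p = F p := fun p => rfl
  have hV : IsOpen (e.source ∩ interior U) := e.open_source.inter isOpen_interior
  have hzV : z ∈ e.source ∩ interior U := ⟨hz, mem_interior_iff_mem_nhds.2 hU⟩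
  have hI : IsOpen (e '' (e.source ∩ interior U)) :=
    e.isOpen_image_of_subset_source hV inter_subset_left
  obtain ⟨δ₀, hδ₀, hb⟩ := Metric.isOpen_iff.1 hI (e z) ⟨z, hzV, rfl⟩
  have hb' : Metric.ball (F z) (min δ₀ ε) ⊆ e '' (e.source ∩ interior U) :=
    (Metric.ball_subset_ball (min_le_left _ _)).trans hb
  refine ⟨min δ₀ ε, (e.source ∩ interior U) ∩ e ⁻¹' Metric.ball (F z) (min δ₀ ε), e.symm,
    lt_min hδ₀ hε, min_le_right _ _, ?_, ?_, ?_, ?_, ?_, ?_⟩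
  · exact (e.continuousOn.mono inter_subset_left).isOpen_inter_preimage hV Metric.isOpen_ball
  · refine ⟨hzV, ?_⟩
    show e z ∈ Metric.ball (F z) (min δ₀ ε)
    rw [heF]
    exact Metric.mem_ball_self (lt_min hδ₀ hε)
  · exact fun p hp => interior_subset hp.1.2
  · apply e.continuousOn_symm.mono
    intro w hw
    obtain ⟨p, hp, rfl⟩ := hb' hw
    exact e.map_source hp.1
  · intro w hw
    obtain ⟨p, hp, hpw⟩ := hb' hw
    have h2 : e.symm w = p := by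
      rw [← hpw]
      exact e.left_inv hp.1
    rw [h2]
    refine ⟨⟨hp, ?_⟩, ?_⟩
    · show e p ∈ Metric.ball (F z) (min δ₀ ε)
      rw [hpw]
      exact hw
    · rw [← heF, hpw]
  · intro p hp
    exact ⟨hp.2, e.left_inv hp.1.1⟩

variable {u : ℂ → ℝ} {y₁ y₂ : ℂ → ℂ}

theorem nz (hd : Dev u y₁ y₂) {z : ℂ} (h : y₁ z = 0) : y₂ z ≠ 0 := by
  intro h2
  have := hd.wr z
  rw [h, h2] at this
  simp at this

theorem nz' (hd : Dev u y₁ y₂) {z : ℂ} (h : y₂ z = 0) : y₁ z ≠ 0 := fun h1 => nz hd h1 h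

/-- `y₁ (k) ≠ 0` if `y₂ (k) = w y₁ (k)` -/
theorem nz_of_eq (hd : Dev u y₁ y₂) {z w : ℂ} (h : y₂ z = w * y₁ z) : y₁ z ≠ 0 := by
  intro h1
  apply nz hd h1
  rw [h, h1, mul_zero]

theorem dv_of_eq (hd : Dev u y₁ y₂) {z w : ℂ} (h : y₂ z = w * y₁ z) : dv y₁ y₂ z = some w := by
  have h1 := nz_of_eq hd h
  unfold dv
  rw [if_neg h1, h, mul_div_cancel_right₀ _ h1]

/-- `F = y₂ / y₁` has derivative `1 / y₁²` -/
theorem strict_F (hd : Dev u y₁ y₂) {z : ℂ} (h : y₁ z ≠ 0) :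
    HasStrictDerivAt (fun z => y₂ z / y₁ z) (1 / y₁ z ^ 2) z := by
  have h1 := (hd.d1.analyticAt z).hasStrictDerivAt
  have h2 := (hd.d2.analyticAt z).hasStrictDerivAt
  have h3 := h2.fun_div h1 h
  have h4 : (deriv y₂ z * y₁ z - y₂ z * deriv y₁ z) / y₁ z ^ 2 = 1 / y₁ z ^ 2 := by
    rw [← hd.wr z]
    ring
  rw [h4] at h3
  exact h3

/-- `Q = y₁ / y₂` has derivative `- 1 / y₂²` -/
theorem strict_Q (hd : Dev u y₁ y₂) {z : ℂ} (h : y₂ z ≠ 0) :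
    HasStrictDerivAt (fun z => y₁ z / y₂ z) (-1 / y₂ z ^ 2) z := by
  have h1 := (hd.d1.analyticAt z).hasStrictDerivAt
  have h2 := (hd.d2.analyticAt z).hasStrictDerivAt
  have h3 := h1.fun_div h2 h
  have h4 : (deriv y₁ z * y₂ z - y₁ z * deriv y₂ z) / y₂ z ^ 2 = -1 / y₂ z ^ 2 := by
    rw [← hd.wr z]
    ring
  rw [h4] at h3
  exact h3

/-- the developing map is locally injective -/
theorem dv_inj (hd : Dev u y₁ y₂) : IsLocallyInjective (dv y₁ y₂) := by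
  intro z
  by_cases h : y₁ z = 0
  · have h2 := nz hd h
    obtain ⟨U, hU, hzU, hinj⟩ := inj_of_strict (strict_Q hd h2)
      (div_ne_zero (by norm_num) (pow_ne_zero 2 h2))
    refine ⟨U ∩ {p | y₂ p ≠ 0}, hU.inter (isOpen_ne_fun hd.d2.continuous continuous_const),
      ⟨hzU, h2⟩, ?_⟩
    intro p hp q hq hpq
    apply hinj hp.1 hq.1
    show y₁ p / y₂ p = y₁ q / y₂ q
    unfold dv at hpq
    by_cases hp0 : y₁ p = 0
    · by_cases hq0 : y₁ q = 0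
      · rw [hp0, hq0]
        simp
      · rw [if_pos hp0, if_neg hq0] at hpq
        exact absurd hpq (by simp)
    · by_cases hq0 : y₁ q = 0
      · rw [if_neg hp0, if_pos hq0] at hpq
        exact absurd hpq (by simp)
      · rw [if_neg hp0, if_neg hq0] at hpq
        have h3 := Option.some.inj hpq
        rw [← inv_div, h3, inv_div]
  · obtain ⟨U, hU, hzU, hinj⟩ := inj_of_strict (strict_F hd h)
      (div_ne_zero one_ne_zero (pow_ne_zero 2 h))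
    refine ⟨U ∩ {p | y₁ p ≠ 0}, hU.inter (isOpen_ne_fun hd.d1.continuous continuous_const),
      ⟨hzU, h⟩, ?_⟩
    intro p hp q hq hpq
    apply hinj hp.1 hq.1
    show y₂ p / y₁ p = y₂ q / y₁ q
    unfold dv at hpq
    rw [if_neg hp.2, if_neg hq.2] at hpq
    exact Option.some.inj hpq

/-- uniqueness of lifts -/
theorem uniq {A : Type*} [TopologicalSpace A] (hd : Dev u y₁ y₂) {S : Set A}
    (hS : IsPreconnected S) {k k' : A → ℂ} (hk : ContinuousOn k S) (hk' : ContinuousOn k' S)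
    {W : A → ℂ} (e : ∀ a ∈ S, y₂ (k a) = W a * y₁ (k a))
    (e' : ∀ a ∈ S, y₂ (k' a) = W a * y₁ (k' a)) {a : A} (ha : a ∈ S) (h : k a = k' a) :
    ∀ b ∈ S, k b = k' b := by
  have h1 := (T2Space.isSeparatedMap (dv y₁ y₂)).eqOn_of_comp_eqOn (dv_inj hd) hS hk hk'
    (fun b hb => by
      simp only [Function.comp_apply]
      rw [dv_of_eq hd (e b hb), dv_of_eq hd (e' b hb)]) ha h
  exact fun b hb => h1 hb

/-- local inverse of `F = y₂ / y₁` -/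
theorem inv_F (hd : Dev u y₁ y₂) {z : ℂ} (h : y₁ z ≠ 0) {ε : ℝ} (hε : 0 < ε) :
    ∃ (δ : ℝ) (N : Set ℂ) (g : ℂ → ℂ), 0 < δ ∧ δ ≤ ε ∧ IsOpen N ∧ z ∈ N ∧
      ContinuousOn g (Metric.ball (y₂ z / y₁ z) δ) ∧
      (∀ w ∈ Metric.ball (y₂ z / y₁ z) δ, g w ∈ N ∧ y₂ (g w) = w * y₁ (g w)) ∧
      ∀ p ∈ N, y₁ p ≠ 0 ∧ y₂ p / y₁ p ∈ Metric.ball (y₂ z / y₁ z) δ ∧ g (y₂ p / y₁ p) = p := by
  obtain ⟨δ, N, g, h1, h2, h3, h4, h5, h6, h7, h8⟩ := loc_inv (strict_F hd h)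
    (div_ne_zero one_ne_zero (pow_ne_zero 2 h))
    ((isOpen_ne_fun hd.d1.continuous continuous_const).mem_nhds h) hε
  refine ⟨δ, N, g, h1, h2, h3, h4, h6, ?_, ?_⟩
  · intro w hw
    obtain ⟨h9, h10⟩ := h7 w hw
    refine ⟨h9, ?_⟩
    have h11 : y₁ (g w) ≠ 0 := h5 h9
    exact (div_eq_iff h11).1 h10
  · intro p hp
    exact ⟨h5 hp, (h8 p hp).1, (h8 p hp).2⟩

/-- local inverse of `Q = y₁ / y₂` -/
theorem inv_Q (hd : Dev u y₁ y₂) {z : ℂ} (h : y₂ z ≠ 0) {ε : ℝ} (hε : 0 < ε) :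
    ∃ (δ : ℝ) (N : Set ℂ) (g : ℂ → ℂ), 0 < δ ∧ δ ≤ ε ∧ IsOpen N ∧ z ∈ N ∧
      ContinuousOn g (Metric.ball (y₁ z / y₂ z) δ) ∧
      (∀ w ∈ Metric.ball (y₁ z / y₂ z) δ, g w ∈ N ∧ y₁ (g w) = w * y₂ (g w)) ∧
      ∀ p ∈ N, y₂ p ≠ 0 ∧ y₁ p / y₂ p ∈ Metric.ball (y₁ z / y₂ z) δ ∧ g (y₁ p / y₂ p) = p := by
  obtain ⟨δ, N, g, h1, h2, h3, h4, h5, h6, h7, h8⟩ := loc_inv (strict_Q hd h)
    (div_ne_zero (by norm_num) (pow_ne_zero 2 h))
    ((isOpen_ne_fun hd.d2.continuous continuous_const).mem_nhds h) hε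
  refine ⟨δ, N, g, h1, h2, h3, h4, h6, ?_, ?_⟩
  · intro w hw
    obtain ⟨h9, h10⟩ := h7 w hw
    refine ⟨h9, ?_⟩
    have h11 : y₂ (g w) ≠ 0 := h5 h9
    exact (div_eq_iff h11).1 h10
  · intro p hp
    exact ⟨h5 hp, (h8 p hp).1, (h8 p hp).2⟩

end Pool.Agent.T6.H85.LV.C2U
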