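import Mathlib

/-!
Project LV (helper85), MP_47dd70_an: the metric `e^{2u} |dz|²` of a solution of `Δ u + e^{2u} = 0`
on the plane has diameter `π` iff `u` is radial up to translation or one-dimensional.
Definitions.
-/

set_option autoImplicit false

namespace Pool.Agent.T6.H85.LV

open Complex Filter Topology Set
open scoped ComplexConjugate

/-- the length of the `C¹` curve `γ` (parameter in `[0, 1]`) for the metric `e^{2u} |dz|²` -/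
noncomputable def len (u : ℂ → ℝ) (γ : ℝ → ℂ) : ℝ :=
  ∫ t in (0 : ℝ)..1, Real.exp (u (γ t)) * ‖deriv γ t‖

/-- `IsPath u x y L`: there is a piecewise `C¹` curve from `x` to `y` of length `L` for the metric
`e^{2u} |dz|²` (a finite concatenation of `C¹` curves) -/
inductive IsPath (u : ℂ → ℝ) (x : ℂ) : ℂ → ℝ → Prop
  | nil : IsPath u x x 0
  | snoc {L : ℝ} (γ : ℝ → ℂ) (hγ : ContDiff ℝ 1 γ) (h : IsPath u x (γ 0) L) :
      IsPath u x (γ 1) (L + len u γ)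

/-- the length distance of the metric `e^{2u} |dz|²` -/
noncomputable def gdist (u : ℂ → ℝ) (x y : ℂ) : ℝ := sInf {L : ℝ | IsPath u x y L}

/-- `C²` solutions of the Liouville equation on the plane -/
def IsSol (u : ℂ → ℝ) : Prop :=
  ContDiff ℝ 2 u ∧ ∀ z, Laplacian.laplacian u z + Real.exp (2 * u z) = 0

/-- radial up to translation -/
def IsRadial (u : ℂ → ℝ) : Prop := ∃ (x₀ : ℂ) (φ : ℝ → ℝ), ∀ x, u x = φ ‖x - x₀‖

/-- one-dimensional -/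
def IsOneDim (u : ℂ → ℝ) : Prop := ∃ (e : ℂ) (f : ℝ → ℝ), ‖e‖ = 1 ∧ ∀ x, u x = f (inner ℝ e x)

/-- entire functions `y₁, y₂` of Wronskian `1` with `|y₁|² + |y₂|² = 2 e^{-u}`;
`f = y₂ / y₁ : ℂ → S²` is then a local isometry for `e^{2u} |dz|²` -/
structure Dev (u : ℂ → ℝ) (y₁ y₂ : ℂ → ℂ) : Prop where
  d1 : Differentiable ℂ y₁
  d2 : Differentiable ℂ y₂
  wr : ∀ z, y₁ z * deriv y₂ z - deriv y₁ z * y₂ z = 1
  eq : ∀ z, ‖y₁ z‖ ^ 2 + ‖y₂ z‖ ^ 2 = 2 * Real.exp (-(u z))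

/-- rotation of the pair: first component -/
noncomputable def ro1 (a b : ℂ) (y₁ y₂ : ℂ → ℂ) : ℂ → ℂ := fun z => conj a * y₁ z + conj b * y₂ z

/-- rotation of the pair: second component -/
noncomputable def ro2 (a b : ℂ) (y₁ y₂ : ℂ → ℂ) : ℂ → ℂ := fun z => -b * y₁ z + a * y₂ z

/-- `|⟨(a,b),(c,d)⟩| / (|(a,b)| |(c,d)|)` -/
noncomputable def cs (a b c d : ℂ) : ℝ :=
  ‖conj a * c + conj b * d‖ / (√(‖a‖ ^ 2 + ‖b‖ ^ 2) * √(‖c‖ ^ 2 + ‖d‖ ^ 2))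

/-- the spherical distance of the points `[a : b]`, `[c : d]` of the Riemann sphere (radius `1`) -/
noncomputable def sd (a b c d : ℂ) : ℝ := 2 * Real.arccos (cs a b c d)

/-- open and star-shaped with centre `0` -/
def StarSet (D : Set ℂ) : Prop :=
  IsOpen D ∧ (0 : ℂ) ∈ D ∧ ∀ w ∈ D, ∀ t : ℝ, 0 ≤ t → t ≤ 1 → (t : ℂ) * w ∈ D

/-- `h` is a branch on the star-shaped domain `D` of the inverse of `f = y₂ / y₁`, with
`h 0 = x` -/
def Branch (y₁ y₂ : ℂ → ℂ) (x : ℂ) (D : Set ℂ) (h : ℂ → ℂ) : Prop :=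
  StarSet D ∧ DifferentiableOn ℂ h D ∧ h 0 = x ∧ ∀ w ∈ D, y₂ (h w) = w * y₁ (h w)

/-- the maximal branch (Gross star) -/
def IsStar (y₁ y₂ : ℂ → ℂ) (x : ℂ) (D : Set ℂ) (h : ℂ → ℂ) : Prop :=
  Branch y₁ y₂ x D h ∧ ∀ (D' : Set ℂ) (h' : ℂ → ℂ), Branch y₁ y₂ x D' h' →
    D' ⊆ D ∧ ∀ w ∈ D', h' w = h w

/-- the ray of direction `v` leaves `D` for the first time at `R v` -/
def Blk (D : Set ℂ) (v : ℂ) (R : ℝ) : Prop :=
  0 < R ∧ (∀ r : ℝ, 0 ≤ r → r < R → (r : ℂ) * v ∈ D) ∧ (R : ℂ) * v ∉ D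

/-- the Möbius rotation of the sphere sending `c` to `0` -/
noncomputable def Tm (c w : ℂ) : ℂ := (w - c) / (1 + conj c * w)

/-- the inverse rotation, sending `0` to `c` -/
noncomputable def Ti (c w : ℂ) : ℂ := (w + c) / (1 - conj c * w)

/-- first coordinate of the unit vector `(1, c) / √(1 + |c|²)` -/
noncomputable def ua (c : ℂ) : ℂ := ((1 / √(1 + ‖c‖ ^ 2) : ℝ) : ℂ)

/-- second coordinate of the unit vector `(1, c) / √(1 + |c|²)` -/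
noncomputable def ub (c : ℂ) : ℂ := ((1 / √(1 + ‖c‖ ^ 2) : ℝ) : ℂ) * c

/-- the property proved in module PAIR: in every pair of coordinates and at every point, two
blocked directions are equal or opposite -/
def PairProp (u : ℂ → ℝ) : Prop :=
  ∀ (y₁ y₂ : ℂ → ℂ), Dev u y₁ y₂ → ∀ (x : ℂ) (D : Set ℂ) (h : ℂ → ℂ), IsStar y₁ y₂ x D h →
    ∀ (v v' : ℂ) (R R' : ℝ), ‖v‖ = 1 → ‖v'‖ = 1 → Blk D v R → Blk D v' R' → v = v' ∨ v = -v'

/-- a branch `k` of the inverse of `log (Z₂ / Z₁)` on the strip `|Im (ζ - ζ₀)| < π`, with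
`k ζ₀ = z`, which escapes to infinity in both directions of the central line -/
def Strip (Z₁ Z₂ : ℂ → ℂ) (z ζ₀ : ℂ) (k : ℂ → ℂ) : Prop :=
  DifferentiableOn ℂ k {ζ : ℂ | |(ζ - ζ₀).im| < Real.pi} ∧ k ζ₀ = z ∧
    (∀ ζ : ℂ, |(ζ - ζ₀).im| < Real.pi → Z₂ (k ζ) = exp ζ * Z₁ (k ζ)) ∧
    Tendsto (fun t : ℝ => ‖k (ζ₀ + t)‖) atTop atTop ∧
    Tendsto (fun t : ℝ => ‖k (ζ₀ + t)‖) atBot atTop

end Pool.Agent.T6.H85.LV
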