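import Pool.Agent.T6.H85.LV.Stm

/-!
# One-dimensional solutions (helper94, module ONE)
-/

set_option autoImplicit false

namespace Pool.Agent.T6.H85.LV

open Complex Filter Topology Set
open scoped ComplexConjugate

namespace ONE

/-- first derivative along a line -/
theorem line1 {u : ℂ → ℝ} (hu : ContDiff ℝ 2 u) (x v : ℂ) (t : ℝ) :
    HasDerivAt (fun t : ℝ => u (x + t • v)) (fderiv ℝ u (x + t • v) v) t := by
  have h1 : HasDerivAt (fun t : ℝ => x + t • v) v t := by
    simpa using ((hasDerivAt_id t).smul_const v).const_add x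
  exact ((hu.differentiable (by norm_num)) (x + t • v)).hasFDerivAt.comp_hasDerivAt t h1

/-- second derivative along a line -/
theorem line2 {u : ℂ → ℝ} (hu : ContDiff ℝ 2 u) (x v : ℂ) (t : ℝ) :
    HasDerivAt (fun t : ℝ => fderiv ℝ u (x + t • v) v)
      (iteratedFDeriv ℝ 2 u (x + t • v) ![v, v]) t := by
  have h1 : HasDerivAt (fun t : ℝ => x + t • v) v t := by
    simpa using ((hasDerivAt_id t).smul_const v).const_add x
  have h2 : Differentiable ℝ (fderiv ℝ u) :=
    (hu.fderiv_right (m := 1) (by norm_num)).differentiable (by norm_num)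
  have h3 := (h2 (x + t • v)).hasFDerivAt.comp_hasDerivAt t h1
  have h4 := h3.clm_apply (hasDerivAt_const t v)
  rw [iteratedFDeriv_two_apply]
  simpa using h4

theorem lap_eq {u : ℂ → ℝ} (hu : IsSol u) (z : ℂ) :
    iteratedFDeriv ℝ 2 u z ![1, 1] + iteratedFDeriv ℝ 2 u z ![I, I] + Real.exp (2 * u z) = 0 := by
  have := hu.2 z
  rw [InnerProductSpace.laplacian_eq_iteratedFDeriv_complexPlane] at this
  exact this

/-- the solutions of `f'' = -e^{2f}` -/
theorem ode {f f' : ℝ → ℝ} (h1 : ∀ s, HasDerivAt f (f' s) s)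
    (h2 : ∀ s, HasDerivAt f' (-Real.exp (2 * f s)) s) :
    ∃ a s₀ : ℝ, 0 < a ∧ ∀ s, f s = Real.log (a / Real.cosh (a * (s - s₀))) := by
  -- first integral
  have hE : ∀ s, HasDerivAt (fun s => f' s ^ 2 + Real.exp (2 * f s)) 0 s := by
    intro s
    have := ((h2 s).pow 2).add (((h1 s).const_mul 2).exp)
    refine this.congr_deriv ?_
    simp
    ring
  have hc : ∀ s, f' s ^ 2 + Real.exp (2 * f s) = f' 0 ^ 2 + Real.exp (2 * f 0) := fun s =>
    is_const_of_deriv_eq_zero (fun s => (hE s).differentiableAt) (fun s => (hE s).deriv) s 0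
  set c := f' 0 ^ 2 + Real.exp (2 * f 0) with hcdef
  have hc0 : 0 < c := by positivity
  let a := √c
  have ha : 0 < a := Real.sqrt_pos.2 hc0
  have ha2 : a ^ 2 = c := Real.sq_sqrt hc0.le
  let g : ℝ → ℝ := fun s => Real.exp (-f s)
  have hg : ∀ s, HasDerivAt g (-f' s * g s) s := by
    intro s
    refine ((h1 s).neg.exp).congr_deriv ?_
    change Real.exp (-f s) * -f' s = -f' s * Real.exp (-f s)
    ring
  have hge : ∀ s, Real.exp (2 * f s) * g s ^ 2 = 1 := by
    intro s
    change Real.exp (2 * f s) * Real.exp (-f s) ^ 2 = 1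
    rw [← Real.exp_nat_mul, ← Real.exp_add]
    norm_num
  have hg0 : ∀ s, 0 < g s := fun s => Real.exp_pos _
  have hP : ∀ s, HasDerivAt (fun s => Real.exp (-(a * s)) * (-f' s * g s + a * g s)) 0 s := by
    intro s
    have e1 : HasDerivAt (fun s : ℝ => Real.exp (-(a * s))) (Real.exp (-(a * s)) * -(a * 1)) s :=
      (((hasDerivAt_id s).const_mul a).neg).exp
    have e2 := e1.mul (((h2 s).neg.mul (hg s)).add ((hg s).const_mul a))
    refine e2.congr_deriv ?_
    have := hc s
    rw [← ha2] at this
    simp only [Pi.neg_apply, Pi.mul_apply, Pi.add_apply]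
    linear_combination (Real.exp (-(a * s)) * g s) * this
  have hQ : ∀ s, HasDerivAt (fun s => Real.exp (a * s) * (-f' s * g s - a * g s)) 0 s := by
    intro s
    have e1 : HasDerivAt (fun s : ℝ => Real.exp (a * s)) (Real.exp (a * s) * (a * 1)) s :=
      (((hasDerivAt_id s).const_mul a)).exp
    have e2 := e1.mul (((h2 s).neg.mul (hg s)).sub ((hg s).const_mul a))
    refine e2.congr_deriv ?_
    have := hc s
    rw [← ha2] at this
    simp only [Pi.neg_apply, Pi.mul_apply, Pi.sub_apply]
    linear_combination (Real.exp (a * s) * g s) * this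
  have hPc : ∀ s, Real.exp (-(a * s)) * (-f' s * g s + a * g s) = -f' 0 * g 0 + a * g 0 := by
    intro s
    have := is_const_of_deriv_eq_zero (fun s => (hP s).differentiableAt) (fun s => (hP s).deriv) s 0
    simpa using this
  have hQc : ∀ s, Real.exp (a * s) * (-f' s * g s - a * g s) = -f' 0 * g 0 - a * g 0 := by
    intro s
    have := is_const_of_deriv_eq_zero (fun s => (hQ s).differentiableAt) (fun s => (hQ s).deriv) s 0
    simpa using this
  set p := -f' 0 * g 0 + a * g 0 with hp
  set q := -f' 0 * g 0 - a * g 0 with hq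
  have hpq : p * q = -1 := by
    have h3 := hge 0
    have h4 := hc 0
    rw [hp, hq]
    rw [← ha2] at hcdef
    linear_combination (-(g 0 ^ 2)) * hcdef - h3
  have hpp : 0 < p := by
    have h3 : 0 < p - q := by
      have : p - q = 2 * a * g 0 := by rw [hp, hq]; ring
      rw [this]
      have := hg0 0
      positivity
    by_contra hcon
    push Not at hcon
    nlinarith
  have hmul : ∀ s, Real.exp (a * s) * Real.exp (-(a * s)) = 1 := fun s => by
    rw [← Real.exp_add]; simp
  have hgs : ∀ s, 2 * a * g s = p * Real.exp (a * s) - q * Real.exp (-(a * s)) := by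
    intro s
    have h3 := hPc s
    have h4 := hQc s
    have h5 := hmul s
    linear_combination (-2 * a * g s) * h5 + Real.exp (a * s) * h3 - Real.exp (-(a * s)) * h4
  refine ⟨a, -Real.log p / a, ha, fun s => ?_⟩
  have e1 : a * (s - -Real.log p / a) = a * s + Real.log p := by
    field_simp
    ring
  have e2 : g s = Real.cosh (a * s + Real.log p) / a := by
    rw [Real.cosh_eq, neg_add, Real.exp_add, Real.exp_add, Real.exp_neg (Real.log p),
      Real.exp_log hpp]
    have h3 := hgs s
    have h6 : q = -p⁻¹ := by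
      field_simp
      linear_combination hpq
    rw [h6] at h3
    field_simp
    field_simp at h3
    linear_combination h3
  have e3 : f s = Real.log (g s)⁻¹ := by
    rw [Real.log_inv]
    change f s = -Real.log (Real.exp (-f s))
    rw [Real.log_exp]
    ring
  rw [e3, e1, e2, inv_div]

end ONE

open ONE in
theorem one : StmONE := by
  intro u hu ⟨e, f, he, hf⟩
  have he2 : e.re ^ 2 + e.im ^ 2 = 1 := by
    have := Complex.sq_norm e
    rw [he, Complex.normSq_apply] at this
    nlinarith
  have hin : ∀ x : ℂ, inner ℝ e x = e.re * x.re + e.im * x.im := fun x => by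
    rw [Complex.inner]
    simp [Complex.mul_re]
    ring
  let F : ℝ → ℝ := fun s => u (0 + s • e)
  let F' : ℝ → ℝ := fun s => fderiv ℝ u (0 + s • e) e
  let F'' : ℝ → ℝ := fun s => iteratedFDeriv ℝ 2 u (0 + s • e) ![e, e]
  have hF1 : ∀ s, HasDerivAt F (F' s) s := fun s => line1 hu.1 0 e s
  have hF2 : ∀ s, HasDerivAt F' (F'' s) s := fun s => line2 hu.1 0 e s
  have hFf : ∀ s, F s = f s := by
    intro s
    change u (0 + s • e) = f s
    rw [hf, hin]
    congr 1
    simp only [zero_add, Complex.real_smul, Complex.mul_re, Complex.mul_im, Complex.ofReal_re,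
      Complex.ofReal_im, zero_mul, sub_zero, add_zero]
    linear_combination s * he2
  have huF : ∀ x, u x = F (e.re * x.re + e.im * x.im) := fun x => by
    rw [hFf, hf, hin]
  -- second derivatives in the directions 1 and I
  have key : ∀ (x v : ℂ), iteratedFDeriv ℝ 2 u x ![v, v] =
      F'' (e.re * x.re + e.im * x.im) * (e.re * v.re + e.im * v.im) ^ 2 := by
    intro x v
    set b := e.re * v.re + e.im * v.im with hb
    set m := e.re * x.re + e.im * x.im with hm
    have g1 : ∀ t : ℝ, u (x + t • v) = F (m + t * b) := by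
      intro t
      rw [huF]
      congr 1
      simp only [Complex.add_re, Complex.add_im, Complex.real_smul, Complex.mul_re,
        Complex.mul_im, Complex.ofReal_re, Complex.ofReal_im, zero_mul, sub_zero, add_zero, hm, hb]
      ring
    have hl : ∀ t : ℝ, HasDerivAt (fun t : ℝ => m + t * b) b t := fun t => by
      simpa using ((hasDerivAt_id t).mul_const b).const_add m
    have g2 : ∀ t : ℝ, fderiv ℝ u (x + t • v) v = F' (m + t * b) * b := by
      intro t
      refine (line1 hu.1 x v t).unique ?_
      have := (hF1 (m + t * b)).comp t (hl t)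
      refine this.congr_of_eventuallyEq (Filter.Eventually.of_forall fun s => g1 s)
    have g3 := line2 hu.1 x v 0
    have g4 : HasDerivAt (fun t : ℝ => F' (m + t * b) * b) (F'' (m + 0 * b) * b * b) 0 := by
      have g6 : HasDerivAt (fun t : ℝ => F' (m + t * b)) (F'' (m + 0 * b) * b) 0 :=
        HasDerivAt.comp (h := fun t : ℝ => m + t * b) (0 : ℝ) (hF2 (m + 0 * b)) (hl 0)
      exact g6.mul_const b
    have g5 : (fun t : ℝ => fderiv ℝ u (x + t • v) v) = fun t : ℝ => F' (m + t * b) * b :=
      funext g2
    rw [g5] at g3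
    have := g3.unique g4
    simp only [zero_smul, add_zero, zero_mul] at this
    rw [this]
    ring
  have hode : ∀ s, F'' s = -Real.exp (2 * F s) := by
    intro s
    have h1 := lap_eq hu (0 + s • e)
    rw [key, key] at h1
    have h2 : e.re * (0 + s • e : ℂ).re + e.im * (0 + s • e : ℂ).im = s := by
      simp only [zero_add, Complex.real_smul, Complex.mul_re, Complex.mul_im, Complex.ofReal_re,
        Complex.ofReal_im, zero_mul, sub_zero, add_zero]
      linear_combination s * he2
    rw [h2] at h1
    simp only [Complex.one_re, Complex.one_im, Complex.I_re, Complex.I_im, mul_one, mul_zero,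
      add_zero, zero_add] at h1
    change F'' s = -Real.exp (2 * u (0 + s • e))
    have h3 : F'' s * e.re ^ 2 + F'' s * e.im ^ 2 = F'' s := by
      linear_combination (F'' s) * he2
    simp only [zero_add] at h1 ⊢
    linarith
  obtain ⟨a, s₀, ha, hs⟩ := ode hF1 (fun s => by rw [← hode s]; exact hF2 s)
  exact ⟨e, a, s₀, he, ha, fun x => by rw [huF, hs, hin]⟩

end Pool.Agent.T6.H85.LV
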