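import Pool.Agent.T6.H85.LV.Stm

/-!
Project LV (helper85), MP_47dd70_an, module SEP0 (helper51): plane topology. If `G` is closed, `U`
and `V` are open, connected and disjoint, `G ∪ U ∪ V` is open and some point of `G` lies in the
closures of `U` and of `V`, then `U` and `V` lie in different parts of a separation of the
complement of `G`.
-/

set_option autoImplicit false

namespace Pool.Agent.T6.H85.LV

open Complex Filter Topology Set
open scoped ComplexConjugate

namespace ModSEP0

theorem exists_log (g : ℂ → ℂ) (hg : Continuous g) (h0 : ∀ p, g p ≠ 0) :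
    ∃ f : ℂ → ℂ, Continuous f ∧ ∀ p, Complex.exp (f p) = g p := by
  have hs : IsSimplyConnected (Set.univ : Set ℂ) := by
    have : SimplyConnectedSpace (Set.univ : Set ℂ) := by
      have : ContractibleSpace (Set.univ : Set ℂ) :=
        (Homeomorph.Set.univ ℂ).contractibleSpace
      infer_instance
    exact this
  obtain ⟨f, hf, hfe⟩ := Complex.exists_continuousOn_eqOn_exp_comp hs isOpen_univ
    (g := g) hg.continuousOn (by
      rintro ⟨p, -, hp⟩
      exact h0 p hp)
  exact ⟨f, continuousOn_univ.mp hf, fun p => hfe (Set.mem_univ p)⟩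

end ModSEP0

open ModSEP0 in
theorem sep0 : StmSEP0 := by
  classical
  intro G U V hG hU hV hUV hGU hGV hUc hVc hΩ
  rintro ⟨g, hgG, hgU, hgV⟩
  obtain ⟨b, hb0, hb1, -⟩ := exists_continuous_zero_one_of_isClosed hΩ.isClosed_compl hG
    (by
      rw [Set.disjoint_left]
      intro x hx hx'
      exact hx (Or.inl (Or.inl hx')))
  have hbc : Continuous (fun z : ℂ => ((b z : ℝ) : ℂ)) := continuous_ofReal.comp b.continuous
  -- points of the frontier of `U`
  have hfr : ∀ a ∈ frontier U, a ∈ G ∨ b a = 0 := by
    intro a ha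
    have ha1 : a ∈ closure U := ha.1
    have ha2 : a ∉ U := by
      have := ha.2
      rwa [hU.interior_eq] at this
    have ha3 : a ∉ V := fun h =>
      (hUV.closure_left hV).le_bot ⟨ha1, h⟩
    by_cases h : a ∈ G
    · exact Or.inl h
    · refine Or.inr (hb0 ?_)
      rintro ((h1 | h1) | h1)
      · exact h h1
      · exact ha2 h1
      · exact ha3 h1
  -- the function to the circle
  set psi : ℂ → ℂ := fun z => if z ∈ U then Complex.exp (-(I * Real.pi * b z)) else
    Complex.exp (I * Real.pi * b z) with hpsi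
  have hpi : Complex.exp (I * Real.pi) = -1 := by
    rw [mul_comm]
    exact Complex.exp_pi_mul_I
  have hpsic : Continuous psi := by
    refine Continuous.if ?_ ?_ ?_
    · intro a ha
      rcases hfr a ha with h | h
      · have h1 : b a = 1 := hb1 h
        rw [h1]
        simp only [ofReal_one, mul_one]
        rw [Complex.exp_neg, hpi]
        norm_num
      · rw [h]
        simp
    · fun_prop
    · fun_prop
  have hpsi0 : ∀ z, psi z ≠ 0 := by
    intro z
    simp only [hpsi]
    split_ifs
    · exact Complex.exp_ne_zero _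
    · exact Complex.exp_ne_zero _
  obtain ⟨f, hf, hfe⟩ := exists_log psi hpsic hpsi0
  -- the integer valued function
  set m : ℂ → ℂ := fun z => if z ∈ U then f z + I * Real.pi * b z else f z - I * Real.pi * b z
    with hm
  have hme : ∀ z, Complex.exp (m z) = 1 := by
    intro z
    simp only [hm]
    split_ifs with h
    · rw [Complex.exp_add, hfe]
      simp only [hpsi, if_pos h]
      rw [← Complex.exp_add, neg_add_cancel, Complex.exp_zero]
    · rw [Complex.exp_sub, hfe]
      simp only [hpsi, if_neg h]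
      exact div_self (Complex.exp_ne_zero _)
  have hmc : ContinuousOn m Gᶜ := by
    refine ContinuousOn.if ?_ ?_ ?_
    · rintro a ⟨ha1, ha2⟩
      rcases hfr a ha2 with h | h
      · exact absurd h ha1
      · rw [h]
        simp
    · exact (hf.add (continuous_const.mul hbc)).continuousOn
    · exact (hf.sub (continuous_const.mul hbc)).continuousOn
  have hn : ∀ z, ∃ n : ℤ, m z = n * (2 * Real.pi * I) := fun z => Complex.exp_eq_one_iff.mp (hme z)
  choose n hn using hn
  have h2 : (2 * Real.pi * I : ℂ) ≠ 0 := Complex.two_pi_I_ne_zero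
  have hnc : ContinuousOn (fun z => ((n z : ℤ) : ℝ)) Gᶜ := by
    have h1 : (fun z => ((n z : ℤ) : ℝ)) = fun z => (m z / (2 * Real.pi * I)).re := by
      funext z
      rw [hn z, mul_div_assoc, div_self h2, mul_one]
      simp
    rw [h1]
    exact Complex.continuous_re.comp_continuousOn (hmc.div_const _)
  obtain ⟨u0, hu0⟩ : U.Nonempty := by
    by_contra h
    rw [Set.not_nonempty_iff_eq_empty] at h
    rw [h, closure_empty] at hgU
    exact hgU
  set A : Set ℂ := {z | z ∈ Gᶜ ∧ n z = n u0} with hA
  set B : Set ℂ := {z | z ∈ Gᶜ ∧ n z ≠ n u0} with hB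
  have hAo : IsOpen A := by
    have h1 : A = Gᶜ ∩ (fun z => ((n z : ℤ) : ℝ)) ⁻¹' Metric.ball ((n u0 : ℤ) : ℝ) 1 := by
      ext z
      constructor
      · rintro ⟨h3, h4⟩
        refine ⟨h3, ?_⟩
        simp [h4]
      · rintro ⟨h3, h4⟩
        refine ⟨h3, ?_⟩
        simp only [mem_preimage, Metric.mem_ball, Real.dist_eq] at h4
        have h5 : |n z - n u0| < 1 := by exact_mod_cast h4
        rw [Int.abs_lt_one_iff] at h5
        omega
    rw [h1]
    exact hnc.isOpen_inter_preimage hG.isOpen_compl Metric.isOpen_ball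
  have hBo : IsOpen B := by
    have h1 : B = Gᶜ ∩ (fun z => ((n z : ℤ) : ℝ)) ⁻¹' {((n u0 : ℤ) : ℝ)}ᶜ := by
      ext z
      simp [hB]
    rw [h1]
    exact hnc.isOpen_inter_preimage hG.isOpen_compl isOpen_compl_singleton
  have hAB : Disjoint A B := by
    rw [Set.disjoint_left]
    rintro z ⟨-, h3⟩ ⟨-, h4⟩
    exact h4 h3
  have hABG : A ∪ B = Gᶜ := by
    ext z
    constructor
    · rintro (h | h)
      · exact h.1
      · exact h.1
    · intro h
      by_cases h3 : n z = n u0
      · exact Or.inl ⟨h, h3⟩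
      · exact Or.inr ⟨h, h3⟩
  have hUG : U ⊆ Gᶜ := fun z hz hz' => hGU.le_bot ⟨hz', hz⟩
  have hVG : V ⊆ Gᶜ := fun z hz hz' => hGV.le_bot ⟨hz', hz⟩
  have hUA : U ⊆ A := hUc.subset_left_of_subset_union hAo hBo hAB (by rw [hABG]; exact hUG)
    ⟨u0, hu0, hUG hu0, rfl⟩
  refine ⟨A, B, hAo, hBo, hAB, hABG, hUA, ?_⟩
  by_contra hVB
  have hVB' : ¬ (V ∩ B).Nonempty := fun h =>
    hVB (hVc.subset_right_of_subset_union hAo hBo hAB (by rw [hABG]; exact hVG) h)
  have hVA : V ⊆ A := by
    intro z hz
    have h3 : z ∈ A ∪ B := by rw [hABG]; exact hVG hz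
    rcases h3 with h3 | h3
    · exact h3
    · exact absurd ⟨z, hz, h3⟩ hVB'
  have hbg : b g = 1 := hb1 hgG
  -- limits at `g`
  have hl1 : f g + I * Real.pi * b g = n u0 * (2 * Real.pi * I) := by
    have hcl : IsClosed {z : ℂ | f z + I * Real.pi * b z = n u0 * (2 * Real.pi * I)} :=
      isClosed_eq (hf.add (continuous_const.mul hbc)) continuous_const
    have hsub : U ⊆ {z : ℂ | f z + I * Real.pi * b z = n u0 * (2 * Real.pi * I)} := by
      intro z hz
      have h3 := hn z
      rw [(hUA hz).2] at h3
      simp only [hm, if_pos hz] at h3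
      exact h3
    exact closure_minimal hsub hcl hgU
  have hl2 : f g - I * Real.pi * b g = n u0 * (2 * Real.pi * I) := by
    have hcl : IsClosed {z : ℂ | f z - I * Real.pi * b z = n u0 * (2 * Real.pi * I)} :=
      isClosed_eq (hf.sub (continuous_const.mul hbc)) continuous_const
    have hsub : V ⊆ {z : ℂ | f z - I * Real.pi * b z = n u0 * (2 * Real.pi * I)} := by
      intro z hz
      have hzU : z ∉ U := fun h => hUV.le_bot ⟨h, hz⟩
      have h3 := hn z
      rw [(hVA hz).2] at h3
      simp only [hm, if_neg hzU] at h3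
      exact h3
    exact closure_minimal hsub hcl hgV
  rw [hbg] at hl1 hl2
  apply h2
  have h3 : f g + I * Real.pi * (1 : ℝ) - (f g - I * Real.pi * (1 : ℝ)) = 0 := by
    rw [hl1, hl2, sub_self]
  rw [← h3]
  push_cast
  ring

end Pool.Agent.T6.H85.LV
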