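import Pool.Agent.T6.H85.LV.Defs

/-!
Project LV (helper85), MP_47dd70_an: the length distance through piecewise `C¹` curves
`γ : [0, 1] → ℝ²`, literally as in the problem file.
-/

set_option autoImplicit false

namespace Pool.Agent.T6.H85.LV

open Complex Filter Topology Set

/-- `γ` is a piecewise `C¹` curve on `[0, 1]` -/
def PwC1 (γ : ℝ → ℂ) : Prop :=
  ContinuousOn γ (Icc 0 1) ∧ ∃ (n : ℕ) (t : ℕ → ℝ), t 0 = 0 ∧ t n = 1 ∧
    (∀ i < n, t i < t (i + 1)) ∧ ∀ i < n, ContDiffOn ℝ 1 γ (Icc (t i) (t (i + 1)))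

/-- the infimum of `∫₀¹ e^{u(γ(t))} |γ'(t)| dt` over the piecewise `C¹` curves `γ` from `x` to
`y` -/
noncomputable def pdist (u : ℂ → ℝ) (x y : ℂ) : ℝ :=
  sInf {L : ℝ | ∃ γ : ℝ → ℂ, PwC1 γ ∧ γ 0 = x ∧ γ 1 = y ∧
    L = ∫ t in (0 : ℝ)..1, Real.exp (u (γ t)) * ‖deriv γ t‖}

def StmEQV : Prop := ∀ u : ℂ → ℝ, Continuous u → ∀ x y : ℂ, pdist u x y = gdist u x y

end Pool.Agent.T6.H85.LV
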