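import Pool.Agent.T6.H85.LV.Stm

/-!
Project LV (helper85), MP_47dd70_an: tools (helper43): local injectivity, uniqueness of branches,
change of centre for a branch on an open set.
-/

set_option autoImplicit false

namespace Pool.Agent.T6.H85.LV.T43

open Complex Filter Topology Set
open scoped ComplexConjugate

/-- a pair of entire functions of Wronskian `1` -/
structure W1 (Z₁ Z₂ : ℂ → ℂ) : Prop where
  d1 : Differentiable ℂ Z₁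
  d2 : Differentiable ℂ Z₂
  wr : ∀ z, Z₁ z * deriv Z₂ z - deriv Z₁ z * Z₂ z = 1

theorem _root_.Pool.Agent.T6.H85.LV.Dev.w1 {u : ℂ → ℝ} {Z₁ Z₂ : ℂ → ℂ} (h : Dev u Z₁ Z₂) :
    W1 Z₁ Z₂ := ⟨h.d1, h.d2, h.wr⟩

theorem W1.swap {Z₁ Z₂ : ℂ → ℂ} (h : W1 Z₁ Z₂) : W1 Z₂ (fun z => -Z₁ z) := by
  refine ⟨h.d2, h.d1.neg, fun z => ?_⟩
  have e : deriv (fun z => -Z₁ z) z = -deriv Z₁ z := deriv.fun_neg
  rw [e]
  have := h.wr z
  linear_combination this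

theorem W1.ne {Z₁ Z₂ : ℂ → ℂ} (h : W1 Z₁ Z₂) (z : ℂ) : Z₁ z ≠ 0 ∨ Z₂ z ≠ 0 := by
  by_contra hc
  push Not at hc
  have := h.wr z
  rw [hc.1, hc.2] at this
  simp at this

/-- the quotient and its strict derivative -/
theorem W1.strict {Z₁ Z₂ : ℂ → ℂ} (h : W1 Z₁ Z₂) {z : ℂ} (hz : Z₁ z ≠ 0) :
    HasStrictDerivAt (fun x => Z₂ x / Z₁ x) (1 / Z₁ z ^ 2) z := by
  have h1 : HasStrictDerivAt Z₁ (deriv Z₁ z) z := (h.d1.analyticAt z).hasStrictDerivAt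
  have h2 : HasStrictDerivAt Z₂ (deriv Z₂ z) z := (h.d2.analyticAt z).hasStrictDerivAt
  have h3 := h2.div h1 hz
  have e : (deriv Z₂ z * Z₁ z - Z₂ z * deriv Z₁ z) / Z₁ z ^ 2 = 1 / Z₁ z ^ 2 := by
    congr 1
    have := h.wr z
    linear_combination this
  rw [e] at h3
  exact h3

theorem W1.inj1 {Z₁ Z₂ : ℂ → ℂ} (h : W1 Z₁ Z₂) {z : ℂ} (hz : Z₁ z ≠ 0) :
    ∃ N ∈ 𝓝 z, ∀ a ∈ N, ∀ b ∈ N, Z₁ a * Z₂ b = Z₂ a * Z₁ b → a = b := by
  have hs := h.strict hz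
  have hne : (1 : ℂ) / Z₁ z ^ 2 ≠ 0 := one_div_ne_zero (pow_ne_zero 2 hz)
  have e1 := hs.eventually_left_inverse hne
  have e2 : ∀ᶠ x in 𝓝 z, Z₁ x ≠ 0 := h.d1.continuous.continuousAt.eventually_ne hz
  refine ⟨_, e1.and e2, fun a ha b hb hab => ?_⟩
  have hF : Z₂ a / Z₁ a = Z₂ b / Z₁ b := by
    rw [div_eq_div_iff ha.2 hb.2]
    linear_combination -hab
  have ha1 := ha.1
  have hb1 := hb.1
  rw [← ha1, ← hb1, hF]

/-- local injectivity of the projective map -/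
theorem W1.inj {Z₁ Z₂ : ℂ → ℂ} (h : W1 Z₁ Z₂) (z : ℂ) :
    ∃ N ∈ 𝓝 z, ∀ a ∈ N, ∀ b ∈ N, Z₁ a * Z₂ b = Z₂ a * Z₁ b → a = b := by
  rcases h.ne z with hz | hz
  · exact h.inj1 hz
  · obtain ⟨N, hN, hi⟩ := h.swap.inj1 hz
    refine ⟨N, hN, fun a ha b hb hab => hi a ha b hb ?_⟩
    linear_combination hab

/-- uniqueness: two continuous functions with the same projective images and one common value -/
theorem W1.uniq {Z₁ Z₂ : ℂ → ℂ} (h : W1 Z₁ Z₂) {X : Type} [TopologicalSpace X] {U : Set X}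
    (hU : IsOpen U) (hc : IsPreconnected U) {k k' : X → ℂ} (hk : ContinuousOn k U)
    (hk' : ContinuousOn k' U) (e : ∀ w ∈ U, Z₁ (k w) * Z₂ (k' w) = Z₂ (k w) * Z₁ (k' w))
    {w₀ : X} (h0 : w₀ ∈ U) (heq : k w₀ = k' w₀) : ∀ w ∈ U, k w = k' w := by
  have hS : IsOpen {w | w ∈ U ∧ k w = k' w} := by
    rw [isOpen_iff_mem_nhds]
    rintro w ⟨hw, hkw⟩
    obtain ⟨N, hN, hi⟩ := h.inj (k w)
    have hUw := hU.mem_nhds hw
    have a1 := (hk.continuousAt hUw).eventually hN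
    have a2 := (hk'.continuousAt hUw).eventually (by rw [← hkw]; exact hN)
    filter_upwards [a1, a2, hUw] with x hx1 hx2 hx3
    exact ⟨hx3, hi _ hx1 _ hx2 (e x hx3)⟩
  have hT : IsOpen {w | w ∈ U ∧ k w ≠ k' w} := by
    rw [isOpen_iff_mem_nhds]
    rintro w ⟨hw, hkw⟩
    have hUw := hU.mem_nhds hw
    have a1 := ((hk.continuousAt hUw).ne_iff_eventually_ne (hk'.continuousAt hUw)).1 hkw
    filter_upwards [a1, hUw] with x hx1 hx3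
    exact ⟨hx3, hx1⟩
  intro w hw
  by_contra hne
  obtain ⟨x, -, hx1, hx2⟩ := hc _ _ hS hT
    (fun y hy => by
      by_cases hy' : k y = k' y
      · exact Or.inl ⟨hy, hy'⟩
      · exact Or.inr ⟨hy, hy'⟩) ⟨w₀, h0, h0, heq⟩ ⟨w, hw, hw, hne⟩
  exact hx2.2 hx1.2

/-- the set of the `ω` with the whole segment `[0, ω]` mapped into `S` by `Ti w'` -/
def Dtr (w' : ℂ) (S : Set ℂ) : Set ℂ :=
  {ω | ∀ t : ℝ, 0 ≤ t → t ≤ 1 → 1 - conj w' * ((t : ℂ) * ω) ≠ 0 ∧ Ti w' ((t : ℂ) * ω) ∈ S}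

theorem Ti_cont (w' : ℂ) : ContinuousOn (Ti w') {ω | 1 - conj w' * ω ≠ 0} := by
  unfold Ti
  refine ContinuousOn.div (by fun_prop) (by fun_prop) fun ω hω => hω

theorem Ti_diff (w' : ℂ) : DifferentiableOn ℂ (Ti w') {ω | 1 - conj w' * ω ≠ 0} := by
  unfold Ti
  refine DifferentiableOn.div (by fun_prop) (by fun_prop) fun ω hω => hω

theorem den_open (w' : ℂ) : IsOpen {ω : ℂ | 1 - conj w' * ω ≠ 0} :=
  isOpen_ne_fun (by fun_prop) (by fun_prop)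

theorem open_T (w' : ℂ) {S : Set ℂ} (hS : IsOpen S) :
    IsOpen {ω | 1 - conj w' * ω ≠ 0 ∧ Ti w' ω ∈ S} :=
  (Ti_cont w').isOpen_inter_preimage (den_open w') hS

theorem Dtr_open (w' : ℂ) {S : Set ℂ} (hS : IsOpen S) : IsOpen (Dtr w' S) := by
  rw [isOpen_iff_eventually]
  intro ω hω
  have key : ∀ t ∈ Icc (0 : ℝ) 1, ∀ᶠ z : ℂ × ℝ in 𝓝 (ω, t),
      1 - conj w' * ((z.2 : ℂ) * z.1) ≠ 0 ∧ Ti w' ((z.2 : ℂ) * z.1) ∈ S := by
    intro t ht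
    have hc : Continuous fun z : ℂ × ℝ => (z.2 : ℂ) * z.1 := by fun_prop
    exact (hc.continuousAt (x := (ω, t))).eventually ((open_T w' hS).mem_nhds (hω t ht.1 ht.2))
  have := isCompact_Icc.eventually_forall_of_forall_eventually (x₀ := ω)
    (P := fun (ω : ℂ) (t : ℝ) => 1 - conj w' * ((t : ℂ) * ω) ≠ 0 ∧ Ti w' ((t : ℂ) * ω) ∈ S) key
  filter_upwards [this] with ω' hω' t h0 h1
  exact hω' t ⟨h0, h1⟩

theorem Dtr_self {w' ω : ℂ} {S : Set ℂ} (h : ω ∈ Dtr w' S) :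
    1 - conj w' * ω ≠ 0 ∧ Ti w' ω ∈ S := by
  have := h 1 zero_le_one le_rfl
  simpa using this

theorem Dtr_star (w' : ℂ) {S : Set ℂ} (hS : IsOpen S) (hw : w' ∈ S) : StarSet (Dtr w' S) := by
  refine ⟨Dtr_open w' hS, ?_, ?_⟩
  · intro t _ _
    have e : Ti w' ((t : ℂ) * 0) = w' := by simp [Ti]
    rw [e]
    exact ⟨by simp, hw⟩
  · intro ω hω t h0 h1 t' h0' h1'
    have := hω (t' * t) (mul_nonneg h0' h0) (mul_le_one₀ h1' h0 h1)
    rw [ofReal_mul, mul_assoc] at this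
    exact this

theorem rot_eq {w' ω a b : ℂ} (hd : 1 - conj w' * ω ≠ 0) (h : b = Ti w' ω * a) :
    -(ub w') * a + ua w' * b = ω * (conj (ua w') * a + conj (ub w') * b) := by
  have hs : ∀ x : ℝ, conj ((x : ℝ) : ℂ) = (x : ℂ) := fun x => Complex.conj_ofReal x
  simp only [ua, ub, map_mul, hs, h, Ti]
  generalize ((1 / √(1 + ‖w'‖ ^ 2) : ℝ) : ℂ) = s
  have hd' : 1 - ω * conj w' ≠ 0 := by rwa [mul_comm] at hd
  field_simp
  ring

/-- change of centre for a branch on an open set -/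
theorem branch_trans (y₁ y₂ : ℂ → ℂ) {S : Set ℂ} (hS : IsOpen S) {g : ℂ → ℂ}
    (hg : DifferentiableOn ℂ g S) (hy : ∀ w ∈ S, y₂ (g w) = w * y₁ (g w)) {w' : ℂ} (hw : w' ∈ S) :
    Branch (ro1 (ua w') (ub w') y₁ y₂) (ro2 (ua w') (ub w') y₁ y₂) (g w') (Dtr w' S)
      (fun ω => g (Ti w' ω)) := by
  refine ⟨Dtr_star w' hS hw, ?_, ?_, ?_⟩
  · refine hg.comp ((Ti_diff w').mono ?_) ?_
    · intro ω hω; exact (Dtr_self hω).1
    · intro ω hω; exact (Dtr_self hω).2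
  · simp [Ti]
  · intro ω hω
    obtain ⟨h1, h2⟩ := Dtr_self hω
    exact rot_eq h1 (hy _ h2)

end Pool.Agent.T6.H85.LV.T43
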